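import Pool.Agent.Lib.DA.E1

/-!
# Module CS.AlgU: unramified extensions of domains are algebraic
-/

open Polynomial

namespace CS

/-- Proof.  As in `DA.exists_etale` (Pool/Agent/Lib/DA/E1.lean): `Algebra.IsUnramifiedAt.exists_hasStandardEtaleSurjectionOn`
gives `b ∉ q` and a surjection from a standard etale algebra `(P[X] / f)_g`, `f` monic, onto `B[1/b]`. Let `x` be the image
of `X`: a root of the monic polynomial `f`, so integral over `P`; every element `y` of `B[1/b]` satisfies
`y * g(x) ^ m = p(x)` with a polynomial `p` over `P` (`StandardEtalePair.exists_mul_aeval_x_g_pow_eq_aeval_x`), `g(x)` a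
unit; so `y` is algebraic over `P` (in the fraction field of the domain `B[1/b]` the elements algebraic over `P` form a
field). `B → B[1/b]` is injective, so the elements of `B` are algebraic over `P`. -/
theorem isAlgebraic_of_unramifiedAt {P B : Type*} [CommRing P] [IsDomain P] [CommRing B]
    [IsDomain B] [Algebra P B] [FaithfulSMul P B] [Algebra.FiniteType P B] (q : Ideal B)
    [q.IsPrime] (h : Algebra.IsUnramifiedAt P q) : Algebra.IsAlgebraic P B := by
  obtain ⟨b, hb, P₀, φ, hφ⟩ :=
    Algebra.IsUnramifiedAt.exists_hasStandardEtaleSurjectionOn (R := P) q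
  have hb0 : b ≠ 0 := fun h0 => hb (h0 ▸ q.zero_mem)
  have hle : Submonoid.powers b ≤ nonZeroDivisors B :=
    powers_le_nonZeroDivisors_of_noZeroDivisors hb0
  have hdom : IsDomain (Localization.Away b) := IsLocalization.isDomain_localization hle
  have hinjB : Function.Injective (algebraMap B (Localization.Away b)) :=
    IsLocalization.injective (Localization.Away b) hle
  set F := FractionRing (Localization.Away b) with hF
  let x : Localization.Away b := φ P₀.X
  have hx : P₀.HasMap x := StandardEtalePair.hasMap_X.map φ
  have hint : IsIntegral P x := ⟨P₀.f, P₀.monic_f, hx.1⟩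
  have hinjP : Function.Injective (algebraMap P (Localization.Away b)) := by
    rw [IsScalarTower.algebraMap_eq P B (Localization.Away b)]
    exact hinjB.comp (FaithfulSMul.algebraMap_injective P B)
  have hnt : Nontrivial P := inferInstance
  have hfs : FaithfulSMul P (Localization.Away b) :=
    (faithfulSMul_iff_algebraMap_injective P (Localization.Away b)).2 hinjP
  have hinjF : Function.Injective (algebraMap (Localization.Away b) F) :=
    IsFractionRing.injective _ _
  have halgx : IsAlgebraic P (algebraMap (Localization.Away b) F x) :=
    hint.isAlgebraic.algebraMap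
  have hpol : ∀ p : P[X], IsAlgebraic P (algebraMap (Localization.Away b) F (aeval x p)) := by
    intro p
    rw [← aeval_algebraMap_apply]
    have h1 : aeval (algebraMap (Localization.Away b) F x) p ∈
        Subalgebra.algebraicClosure P F := by
      have h2 : Algebra.adjoin P {algebraMap (Localization.Away b) F x} ≤
          Subalgebra.algebraicClosure P F :=
        Algebra.adjoin_le (Set.singleton_subset_iff.2 halgx)
      exact h2 (aeval_mem_adjoin_singleton P _)
    exact h1
  have hall : ∀ t : Localization.Away b, IsAlgebraic P (algebraMap (Localization.Away b) F t) := by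
    intro t
    obtain ⟨y, rfl⟩ := hφ t
    let Q : StandardEtalePresentation P P₀.Ring :=
      ⟨P₀, P₀.X, StandardEtalePair.hasMap_X, by
        rw [StandardEtalePair.lift_X_left]
        exact Function.bijective_id⟩
    obtain ⟨p, m, hp⟩ := Q.exists_mul_aeval_x_g_pow_eq_aeval_x y
    change y * aeval P₀.X P₀.g ^ m = aeval P₀.X p at hp
    have h1 : φ y * aeval x P₀.g ^ m = aeval x p := by
      have h2 := congrArg φ hp
      rw [map_mul, map_pow, ← aeval_algHom_apply, ← aeval_algHom_apply] at h2
      exact h2
    have h3 := congrArg (algebraMap (Localization.Away b) F) h1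
    rw [map_mul, map_pow] at h3
    have h4 : algebraMap (Localization.Away b) F (aeval x P₀.g) ≠ 0 := by
      have h5 : IsUnit (aeval x P₀.g) := hx.2
      exact (h5.map (algebraMap (Localization.Away b) F)).ne_zero
    have h6 : algebraMap (Localization.Away b) F (φ y) =
        algebraMap (Localization.Away b) F (aeval x p) *
          ((algebraMap (Localization.Away b) F (aeval x P₀.g)) ^ m)⁻¹ := by
      rw [← h3, mul_assoc, mul_inv_cancel₀ (pow_ne_zero _ h4), mul_one]
    rw [h6]
    exact (hpol p).mul ((hpol P₀.g).pow m).inv
  refine ⟨fun y => ?_⟩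
  have h1 := hall (algebraMap B (Localization.Away b) y)
  have h2 : IsAlgebraic P (algebraMap B (Localization.Away b) y) :=
    (isAlgebraic_algebraMap_iff hinjF).1 h1
  exact (isAlgebraic_algebraMap_iff hinjB).1 h2

end CS
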