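import Pool.Agent.Lib.CS.ResDiv

/-!
# Module CS.BGSP: the ideal of the elements of norm `< 1` of the model
-/

open Polynomial MP1a953e IsLocalRing

namespace CS
set_option linter.unusedSectionVars false
open DA (EU evH IntH)
open Pool.Agent.Lib.MP_3029eb_ag Pool.Agent.Lib.MP_3029eb_ag.Abh

section
variable {k : Type} {L : Type} [NormedField k] [IsUltrametricDist k] [NormedField L]
  [IsUltrametricDist L] [NormedAlgebra k L]

/-- the subring of the polynomials with coefficients of norm `≤ 1` -/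
private def bgI (k : Type) [NormedField k] [IsUltrametricDist k] (m : ℕ) :
    Subring (MvPolynomial (Fin m) k) where
  carrier := {P | ∀ s, ‖P.coeff s‖ ≤ 1}
  mul_mem' := by
    intro a b ha hb s
    rw [MvPolynomial.coeff_mul]
    refine IsUltrametricDist.norm_sum_le_of_forall_le_of_nonneg zero_le_one fun i _ => ?_
    rw [norm_mul]
    exact mul_le_one₀ (ha _) (norm_nonneg _) (hb _)
  one_mem' := by
    intro s
    rw [MvPolynomial.coeff_one]
    split_ifs
    · rw [norm_one]
    · rw [norm_zero]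
      exact zero_le_one
  add_mem' := by
    intro a b ha hb s
    rw [MvPolynomial.coeff_add]
    exact (IsUltrametricDist.norm_add_le_max _ _).trans (max_le (ha s) (hb s))
  zero_mem' := by
    intro s
    rw [MvPolynomial.coeff_zero, norm_zero]
    exact zero_le_one
  neg_mem' := by
    intro a ha s
    rw [MvPolynomial.coeff_neg, norm_neg]
    exact ha s

private theorem bg_mul {m : ℕ} {Q Q' : Polynomial (MvPolynomial (Fin m) k)} (h : IntH Q)
    (h' : IntH Q') : IntH (Q * Q') := by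
  intro i
  have h1 : (Q * Q').coeff i ∈ bgI k m := by
    rw [Polynomial.coeff_mul]
    exact Subring.sum_mem _ fun p _ => Subring.mul_mem _ (h p.1) (h' p.2)
  exact h1

private theorem bg_add {m : ℕ} {Q Q' : Polynomial (MvPolynomial (Fin m) k)} (h : IntH Q)
    (h' : IntH Q') : IntH (Q + Q') := by
  intro i
  have h1 : (Q + Q').coeff i ∈ bgI k m := by
    rw [Polynomial.coeff_add]
    exact Subring.add_mem _ (h i) (h' i)
  exact h1

private theorem bg_C {m : ℕ} {P : MvPolynomial (Fin m) k} (h : P ∈ bgI k m) :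
    IntH (C P) := by
  intro i
  have h1 : (C P : Polynomial (MvPolynomial (Fin m) k)).coeff i ∈ bgI k m := by
    rw [Polynomial.coeff_C]
    split_ifs
    · exact h
    · exact Subring.zero_mem _
  exact h1

private theorem bg_X {m : ℕ} : IntH (X : Polynomial (MvPolynomial (Fin m) k)) := by
  intro i
  have h1 : (X : Polynomial (MvPolynomial (Fin m) k)).coeff i ∈ bgI k m := by
    rw [Polynomial.coeff_X]
    split_ifs
    · exact Subring.one_mem _
    · exact Subring.zero_mem _
  exact h1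

/-- the evaluation as a ring homomorphism -/
private noncomputable def bgE {m : ℕ} (u : Fin m → L) (α : L) :
    Polynomial (MvPolynomial (Fin m) k) →+* L :=
  (Polynomial.evalRingHom α).comp (Polynomial.mapRingHom
    (MvPolynomial.aeval u : MvPolynomial (Fin m) k →ₐ[k] L).toRingHom)

private theorem bgE_eq {m : ℕ} (u : Fin m → L) (α : L) (Q : Polynomial (MvPolynomial (Fin m) k)) :
    evH u α Q = bgE u α Q := rfl

private theorem bgE_C {m : ℕ} (u : Fin m → L) (α : L) (P : MvPolynomial (Fin m) k) :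
    bgE u α (C P) = MvPolynomial.aeval u P := by
  show ((C P : Polynomial (MvPolynomial (Fin m) k)).map
    (MvPolynomial.aeval u : MvPolynomial (Fin m) k →ₐ[k] L).toRingHom).eval α = _
  rw [Polynomial.map_C, Polynomial.eval_C]
  rfl

private theorem bgE_X {m : ℕ} (u : Fin m → L) (α : L) :
    bgE (k := k) u α X = α := by
  show ((X : Polynomial (MvPolynomial (Fin m) k)).map
    (MvPolynomial.aeval u : MvPolynomial (Fin m) k →ₐ[k] L).toRingHom).eval α = _
  rw [Polynomial.map_X, Polynomial.eval_X]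

private theorem bg_sub {r m : ℕ} {e : Fin r → L} {c : Fin r → k} {π : k} {u : Fin m → L}
    {α : L} {x : L} (hx : x ∈ Set.range (DA.tor k e c π) ∪ (Set.range u ∪ {α})) :
    x ∈ DA.BG k e c π (Set.range u ∪ {α}) := Algebra.subset_adjoin hx

/-- values of integral polynomials in `(u, α)` are in the model -/
private theorem bg_aeval_mem {r m : ℕ} {e : Fin r → L} {c : Fin r → k} {π : k} {u : Fin m → L}
    {α : L} {P : MvPolynomial (Fin m) k} (hP : ∀ s, ‖P.coeff s‖ ≤ 1) :
    MvPolynomial.aeval u P ∈ DA.BG k e c π (Set.range u ∪ {α}) := by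
  rw [MvPolynomial.aeval_def, MvPolynomial.eval₂_eq]
  refine Subalgebra.sum_mem _ fun s _ => Subalgebra.mul_mem _ ?_ ?_
  · exact (DA.BG k e c π (Set.range u ∪ {α})).algebraMap_mem ⟨P.coeff s, mem_O.2 (hP s)⟩
  · exact Subalgebra.prod_mem _ fun i _ => Subalgebra.pow_mem _
      (bg_sub (Or.inr (Or.inl ⟨i, rfl⟩))) _

private theorem bg_evH_mem {r m : ℕ} {e : Fin r → L} {c : Fin r → k} {π : k} {u : Fin m → L}
    {α : L} {Q : Polynomial (MvPolynomial (Fin m) k)} (hQ : IntH Q) :
    evH u α Q ∈ DA.BG k e c π (Set.range u ∪ {α}) := by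
  unfold DA.evH
  rw [Polynomial.eval_map, Polynomial.eval₂_eq_sum_range]
  refine Subalgebra.sum_mem _ fun i _ => Subalgebra.mul_mem _ ?_ ?_
  · exact bg_aeval_mem (hQ i)
  · exact Subalgebra.pow_mem _ (bg_sub (Or.inr (Or.inr rfl))) _

/-- Every element of the model is a polynomial in `u`, `α` plus an element of the submodule generated by the toric
coordinates.  Proof.  `Algebra.adjoin_induction` for `BG k e c π (range u ∪ {α})`: `Q = 0` for a toric coordinate (it is in
`SP`), `Q = C (X i)` for `u i`, `Q = X` for `α`, `C (C a)` for constants; sums; products: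
`(evH Q + t) * (evH Q' + t') = evH (Q * Q') + (t * (evH Q' + t') + evH Q * t')`, where the second summand is in
`SP k B (range tor)` because `evH Q` and `evH Q' + t'` (the given element) are in `B` (`SP_mul`, `SP_mul'`). `IntH` is closed under sums and
products (ultrametric inequality; compare lemmas on `IntH` in Pool/Agent/Lib/DA). -/
theorem mem_BG_dec {r m : ℕ} {e : Fin r → L} {c : Fin r → k} {π : k} {u : Fin m → L} {α : L}
    {B : Subring L} (hB : ∀ x ∈ DA.BG k e c π (Set.range u ∪ {α}), x ∈ B)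
    {x : L} (hx : x ∈ DA.BG k e c π (Set.range u ∪ {α})) :
    ∃ Q : Polynomial (MvPolynomial (Fin m) k), IntH Q ∧
      ∃ t ∈ SP k B (Set.range (DA.tor k e c π)), x = evH u α Q + t := by
  have h0 : ∀ P : MvPolynomial (Fin m) k, P = 0 → P ∈ bgI k m := by
    rintro _ rfl
    exact Subring.zero_mem _
  unfold DA.BG at hx
  induction hx using Algebra.adjoin_induction with
  | mem x hx =>
    rcases hx with hx | ⟨i, rfl⟩ | hx
    · refine ⟨0, ?_, x, SP_of_mem hx, ?_⟩
      · have := bg_C (h0 0 rfl)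
        rwa [C_0] at this
      · rw [bgE_eq, map_zero, zero_add]
    · refine ⟨C (MvPolynomial.X i), bg_C ?_, 0, zero_mem _, ?_⟩
      · intro s
        rw [MvPolynomial.coeff_X]
        split_ifs
        · rw [norm_one]
        · rw [norm_zero]
          exact zero_le_one
      · rw [bgE_eq, bgE_C, MvPolynomial.aeval_X, add_zero]
    · refine ⟨X, bg_X, 0, zero_mem _, ?_⟩
      rw [bgE_eq, bgE_X, add_zero]
      exact hx
  | algebraMap a =>
    refine ⟨C (MvPolynomial.C (a : k)), bg_C ?_, 0, zero_mem _, ?_⟩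
    · intro s
      rw [MvPolynomial.coeff_C]
      split_ifs
      · exact mem_O.1 a.2
      · rw [norm_zero]
        exact zero_le_one
    · rw [bgE_eq, bgE_C, MvPolynomial.aeval_C, add_zero]
      rfl
  | add x y hx hy h1 h2 =>
    obtain ⟨Q, hQ, t, ht, rfl⟩ := h1
    obtain ⟨Q', hQ', t', ht', rfl⟩ := h2
    refine ⟨Q + Q', bg_add hQ hQ', t + t', add_mem ht ht', ?_⟩
    simp only [bgE_eq, map_add]
    ring
  | mul x y hx hy h1 h2 =>
    obtain ⟨Q, hQ, t, ht, rfl⟩ := h1
    obtain ⟨Q', hQ', t', ht', rfl⟩ := h2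
    refine ⟨Q * Q', bg_mul hQ hQ', t * (evH u α Q' + t') + evH u α Q * t',
      add_mem (SP_mul' (hB _ hy) ht) (SP_mul (hB _ (bg_evH_mem hQ)) ht'), ?_⟩
    simp only [bgE_eq, map_mul]
    ring

/-- Proof.  `mem_BG_dec`: `x = evH u α Q + t`; `‖t‖ < 1` (`SP_val` for `ball L`, with `ball_val_lt_one`, `hlt`, `hB1`), so
`‖evH u α Q‖ < 1`. By `hH` there are `s, Q₁, R, κ` with `C s * Q = H * Q₁ + C (C κ) * R`. Apply `evH u α` (a ring
homomorphism of `Polynomial (MvPolynomial (Fin m) k)`):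
`aeval u s * evH Q = evH H * evH Q₁ + κ * evH R`. So `aeval u s * x` is in
`SP k B (range tor ∪ {evH u α H})` (`evH Q₁`, `evH R`, `aeval u s` are in the model, hence in `B`; `SP_const`). -/
theorem mul_mem_SP {r m : ℕ} {e : Fin r → L} {c : Fin r → k} {π : k} {u : Fin m → L} {α : L}
    {B : Subring L} (hB : ∀ x ∈ DA.BG k e c π (Set.range u ∪ {α}), x ∈ B)
    (hB1 : ∀ x ∈ B, ‖x‖ ≤ 1) (hlt : ∀ i, ‖DA.tor k e c π i‖ < 1)
    {H : Polynomial (MvPolynomial (Fin m) k)} (hH0 : IntH H)
    (hH : ∀ Q : Polynomial (MvPolynomial (Fin m) k), IntH Q → ‖evH u α Q‖ < 1 →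
      ∃ (s : MvPolynomial (Fin m) k) (Q₁ R : Polynomial (MvPolynomial (Fin m) k)) (κ : k),
        (∀ t, ‖s.coeff t‖ ≤ 1) ∧ ‖MvPolynomial.aeval u s‖ = 1 ∧ IntH Q₁ ∧ IntH R ∧ ‖κ‖ < 1 ∧
        C s * Q = H * Q₁ + C (MvPolynomial.C κ) * R)
    {x : L} (hx : x ∈ DA.BG k e c π (Set.range u ∪ {α})) (hx1 : ‖x‖ < 1) :
    ∃ s ∈ DA.BG k e c π (Set.range u ∪ {α}), ‖s‖ = 1 ∧
      s * x ∈ SP k B (Set.range (DA.tor k e c π) ∪ {evH u α H}) := by
  obtain ⟨Q, hQ, t, ht, rfl⟩ := mem_BG_dec hB hx
  have ht1 : ‖t‖ < 1 := by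
    rw [← ball_val_lt_one]
    refine SP_val (OvR.ball (k := k)) (fun z hz => (mem_ball z).2 (hB1 z hz)) ?_ ht
    rintro _ ⟨i, rfl⟩
    exact (ball_val_lt_one _).2 (hlt i)
  have hQ1 : ‖evH u α Q‖ < 1 := by
    have h1 : evH u α Q = (evH u α Q + t) - t := by ring
    rw [h1]
    rw [sub_eq_add_neg]
    refine (IsUltrametricDist.norm_add_le_max _ _).trans_lt (max_lt hx1 ?_)
    rwa [norm_neg]
  obtain ⟨s, Q₁, R, κ, hs, hs1, hQ₁, hR, hκ, heq⟩ := hH Q hQ hQ1
  refine ⟨MvPolynomial.aeval u s, bg_aeval_mem hs, hs1, ?_⟩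
  have h2 : MvPolynomial.aeval u s * evH u α Q =
      evH u α Q₁ * evH u α H + evH u α R * algebraMap k L κ := by
    have h3 := congrArg (bgE u α) heq
    rw [map_mul, map_add, map_mul, map_mul, bgE_C, bgE_C, MvPolynomial.aeval_C] at h3
    rw [bgE_eq, bgE_eq, bgE_eq, bgE_eq, h3]
    ring
  rw [mul_add, h2]
  refine add_mem (add_mem ?_ ?_) ?_
  · exact SP_mul (hB _ (bg_evH_mem hQ₁)) (SP_of_mem (Or.inr rfl))
  · exact SP_mul (hB _ (bg_evH_mem hR)) (SP_const hκ)
  · exact SP_mul (hB _ (bg_aeval_mem hs)) (SP_mono le_rfl Set.subset_union_left ht)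

end

end CS
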