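import Pool.Agent.Lib.CS.BGSP

/-!
# Module CS.Base1: parameters at points of transcendence defect one
-/

open Polynomial MP1a953e IsLocalRing

namespace CS
open Pool.Agent.Lib.MP_3029eb_ag Pool.Agent.Lib.MP_3029eb_ag.Abh

section
variable {k : Type} {L : Type} [NontriviallyNormedField k] [IsUltrametricDist k]
  [NormedField L] [IsUltrametricDist L] [NormedAlgebra k L]

/-- The toric coordinates are monomials.  Proof.  `tor 0 = mon e (fun _ => -1) (π * ∏ i, c i)`,
`tor (i + 1) = mon e (Pi.single i 1) (c i)⁻¹` (see the proof of `norm_rescale_le` in Pool/Agent/Lib/DA/S3.lean). -/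
theorem exists_tor_mon {r : ℕ} (e : Fin r → L) (c : Fin r → k) (π : k) :
    ∃ X : Finset ((Fin r → ℤ) × k), monS k e X = Set.range (DA.tor k e c π) := by
  classical
  have hm : ∀ i, ∃ t : (Fin r → ℤ) × k, DA.tor k e c π i = DA.mon k e t.1 t.2 := by
    intro i
    refine Fin.cases ?_ (fun j => ?_) i
    · refine ⟨(fun _ => -1, π * ∏ i, c i), ?_⟩
      simp only [DA.tor, Fin.cons_zero]
      rw [mon_def, Finset.prod_div_distrib, map_mul, map_prod]
      simp only [zpow_neg_one, Finset.prod_inv_distrib]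
      rw [mul_assoc, div_eq_mul_inv]
    · refine ⟨(Pi.single j 1, (c j)⁻¹), ?_⟩
      simp only [DA.tor, Fin.cons_succ]
      rw [mon_def, Finset.prod_eq_single j]
      · rw [Pi.single_eq_same, zpow_one, map_inv₀, div_eq_mul_inv, mul_comm]
      · intro i _ hi
        rw [Pi.single_eq_of_ne hi, zpow_zero]
      · intro h
        exact absurd (Finset.mem_univ j) h
  choose t ht using hm
  refine ⟨Finset.univ.image t, ?_⟩
  ext x
  constructor
  · rintro ⟨s, hs, rfl⟩
    obtain ⟨i, -, rfl⟩ := Finset.mem_image.1 hs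
    exact ⟨i, ht i⟩
  · rintro ⟨i, rfl⟩
    exact ⟨t i, Finset.mem_image.2 ⟨i, Finset.mem_univ i, rfl⟩, ht i⟩

private theorem evH_mem {r m : ℕ} (e : Fin r → L) (c : Fin r → k) (π : k) (u : Fin m → L)
    (α : L) {H : Polynomial (MvPolynomial (Fin m) k)} (hH : DA.IntH H) :
    DA.evH u α H ∈ DA.Pt k e c π u α := by
  have hu : ∀ i, u i ∈ DA.Pt k e c π u α := fun i =>
    Algebra.subset_adjoin (Or.inr (Or.inl ⟨i, rfl⟩))
  have hα : α ∈ DA.Pt k e c π u α := Algebra.subset_adjoin (Or.inr (Or.inr rfl))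
  unfold DA.evH
  rw [Polynomial.eval_map, Polynomial.eval₂_eq_sum_range]
  refine Subalgebra.sum_mem _ fun i _ => mul_mem ?_ (pow_mem hα _)
  have h1 : ((MvPolynomial.aeval u : MvPolynomial (Fin m) k →ₐ[k] L).toRingHom) (H.coeff i) =
      MvPolynomial.aeval u (H.coeff i) := rfl
  rw [h1, MvPolynomial.aeval_def, MvPolynomial.eval₂_eq]
  refine Subalgebra.sum_mem _ fun s _ => mul_mem ?_ (Subalgebra.prod_mem _ fun j _ =>
    pow_mem (hu j) _)
  exact (DA.Pt k e c π u α).algebraMap_mem (⟨(H.coeff i).coeff s, mem_O.2 (hH i s)⟩ : O k)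

private theorem adjoin_le_closure (G : Set L) {x : L} (hx : x ∈ Algebra.adjoin (O k) G) :
    x ∈ Subring.closure ((cS k L : Set L) ∪ G) := by
  induction hx using Algebra.adjoin_induction with
  | mem x hx => exact Subring.subset_closure (Or.inr hx)
  | algebraMap c =>
    exact Subring.subset_closure (Or.inl (mem_cS.2 ⟨(c : k), mem_O.1 c.2, rfl⟩))
  | add x y _ _ hx hy => exact add_mem hx hy
  | mul x y _ _ hx hy => exact mul_mem hx hy

private theorem closure_le_adjoin (G : Set L) {x : L}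
    (hx : x ∈ Subring.closure ((cS k L : Set L) ∪ G)) : x ∈ Algebra.adjoin (O k) G := by
  have h1 : Subring.closure ((cS k L : Set L) ∪ G) ≤ (Algebra.adjoin (O k) G).toSubring := by
    rw [Subring.closure_le]
    rintro z (hz | hz)
    · obtain ⟨c, hc, rfl⟩ := mem_cS.1 hz
      exact (Algebra.adjoin (O k) G).algebraMap_mem (⟨c, mem_O.2 hc⟩ : O k)
    · exact Algebra.subset_adjoin hz
  exact h1 hx

/-- Proof.  Let `A, S` be given. `h` gives `e, c, π, u, α, B` with `DA.Cht k e c π u α B` etc. Let `G` be a finite set of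
generators of `B` over `O k` (`Cht.fg`), and `B' = RG k (ball L) G`: `closure (cS ∪ G)` consists of the elements of `B`, and
`x ∈ B'` iff `x = a / b` with `a, b ∈ B`, `‖b‖ = 1`. `H` from `exists_res_div` for `u, α` (`α ∈ B`, so `‖α‖ ≤ 1`), and
`w = fun _ => evH u α H`. `BPar`: `ne`, `ind` from `Cht.eu`; `wmem`: `evH u α H ∈ Pt k e c π u α ≤ B`;
`gen`: `X` from `exists_tor_mon` (`‖tor i‖ < 1` by `Cht.t_lt`); if `x = a / b ∈ B'`, `‖x‖ < 1`, then `‖a‖ < 1`, by
`Cht.unr` `s * a = ∑ x i * y i`, `x i ∈ Pt k e c π u α = BG k e c π (range u ∪ {α})` of norm `< 1`, `y i ∈ B`, `s ∈ B` of norm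
one; by `mul_mem_SP` (for the ring `B'`) `s i * x i ∈ SP k B' (...)` with `s i` of norm one, invertible in `B'` (`RG_inv`), so `x i`, `s * a`, `a` and
`x` are in `SP k B' (...)`. `Dn` for `t ∈ G`: third conjunct of `h` (`MUnit k e B d` gives `MU k (ball L) B' e d`: `a / b ∈ B'`
of norm one). `Dn` for `e i = c i * tor (i + 1)`, `tor (i + 1) ∈ B` (`Dn.mul`, `Dn.of_mem`, third conjunct).
`x ∈ S`: second conjunct; `Loc k B x` means `x ∈ B'`. -/
theorem sbase_of_chts {r m : ℕ} (h : DA.Chts k L r m) (hRD : RDep k L m) : SBase k L r 1 := by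
  classical
  intro A hA S hS
  obtain ⟨e, c, π, u, α, B, hC, hSB, hD⟩ := h A hA S hS
  obtain ⟨G, hG⟩ := hC.fg
  have huP : ∀ i, u i ∈ DA.Pt k e c π u α := fun i =>
    Algebra.subset_adjoin (Or.inr (Or.inl ⟨i, rfl⟩))
  have hαP : α ∈ DA.Pt k e c π u α := Algebra.subset_adjoin (Or.inr (Or.inr rfl))
  obtain ⟨H, hH1, hH2, hH3⟩ := exists_res_div hC.eu (hC.norm_le α (hC.le hαP)) hRD
  have hOv : OvR k (ball L) := OvR.ball
  -- the local ring
  have hBc : ∀ x ∈ B, x ∈ Subring.closure ((cS k L : Set L) ∪ (G : Set L)) := fun x hx =>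
    adjoin_le_closure _ (by rw [hG]; exact hx)
  have hcB : ∀ x ∈ Subring.closure ((cS k L : Set L) ∪ (G : Set L)), x ∈ B := fun x hx => by
    rw [← hG]
    exact closure_le_adjoin _ hx
  have hBR : ∀ x ∈ B, x ∈ RG k (ball L) (G : Set L) := fun x hx =>
    closure_le_RG _ (hBc x hx)
  have hR : ∀ x ∈ RG k (ball L) (G : Set L), ∃ a ∈ B, ∃ b ∈ B, ‖b‖ = 1 ∧ x = a / b := by
    rintro x ⟨a, ha, b, hb, hb1, hab⟩
    refine ⟨a, hcB a ha, b, hcB b hb, (ball_val_eq_one b).1 hb1, ?_⟩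
    rw [eq_div_iff (ne_zero_of_val hb1)]
    exact hab
  have hinv : ∀ b ∈ B, ‖b‖ = 1 → b⁻¹ ∈ RG k (ball L) (G : Set L) := fun b hb hb1 =>
    RG_inv (hBR b hb) ((ball_val_eq_one b).2 hb1)
  have hdiv : ∀ a ∈ B, ∀ b ∈ B, ‖b‖ = 1 → a / b ∈ RG k (ball L) (G : Set L) :=
    fun a ha b hb hb1 => by
      rw [div_eq_mul_inv]
      exact mul_mem (hBR a ha) (hinv b hb hb1)
  have hMU : ∀ x : L, DA.MUnit k e B x → MU k (ball L) (RG k (ball L) (G : Set L)) e x := by
    rintro x ⟨z, c', hc', a, ha, b, hb, ha1, hb1, rfl⟩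
    exact ⟨z, c', hc', a / b, hdiv a ha b hb hb1,
      (ball_val_eq_one _).2 (by rw [norm_div, ha1, hb1, div_one]), rfl⟩
  have hDn : ∀ b ∈ B, Dn k (ball L) A (RG k (ball L) (G : Set L)) e b := by
    intro b hb
    obtain ⟨n, hn, d, hd, hdm, hbd⟩ := hD b hb
    exact ⟨n, hn, d, hd, hMU d hdm, hbd⟩
  have hRn : ∀ x ∈ RG k (ball L) (G : Set L), ‖x‖ ≤ 1 := by
    intro x hx
    obtain ⟨a, ha, b, hb, hb1, rfl⟩ := hR x hx
    rw [norm_div, hb1, div_one]
    exact hC.norm_le a ha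
  have hGB : ∀ t ∈ G, t ∈ B := fun t ht => by
    rw [← hG]
    exact Algebra.subset_adjoin ht
  have hwP : DA.evH u α H ∈ B := hC.le (evH_mem e c π u α hH1)
  obtain ⟨X, hX⟩ := exists_tor_mon e c π
  refine ⟨e, fun _ => DA.evH u α H, G, fun t ht => hC.norm_le t (hGB t ht), ?_, ?_, ?_,
    fun t ht => hDn t (hGB t ht)⟩
  · refine ⟨hC.eu.ne, hC.eu.ind, fun _ => hBR _ hwP, fun _ => hH2, X, ?_, ?_⟩
    · rw [hX]
      rintro x ⟨i, rfl⟩
      exact hC.t_lt i
    · intro x hx hx1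
      rw [hX]
      have hrange : (Set.range fun _ : Fin 1 => DA.evH u α H) = {DA.evH u α H} :=
        Set.range_const
      rw [hrange]
      obtain ⟨a, ha, b, hb, hb1, rfl⟩ := hR x hx
      have ha1 : ‖a‖ < 1 := by rwa [norm_div, hb1, div_one] at hx1
      obtain ⟨s, hs, hs1, N, x, y, hxy, hsum⟩ := hC.unr a ha ha1
      have hxi : ∀ i, x i ∈ SP k (RG k (ball L) (G : Set L))
          (Set.range (DA.tor k e c π) ∪ {DA.evH u α H}) := by
        intro i
        obtain ⟨t, ht, ht1, htx⟩ := mul_mem_SP (B := RG k (ball L) (G : Set L))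
          (fun z hz => hBR z (hC.le hz)) hRn hC.t_lt hH1 hH3 (hxy i).1 (hxy i).2.1
        have h2 : x i = t⁻¹ * (t * x i) := by
          rw [← mul_assoc, inv_mul_cancel₀ (ne_zero_of_val ((ball_val_eq_one t).2 ht1)), one_mul]
        rw [h2]
        exact SP_mul (hinv t (hC.le ht) ht1) htx
      have hsa : s * a ∈ SP k (RG k (ball L) (G : Set L))
          (Set.range (DA.tor k e c π) ∪ {DA.evH u α H}) := by
        rw [hsum]
        exact SP_sum _ _ fun i _ => SP_mul' (hBR _ (hxy i).2.2) (hxi i)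
      have h3 : a / b = (s⁻¹ * b⁻¹) * (s * a) := by
        have hs0 : s ≠ 0 := ne_zero_of_val ((ball_val_eq_one s).2 hs1)
        field_simp
      rw [h3]
      exact SP_mul (mul_mem (hinv s hs hs1) (hinv b hb hb1)) hsa
  · intro i
    have h1 : e i = algebraMap k L (c i) * DA.tor k e c π i.succ := by
      simp only [DA.tor, Fin.cons_succ]
      rw [mul_div_cancel₀ _ ((map_ne_zero (algebraMap k L)).2 (hC.c_ne i))]
    have h2 : Dn k (ball L) A (RG k (ball L) (G : Set L)) e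
        (algebraMap k L (c i) * DA.tor k e c π i.succ) :=
      Dn.mul hC.eu.ne (Dn.of_mem (A.algebraMap_mem (c i)))
        (hDn _ (hC.le (Algebra.subset_adjoin (Or.inl ⟨i.succ, rfl⟩))))
    rw [← h1] at h2
    exact h2
  · intro x hx
    refine ⟨hMU x (hSB x hx).1, fun hx1 => ?_⟩
    obtain ⟨a, ha, b, hb, hb1, rfl⟩ := (hSB x hx).2 hx1
    exact hdiv a ha b hb hb1

end

end CS
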