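import Pool.Agent.Lib.CS.Defs
import Pool.Agent.Lib.MP_3029eb_ag.AbhBase

/-!
# Composition of points of rank one with valuations of the residue field: basic facts
-/

open Polynomial MP1a953e IsLocalRing

namespace CS
set_option linter.unusedSectionVars false
open Pool.Agent.Lib.MP_3029eb_ag Pool.Agent.Lib.MP_3029eb_ag.Abh

section mon
variable {k L : Type} [NormedField k] [NormedField L] [NormedAlgebra k L] {d : ℕ} {e : Fin d → L}

theorem mon_def (e : Fin d → L) (z : Fin d → ℤ) (c : k) :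
    DA.mon k e z c = algebraMap k L c * ∏ i, e i ^ z i := rfl

theorem mon_zero_exp (e : Fin d → L) (c : k) : DA.mon k e 0 c = algebraMap k L c := by
  rw [mon_def]
  simp

theorem mon_one (e : Fin d → L) : DA.mon k e 0 1 = 1 := by
  rw [mon_zero_exp, map_one]

theorem mon_mul (hne : ∀ i, e i ≠ 0) (z z' : Fin d → ℤ) (c c' : k) :
    DA.mon k e z c * DA.mon k e z' c' = DA.mon k e (z + z') (c * c') := by
  simp only [mon_def]
  rw [map_mul, mul_mul_mul_comm, ← Finset.prod_mul_distrib]
  congr 1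
  exact Finset.prod_congr rfl fun i _ => by rw [Pi.add_apply, zpow_add₀ (hne i)]

theorem mon_inv (z : Fin d → ℤ) (c : k) :
    (DA.mon k e z c)⁻¹ = DA.mon k e (-z) c⁻¹ := by
  simp only [mon_def]
  rw [mul_inv, map_inv₀, ← Finset.prod_inv_distrib]
  congr 1
  exact Finset.prod_congr rfl fun i _ => by rw [Pi.neg_apply, zpow_neg]

theorem mon_ne_zero (hne : ∀ i, e i ≠ 0) (z : Fin d → ℤ) {c : k} (hc : c ≠ 0) :
    DA.mon k e z c ≠ 0 := by
  rw [mon_def]
  exact mul_ne_zero ((map_ne_zero (algebraMap k L)).2 hc)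
    (Finset.prod_ne_zero_iff.2 fun i _ => zpow_ne_zero _ (hne i))

theorem mon_single (e : Fin d → L) (i : Fin d) : DA.mon k e (Pi.single i 1) 1 = e i := by
  rw [mon_def, map_one, one_mul, Finset.prod_eq_single i]
  · rw [Pi.single_eq_same, zpow_one]
  · intro j _ hj
    rw [Pi.single_eq_of_ne hj, zpow_zero]
  · intro h
    exact absurd (Finset.mem_univ i) h

theorem mon_append {r s : ℕ} (e : Fin r → L) (u : Fin s → L) (z : Fin r → ℤ) (y : Fin s → ℤ)
    (c : k) : DA.mon k (Fin.append e u) (Fin.append z y) c =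
      DA.mon k e z c * ∏ j, u j ^ y j := by
  simp only [mon_def]
  rw [Fin.prod_univ_add]
  simp only [Fin.append_left, Fin.append_right]
  ring

theorem mon_append' {r s : ℕ} (e : Fin r → L) (u : Fin s → L) (z : Fin (r + s) → ℤ) (c : k) :
    DA.mon k (Fin.append e u) z c = DA.mon k e (fun i => z (Fin.castAdd s i)) c *
      ∏ j, u j ^ z (Fin.natAdd r j) := by
  simp only [mon_def]
  rw [Fin.prod_univ_add]
  simp only [Fin.append_left, Fin.append_right]
  ring

theorem norm_mon (e : Fin d → L) (z : Fin d → ℤ) (c : k) :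
    ‖DA.mon k e z c‖ = ‖c‖ * ‖∏ i, e i ^ z i‖ := by
  rw [mon_def, norm_mul, norm_algebraMap']

/-- independence of the values in terms of monomials -/
theorem mon_ind (hind : ∀ (z : Fin d → ℤ) (c : k), ‖c‖ = ‖∏ i, e i ^ z i‖ → z = 0)
    (z : Fin d → ℤ) (c : k) (h : ‖DA.mon k e z c‖ = 1) : z = 0 := by
  rw [norm_mon] at h
  refine hind z c⁻¹ ?_
  rw [norm_inv]
  exact (eq_inv_of_mul_eq_one_right h).symm ▸ rfl

end mon

section
variable {k : Type} {L : Type} [NormedField k] [IsUltrametricDist k] [NormedField L]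
  [IsUltrametricDist L] [NormedAlgebra k L] {V : ValuationSubring L}

theorem mem_cS {x : L} : x ∈ cS k L ↔ ∃ c : k, ‖c‖ ≤ 1 ∧ algebraMap k L c = x := by
  constructor
  · rintro ⟨c, hc, rfl⟩
    exact ⟨c, mem_O.1 hc, rfl⟩
  · rintro ⟨c, hc, rfl⟩
    exact ⟨c, mem_O.2 hc, rfl⟩

theorem OvR.ball : OvR k (ball L) :=
  ⟨le_rfl, fun c hc => by rw [mem_ball, norm_algebraMap']; exact hc⟩

theorem OvR.norm_le (h : OvR k V) {x : L} (hx : x ∈ V) : ‖x‖ ≤ 1 := (mem_ball x).1 (h.le hx)

theorem OvR.lt_of_norm (h : OvR k V) {x : L} (hx : ‖x‖ < 1) : V.valuation x < 1 :=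
  C1_lt_of_lt h.le ((ball_val_lt_one x).2 hx)

theorem OvR.mem_of_norm (h : OvR k V) {x : L} (hx : ‖x‖ < 1) : x ∈ V :=
  (V.valuation_le_one_iff _).1 (h.lt_of_norm hx).le

theorem OvR.norm_eq_one (h : OvR k V) {x : L} (hx : V.valuation x = 1) : ‖x‖ = 1 :=
  (ball_val_eq_one x).1 (C1_val_one_of_le h.le hx)

theorem OvR.const_val_one (h : OvR k V) {c : k} (hc : ‖c‖ = 1) :
    V.valuation (algebraMap k L c) = 1 := by
  rw [C1_val_one_iff]
  have hc0 : c ≠ 0 := by
    rintro rfl
    rw [norm_zero] at hc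
    exact zero_ne_one hc
  refine ⟨h.const c hc.le, ?_, (map_ne_zero (algebraMap k L)).2 hc0⟩
  rw [← map_inv₀]
  exact h.const _ (by rw [norm_inv, hc, inv_one])

theorem OvR.const_lt_iff (h : OvR k V) {c : k} : V.valuation (algebraMap k L c) < 1 ↔ ‖c‖ < 1 := by
  constructor
  · intro h1
    have h2 : ‖c‖ ≤ 1 := by
      have := h.norm_le ((V.valuation_le_one_iff _).1 h1.le)
      rwa [norm_algebraMap'] at this
    refine lt_of_le_of_ne h2 fun h3 => ?_
    rw [h.const_val_one h3] at h1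
    exact lt_irrefl _ h1
  · intro h1
    exact h.lt_of_norm (by rw [norm_algebraMap']; exact h1)

theorem OvR.const_one_iff (h : OvR k V) {c : k} : V.valuation (algebraMap k L c) = 1 ↔ ‖c‖ = 1 := by
  constructor
  · intro h1
    have := h.norm_eq_one h1
    rwa [norm_algebraMap'] at this
  · exact h.const_val_one

theorem cS_le (h : OvR k V) : cS k L ≤ V.toSubring := by
  intro x hx
  obtain ⟨c, hc, rfl⟩ := mem_cS.1 hx
  exact h.const c hc

theorem closure_le (h : OvR k V) {G : Set L} (hG : ∀ t ∈ G, t ∈ V) :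
    Subring.closure ((cS k L : Set L) ∪ G) ≤ V.toSubring := by
  rw [Subring.closure_le]
  rintro z (hz | hz)
  · exact cS_le h hz
  · exact hG z hz

theorem RG_le (h : OvR k V) {G : Set L} (hG : ∀ t ∈ G, t ∈ V) : RG k V G ≤ V.toSubring :=
  locV_le _ (closure_le h hG)

theorem locV_RG (G : Set L) : locV V (RG k V G) = RG k V G := locV_locV _ _

theorem closure_le_RG (G : Set L) : Subring.closure ((cS k L : Set L) ∪ G) ≤ RG k V G :=
  le_locV _ _

theorem mem_RG {G : Set L} {t : L} (ht : t ∈ G) : t ∈ RG k V G :=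
  closure_le_RG G (Subring.subset_closure (Or.inr ht))

theorem const_mem_RG (G : Set L) {c : k} (hc : ‖c‖ ≤ 1) : algebraMap k L c ∈ RG k V G :=
  closure_le_RG G (Subring.subset_closure (Or.inl (mem_cS.2 ⟨c, hc, rfl⟩)))

theorem cS_le_RG (G : Set L) : cS k L ≤ RG k V G := fun _ hz =>
  closure_le_RG G (Subring.subset_closure (Or.inl hz))

theorem RG_mono {G G' : Set L} (h : G ⊆ G') : RG k V G ≤ RG k V G' :=
  locV_mono _ (Subring.closure_mono (Set.union_subset_union_right _ h))

/-- the local ring is the smallest one containing the constants and `G` -/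
theorem RG_le_of {G : Set L} {B : Subring L} (hB : locV V B = B) (hc : cS k L ≤ B)
    (hG : ∀ t ∈ G, t ∈ B) : RG k V G ≤ B := by
  rw [← hB]
  refine locV_mono _ ?_
  rw [Subring.closure_le]
  rintro z (hz | hz)
  · exact hc hz
  · exact hG z hz

theorem RG_union (G G' : Set L) :
    locV V (Subring.closure ((RG k V G : Set L) ∪ G')) = RG k V (G ∪ G') := by
  unfold RG
  rw [locV_closure_locV (le_refl V)]
  congr 1
  apply le_antisymm
  · rw [Subring.closure_le]
    rintro z (hz | hz)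
    · exact Subring.closure_mono (Set.union_subset_union_right _ Set.subset_union_left) hz
    · exact Subring.subset_closure (Or.inr (Or.inr hz))
  · rw [Subring.closure_le]
    rintro z (hz | hz | hz)
    · exact Subring.subset_closure (Or.inl (Subring.subset_closure (Or.inl hz)))
    · exact Subring.subset_closure (Or.inl (Subring.subset_closure (Or.inr hz)))
    · exact Subring.subset_closure (Or.inr hz)

/-- localizing further at the centre of the unit ball -/
theorem locV_ball_RG (h : OvR k V) (G : Set L) :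
    locV (ball L) (RG k V G) = RG k (ball L) G := by
  unfold RG
  exact locV_locV_le h.le _

theorem RG_inv {G : Set L} {x : L} (hx : x ∈ RG k V G) (h1 : V.valuation x = 1) :
    x⁻¹ ∈ RG k V G := E5_inv (locV_RG G) hx h1

theorem ne_zero_of_val {x : L} (h : V.valuation x = 1) : x ≠ 0 := by
  rintro rfl
  rw [map_zero] at h
  exact zero_ne_one h

/-! ### monomials times units -/

variable {B : Subring L} {d : ℕ} {e : Fin d → L}

theorem MU.ne {x : L} (h : MU k V B e x) (hne : ∀ i, e i ≠ 0) : x ≠ 0 := by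
  obtain ⟨z, c, hc, ε, -, hε, rfl⟩ := h
  exact mul_ne_zero (mon_ne_zero hne z hc) (ne_zero_of_val hε)

theorem MU.of_unit {x : L} (hx : x ∈ B) (h1 : V.valuation x = 1) : MU k V B e x :=
  ⟨0, 1, one_ne_zero, x, hx, h1, by rw [mon_one, one_mul]⟩

theorem MU.mon (z : Fin d → ℤ) {c : k} (hc : c ≠ 0) : MU k V B e (DA.mon k e z c) :=
  ⟨z, c, hc, 1, B.one_mem, map_one _, by rw [mul_one]⟩

theorem MU.var (i : Fin d) : MU k V B e (e i) := by
  have h := MU.mon (V := V) (B := B) (e := e) (Pi.single i 1) (one_ne_zero (α := k))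
  rwa [mon_single] at h

theorem MU.const {c : k} (hc : c ≠ 0) : MU k V B e (algebraMap k L c) := by
  have h := MU.mon (V := V) (B := B) (e := e) 0 hc
  rwa [mon_zero_exp] at h

theorem MU.mul (hne : ∀ i, e i ≠ 0) {x y : L} (hx : MU k V B e x) (hy : MU k V B e y) :
    MU k V B e (x * y) := by
  obtain ⟨z, c, hc, ε, hε, hε1, rfl⟩ := hx
  obtain ⟨z', c', hc', ε', hε', hε1', rfl⟩ := hy
  refine ⟨z + z', c * c', mul_ne_zero hc hc', ε * ε', mul_mem hε hε', ?_, ?_⟩
  · rw [map_mul, hε1, hε1', one_mul]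
  · rw [← mon_mul hne]
    ring

theorem MU.inv (hB : locV V B = B) {x : L} (hx : MU k V B e x) : MU k V B e x⁻¹ := by
  obtain ⟨z, c, hc, ε, hε, hε1, rfl⟩ := hx
  refine ⟨-z, c⁻¹, inv_ne_zero hc, ε⁻¹, E5_inv hB hε hε1, ?_, ?_⟩
  · rw [map_inv₀, hε1, inv_one]
  · rw [mul_inv, mon_inv]

theorem MU.pow (hne : ∀ i, e i ≠ 0) {x : L} (hx : MU k V B e x) (n : ℕ) :
    MU k V B e (x ^ n) := by
  induction n with
  | zero => rw [pow_zero]; exact MU.of_unit B.one_mem (map_one _)
  | succ n ih => rw [pow_succ]; exact ih.mul hne hx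

theorem MU.prod (hne : ∀ i, e i ≠ 0) {ι : Type} (s : Finset ι) (f : ι → L)
    (h : ∀ i ∈ s, MU k V B e (f i)) : MU k V B e (∏ i ∈ s, f i) := by
  classical
  induction s using Finset.induction_on with
  | empty => rw [Finset.prod_empty]; exact MU.of_unit B.one_mem (map_one _)
  | insert a s ha ih =>
    rw [Finset.prod_insert ha]
    exact (h a (Finset.mem_insert_self _ _)).mul hne
      (ih fun i hi => h i (Finset.mem_insert_of_mem hi))

/-- changing the ring, the valuation and the parameters -/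
theorem MU.mono {V' : ValuationSubring L} {B' : Subring L} {d' : ℕ} {e' : Fin d' → L}
    (hne : ∀ i, e' i ≠ 0) (hB' : locV V' B' = B')
    (he : ∀ i, MU k V' B' e' (e i)) (hu : ∀ ε ∈ B, V.valuation ε = 1 → MU k V' B' e' ε)
    {x : L} (hx : MU k V B e x) : MU k V' B' e' x := by
  obtain ⟨z, c, hc, ε, hε, hε1, rfl⟩ := hx
  refine MU.mul hne (MU.mul hne (MU.const hc) (MU.prod hne _ _ fun i _ => ?_)) (hu ε hε hε1)
  rcases Int.le_total 0 (z i) with h | h
  · obtain ⟨n, hn⟩ := Int.eq_ofNat_of_zero_le h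
    rw [hn, zpow_natCast]
    exact (he i).pow hne n
  · obtain ⟨n, hn⟩ := Int.eq_ofNat_of_zero_le (Int.neg_nonneg_of_nonpos h)
    have h2 : z i = -(n : ℤ) := by omega
    rw [h2, zpow_neg, zpow_natCast]
    exact ((he i).pow hne n).inv hB'

/-! ### fractions with monomial denominators -/

variable {A : Subalgebra k L}

theorem Dn.of_mem {x : L} (hx : x ∈ A) : Dn k V A B e x :=
  ⟨x, hx, 1, A.one_mem, MU.of_unit B.one_mem (map_one _), by rw [div_one]⟩

theorem Dn.mul (hne : ∀ i, e i ≠ 0) {x y : L} (hx : Dn k V A B e x) (hy : Dn k V A B e y) :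
    Dn k V A B e (x * y) := by
  obtain ⟨n, hn, d, hd, hdm, rfl⟩ := hx
  obtain ⟨n', hn', d', hd', hdm', rfl⟩ := hy
  exact ⟨n * n', mul_mem hn hn', d * d', mul_mem hd hd', hdm.mul hne hdm', by
    rw [div_mul_div_comm]⟩

theorem Dn.add (hne : ∀ i, e i ≠ 0) {x y : L} (hx : Dn k V A B e x) (hy : Dn k V A B e y) :
    Dn k V A B e (x + y) := by
  obtain ⟨n, hn, d, hd, hdm, rfl⟩ := hx
  obtain ⟨n', hn', d', hd', hdm', rfl⟩ := hy
  refine ⟨n * d' + d * n', add_mem (mul_mem hn hd') (mul_mem hd hn'), d * d', mul_mem hd hd',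
    hdm.mul hne hdm', ?_⟩
  rw [div_add_div _ _ (hdm.ne hne) (hdm'.ne hne)]

theorem Dn.neg {x : L} (hx : Dn k V A B e x) : Dn k V A B e (-x) := by
  obtain ⟨n, hn, d, hd, hdm, rfl⟩ := hx
  exact ⟨-n, neg_mem hn, d, hd, hdm, by rw [neg_div]⟩

/-- the inverse of a monomial times a unit -/
theorem Dn.inv (hne : ∀ i, e i ≠ 0) {x : L} (hx : Dn k V A B e x) (hm : MU k V B e x) :
    Dn k V A B e x⁻¹ := by
  obtain ⟨n, hn, d, hd, hdm, rfl⟩ := hx
  have hd0 := hdm.ne hne
  have h1 : n = n / d * d := by rw [div_mul_cancel₀ _ hd0]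
  refine ⟨d, hd, n, hn, ?_, by rw [inv_div]⟩
  rw [h1]
  exact hm.mul hne hdm

variable (k V A B e) in
/-- the ring of all fractions with monomial denominators -/
def DnR (hne : ∀ i, e i ≠ 0) : Subring L where
  carrier := {x | Dn k V A B e x}
  mul_mem' := fun h h' => h.mul hne h'
  one_mem' := Dn.of_mem A.one_mem
  add_mem' := fun h h' => h.add hne h'
  zero_mem' := Dn.of_mem A.zero_mem
  neg_mem' := fun h => h.neg

theorem mem_DnR (hne : ∀ i, e i ≠ 0) {x : L} : x ∈ DnR k V B e A hne ↔ Dn k V A B e x := Iff.rfl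

/-- all elements of the localization are fractions with monomial denominators if this holds for the
generators -/
theorem Dn.of_RG (hne : ∀ i, e i ≠ 0) {V' : ValuationSubring L} {G : Set L}
    (hG : ∀ t ∈ G, Dn k V A B e t)
    (hu : ∀ x ∈ Subring.closure ((cS k L : Set L) ∪ G), V'.valuation x = 1 → MU k V B e x) :
    ∀ x ∈ RG k V' G, Dn k V A B e x := by
  have h1 : Subring.closure ((cS k L : Set L) ∪ G) ≤ DnR k V B e A hne := by
    rw [Subring.closure_le]
    rintro z (hz | hz)
    · obtain ⟨c, -, rfl⟩ := mem_cS.1 hz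
      exact Dn.of_mem (A.algebraMap_mem c)
    · exact hG z hz
  rintro x ⟨a, ha, b, hb, hb1, hab⟩
  have hb0 := ne_zero_of_val hb1
  have h2 : x = a * b⁻¹ := by rw [← hab, mul_assoc, mul_inv_cancel₀ hb0, mul_one]
  rw [h2]
  exact Dn.mul hne (h1 ha) (Dn.inv hne (h1 hb) (hu b hb hb1))

end

/-! ### the submodules `SP` -/

section
variable {k : Type} {L : Type} [NormedField k] [IsUltrametricDist k] [NormedField L]
  [IsUltrametricDist L] [NormedAlgebra k L] {V : ValuationSubring L} {B B' : Subring L}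
  {S S' : Set L}

theorem SP_mul {a x : L} (ha : a ∈ B) (hx : x ∈ SP k B S) : a * x ∈ SP k B S :=
  (SP k B S).smul_mem ⟨a, ha⟩ hx

theorem SP_mul' {a x : L} (ha : a ∈ B) (hx : x ∈ SP k B S) : x * a ∈ SP k B S := by
  rw [mul_comm]
  exact SP_mul ha hx

theorem SP_const {κ : k} (hκ : ‖κ‖ < 1) : algebraMap k L κ ∈ SP k B S :=
  Submodule.subset_span (Or.inl ⟨κ, hκ, rfl⟩)

theorem SP_of_mem {x : L} (hx : x ∈ S) : x ∈ SP k B S := Submodule.subset_span (Or.inr hx)

/-- comparison of the submodules for different rings and generators -/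
theorem SP_le (hB : B ≤ B') (h : ∀ x ∈ S, x ∈ SP k B' S') {x : L} (hx : x ∈ SP k B S) :
    x ∈ SP k B' S' := by
  induction hx using Submodule.span_induction with
  | mem x hx =>
    rcases hx with ⟨κ, hκ, rfl⟩ | hx
    · exact SP_const hκ
    · exact h x hx
  | zero => exact zero_mem _
  | add x y _ _ hx hy => exact add_mem hx hy
  | smul a x _ hx => exact SP_mul (hB a.2) hx

theorem SP_mono (hB : B ≤ B') (hS : S ⊆ S') {x : L} (hx : x ∈ SP k B S) : x ∈ SP k B' S' :=
  SP_le hB (fun _ hy => SP_of_mem (hS hy)) hx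

/-- multiplication by an element `c` with `c * S ⊆ SP k B' S'` -/
theorem SP_mul_le (hB : B ≤ B') {c : L} (hc : ∀ κ : k, ‖κ‖ < 1 → c * algebraMap k L κ ∈ SP k B' S')
    (h : ∀ x ∈ S, c * x ∈ SP k B' S') {x : L} (hx : x ∈ SP k B S) : c * x ∈ SP k B' S' := by
  induction hx using Submodule.span_induction with
  | mem x hx =>
    rcases hx with ⟨κ, hκ, rfl⟩ | hx
    · exact hc κ hκ
    · exact h x hx
  | zero => rw [mul_zero]; exact zero_mem _
  | add x y _ _ hx hy => rw [mul_add]; exact add_mem hx hy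
  | smul a x _ hx =>
    have : c * (a • x) = (a : L) * (c * x) := by
      rw [Subring.smul_def, smul_eq_mul]
      ring
    rw [this]
    exact SP_mul (hB a.2) hx

theorem SP_val (hV : OvR k V) (hB : B ≤ V.toSubring) (hS : ∀ x ∈ S, V.valuation x < 1) {x : L}
    (hx : x ∈ SP k B S) : V.valuation x < 1 := by
  induction hx using Submodule.span_induction with
  | mem x hx =>
    rcases hx with ⟨κ, hκ, rfl⟩ | hx
    · exact hV.const_lt_iff.2 hκ
    · exact hS x hx
  | zero => rw [map_zero]; exact zero_lt_one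
  | add x y _ _ hx hy => exact V.valuation.map_add_lt hx hy
  | smul a x _ hx => exact E5_val_mul_lt (hB a.2) hx

theorem SP_mem (hc : cS k L ≤ B) (hS : ∀ x ∈ S, x ∈ B) {x : L} (hx : x ∈ SP k B S) : x ∈ B := by
  induction hx using Submodule.span_induction with
  | mem x hx =>
    rcases hx with ⟨κ, hκ, rfl⟩ | hx
    · exact hc (mem_cS.2 ⟨κ, le_of_lt hκ, rfl⟩)
    · exact hS x hx
  | zero => exact zero_mem _
  | add x y _ _ hx hy => exact add_mem hx hy
  | smul a x _ hx => exact mul_mem a.2 hx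

theorem SP_sum {ι : Type} (s : Finset ι) (f : ι → L) (h : ∀ i ∈ s, f i ∈ SP k B S) :
    ∑ i ∈ s, f i ∈ SP k B S := Submodule.sum_mem _ h

/-- explicit form: one constant suffices -/
theorem mem_SP_iff (hc : cS k L ≤ B) {x : L} : x ∈ SP k B S ↔ ∃ (κ : k) (b y : L), ‖κ‖ < 1 ∧
    b ∈ B ∧ y ∈ Submodule.span B S ∧ x = algebraMap k L κ * b + y := by
  constructor
  · intro hx
    induction hx using Submodule.span_induction with
    | mem x hx =>
      rcases hx with ⟨κ, hκ, rfl⟩ | hx
      · exact ⟨κ, 1, 0, hκ, B.one_mem, zero_mem _, by rw [mul_one, add_zero]⟩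
      · exact ⟨0, 0, x, by rw [norm_zero]; exact zero_lt_one, B.zero_mem,
          Submodule.subset_span hx, by rw [mul_zero, zero_add]⟩
    | zero => exact ⟨0, 0, 0, by rw [norm_zero]; exact zero_lt_one, B.zero_mem, zero_mem _,
        by rw [mul_zero, zero_add]⟩
    | add x y _ _ hx hy =>
      obtain ⟨κ, b, s, hκ, hb, hs, rfl⟩ := hx
      obtain ⟨κ', b', s', hκ', hb', hs', rfl⟩ := hy
      rcases eq_or_ne κ 0 with rfl | h0
      · exact ⟨κ', b', s + s', hκ', hb', add_mem hs hs', by rw [map_zero]; ring⟩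
      rcases eq_or_ne κ' 0 with rfl | h0'
      · exact ⟨κ, b, s + s', hκ, hb, add_mem hs hs', by rw [map_zero]; ring⟩
      rcases le_total ‖κ‖ ‖κ'‖ with hle | hle
      · refine ⟨κ', algebraMap k L (κ / κ') * b + b', s + s', hκ', add_mem (mul_mem (hc
          (mem_cS.2 ⟨κ / κ', ?_, rfl⟩)) hb) hb', add_mem hs hs', ?_⟩
        · rw [norm_div]
          exact div_le_one_of_le₀ hle (norm_nonneg _)
        · have h1 : algebraMap k L κ = algebraMap k L κ' * algebraMap k L (κ / κ') := by
            rw [← map_mul, mul_div_cancel₀ _ h0']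
          rw [h1]
          ring
      · refine ⟨κ, b + algebraMap k L (κ' / κ) * b', s + s', hκ, add_mem hb (mul_mem (hc
          (mem_cS.2 ⟨κ' / κ, ?_, rfl⟩)) hb'), add_mem hs hs', ?_⟩
        · rw [norm_div]
          exact div_le_one_of_le₀ hle (norm_nonneg _)
        · have h1 : algebraMap k L κ' = algebraMap k L κ * algebraMap k L (κ' / κ) := by
            rw [← map_mul, mul_div_cancel₀ _ h0]
          rw [h1]
          ring
    | smul a x _ hx =>
      obtain ⟨κ, b, s, hκ, hb, hs, rfl⟩ := hx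
      refine ⟨κ, a * b, (a : L) * s, hκ, mul_mem a.2 hb, ?_, ?_⟩
      · exact (Submodule.span B S).smul_mem a hs
      · rw [Subring.smul_def, smul_eq_mul]
        ring
  · rintro ⟨κ, b, y, hκ, hb, hy, rfl⟩
    refine add_mem (SP_mul' hb (SP_const hκ)) ?_
    exact Submodule.span_mono Set.subset_union_right hy

end

/-! ### finiteness -/

section
variable {k : Type} {L : Type} [NormedField k] [IsUltrametricDist k] [NormedField L]
  [IsUltrametricDist L] [NormedAlgebra k L] {V : ValuationSubring L}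

/-- the ring `RG k V G` is essentially of finite type over `O k` -/
theorem exists_EFT_RG (V : ValuationSubring L) (G : Finset L) :
    ∃ f : O k →+* RG k V (G : Set L), EFT f ∧ ∀ c, (f c : L) = algebraMap k L c := by
  let g₀ : O k →+* cS k L :=
    { toFun := fun c => ⟨algebraMap k L c, mem_cS.2 ⟨c, mem_O.1 c.2, rfl⟩⟩
      map_one' := Subtype.ext (map_one _)
      map_mul' := fun a b => Subtype.ext (map_mul _ _ _)
      map_zero' := Subtype.ext (map_zero _)
      map_add' := fun a b => Subtype.ext (map_add _ _ _) }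
  have hg₀ : Function.Surjective g₀ := by
    rintro ⟨x, hx⟩
    obtain ⟨c, hc, rfl⟩ := mem_cS.1 hx
    exact ⟨⟨c, mem_O.2 hc⟩, rfl⟩
  have h1 : EFT g₀ := by
    let i2 := g₀.toAlgebra
    show Algebra.EssFiniteType (O k) (cS k L)
    exact Algebra.EssFiniteType.of_surjective (Algebra.ofId (O k) (cS k L)) hg₀
  refine ⟨(Subring.inclusion (cS_le_RG (G : Set L))).comp g₀,
    EFT_locV V (cS k L) g₀ h1 G (Subring.inclusion (cS_le_RG (G : Set L))) fun a => rfl,
    fun c => rfl⟩

end

end CS
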