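import Pool.Agent.Lib.CS.Step2
import Pool.Agent.Lib.MP_3029eb_ag.AbhE11

/-!
# Module CS.CompS: composition with a valuation of the residue field
-/

open Polynomial MP1a953e IsLocalRing

namespace CS
set_option linter.unusedSectionVars false
open Pool.Agent.Lib.MP_3029eb_ag Pool.Agent.Lib.MP_3029eb_ag.Abh

section
variable {k : Type} {L : Type} [NontriviallyNormedField k] [IsUltrametricDist k] [IsAlgClosed k]
  [NormedField L] [IsUltrametricDist L] [NormedAlgebra k L] {V : ValuationSubring L}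

/-- Generators of a local ring at the centre of the unit ball can be taken in `V`.  Proof.  For `t ∈ G` take `t` if
`t ∈ V` and `t⁻¹` otherwise: then `t⁻¹ ∈ V`, and `‖t‖ = 1` (an element of norm `< 1` is in `V`, `OvR.mem_of_norm`), so `t`
and `t⁻¹` are in the local ring generated by one of them (`RG_inv`); `RG_le_of` twice. -/
theorem exists_gens (hV : OvR k V) (G : Finset L) (hG : ∀ t ∈ G, ‖t‖ ≤ 1) :
    ∃ G' : Finset L, (∀ t ∈ G', t ∈ V) ∧ RG k (ball L) (G' : Set L) = RG k (ball L) (G : Set L) := by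
  classical
  have key : ∀ t ∈ G, t ∉ V → (ball L).valuation t = 1 := by
    intro t ht htV
    rw [ball_val_eq_one]
    refine le_antisymm (hG t ht) (not_lt.1 fun h => htV (hV.mem_of_norm h))
  refine ⟨G.image (fun t => if t ∈ V then t else t⁻¹), ?_, le_antisymm ?_ ?_⟩
  · intro t' ht'
    obtain ⟨t, ht, rfl⟩ := Finset.mem_image.1 ht'
    by_cases h : t ∈ V
    · rw [if_pos h]; exact h
    · rw [if_neg h]
      exact (V.mem_or_inv_mem t).resolve_left h
  · refine RG_le_of (locV_RG _) (cS_le_RG _) ?_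
    intro t' ht'
    obtain ⟨t, ht, rfl⟩ := Finset.mem_image.1 (Finset.mem_coe.1 ht')
    have hmem : t ∈ RG k (ball L) (G : Set L) := mem_RG (Finset.mem_coe.2 ht)
    by_cases h : t ∈ V
    · rw [if_pos h]; exact hmem
    · rw [if_neg h]
      exact RG_inv hmem (key t ht h)
  · refine RG_le_of (locV_RG _) (cS_le_RG _) ?_
    intro t ht
    have ht' := Finset.mem_coe.1 ht
    have h2 := Finset.mem_image_of_mem (fun t => if t ∈ V then t else t⁻¹) ht'
    by_cases h : t ∈ V
    · simp only [if_pos h] at h2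
      exact mem_RG (Finset.mem_coe.2 h2)
    · simp only [if_neg h] at h2
      have h3 : t⁻¹ ∈ RG k (ball L) ((G.image (fun t => if t ∈ V then t else t⁻¹) : Finset L) :
        Set L) := mem_RG (Finset.mem_coe.2 h2)
      have h4 := RG_inv h3 (by rw [map_inv₀, key t ht' h, inv_one])
      rwa [inv_inv] at h4

/-- The composition theorem.  Proof.  Let `A, S` be given, `G₀` as in `hW`. Apply `hb` to `A` and
`S ∪ (G₀ \ {0})`: `e, w, G`, `B₁ = RG k (ball L) G`. Let `G'` be as in `exists_gens`, `G₁ = G' ∪ G₀`. The elements of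
`G₀` are in `V`, of norm `≤ 1`, hence in `B₁`, so `RG k (ball L) G₁ = B₁` (`RG_le_of`, `RG_mono`). All elements of `B₁`
are `Dn` (`Dn.of_RG`: units of the closure are units of `B₁`). Let `Ls` consist of the `x ∈ S` with `x ∈ V` and of the
`x⁻¹` for the other `x ∈ S` (`x⁻¹ ∈ V`, `MU.inv`). Apply `step2` with `hh`, `n = r + h + m₀ ` and
`(r + r₂) + (h + hh) + m ≤ r + h + m₀`. For `x ∈ S`, `x ∉ V`: `MU` for `x⁻¹`, so for `x`. -/
theorem vunif_of_base (hV : OvR k V) {r h m₀ r₂ n : ℕ} (hb : SBase k L r h)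
    (hRD : RDep k L m₀) (hn : r + h + m₀ ≤ n) (hW : WHyp k V hV.le r₂) :
    VUnif k V (r + r₂) n := by
  classical
  obtain ⟨G₀, hG₀V, hW⟩ := hW
  intro A hA S hS
  obtain ⟨e, w, G, hG, hBP, heD, hSx, hGD⟩ := hb A hA (S ∪ G₀.filter (fun t => t ≠ 0)) (by
    intro x hx
    rcases Finset.mem_union.1 hx with hx | hx
    · exact hS x hx
    · exact (Finset.mem_filter.1 hx).2)
  have hne := hBP.ne
  obtain ⟨G', hG'V, hG'⟩ := exists_gens hV G hG
  have hG₁V : ∀ t ∈ G' ∪ G₀, t ∈ V := by
    intro t ht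
    rcases Finset.mem_union.1 ht with ht | ht
    · exact hG'V t ht
    · exact hG₀V t ht
  have hEq : RG k (ball L) ((G' ∪ G₀ : Finset L) : Set L) = RG k (ball L) (G : Set L) := by
    apply le_antisymm
    · refine RG_le_of (locV_RG _) (cS_le_RG _) ?_
      intro t ht
      rcases Finset.mem_union.1 (Finset.mem_coe.1 ht) with ht | ht
      · rw [← hG']
        exact mem_RG (Finset.mem_coe.2 ht)
      · by_cases h0 : t = 0
        · rw [h0]; exact Subring.zero_mem _
        · exact (hSx t (Finset.mem_union.2 (Or.inr (Finset.mem_filter.2 ⟨ht, h0⟩)))).2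
            (hV.norm_le (hG₀V t ht))
    · rw [← hG']
      exact RG_mono (Finset.coe_subset.2 Finset.subset_union_left)
  have hDn : ∀ x ∈ RG k (ball L) (G : Set L), Dn k (ball L) A (RG k (ball L) (G : Set L)) e x :=
    Dn.of_RG hne hGD fun x hx h1 => MU.of_unit (closure_le_RG _ hx) h1
  have hLV : ∀ f ∈ S.image (fun x => if x ∈ V then x else x⁻¹), f ∈ V ∧
      MU k (ball L) (RG k (ball L) ((G' ∪ G₀ : Finset L) : Set L)) e f := by
    intro f hf
    obtain ⟨x, hx, rfl⟩ := Finset.mem_image.1 hf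
    have hM := (hSx x (Finset.mem_union.2 (Or.inl hx))).1
    rw [hEq]
    by_cases h : x ∈ V
    · rw [if_pos h]; exact ⟨h, hM⟩
    · rw [if_neg h]
      exact ⟨(V.mem_or_inv_mem x).resolve_left h, hM.inv (locV_RG _)⟩
  obtain ⟨hh, e', c, π, w', G₂, hG₂V, hVP, hdim, hLs, hD₂⟩ := step2 hV (G' ∪ G₀) hG₁V
    (hEq ▸ hBP) A (fun i => hEq ▸ heD i)
    (fun t ht => hEq ▸ hDn t (hEq ▸ mem_RG (Finset.mem_coe.2 ht)))
    (hW (G' ∪ G₀) hG₁V Finset.subset_union_right) hRD
    (S.image (fun x => if x ∈ V then x else x⁻¹)) hLV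
  refine ⟨h + hh, e', c, π, w', G₂, hG₂V, hVP, ?_, ?_, hD₂⟩
  · intro m y hy hRI
    have := hdim m y hy hRI
    omega
  · intro x hx
    have h2 := Finset.mem_image_of_mem (fun x => if x ∈ V then x else x⁻¹) hx
    by_cases h : x ∈ V
    · simp only [if_pos h] at h2
      exact ⟨(hLs x h2).1, fun _ => (hLs x h2).2⟩
    · simp only [if_neg h] at h2
      refine ⟨?_, fun h' => absurd h' h⟩
      have h3 := (hLs _ h2).1.inv (locV_RG _)
      rwa [inv_inv] at h3

end

end CS
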