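import Pool.Agent.Lib.CS.Basic
import Pool.Agent.Lib.TC.E6

/-!
# Module CS.Dec: decomposition of the elements of an extended local ring
-/

open Polynomial MP1a953e IsLocalRing

namespace CS
set_option linter.unusedSectionVars false
open Pool.Agent.Lib.MP_3029eb_ag Pool.Agent.Lib.MP_3029eb_ag.Abh

section
variable {k : Type} {L : Type} [NormedField k] [IsUltrametricDist k] [NormedField L]
  [IsUltrametricDist L] [NormedAlgebra k L] {V : ValuationSubring L}

/-- Adjoining elements of norm `< 1`.  Proof.  As `hdecB`, `hdec3` in the proof of `TC.E5_final3`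
(Pool/Agent/Lib/TC/E5.lean). (1) every element of `C = closure (A₂ ∪ Y)` is `a + s`, `a ∈ A₂`,
`s ∈ Submodule.span C Y` (`Subring.closure_induction`). (2) an element of `A₃ = locV V C` is `z` with `z * q = p`,
`p, q ∈ C`, `V.valuation q = 1`; `p = a + s`, `q = b + t`; `t` has norm `< 1` (sums of elements of `V` times elements of
`Y`), so `V.valuation t < 1` and `V.valuation b = 1`, `b⁻¹ ∈ A₂` (`E5_inv`), `q⁻¹ ∈ A₃`; and
`z = a * b⁻¹ + (s * b - a * t) * (q⁻¹ * b⁻¹)`. -/
theorem dec_span (hV : OvR k V) {A₂ : Subring L} (hA₂ : A₂ ≤ V.toSubring)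
    (hloc : locV V A₂ = A₂) {Y : Set L} (hY : ∀ y ∈ Y, ‖y‖ < 1) :
    ∀ z ∈ locV V (Subring.closure ((A₂ : Set L) ∪ Y)), ∃ a ∈ A₂,
      ∃ s ∈ Submodule.span (locV V (Subring.closure ((A₂ : Set L) ∪ Y))) Y, z = a + s := by
  have hYV : ∀ y ∈ Y, V.valuation y < 1 := fun y hy => hV.lt_of_norm (hY y hy)
  have hCV : Subring.closure ((A₂ : Set L) ∪ Y) ≤ V.toSubring := by
    rw [Subring.closure_le]
    rintro z (hz | hz)
    · exact hA₂ hz
    · exact hV.mem_of_norm (hY z hz)
  have h1 : ∀ z ∈ Subring.closure ((A₂ : Set L) ∪ Y), ∃ a ∈ A₂,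
      ∃ s ∈ Submodule.span (Subring.closure ((A₂ : Set L) ∪ Y)) Y, z = a + s := by
    intro z hz
    induction hz using Subring.closure_induction with
    | mem x hx =>
      rcases hx with hx | hx
      · exact ⟨x, hx, 0, zero_mem _, by rw [add_zero]⟩
      · exact ⟨0, zero_mem _, x, Submodule.subset_span hx, by rw [zero_add]⟩
    | zero => exact ⟨0, zero_mem _, 0, zero_mem _, by rw [add_zero]⟩
    | one => exact ⟨1, one_mem _, 0, zero_mem _, by rw [add_zero]⟩
    | add x y _ _ hx hy =>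
      obtain ⟨a, ha, s, hs, rfl⟩ := hx
      obtain ⟨b, hb, t, ht, rfl⟩ := hy
      exact ⟨a + b, add_mem ha hb, s + t, add_mem hs ht, by ring⟩
    | neg x _ hx =>
      obtain ⟨a, ha, s, hs, rfl⟩ := hx
      exact ⟨-a, neg_mem ha, -s, neg_mem hs, by ring⟩
    | mul x y _ hyC hx hy =>
      obtain ⟨a, ha, s, hs, rfl⟩ := hx
      obtain ⟨b, hb, t, ht, rfl⟩ := hy
      have haC : a ∈ Subring.closure ((A₂ : Set L) ∪ Y) := Subring.subset_closure (Or.inl ha)
      have h2 := Submodule.smul_mem (Submodule.span (Subring.closure ((A₂ : Set L) ∪ Y)) Y)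
        (⟨a, haC⟩ : ↥(Subring.closure ((A₂ : Set L) ∪ Y))) ht
      have h3 := Submodule.smul_mem (Submodule.span (Subring.closure ((A₂ : Set L) ∪ Y)) Y)
        (⟨b + t, hyC⟩ : ↥(Subring.closure ((A₂ : Set L) ∪ Y))) hs
      refine ⟨a * b, mul_mem ha hb, _, add_mem h2 h3, ?_⟩
      simp only [Subring.smul_def, smul_eq_mul]
      ring
  have h2 : ∀ s ∈ Submodule.span (Subring.closure ((A₂ : Set L) ∪ Y)) Y,
      s ∈ Submodule.span (locV V (Subring.closure ((A₂ : Set L) ∪ Y))) Y ∧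
        V.valuation s < 1 := by
    intro s hs
    induction hs using Submodule.span_induction with
    | mem x hx => exact ⟨Submodule.subset_span hx, hYV x hx⟩
    | zero => exact ⟨zero_mem _, by rw [map_zero]; exact zero_lt_one⟩
    | add x y _ _ hx hy => exact ⟨add_mem hx.1 hy.1, V.valuation.map_add_lt hx.2 hy.2⟩
    | smul a x _ hx =>
      constructor
      · have h3 := Submodule.smul_mem
          (Submodule.span (locV V (Subring.closure ((A₂ : Set L) ∪ Y))) Y)
          (⟨a.1, le_locV _ _ a.2⟩ : ↥(locV V (Subring.closure ((A₂ : Set L) ∪ Y)))) hx.1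
        simp only [Subring.smul_def, smul_eq_mul] at h3 ⊢
        exact h3
      · rw [Subring.smul_def, smul_eq_mul]
        exact E5_val_mul_lt (hCV a.2) hx.2
  rintro z ⟨p, hp, q, hq, hq1, hz⟩
  obtain ⟨a, ha, s, hs, rfl⟩ := h1 p hp
  obtain ⟨b, hb, t, ht, hqe⟩ := h1 q hq
  have hq0 : q ≠ 0 := ne_zero_of_val hq1
  have hb1 : V.valuation b = 1 := by
    have h3 : b = q - t := by rw [hqe]; ring
    rw [h3, sub_eq_add_neg, ← hq1]
    refine Valuation.map_add_eq_of_lt_left V.valuation ?_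
    rw [Valuation.map_neg, hq1]
    exact (h2 t ht).2
  have hb0 : b ≠ 0 := ne_zero_of_val hb1
  have hbi : b⁻¹ ∈ A₂ := E5_inv hloc hb hb1
  have hA₂3 : A₂ ≤ locV V (Subring.closure ((A₂ : Set L) ∪ Y)) := fun x hx =>
    le_locV _ _ (Subring.subset_closure (Or.inl hx))
  have hqi : q⁻¹ ∈ locV V (Subring.closure ((A₂ : Set L) ∪ Y)) :=
    E5_inv (locV_locV _ _) (le_locV _ _ hq) hq1
  refine ⟨a * b⁻¹, mul_mem ha hbi, (s * b - a * t) * (q⁻¹ * b⁻¹), ?_, ?_⟩
  · have h4 := Submodule.smul_mem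
      (Submodule.span (locV V (Subring.closure ((A₂ : Set L) ∪ Y))) Y)
      (⟨b, hA₂3 hb⟩ : ↥(locV V (Subring.closure ((A₂ : Set L) ∪ Y)))) (h2 s hs).1
    have h5 := Submodule.smul_mem
      (Submodule.span (locV V (Subring.closure ((A₂ : Set L) ∪ Y))) Y)
      (⟨a, hA₂3 ha⟩ : ↥(locV V (Subring.closure ((A₂ : Set L) ∪ Y)))) (h2 t ht).1
    have h6 := Submodule.smul_mem
      (Submodule.span (locV V (Subring.closure ((A₂ : Set L) ∪ Y))) Y)
      (⟨q⁻¹ * b⁻¹, mul_mem hqi (hA₂3 hbi)⟩ :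
        ↥(locV V (Subring.closure ((A₂ : Set L) ∪ Y)))) (sub_mem h4 h5)
    simp only [Subring.smul_def, smul_eq_mul] at h6
    have h7 : (s * b - a * t) * (q⁻¹ * b⁻¹) = q⁻¹ * b⁻¹ * (b * s - a * t) := by ring
    rw [h7]
    exact h6
  · have h8 : z = (a + s) * q⁻¹ := by
      rw [← hz, mul_assoc, mul_inv_cancel₀ hq0, mul_one]
    rw [h8]
    field_simp
    rw [hqe]
    ring

/-- Adjoining elements of norm `< 1` does not change the image in the residue field.  Proof.  `im_locV` (module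
Comp1 of MP_3029eb_ag), `TC.im_closure_zero` (Pool/Agent/Lib/TC/E6.lean; import it), and
`locV (resV V (ball L) hV.le) (im (ball L) A₂) = im (ball L) A₂` (again `im_locV` for `A₂`, `hloc`). -/
theorem im_adjoin (hV : OvR k V) {A₂ : Subring L} (hA₂ : A₂ ≤ V.toSubring)
    (hloc : locV V A₂ = A₂) {Y : Set L} (hY : ∀ y ∈ Y, ‖y‖ < 1) :
    im (ball L) (locV V (Subring.closure ((A₂ : Set L) ∪ Y))) = im (ball L) A₂ := by
  have hCV : Subring.closure ((A₂ : Set L) ∪ Y) ≤ V.toSubring := by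
    rw [Subring.closure_le]
    rintro z (hz | hz)
    · exact hA₂ hz
    · exact hV.mem_of_norm (hY z hz)
  rw [im_locV hV.le _ hCV, TC.im_closure_zero (ball L) A₂ (hA₂.trans hV.le) Y
    (fun y hy => (ball_val_lt_one y).2 (hY y hy)), ← im_locV hV.le _ hA₂, hloc]

end

end CS
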