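import Pool.Agent.Lib.TC.Defs
import Pool.Agent.Lib.DA.SDefs

/-!
# Composition of points of rank one with valuations of the residue field: definitions

`k` is a normed field, `L` a normed extension, `ball L` the unit ball as a valuation ring (from
`Pool.Agent.Lib.MP_3029eb_ag.Abh`), `V` a valuation ring of `L` in the unit ball which contains the
constants of norm `≤ 1`.  `mon k e z c` (namespace `DA`) is `c * ∏ e i ^ z i`, `tor k e c π` are the toric
coordinates.  `locV V A` is the localization of the subring `A` at the centre of `V`.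
-/

open Polynomial MP1a953e IsLocalRing

namespace CS
open Pool.Agent.Lib.MP_3029eb_ag Pool.Agent.Lib.MP_3029eb_ag.Abh

section
variable (k : Type) {L : Type} [NormedField k] [IsUltrametricDist k] [NormedField L]
  [IsUltrametricDist L] [NormedAlgebra k L]

/-- `V` is contained in the unit ball and contains the constants of norm `≤ 1` -/
structure OvR (V : ValuationSubring L) : Prop where
  le : V ≤ ball L
  const : ∀ c : k, ‖c‖ ≤ 1 → algebraMap k L c ∈ V

/-- the subring of the constants of norm `≤ 1` -/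
noncomputable def cS (k : Type) (L : Type) [NormedField k] [IsUltrametricDist k] [NormedField L]
    [NormedAlgebra k L] : Subring L := (O k).map (algebraMap k L)

/-- the local ring at the centre of `V` of the ring generated by the constants of norm `≤ 1` and `G` -/
noncomputable def RG (V : ValuationSubring L) (G : Set L) : Subring L :=
  locV V (Subring.closure ((cS k L : Set L) ∪ G))

/-- `x` is a monomial in `e` times a unit of `B` -/
def MU (V : ValuationSubring L) (B : Subring L) {d : ℕ} (e : Fin d → L) (x : L) : Prop :=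
  ∃ (z : Fin d → ℤ) (c : k), c ≠ 0 ∧ ∃ ε ∈ B, V.valuation ε = 1 ∧ x = DA.mon k e z c * ε

/-- `x` is a fraction of elements of `A` with a denominator which is a monomial times a unit of `B` -/
def Dn (V : ValuationSubring L) (A : Subalgebra k L) (B : Subring L) {d : ℕ} (e : Fin d → L)
    (x : L) : Prop :=
  ∃ n ∈ A, ∃ d ∈ A, MU k V B e d ∧ x = n / d

/-- the `B`-submodule generated by the constants of norm `< 1` and `S` -/
noncomputable def SP (B : Subring L) (S : Set L) : Submodule B L :=
  Submodule.span B ((algebraMap k L '' {κ | ‖κ‖ < 1}) ∪ S)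

/-- the elements `mon k e t.1 t.2`, `t ∈ X` -/
def monS {r : ℕ} (e : Fin r → L) (X : Finset ((Fin r → ℤ) × k)) : Set L :=
  {x | ∃ t ∈ X, x = DA.mon k e t.1 t.2}

/-- Parameters for a local ring `B` at the centre of the unit ball: the values of the `e i` are independent
modulo the values of `k`, and the maximal ideal is generated by the maximal ideal of `O k`, finitely many
monomials in `e` (of norm `< 1`) and the `w j`. -/
structure BPar {r h : ℕ} (e : Fin r → L) (w : Fin h → L) (B : Subring L) : Prop where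
  ne : ∀ i, e i ≠ 0
  ind : ∀ (z : Fin r → ℤ) (c : k), ‖c‖ = ‖∏ i, e i ^ z i‖ → z = 0
  wmem : ∀ j, w j ∈ B
  wlt : ∀ j, ‖w j‖ < 1
  gen : ∃ X : Finset ((Fin r → ℤ) × k), (∀ x ∈ monS k e X, ‖x‖ < 1) ∧
    ∀ x ∈ B, ‖x‖ < 1 → x ∈ SP k B (monS k e X ∪ Set.range w)

/-- Parameters for a local ring `B` at the centre of `V`: the values of the `e i` are independent modulo the
values of `k`, and the maximal ideal is generated by the maximal ideal of `O k`, the toric coordinates
and the `w j`. -/
structure VPar (V : ValuationSubring L) {d h : ℕ} (e : Fin d → L) (c : Fin d → k) (π : k)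
    (w : Fin h → L) (B : Subring L) : Prop where
  ne : ∀ i, e i ≠ 0
  ind : ∀ (z : Fin d → ℤ) (a : k), V.valuation (DA.mon k e z a) = 1 → z = 0
  c_ne : ∀ i, c i ≠ 0
  π_ne : π ≠ 0
  mem : ∀ i, DA.tor k e c π i ∈ B
  lt : ∀ i, V.valuation (DA.tor k e c π i) < 1
  wmem : ∀ j, w j ∈ B
  wlt : ∀ j, V.valuation (w j) < 1
  gen : ∀ x ∈ B, V.valuation x < 1 → x ∈ SP k B (Set.range (DA.tor k e c π) ∪ Set.range w)

/-- the residues of the `y j` are algebraically independent over the residue field of `k` -/
def RI (V : ValuationSubring L) {m : ℕ} (y : Fin m → L) : Prop :=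
  ∀ P : MvPolynomial (Fin m) k, (∀ s, ‖P.coeff s‖ ≤ 1) → (∃ s, ‖P.coeff s‖ = 1) →
    V.valuation (MvPolynomial.aeval y P) = 1

/-- Any `m + 1` elements of the unit ball are residually dependent over `k`. -/
def RDep (k L : Type) [NormedField k] [NormedField L] [NormedAlgebra k L] (m : ℕ) : Prop :=
  ∀ u : Fin (m + 1) → L, (∀ i, ‖u i‖ ≤ 1) → ∃ P : MvPolynomial (Fin (m + 1)) k,
    (∀ s, ‖P.coeff s‖ ≤ 1) ∧ (∃ s, ‖P.coeff s‖ = 1) ∧ ‖MvPolynomial.aeval u P‖ < 1

/-- Arbitrarily fine local rings with parameters, at the centre of the unit ball. -/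
def SBase (k L : Type) [NormedField k] [IsUltrametricDist k] [NormedField L]
    [IsUltrametricDist L] [NormedAlgebra k L] (r h : ℕ) : Prop :=
  ∀ A : Subalgebra k L, (∀ x : L, ∃ a ∈ A, ∃ b ∈ A, b ≠ 0 ∧ x = a / b) →
  ∀ S : Finset L, (∀ x ∈ S, x ≠ 0) → ∃ (e : Fin r → L) (w : Fin h → L) (G : Finset L),
    (∀ t ∈ G, ‖t‖ ≤ 1) ∧ BPar k e w (RG k (ball L) (G : Set L)) ∧
    (∀ i, Dn k (ball L) A (RG k (ball L) (G : Set L)) e (e i)) ∧
    (∀ x ∈ S, MU k (ball L) (RG k (ball L) (G : Set L)) e x ∧
      (‖x‖ ≤ 1 → x ∈ RG k (ball L) (G : Set L))) ∧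
    ∀ t ∈ G, Dn k (ball L) A (RG k (ball L) (G : Set L)) e t

/-- Arbitrarily fine local rings with parameters, at the centre of `V`. The number of toric coordinates is
`d + 1`, and `d`, the number of the other parameters and the residual transcendence degree have sum at
most `n`. -/
def VUnif (V : ValuationSubring L) (d n : ℕ) : Prop :=
  ∀ A : Subalgebra k L, (∀ x : L, ∃ a ∈ A, ∃ b ∈ A, b ≠ 0 ∧ x = a / b) →
  ∀ S : Finset L, (∀ x ∈ S, x ≠ 0) →
    ∃ (h : ℕ) (e : Fin d → L) (c : Fin d → k) (π : k) (w : Fin h → L) (G : Finset L),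
    (∀ t ∈ G, t ∈ V) ∧ VPar k V e c π w (RG k V (G : Set L)) ∧
    (∀ (m : ℕ) (y : Fin m → L), (∀ j, y j ∈ RG k V (G : Set L)) → RI k V y → d + h + m ≤ n) ∧
    (∀ x ∈ S, MU k V (RG k V (G : Set L)) e x ∧ (x ∈ V → x ∈ RG k V (G : Set L))) ∧
    ∀ t ∈ G, Dn k V A (RG k V (G : Set L)) e t

/-- the inclusion of the unit ball of `k` into the unit ball of `L` -/
noncomputable def oMap (k L : Type) [NormedField k] [IsUltrametricDist k] [NormedField L]
    [IsUltrametricDist L] [NormedAlgebra k L] : O k →+* ball L :=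
  ((algebraMap k L).comp (O k).subtype).codRestrict (ball L).toSubring fun c => by
    show ‖algebraMap k L (c : k)‖ ≤ 1
    rw [norm_algebraMap']
    exact mem_O.1 c.2

instance oMap_local (k L : Type) [NormedField k] [IsUltrametricDist k] [NormedField L]
    [IsUltrametricDist L] [NormedAlgebra k L] : IsLocalHom (oMap k L) := by
  refine ⟨fun c hc => ?_⟩
  rw [isUnit_O_iff]
  obtain ⟨y, hy⟩ := hc.exists_right_inv
  have h1 : algebraMap k L (c : k) * (y : L) = 1 := congrArg Subtype.val hy
  have h2 : ‖algebraMap k L (c : k)‖ * ‖(y : L)‖ = 1 := by rw [← norm_mul, h1, norm_one]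
  rw [norm_algebraMap'] at h2
  have h3 : ‖(y : L)‖ ≤ 1 := y.2
  refine le_antisymm (mem_O.1 c.2) ?_
  calc (1 : ℝ) = ‖(c : k)‖ * ‖(y : L)‖ := h2.symm
    _ ≤ ‖(c : k)‖ * 1 := mul_le_mul_of_nonneg_left h3 (norm_nonneg _)
    _ = ‖(c : k)‖ := mul_one _

/-- the homomorphism between the residue fields -/
noncomputable def resk (k L : Type) [NormedField k] [IsUltrametricDist k] [NormedField L]
    [IsUltrametricDist L] [NormedAlgebra k L] : ResidueField (O k) →+* ResidueField (ball L) :=
  ResidueField.map (oMap k L)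

/-- The valuation induced by `V` on the residue field of the unit ball can be uniformized, with `r`
parameters of independent values, over all sufficiently large local rings. -/
def WHyp (V : ValuationSubring L) (hV : V ≤ ball L) (r : ℕ) : Prop :=
  ∃ G₀ : Finset L, (∀ t ∈ G₀, t ∈ V) ∧ ∀ G₁ : Finset L, (∀ t ∈ G₁, t ∈ V) → G₀ ⊆ G₁ →
    TC.EMB3 (resV V (ball L) hV) (im (ball L) (RG k V (G₁ : Set L))) r

end

end CS
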