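import Pool.Agent.Lib.CS.Basic
import Pool.Agent.Lib.TC.StepAk
import Pool.Agent.Lib.MP_3029eb_ag.H44Comp
import Pool.Agent.Lib.MP_3029eb_ag.Comp4

/-!
# Module CS.DimW: counting residually independent elements
-/

open Polynomial MP1a953e IsLocalRing

namespace CS
set_option linter.unusedSectionVars false
open Pool.Agent.Lib.MP_3029eb_ag Pool.Agent.Lib.MP_3029eb_ag.Abh

section
variable {k : Type} {L : Type} [NormedField k] [IsUltrametricDist k] [NormedField L]
  [IsUltrametricDist L] [NormedAlgebra k L] {V : ValuationSubring L}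

private theorem DW_resk (c : O k) : resk k L (residue (O k) c) = residue (ball L) (oMap k L c) :=
  rfl

private theorem DW_coe (c : O k) : ((oMap k L c : ball L) : L) = algebraMap k L (c : k) := rfl

/-- The image of `RG k V G` in the residue field of the unit ball is essentially of finite type over the residue field
of `O k`.  Proof.  `exists_EFT_RG` (`f : O k →+* A`, `A = RG k V G`) composed with the surjection
`toIm : A → im (ball L) A` (`toIm`, `toIm_surjective` as used in Pool/Agent/Lib/TC/StepD.lean; find the module with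
grep) is EFT (`EFT_comp_surjective`) and kills the maximal ideal of `O k` (elements of norm `< 1`), so it factors
through `ResidueField (O k) = O k ⧸ maximalIdeal` (`Ideal.Quotient.lift`); the factor is EFT
(`Algebra.EssFiniteType.of_comp`), and its composition with the inclusion into `ResidueField (ball L)` is `resk k L`
(check on residues of elements of `O k`). -/
theorem exists_EFT_im (hV : OvR k V) (G : Finset L) (hG : ∀ t ∈ G, t ∈ V) :
    ∃ f : ResidueField (O k) →+* im (ball L) (RG k V (G : Set L)), EFT f ∧
      ∀ c, (f c : ResidueField (ball L)) = resk k L c := by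
  obtain ⟨f₀, hf₀, hfc⟩ := exists_EFT_RG (k := k) V G
  have hle : RG k V (G : Set L) ≤ (ball L).toSubring := (RG_le hV hG).trans hV.le
  have hg := EFT_comp_surjective f₀ (toIm (ball L) _ hle) hf₀ (toIm_surjective _ _ _)
  have hgc : ∀ c, ((toIm (ball L) _ hle).comp f₀ c : ResidueField (ball L)) =
      residue (ball L) (oMap k L c) := by
    intro c
    show residue (ball L) _ = residue (ball L) _
    congr 1
    exact Subtype.ext (hfc c)
  generalize (toIm (ball L) _ hle).comp f₀ = g at hg hgc
  have hker : ∀ c ∈ maximalIdeal (O k), g c = 0 := by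
    intro c hc
    apply Subtype.ext
    rw [hgc, ← DW_resk, (residue_eq_zero_iff c).2 hc, map_zero]
    rfl
  refine ⟨Ideal.Quotient.lift (maximalIdeal (O k)) g hker, ?_, ?_⟩
  · let i1 : Algebra (O k) (im (ball L) (RG k V (G : Set L))) := g.toAlgebra
    let i2 : Algebra (ResidueField (O k)) (im (ball L) (RG k V (G : Set L))) :=
      (Ideal.Quotient.lift (maximalIdeal (O k)) g hker).toAlgebra
    have hst : IsScalarTower (O k) (ResidueField (O k)) (im (ball L) (RG k V (G : Set L))) :=
      IsScalarTower.of_algebraMap_eq fun c => (Ideal.Quotient.lift_mk _ g hker).symm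
    have h1 : Algebra.EssFiniteType (O k) (im (ball L) (RG k V (G : Set L))) := hg
    exact @Algebra.EssFiniteType.of_comp (O k) (ResidueField (O k))
      (im (ball L) (RG k V (G : Set L))) _ _ _ _ i1 i2 hst h1
  · intro c
    obtain ⟨c, rfl⟩ := residue_surjective c
    rw [DW_resk, ← hgc]
    congr 1

/-- residues of values of polynomials -/
private theorem DW_key {n : ℕ} (u : Fin n → L) (hu : ∀ i, ‖u i‖ ≤ 1)
    (P : MvPolynomial (Fin n) (O k)) :
    MvPolynomial.aeval u (P.map (O k).subtype) ∈ ball L ∧
    rs (ball L) (MvPolynomial.aeval u (P.map (O k).subtype)) =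
      MvPolynomial.eval₂ (resk k L) (fun i => rs (ball L) (u i)) (P.map (residue (O k))) := by
  let u' : Fin n → ball L := fun i => ⟨u i, (mem_ball _).2 (hu i)⟩
  have h1 : MvPolynomial.aeval u (P.map (O k).subtype) =
      ((MvPolynomial.eval₂ (oMap k L) u' P : ball L) : L) := by
    rw [MvPolynomial.aeval_def, MvPolynomial.eval₂_map]
    exact (MvPolynomial.eval₂_comp_left (ball L).subtype (oMap k L) u' P).symm
  rw [h1]
  refine ⟨Subtype.property _, ?_⟩
  rw [rs_coe, MvPolynomial.eval₂_map]
  refine (MvPolynomial.eval₂_comp_left (residue (ball L)) (oMap k L) u' P).trans ?_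
  have h2 : (residue (ball L)).comp (oMap k L) = (resk k L).comp (residue (O k)) :=
    RingHom.ext fun c => (DW_resk c).symm
  rw [h2]
  congr 1
  funext i
  exact (rs_eq ((mem_ball _).2 (hu i))).symm

/-- polynomials with coefficients of norm at most one -/
private theorem DW_lift {n : ℕ} (P : MvPolynomial (Fin n) k) (hP : ∀ s, ‖P.coeff s‖ ≤ 1) :
    ∃ P₀ : MvPolynomial (Fin n) (O k), P₀.map (O k).subtype = P := by
  have h : P ∈ Set.range (MvPolynomial.map (O k).subtype : MvPolynomial (Fin n) (O k) → _) := by
    rw [MvPolynomial.mem_range_map_iff_coeffs_subset]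
    intro c hc
    obtain ⟨s, -, rfl⟩ := MvPolynomial.mem_coeffs_iff.1 hc
    exact ⟨⟨_, mem_O.2 (hP s)⟩, rfl⟩
  exact h

private theorem DW_norm_one {c : O k} : residue (O k) c ≠ 0 ↔ ‖(c : k)‖ = 1 := by
  rw [residue_ne_zero_iff_isUnit, isUnit_O_iff]

open scoped IntermediateField.algebraAdjoinAdjoin in
private theorem DW_adj (k : Type) {K : Type} [Field k] [Field K] [Algebra k K] {s : ℕ}
    (y : Fin s → K) (hind : AlgebraicIndependent k y) :
    Algebra.trdeg k (IntermediateField.adjoin k (Set.range y)) = ((s : ℕ) : Cardinal) := by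
  have h1 := _root_.trdeg_add_eq k (Algebra.adjoin k (Set.range y))
    (A := IntermediateField.adjoin k (Set.range y))
  rw [_root_.trdeg_eq_zero (R := Algebra.adjoin k (Set.range y)), add_zero] at h1
  rw [← h1, ← hind.aevalEquiv.trdeg_eq, MvPolynomial.trdeg_of_isDomain]
  simp

/-- the transcendence degree of the residue field -/
private theorem DW_trdeg {m₀ : ℕ} (hRD : RDep k L m₀) :
    letI := (resk k L).toAlgebra
    Algebra.trdeg (ResidueField (O k)) (ResidueField (ball L)) ≤ ((m₀ : ℕ) : Cardinal) := by
  let _ : Algebra (ResidueField (O k)) (ResidueField (ball L)) := (resk k L).toAlgebra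
  refine ciSup_le' fun ⟨s, hs⟩ => ?_
  by_contra hcon
  rw [not_le] at hcon
  have h1 : Cardinal.mk (Fin (m₀ + 1)) ≤ Cardinal.mk s := by
    have h2 := Order.succ_le_of_lt hcon
    rw [Cardinal.mk_fin, Nat.cast_succ]
    rwa [← Cardinal.succ_natCast] at *
  obtain ⟨e⟩ := h1
  have hind := AlgebraicIndependent.comp hs e e.injective
  choose u hu using fun i => residue_surjective (R := ball L) ((e i : s) : ResidueField (ball L))
  obtain ⟨P, hP1, ⟨t, ht⟩, hP3⟩ := hRD (fun i => (u i : L)) fun i => (mem_ball _).1 (u i).2
  obtain ⟨P₀, hP₀⟩ := DW_lift P hP1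
  obtain ⟨-, h2⟩ := DW_key (k := k) (fun i => (u i : L)) (fun i => (mem_ball _).1 (u i).2) P₀
  rw [hP₀, (rs_eq_zero ((mem_ball _).2 hP3.le)).2 ((ball_val_lt_one _).2 hP3)] at h2
  have h3 : (fun i => rs (ball L) (u i : L)) = fun i => ((e i : s) : ResidueField (ball L)) := by
    funext i
    rw [rs_coe, hu]
  rw [h3] at h2
  have h4 := (algebraicIndependent_iff.1 hind) (P₀.map (residue (O k))) h2.symm
  have h5 : residue (O k) (P₀.coeff t) = 0 := by
    rw [← MvPolynomial.coeff_map, h4, MvPolynomial.coeff_zero]
  refine DW_norm_one.2 ?_ h5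
  rw [← ht, ← hP₀, MvPolynomial.coeff_map]
  rfl

/-- The dimension of the image of `RG k V G` in the residue field of the unit ball, plus the number of residually
independent elements (for `V`), is at most the residual transcendence degree (for the unit ball).
Proof.  Let `κ = ResidueField (O k)`, `lam = ResidueField (ball L)` with the `κ`-algebra structure `resk k L`,
`B = im (ball L) (RG k V G) ⊆ lam`, a local domain, `κ → B` EFT (`exists_EFT_im`). The residues `η j` of `y j` are in `B`,
and for a nonzero polynomial `P` over `κ` the element `P(η)` is a unit of `B` (lift the coefficients: `P(y)` has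
`V`-value one by `hRI`, so its inverse is in `RG k V G`). So `B` contains the field `F = κ(η)`, `B` is essentially
of finite type over `F` (`Algebra.EssFiniteType.of_comp`), and `ringKrullDim B ≤ trdeg_F (Frac B)` (for a domain
essentially of finite type over a field; see Mathlib and Pool/Agent/Lib/TC/DimLow.lean, `TC.dim_eq`, or use: `B` is a
localization of a finitely generated `F`-algebra `C` which is a domain, `ringKrullDim C = trdeg_F C` by Noether
normalization). Hence `trdeg_κ (Frac B) ≥ n' + m`, and there are `n' + m` elements of `Frac B ⊆ lam` which are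
algebraically independent over `κ`. If `n' + m > m₀` lift `m₀ + 1` of them to elements of norm `≤ 1` of `L`; this
contradicts `hRD` (a relation with coefficients of norm `≤ 1`, one of norm `1`, gives a nonzero relation over `κ`). -/
theorem dim_res (hV : OvR k V) (G : Finset L) (hG : ∀ t ∈ G, t ∈ V) {m₀ : ℕ}
    (hRD : RDep k L m₀) {n' : ℕ}
    (hn : ((n' : ℕ) : WithBot ℕ∞) ≤ ringKrullDim (im (ball L) (RG k V (G : Set L)))) {m : ℕ}
    (y : Fin m → L) (hy : ∀ j, y j ∈ RG k V (G : Set L)) (hRI : RI k V y) : n' + m ≤ m₀ := by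
  classical
  obtain ⟨f, hf, hfc⟩ := exists_EFT_im hV G hG
  have hle : RG k V (G : Set L) ≤ (ball L).toSubring := (RG_le hV hG).trans hV.le
  let _ : Algebra (ResidueField (O k)) (ResidueField (ball L)) := (resk k L).toAlgebra
  have htr : Algebra.trdeg (ResidueField (O k)) (ResidueField (ball L)) ≤ ((m₀ : ℕ) : Cardinal) :=
    DW_trdeg hRD
  let η : Fin m → ResidueField (ball L) := fun j => rs (ball L) (y j)
  have hynorm : ∀ j, ‖y j‖ ≤ 1 := fun j => (mem_ball _).1 (hle (hy j))
  have hval : ∀ P : MvPolynomial (Fin m) (ResidueField (O k)), P ≠ 0 →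
      MvPolynomial.aeval η P ∈ im (ball L) (RG k V (G : Set L)) ∧ MvPolynomial.aeval η P ≠ 0 ∧
      (MvPolynomial.aeval η P)⁻¹ ∈ im (ball L) (RG k V (G : Set L)) := by
    intro P hP
    obtain ⟨P₀, rfl⟩ := MvPolynomial.map_surjective (residue (O k)) residue_surjective P
    obtain ⟨-, h2⟩ := DW_key (k := k) y hynorm P₀
    obtain ⟨s, hs⟩ := MvPolynomial.ne_zero_iff.1 hP
    rw [MvPolynomial.coeff_map] at hs
    have h3 : V.valuation (MvPolynomial.aeval y (P₀.map (O k).subtype)) = 1 := by
      refine hRI _ (fun s => ?_) ⟨s, ?_⟩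
      · rw [MvPolynomial.coeff_map]
        exact mem_O.1 (P₀.coeff s).2
      · rw [MvPolynomial.coeff_map]
        exact DW_norm_one.1 hs
    have h4 : MvPolynomial.aeval y (P₀.map (O k).subtype) ∈ RG k V (G : Set L) := by
      rw [MvPolynomial.aeval_def]
      refine MvPolynomial.eval₂_mem (fun i _ => ?_) hy
      rw [MvPolynomial.coeff_map]
      exact const_mem_RG _ (mem_O.1 (P₀.coeff i).2)
    have h5 := RG_inv h4 h3
    have h6 := C1_val_one_of_le hV.le h3
    have h7 : MvPolynomial.aeval η (P₀.map (residue (O k))) =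
        rs (ball L) (MvPolynomial.aeval y (P₀.map (O k).subtype)) := h2.symm
    rw [h7, ← rs_inv h6]
    exact ⟨(mem_im_iff hle _).2 ⟨_, h4, rfl⟩, rs_ne_zero h6, (mem_im_iff hle _).2 ⟨_, h5, rfl⟩⟩
  have hind : AlgebraicIndependent (ResidueField (O k)) η := by
    rw [algebraicIndependent_iff]
    intro p hp
    by_contra hp0
    exact (hval p hp0).2.1 hp
  -- the subfield
  let F : IntermediateField (ResidueField (O k)) (ResidueField (ball L)) :=
    IntermediateField.adjoin (ResidueField (O k)) (Set.range η)
  have hFB : ∀ z ∈ F, z ∈ im (ball L) (RG k V (G : Set L)) := by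
    intro z hz
    obtain ⟨p, q, hpq⟩ := (IntermediateField.mem_adjoin_range_iff (ResidueField (O k)) η z).mp hz
    by_cases hq : q = 0
    · rw [hpq, hq, map_zero, div_zero]
      exact Subring.zero_mem _
    · by_cases hp : p = 0
      · rw [hpq, hp, map_zero, zero_div]
        exact Subring.zero_mem _
      · rw [hpq, div_eq_mul_inv]
        exact Subring.mul_mem _ (hval p hp).1 (hval q hq).2.2
  let g : F →+* im (ball L) (RG k V (G : Set L)) :=
    (F.toSubring.subtype).codRestrict _ (fun z => hFB z.1 z.2)
  let _ : Algebra (ResidueField (O k)) (im (ball L) (RG k V (G : Set L))) := f.toAlgebra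
  let _ : Algebra F (im (ball L) (RG k V (G : Set L))) := g.toAlgebra
  have hkA' : ∀ c : ResidueField (O k),
      ((algebraMap (ResidueField (O k)) (im (ball L) (RG k V (G : Set L))) c :
        im (ball L) (RG k V (G : Set L))) : ResidueField (ball L)) = resk k L c := hfc
  have hk'A' : ∀ z : F, ((algebraMap F (im (ball L) (RG k V (G : Set L))) z :
      im (ball L) (RG k V (G : Set L))) : ResidueField (ball L)) = z := fun z => rfl
  have hst : IsScalarTower (ResidueField (O k)) F (im (ball L) (RG k V (G : Set L))) :=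
    IsScalarTower.of_algebraMap_eq fun c => by
      apply Subtype.ext
      rw [hkA', hk'A']
      rfl
  have heft : Algebra.EssFiniteType (ResidueField (O k)) (im (ball L) (RG k V (G : Set L))) := hf
  have heft' : Algebra.EssFiniteType F (im (ball L) (RG k V (G : Set L))) :=
    Algebra.EssFiniteType.of_comp (ResidueField (O k)) F _
  have hk's : Algebra.trdeg (ResidueField (O k)) F = ((m : ℕ) : Cardinal) := DW_adj _ η hind
  have hadd : Algebra.trdeg (ResidueField (O k)) F + Algebra.trdeg F (ResidueField (ball L)) =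
      Algebra.trdeg (ResidueField (O k)) (ResidueField (ball L)) :=
    _root_.trdeg_add_eq (ResidueField (O k)) F (A := ResidueField (ball L))
  rw [← hadd, hk's] at htr
  obtain ⟨d, hd⟩ : ∃ d : ℕ, Algebra.trdeg F (ResidueField (ball L)) = ((d : ℕ) : Cardinal) := by
    have h1 : Algebra.trdeg F (ResidueField (ball L)) < Cardinal.aleph0 := by
      refine lt_of_le_of_lt ?_ (Cardinal.natCast_lt_aleph0 (n := m₀))
      exact (self_le_add_left _ _).trans htr
    exact Cardinal.lt_aleph0.mp h1
  have hdn : m + d ≤ m₀ := by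
    rw [hd] at htr
    exact_mod_cast htr
  let ι : im (ball L) (RG k V (G : Set L)) →ₐ[F] ResidueField (ball L) :=
    { (im (ball L) (RG k V (G : Set L))).subtype with
      commutes' := fun z => rfl }
  have hdA : Algebra.trdeg F (im (ball L) (RG k V (G : Set L))) ≤ ((d : ℕ) : Cardinal) := by
    rw [← hd]
    exact trdeg_le_of_injective ι Subtype.val_injective
  have h8 := hn.trans (TC.dim_le_trdeg F (im (ball L) (RG k V (G : Set L))) hdA)
  have h9 : n' ≤ d := by exact_mod_cast h8
  omega

end

end CS
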