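import Pool.Agent.Lib.CS.Basic
import Pool.Agent.Lib.DA.S1

/-!
# Module CS.Fine: fine toric coordinates for composite valuations
-/

open Polynomial MP1a953e IsLocalRing

namespace CS
set_option linter.unusedSectionVars false
open Pool.Agent.Lib.MP_3029eb_ag Pool.Agent.Lib.MP_3029eb_ag.Abh

section
variable {k : Type} {L : Type} [NontriviallyNormedField k] [IsUltrametricDist k] [IsAlgClosed k]
  [NormedField L] [IsUltrametricDist L] [NormedAlgebra k L] {V : ValuationSubring L}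

private theorem Fine_tor_zero {r s : ℕ} (e : Fin r → L) (u : Fin s → L) (c₀ : Fin r → k) (π : k) :
    DA.tor k (Fin.append e u) (Fin.append c₀ (fun _ => 1)) π 0 =
      DA.tor k e c₀ π 0 * ∏ j, (u j)⁻¹ := by
  simp only [DA.tor, Fin.cons_zero]
  rw [Fin.prod_univ_add]
  simp only [Fin.append_left, Fin.append_right, map_one, one_div]
  ring

private theorem Fine_tor_left {r s : ℕ} (e : Fin r → L) (u : Fin s → L) (c₀ : Fin r → k) (π : k)
    (i : Fin r) : DA.tor k (Fin.append e u) (Fin.append c₀ (fun _ => 1)) π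
      (Fin.castAdd s i).succ = DA.tor k e c₀ π i.succ := by
  simp only [DA.tor, Fin.cons_succ, Fin.append_left]

private theorem Fine_tor_right {r s : ℕ} (e : Fin r → L) (u : Fin s → L) (c₀ : Fin r → k) (π : k)
    (j : Fin s) : DA.tor k (Fin.append e u) (Fin.append c₀ (fun _ => 1)) π
      (Fin.natAdd r j).succ = u j := by
  simp only [DA.tor, Fin.cons_succ, Fin.append_right, map_one, div_one]

/-- Fine toric coordinates for `(e, u)`, where the `u j` are units of the unit ball with `V`-values `< 1`.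
Proof.  Put `e' = Fin.append e u`. `DA.exists_tor_exp` (module DA.S1, for `e'`) gives for each `t ∈ T` exponents
`n t : Fin (r + s + 1) → ℕ`, depending only on `t.1`. Let `δ < 1`, `0 < δ`, be such that `‖mon e' t.1 t.2‖ ≤ δ ^ (∑ n t)`
for all `t ∈ T` (finitely many numbers `< 1`). `DA.exists_fine` for `e` and `δ` gives `c₀ : Fin r → k` and `π` with
`δ < ‖tor k e c₀ π i‖ < 1`. Put `c = Fin.append c₀ 1`. Then `tor k e' c π 0 = tor k e c₀ π 0 * ∏ j, (u j)⁻¹`,
`tor k e' c π (Fin.castAdd s i).succ = tor k e c₀ π i.succ`, `tor k e' c π (Fin.natAdd r j).succ = u j`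
(definition of `tor`: `Fin.cons`; `Fin.prod_univ_add`), so all norms are in `(δ, 1]`, those of the first two kinds are
`< 1` (hence the `V`-values are `< 1`, `OvR.lt_of_norm`), and the `V`-values of the third kind are `< 1` by hypothesis.
For `t ∈ T`: `mon e' t.1 t.2 = algebraMap a * ∏ tor i ^ n i` with
`‖a‖ = ‖mon‖ / ∏ ‖tor i‖ ^ n i ≤ ‖mon‖ / δ ^ (∑ n i) ≤ 1`. If some `n i ≠ 0` the element is a multiple of `tor i` in the
ring `C = closure (cS ∪ range tor)`; if all `n i = 0` it is the constant `a`, whose norm is that of the monomial,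
`< 1`. In both cases it is in `SP k C (range tor)`. -/
theorem exists_fineV (hV : OvR k V) {r s : ℕ} {e : Fin r → L} (hne : ∀ i, e i ≠ 0)
    {u : Fin s → L} (hu : ∀ j, ‖u j‖ = 1) (hu1 : ∀ j, V.valuation (u j) < 1)
    (T : Finset ((Fin (r + s) → ℤ) × k))
    (hT : ∀ t ∈ T, ‖DA.mon k (Fin.append e u) t.1 t.2‖ < 1) :
    ∃ (c : Fin (r + s) → k) (π : k), (∀ i, c i ≠ 0) ∧ π ≠ 0 ∧
      (∀ i, V.valuation (DA.tor k (Fin.append e u) c π i) < 1) ∧
      (∀ i, ‖DA.tor k (Fin.append e u) c π i‖ < 1 ∨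
        ∃ j, DA.tor k (Fin.append e u) c π i = u j) ∧
      (∀ j, DA.tor k (Fin.append e u) c π (Fin.natAdd r j).succ = u j) ∧
      ∀ t ∈ T, DA.mon k (Fin.append e u) t.1 t.2 ∈
        SP k (Subring.closure ((cS k L : Set L) ∪ Set.range (DA.tor k (Fin.append e u) c π)))
          (Set.range (DA.tor k (Fin.append e u) c π)) := by
  classical
  have hune : ∀ j, u j ≠ 0 := fun j h => by
    have h1 := hu j
    rw [h, norm_zero] at h1
    exact zero_ne_one h1
  have hne' : ∀ i, Fin.append e u i ≠ 0 := by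
    intro i
    refine Fin.addCases (fun i => ?_) (fun j => ?_) i
    · rw [Fin.append_left]
      exact hne i
    · rw [Fin.append_right]
      exact hune j
  choose n hn using fun z => DA.exists_tor_exp (k := k) hne' z
  obtain ⟨δ, hδ0, hδ1, hδ⟩ : ∃ δ : ℝ, 0 < δ ∧ δ < 1 ∧ ∀ t ∈ T,
      ‖DA.mon k (Fin.append e u) t.1 t.2‖ < δ ^ (∑ i, n t.1 i) := by
    have h1 : ∀ t ∈ T, ∀ᶠ δ : ℝ in nhdsWithin 1 (Set.Iio 1),
        ‖DA.mon k (Fin.append e u) t.1 t.2‖ < δ ^ (∑ i, n t.1 i) := by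
      intro t ht
      have h2 : Filter.Tendsto (fun δ : ℝ => δ ^ (∑ i, n t.1 i)) (nhdsWithin 1 (Set.Iio 1))
          (nhds 1) := by
        have h3 : ContinuousAt (fun δ : ℝ => δ ^ (∑ i, n t.1 i)) 1 :=
          (continuous_pow _).continuousAt
        have h4 := h3.tendsto
        simp only [one_pow] at h4
        exact h4.mono_left nhdsWithin_le_nhds
      exact h2.eventually (lt_mem_nhds (hT t ht))
    have h2 : ∀ᶠ δ : ℝ in nhdsWithin 1 (Set.Iio 1), 0 < δ :=
      nhdsWithin_le_nhds (lt_mem_nhds zero_lt_one)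
    have h3 : ∀ᶠ δ : ℝ in nhdsWithin 1 (Set.Iio 1), δ < 1 := self_mem_nhdsWithin
    have h4 := (Filter.eventually_all_finset T).2 h1
    obtain ⟨δ, h5, h6, h7⟩ := (h2.and (h3.and h4)).exists
    exact ⟨δ, h5, h6, h7⟩
  obtain ⟨c₀, π, hF⟩ := DA.exists_fine (k := k) hne hδ1
  refine ⟨Fin.append c₀ (fun _ => 1), π, ?_, hF.π_ne, ?_⟩
  · intro i
    refine Fin.addCases (fun i => ?_) (fun j => ?_) i
    · rw [Fin.append_left]
      exact hF.c_ne i
    · rw [Fin.append_right]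
      exact one_ne_zero
  have hn0 : ‖DA.tor k (Fin.append e u) (Fin.append c₀ (fun _ => 1)) π 0‖ =
      ‖DA.tor k e c₀ π 0‖ := by
    rw [Fine_tor_zero, norm_mul, norm_prod, Finset.prod_eq_one, mul_one]
    intro j _
    rw [norm_inv, hu j, inv_one]
  -- the three kinds of coordinates
  have key : ∀ i, (δ < ‖DA.tor k (Fin.append e u) (Fin.append c₀ (fun _ => 1)) π i‖) ∧
      (‖DA.tor k (Fin.append e u) (Fin.append c₀ (fun _ => 1)) π i‖ < 1 ∨
        ∃ j, DA.tor k (Fin.append e u) (Fin.append c₀ (fun _ => 1)) π i = u j) := by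
    intro i
    refine Fin.cases ?_ (fun i => ?_) i
    · rw [hn0]
      exact ⟨hF.lo 0, Or.inl (hF.hi 0)⟩
    · refine Fin.addCases (fun i => ?_) (fun j => ?_) i
      · rw [Fine_tor_left]
        exact ⟨hF.lo _, Or.inl (hF.hi _)⟩
      · rw [Fine_tor_right, hu j]
        exact ⟨hδ1, Or.inr ⟨j, rfl⟩⟩
  refine ⟨fun i => ?_, fun i => (key i).2, fun j => Fine_tor_right e u c₀ π j, fun t ht => ?_⟩
  · rcases (key i).2 with h | ⟨j, h⟩
    · exact hV.lt_of_norm h
    · rw [h]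
      exact hu1 j
  set τ := DA.tor k (Fin.append e u) (Fin.append c₀ (fun _ => 1)) π with hτ
  have hc' : ∀ i, (Fin.append c₀ (fun _ => 1) : Fin (r + s) → k) i ≠ 0 := by
    intro i
    refine Fin.addCases (fun i => ?_) (fun j => ?_) i
    · rw [Fin.append_left]
      exact hF.c_ne i
    · rw [Fin.append_right]
      exact one_ne_zero
  obtain ⟨a, ha⟩ := hn t.1 (Fin.append c₀ (fun _ => 1)) π hc' hF.π_ne t.2
  rw [← hτ] at ha
  have hprod : δ ^ (∑ i, n t.1 i) ≤ ‖∏ i, τ i ^ n t.1 i‖ := by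
    rw [norm_prod, ← Finset.prod_pow_eq_pow_sum]
    refine Finset.prod_le_prod (fun i _ => pow_nonneg hδ0.le _) fun i _ => ?_
    rw [norm_pow]
    exact pow_le_pow_left₀ hδ0.le (key i).1.le _
  have hpp : 0 < ‖∏ i, τ i ^ n t.1 i‖ := lt_of_lt_of_le (pow_pos hδ0 _) hprod
  have ha1 : ‖a‖ ≤ 1 := by
    have h1 : ‖a‖ * ‖∏ i, τ i ^ n t.1 i‖ = ‖DA.mon k (Fin.append e u) t.1 t.2‖ := by
      rw [ha, norm_mul, norm_algebraMap']
    by_contra hcon
    rw [not_le] at hcon
    have h2 : ‖∏ i, τ i ^ n t.1 i‖ < ‖a‖ * ‖∏ i, τ i ^ n t.1 i‖ :=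
      lt_mul_of_one_lt_left hpp hcon
    have h3 := hδ t ht
    linarith
  have hCc : ∀ x ∈ cS k L, x ∈ Subring.closure ((cS k L : Set L) ∪ Set.range τ) := fun x hx =>
    Subring.subset_closure (Or.inl hx)
  have hCt : ∀ i, τ i ∈ Subring.closure ((cS k L : Set L) ∪ Set.range τ) := fun i =>
    Subring.subset_closure (Or.inr ⟨i, rfl⟩)
  by_cases h0 : ∀ i, n t.1 i = 0
  · have h1 : DA.mon k (Fin.append e u) t.1 t.2 = algebraMap k L a := by
      rw [ha, Finset.prod_eq_one, mul_one]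
      intro i _
      rw [h0 i, pow_zero]
    have h2 := hT t ht
    rw [h1, norm_algebraMap'] at h2
    rw [h1]
    exact SP_const h2
  · rw [not_forall] at h0
    obtain ⟨i, hi⟩ := h0
    rw [ha, ← Finset.mul_prod_erase _ _ (Finset.mem_univ i)]
    obtain ⟨m, hm⟩ := Nat.exists_eq_succ_of_ne_zero hi
    rw [hm, Nat.succ_eq_add_one, pow_succ']
    have h1 : algebraMap k L a * (τ i * τ i ^ m * ∏ j ∈ Finset.univ.erase i, τ j ^ n t.1 j) =
        (algebraMap k L a * (τ i ^ m * ∏ j ∈ Finset.univ.erase i, τ j ^ n t.1 j)) * τ i := by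
      ring
    rw [h1]
    refine SP_mul ?_ (SP_of_mem ⟨i, rfl⟩)
    exact mul_mem (hCc _ (mem_cS.2 ⟨a, ha1, rfl⟩)) (mul_mem (pow_mem (hCt i) _)
      (prod_mem fun j _ => pow_mem (hCt j) _))

end

end CS
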