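import Pool.Agent.Lib.CS.VDefs

/-!
# Module CS.MkCht: charts from parameters
-/

open Polynomial MP1a953e IsLocalRing

namespace CS
open Pool.Agent.Lib.MP_3029eb_ag Pool.Agent.Lib.MP_3029eb_ag.Abh

section
variable {k : Type} {L : Type} [NormedField k] [IsUltrametricDist k] [NormedField L]
  [IsUltrametricDist L] [NormedAlgebra k L] {V : ValuationSubring L}

/-- the property to be shown for the elements of value less than one -/
private def mkQ (V : ValuationSubring L) (B C : Subalgebra (O k) L) (b : L) : Prop :=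
  ∃ s ∈ B, V.valuation s = 1 ∧ ∃ (M : ℕ) (x y : Fin M → L),
    (∀ i, x i ∈ C ∧ V.valuation (x i) < 1 ∧ y i ∈ B) ∧ s * b = ∑ i, x i * y i

private theorem mkQ_zero (B C : Subalgebra (O k) L) : mkQ V B C 0 :=
  ⟨1, B.one_mem, map_one _, 0, Fin.elim0, Fin.elim0, fun i => i.elim0, by simp⟩

private theorem mkQ_gen (B C : Subalgebra (O k) L) {x : L} (hx : x ∈ C)
    (h1 : V.valuation x < 1) : mkQ V B C x :=
  ⟨1, B.one_mem, map_one _, 1, fun _ => x, fun _ => 1, fun _ => ⟨hx, h1, B.one_mem⟩, by simp⟩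

private theorem mkQ_add (B C : Subalgebra (O k) L) {b b' : L} (h : mkQ V B C b)
    (h' : mkQ V B C b') : mkQ V B C (b + b') := by
  obtain ⟨s, hs, hs1, M, x, y, hxy, he⟩ := h
  obtain ⟨s', hs', hs1', M', x', y', hxy', he'⟩ := h'
  refine ⟨s * s', mul_mem hs hs', by rw [map_mul, hs1, hs1', one_mul], M + M', Fin.append x x',
    Fin.append (fun i => s' * y i) (fun i => s * y' i), fun i => ?_, ?_⟩
  · refine Fin.addCases (fun j => ?_) (fun j => ?_) i
    · rw [Fin.append_left, Fin.append_left]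
      exact ⟨(hxy j).1, (hxy j).2.1, mul_mem hs' (hxy j).2.2⟩
    · rw [Fin.append_right, Fin.append_right]
      exact ⟨(hxy' j).1, (hxy' j).2.1, mul_mem hs (hxy' j).2.2⟩
  · rw [Fin.sum_univ_add]
    simp only [Fin.append_left, Fin.append_right]
    have e1 : ∑ i, x i * (s' * y i) = s' * ∑ i, x i * y i := by
      rw [Finset.mul_sum]
      exact Finset.sum_congr rfl fun i _ => by ring
    have e2 : ∑ i, x' i * (s * y' i) = s * ∑ i, x' i * y' i := by
      rw [Finset.mul_sum]
      exact Finset.sum_congr rfl fun i _ => by ring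
    rw [e1, e2, ← he, ← he']
    ring

private theorem mkQ_smul (B C : Subalgebra (O k) L) {a b : L}
    (ha : ∃ p ∈ B, ∃ q ∈ B, V.valuation q = 1 ∧ a = p / q) (h : mkQ V B C b) :
    mkQ V B C (a * b) := by
  obtain ⟨p, hp, q, hq, hq1, rfl⟩ := ha
  obtain ⟨s, hs, hs1, M, x, y, hxy, he⟩ := h
  refine ⟨q * s, mul_mem hq hs, by rw [map_mul, hq1, hs1, one_mul], M, x, fun i => p * y i,
    fun i => ⟨(hxy i).1, (hxy i).2.1, mul_mem hp (hxy i).2.2⟩, ?_⟩
  have e1 : ∑ i, x i * (p * y i) = p * ∑ i, x i * y i := by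
    rw [Finset.mul_sum]
    exact Finset.sum_congr rfl fun i _ => by ring
  rw [e1, ← he]
  have hq0 : q ≠ 0 := ne_zero_of_val hq1
  field_simp

private theorem mk_aeval {m : ℕ} {y : Fin m → L} (C : Subalgebra (O k) L) (hy : ∀ j, y j ∈ C)
    (P : MvPolynomial (Fin m) k) (hP : ∀ s, ‖P.coeff s‖ ≤ 1) : MvPolynomial.aeval y P ∈ C := by
  rw [MvPolynomial.aeval_def, MvPolynomial.eval₂_eq]
  refine sum_mem fun s _ => mul_mem ?_ (prod_mem fun i _ => pow_mem (hy i) _)
  exact C.algebraMap_mem ⟨P.coeff s, mem_O.2 (hP s)⟩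

/-- Proof.  `B = Algebra.adjoin (O k) (G ∪ range (tor k e c π) ∪ range w ∪ range y)`; its elements are in
`A = RG k V G` (`const_mem_RG`, `mem_RG`, `hP.mem`, `hP.wmem`, `hy`), and `closure (cS ∪ G) ≤ B`, so `A` consists of the
fractions of elements of `B` with a denominator of value one (definition of `RG` and `locV`; `locV_RG`). `le`: clear
(`range (Fin.append w y) = range w ∪ range y`). `mem`: `RG_le`. `unr`: let `b ∈ B`, `V.valuation b < 1`. By `hP.gen` and
`mem_SP_iff` `b = κ * b₀ + z`, `z` in the `A`-span of `range tor ∪ range w`: `z` is a finite sum `∑ a i * g i`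
(`Submodule.mem_span_set'` or similar); multiply by a common denominator `s ∈ B` of value one of `b₀` and the `a i`:
`s * b = ∑ x i * y i` with `x i ∈ {κ} ∪ range tor ∪ range w`, all of value `< 1` (`hP.lt`, `hP.wlt`, `OvR.const_lt_iff`) and in
`BG k e c π (range (Fin.append w y))`. `sep`: `hsep` for `b` gives `F`, `IntH F`; its coefficients `F.coeff i` have
coefficients of norm `≤ 1`, so `aeval y (F.coeff i) ∈ BG k e c π (range (Fin.append w y))`; these are the coefficients of a
polynomial `F₁` with `aeval b F₁ = evH y b F` and `aeval b (derivative F₁) = evH y b (derivative F)`. -/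
theorem exists_vcht (hV : OvR k V) {d h m : ℕ} {e : Fin d → L} {c : Fin d → k} {π : k}
    {w : Fin h → L} (G : Finset L) (hG : ∀ t ∈ G, t ∈ V)
    (hP : VPar k V e c π w (RG k V (G : Set L))) (y : Fin m → L)
    (hy : ∀ j, y j ∈ RG k V (G : Set L))
    (hsep : ∀ b ∈ RG k V (G : Set L), ∃ F : Polynomial (MvPolynomial (Fin m) k), DA.IntH F ∧
      V.valuation (DA.evH y b F) < 1 ∧ V.valuation (DA.evH y b (derivative F)) = 1) :
    ∃ B : Subalgebra (O k) L, VCht V e c π (Fin.append w y) B ∧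
      (∀ b ∈ B, b ∈ RG k V (G : Set L)) ∧
      ∀ x ∈ RG k V (G : Set L), ∃ a ∈ B, ∃ b ∈ B, V.valuation b = 1 ∧ x = a / b := by
  classical
  let B : Subalgebra (O k) L := Algebra.adjoin (O k)
    ((G : Set L) ∪ (Set.range (DA.tor k e c π) ∪ Set.range (Fin.append w y)))
  have hyr : ∀ j, Fin.append w y j ∈ RG k V (G : Set L) := by
    intro j
    refine Fin.addCases (fun j => ?_) (fun j => ?_) j
    · rw [Fin.append_left]
      exact hP.wmem j
    · rw [Fin.append_right]
      exact hy j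
  have hBA : ∀ b ∈ B, b ∈ RG k V (G : Set L) := by
    intro b hb
    induction hb using Algebra.adjoin_induction with
    | mem x hx =>
      rcases hx with hx | ⟨i, rfl⟩ | ⟨j, rfl⟩
      · exact mem_RG hx
      · exact hP.mem i
      · exact hyr j
    | algebraMap r => exact const_mem_RG _ (mem_O.1 r.2)
    | add x y _ _ hx hy => exact add_mem hx hy
    | mul x y _ _ hx hy => exact mul_mem hx hy
  have hcl : Subring.closure ((cS k L : Set L) ∪ (G : Set L)) ≤ B.toSubring := by
    rw [Subring.closure_le]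
    rintro z (hz | hz)
    · obtain ⟨a, ha, rfl⟩ := mem_cS.1 hz
      exact B.algebraMap_mem ⟨a, mem_O.2 ha⟩
    · exact Algebra.subset_adjoin (Or.inl hz)
  have hAB : ∀ x ∈ RG k V (G : Set L), ∃ a ∈ B, ∃ b ∈ B, V.valuation b = 1 ∧ x = a / b := by
    rintro x ⟨a, ha, b, hb, hb1, hab⟩
    exact ⟨a, hcl ha, b, hcl hb, hb1, (eq_div_iff (ne_zero_of_val hb1)).2 hab⟩
  have htC : ∀ i, DA.tor k e c π i ∈ DA.BG k e c π (Set.range (Fin.append w y)) := fun i =>
    Algebra.subset_adjoin (Or.inl ⟨i, rfl⟩)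
  have hwC : ∀ j, w j ∈ DA.BG k e c π (Set.range (Fin.append w y)) := fun j =>
    Algebra.subset_adjoin (Or.inr ⟨Fin.castAdd m j, Fin.append_left w y j⟩)
  have hyC : ∀ j, y j ∈ DA.BG k e c π (Set.range (Fin.append w y)) := fun j =>
    Algebra.subset_adjoin (Or.inr ⟨Fin.natAdd h j, Fin.append_right w y j⟩)
  refine ⟨B, ⟨hP.ne, hP.c_ne, hP.π_ne, ?_, ?_, fun b hb => RG_le hV hG (hBA b hb), hP.lt,
    fun b hb hb1 => ?_, fun b hb => ?_⟩, hBA, hAB⟩
  · exact Algebra.adjoin_mono Set.subset_union_right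
  · exact Subalgebra.fg_def.2 ⟨_, (G.finite_toSet.union ((Set.finite_range _).union
      (Set.finite_range _))), rfl⟩
  · have h1 := hP.gen b (hBA b hb) hb1
    change mkQ V B (DA.BG k e c π (Set.range (Fin.append w y))) b
    clear hb hb1
    induction h1 using Submodule.span_induction with
    | mem x hx =>
      rcases hx with ⟨κ, hκ, rfl⟩ | ⟨i, rfl⟩ | ⟨j, rfl⟩
      · refine mkQ_gen _ _ ?_ (hV.const_lt_iff.2 hκ)
        exact Subalgebra.algebraMap_mem _ (⟨κ, mem_O.2 (le_of_lt hκ)⟩ : O k)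
      · exact mkQ_gen _ _ (htC i) (hP.lt i)
      · exact mkQ_gen _ _ (hwC j) (hP.wlt j)
    | zero => exact mkQ_zero _ _
    | add x y _ _ hx hy => exact mkQ_add _ _ hx hy
    | smul a x _ hx => exact mkQ_smul _ _ (hAB a a.2) hx
  · obtain ⟨F, hF, h1, h2⟩ := hsep b (hBA b hb)
    have h3 : F.map (MvPolynomial.aeval y : MvPolynomial (Fin m) k →ₐ[k] L).toRingHom ∈
        Polynomial.lifts (algebraMap ↥(DA.BG k e c π (Set.range (Fin.append w y))) L) := by
      rw [Polynomial.lifts_iff_coeff_lifts]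
      intro n
      rw [Polynomial.coeff_map]
      exact ⟨⟨MvPolynomial.aeval y (F.coeff n), mk_aeval _ hyC _ (hF n)⟩, rfl⟩
    obtain ⟨F₁, hF₁⟩ := (Polynomial.mem_lifts _).1 h3
    refine ⟨F₁, ?_, ?_⟩
    · rw [Polynomial.aeval_def, Polynomial.eval₂_eq_eval_map, hF₁]
      exact h1
    · rw [Polynomial.aeval_def, Polynomial.eval₂_eq_eval_map, ← Polynomial.derivative_map, hF₁,
        Polynomial.derivative_map]
      exact h2

end

end CS
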