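import Pool.Agent.Lib.CS.VDefs

/-!
# Module CS.ResSep: separating transcendence bases of the residue fields
-/

open Polynomial MP1a953e IsLocalRing

namespace CS
open Pool.Agent.Lib.MP_3029eb_ag Pool.Agent.Lib.MP_3029eb_ag.Abh

/-- common denominators -/
private theorem RS_cd {κ K : Type} [Field κ] [Field K] [Algebra κ K] {m : ℕ} (η : Fin m → K)
    {N : ℕ} (z : Fin N → K) (hz : ∀ i, z i ∈ IntermediateField.adjoin κ (Set.range η)) :
    ∃ q : MvPolynomial (Fin m) κ, MvPolynomial.aeval η q ≠ 0 ∧
      ∀ i, ∃ p : MvPolynomial (Fin m) κ, z i * MvPolynomial.aeval η q = MvPolynomial.aeval η p := by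
  classical
  have h0 : ∀ i, ∃ q : MvPolynomial (Fin m) κ, MvPolynomial.aeval η q ≠ 0 ∧
      ∃ p : MvPolynomial (Fin m) κ, z i * MvPolynomial.aeval η q = MvPolynomial.aeval η p := by
    intro i
    obtain ⟨p, q, h⟩ := (IntermediateField.mem_adjoin_range_iff κ η (z i)).1 (hz i)
    by_cases hq : MvPolynomial.aeval η q = 0
    · refine ⟨1, by rw [map_one]; exact one_ne_zero, 0, ?_⟩
      rw [h, hq, div_zero, zero_mul, map_zero]
    · exact ⟨q, hq, p, by rw [h, div_mul_cancel₀ _ hq]⟩
  choose q hq p hp using h0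
  refine ⟨∏ i, q i, ?_, fun i => ⟨p i * ∏ j ∈ Finset.univ.erase i, q j, ?_⟩⟩
  · rw [map_prod]
    exact Finset.prod_ne_zero_iff.2 fun i _ => hq i
  · rw [← Finset.mul_prod_erase Finset.univ q (Finset.mem_univ i), map_mul, map_mul, ← mul_assoc, hp]

private theorem RS_sep (κ K : Type) [Field κ] [Field K] [Algebra κ K] [PerfectField κ]
    [Algebra.EssFiniteType κ K] :
    ∃ (m : ℕ) (η : Fin m → K), AlgebraicIndependent κ η ∧
      ∀ b : K, ∃ h : Polynomial (MvPolynomial (Fin m) κ),
        h.eval₂ (MvPolynomial.aeval η : MvPolynomial (Fin m) κ →ₐ[κ] K).toRingHom b = 0 ∧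
        (derivative h).eval₂ (MvPolynomial.aeval η : MvPolynomial (Fin m) κ →ₐ[κ] K).toRingHom b
          ≠ 0 := by
  classical
  obtain ⟨s, hs, hsep⟩ := exists_isTranscendenceBasis_and_isSeparable_of_perfectField κ K
  let η : Fin s.card → K := fun j => ((s.equivFin.symm j : s) : K)
  have hη : Set.range η = (s : Set K) := by
    ext x
    constructor
    · rintro ⟨j, rfl⟩
      exact (s.equivFin.symm j).2
    · intro hx
      exact ⟨s.equivFin ⟨x, hx⟩, by show ((s.equivFin.symm (s.equivFin ⟨x, hx⟩) : s) : K) = x; rw [Equiv.symm_apply_apply]⟩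
  refine ⟨s.card, η, hs.1.comp _ s.equivFin.symm.injective, fun b => ?_⟩
  rw [← hη] at hsep
  have h1 : (minpoly (IntermediateField.adjoin κ (Set.range η)) b).Separable :=
    Algebra.IsSeparable.isSeparable (IntermediateField.adjoin κ (Set.range η)) b
  have h2 : aeval b (minpoly (IntermediateField.adjoin κ (Set.range η)) b) = 0 := minpoly.aeval _ _
  have h3 : aeval b (derivative (minpoly (IntermediateField.adjoin κ (Set.range η)) b)) ≠ 0 :=
    h1.aeval_derivative_ne_zero h2
  generalize minpoly (IntermediateField.adjoin κ (Set.range η)) b = M at h2 h3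
  obtain ⟨q, hq, hp⟩ := RS_cd (κ := κ) η (N := M.natDegree + 1)
    (fun i => ((M.coeff (i : ℕ) : IntermediateField.adjoin κ (Set.range η)) : K))
    (fun i => (M.coeff (i : ℕ)).2)
  choose p hp using hp
  let p' : ℕ → MvPolynomial (Fin s.card) κ := fun i =>
    if h : i < M.natDegree + 1 then p ⟨i, h⟩ else 0
  have hp' : ∀ i, MvPolynomial.aeval η (p' i) = (M.coeff i : K) * MvPolynomial.aeval η q := by
    intro i
    by_cases h : i < M.natDegree + 1
    · have e : p' i = p ⟨i, h⟩ := dif_pos h
      rw [e, ← hp]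
    · have e : p' i = 0 := dif_neg h
      rw [e, map_zero, coeff_eq_zero_of_natDegree_lt (by omega)]
      simp
  let h : Polynomial (MvPolynomial (Fin s.card) κ) :=
    ∑ i ∈ Finset.range (M.natDegree + 1), monomial i (p' i)
  have hcoeff : ∀ i, h.coeff i = p' i := by
    intro i
    show (∑ i ∈ Finset.range (M.natDegree + 1), monomial i (p' i)).coeff i = p' i
    rw [finsetSum_coeff]
    simp only [coeff_monomial]
    rw [Finset.sum_ite_eq' (Finset.range (M.natDegree + 1)) i p']
    by_cases hi : i < M.natDegree + 1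
    · rw [if_pos (Finset.mem_range.2 hi)]
    · rw [if_neg (fun h => hi (Finset.mem_range.1 h))]
      show 0 = dite _ _ _
      rw [dif_neg hi]
  have hmap : h.map (MvPolynomial.aeval η : MvPolynomial (Fin s.card) κ →ₐ[κ] K).toRingHom =
      C (MvPolynomial.aeval η q) * M.map (algebraMap _ K) := by
    ext i
    rw [coeff_map, coeff_C_mul, coeff_map, hcoeff]
    refine (hp' i).trans ?_
    rw [mul_comm]
    rfl
  refine ⟨h, ?_, ?_⟩
  · rw [eval₂_eq_eval_map, hmap, eval_mul, eval_C, eval_map_algebraMap, h2, mul_zero]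
  · rw [eval₂_eq_eval_map, ← derivative_map, hmap, derivative_C_mul, eval_mul, eval_C,
      derivative_map, eval_map_algebraMap]
    exact mul_ne_zero hq h3

section
variable {k : Type} {L : Type} [NormedField k] [IsUltrametricDist k] [NormedField L]
  [IsUltrametricDist L] [NormedAlgebra k L] {V : ValuationSubring L}

/-- the residues of the elements of `RG k V G` form a field -/
private noncomputable def RS_F (hV : OvR k V) (G : Set L) (hG : ∀ t ∈ G, t ∈ V) :
    Subfield (ResidueField V) :=
  { im V (RG k V G) with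
    inv_mem' := by
      intro x hx
      have hle := RG_le hV hG
      obtain ⟨a, ha, rfl⟩ := (mem_im_iff hle x).1 hx
      by_cases h : rs V a = 0
      · rw [h, inv_zero]
        exact Subring.zero_mem _
      · have h1 := rs_val_one (hle ha) h
        rw [← rs_inv h1]
        exact (mem_im_iff hle _).2 ⟨_, RG_inv ha h1, rfl⟩ }

private theorem RS_mem (hV : OvR k V) (G : Set L) (hG : ∀ t ∈ G, t ∈ V) {x : ResidueField V} :
    x ∈ RS_F hV G hG ↔ ∃ a ∈ RG k V G, rs V a = x :=
  mem_im_iff (RG_le hV hG) x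

/-- the residue map onto `RS_F` -/
private noncomputable def RS_g (hV : OvR k V) (G : Set L) (hG : ∀ t ∈ G, t ∈ V) :
    RG k V G →+* RS_F hV G hG :=
  ((residue V).comp (Subring.inclusion (RG_le hV hG) : RG k V G →+* V.toSubring)).codRestrict
    (RS_F hV G hG) fun a => (RS_mem hV G hG).2 ⟨a, a.2, rs_eq (RG_le hV hG a.2)⟩

private theorem RS_g_coe (hV : OvR k V) (G : Set L) (hG : ∀ t ∈ G, t ∈ V) (a : RG k V G) :
    ((RS_g hV G hG a : RS_F hV G hG) : ResidueField V) = rs V (a : L) :=
  (rs_eq (RG_le hV hG a.2)).symm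

private theorem RS_g_surj (hV : OvR k V) (G : Set L) (hG : ∀ t ∈ G, t ∈ V) :
    Function.Surjective (RS_g hV G hG) := by
  rintro ⟨x, hx⟩
  obtain ⟨a, ha, rfl⟩ := (RS_mem hV G hG).1 hx
  exact ⟨⟨a, ha⟩, Subtype.ext (RS_g_coe hV G hG ⟨a, ha⟩)⟩

/-- the residue field of `O k` maps to the field of residues, and the latter is essentially of finite type -/
private theorem RS_f (hV : OvR k V) (G : Finset L) (hG : ∀ t ∈ (G : Set L), t ∈ V) :
    ∃ f : ResidueField (O k) →+* RS_F hV (G : Set L) hG, EFT f ∧
      ∀ c : O k, ((f (residue (O k) c) : RS_F hV (G : Set L) hG) : ResidueField V) =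
        rs V (algebraMap k L (c : k)) := by
  obtain ⟨f₀, hf₀, hfc⟩ := exists_EFT_RG (k := k) V G
  have hg := EFT_comp_surjective f₀ (RS_g hV (G : Set L) hG) hf₀ (RS_g_surj hV _ hG)
  have hgc : ∀ c : O k, (((RS_g hV (G : Set L) hG).comp f₀ c : RS_F hV (G : Set L) hG) :
      ResidueField V) = rs V (algebraMap k L (c : k)) := by
    intro c
    rw [RingHom.comp_apply, RS_g_coe, hfc]
  generalize (RS_g hV (G : Set L) hG).comp f₀ = g at hg hgc
  have hker : ∀ c ∈ maximalIdeal (O k), g c = 0 := by
    intro c hc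
    apply Subtype.ext
    rw [hgc]
    rw [mem_maximalIdeal, mem_nonunits_iff, isUnit_O_iff] at hc
    have h1 : ‖(c : k)‖ < 1 := lt_of_le_of_ne (mem_O.1 c.2) hc
    exact (rs_eq_zero (hV.const _ h1.le)).2 (hV.const_lt_iff.2 h1)
  refine ⟨Ideal.Quotient.lift (maximalIdeal (O k)) g hker, ?_, ?_⟩
  · let i1 : Algebra (O k) (RS_F hV (G : Set L) hG) := g.toAlgebra
    let i2 : Algebra (ResidueField (O k)) (RS_F hV (G : Set L) hG) :=
      (Ideal.Quotient.lift (maximalIdeal (O k)) g hker).toAlgebra
    have hst : IsScalarTower (O k) (ResidueField (O k)) (RS_F hV (G : Set L) hG) :=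
      IsScalarTower.of_algebraMap_eq fun c => (Ideal.Quotient.lift_mk _ g hker).symm
    have h1 : Algebra.EssFiniteType (O k) (RS_F hV (G : Set L) hG) := hg
    exact @Algebra.EssFiniteType.of_comp (O k) (ResidueField (O k))
      (RS_F hV (G : Set L) hG) _ _ _ _ i1 i2 hst h1
  · intro c
    rw [← hgc]
    exact congrArg Subtype.val (Ideal.Quotient.lift_mk _ g hker)

end

section
variable {k : Type} {L : Type} [NormedField k] [IsUltrametricDist k] [NormedField L]
  [IsUltrametricDist L] [NormedAlgebra k L] {V : ValuationSubring L}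

/-- Proof.  Let `κ = ResidueField (O k)`, `lam = ResidueField V`; the homomorphism `O k → V` is local
(`OvR.const_lt_iff`), so `lam` is a `κ`-algebra. The residues of the elements of `A = RG k V G` form a subfield `κA` of
`lam` (`RG_inv`), and `κ → κA` is essentially of finite type: `exists_EFT_RG` (`f : O k →+* A`) composed with the surjection
`A → κA` is EFT (`EFT_comp_surjective`), it kills the maximal ideal of `O k`, and `Algebra.EssFiniteType.of_comp`
(compare `exists_EFT_im` in Pool/Agent/Lib/CS/DimW.lean and `Noeth.lean`). `κ` is perfect, so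
`exists_isTranscendenceBasis_and_isSeparable_of_perfectField` (Mathlib, FieldTheory/SeparablyGenerated) gives a finite
transcendence basis `s` of `κA / κ` with `κA` separable over `κ(s)`. Let `y j ∈ A` be lifts of the elements of `s`
(`Fin m`, `m = s.card`). `RI k V y`: a polynomial `P` with coefficients of norm `≤ 1`, one of norm `1`, has a nonzero
reduction over `κ`, so `aeval y P` (in `V`) has a nonzero residue. For `b ∈ A` the residue `b'` of `b` is separable over `κ(s)`: its
minimal polynomial times a common denominator is a polynomial `h` over `κ[X]` (`X j ↦ y j`) with `h(b') = 0`, `h'(b') ≠ 0`;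
lift its coefficients to polynomials over `k` with coefficients of norm `≤ 1`: `F`. Then `evH y b F` has residue `h(b') = 0`
and `evH y b F'` has residue `h'(b') ≠ 0`. -/
theorem exists_res_sep [PerfectField (ResidueField (O k))] (hV : OvR k V) (G : Finset L)
    (hG : ∀ t ∈ G, t ∈ V) :
    ∃ (m : ℕ) (y : Fin m → L), (∀ j, y j ∈ RG k V (G : Set L)) ∧ RI k V y ∧
      ∀ b ∈ RG k V (G : Set L), ∃ F : Polynomial (MvPolynomial (Fin m) k), DA.IntH F ∧
        V.valuation (DA.evH y b F) < 1 ∧ V.valuation (DA.evH y b (derivative F)) = 1 := by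
  classical
  have hG' : ∀ t ∈ (G : Set L), t ∈ V := hG
  obtain ⟨f, hf, hfc⟩ := RS_f hV G hG'
  let _ : Algebra (ResidueField (O k)) (RS_F hV (G : Set L) hG') := f.toAlgebra
  have hess : Algebra.EssFiniteType (ResidueField (O k)) (RS_F hV (G : Set L) hG') := hf
  obtain ⟨m, η, hη, hsep⟩ := RS_sep (ResidueField (O k)) (RS_F hV (G : Set L) hG')
  have hy0 : ∀ j, ∃ a : RG k V (G : Set L), RS_g hV (G : Set L) hG' a = η j :=
    fun j => RS_g_surj hV _ hG' (η j)
  choose y₀ hy₀ using hy0
  have hle := RG_le hV hG'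
  -- residues of values of polynomials
  let cV : O k →+* V := ((algebraMap k L).comp (O k).subtype).codRestrict V.toSubring
    fun c => hV.const _ (mem_O.1 c.2)
  let yV : Fin m → V := fun j => ⟨(y₀ j : L), hle (y₀ j).2⟩
  have hres : ∀ P : MvPolynomial (Fin m) (O k),
      residue V (MvPolynomial.eval₂Hom cV yV P) =
        ((MvPolynomial.aeval η (P.map (residue (O k))) : RS_F hV (G : Set L) hG') :
          ResidueField V) := by
    intro P
    have h1 : (residue V).comp (MvPolynomial.eval₂Hom cV yV) =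
        ((RS_F hV (G : Set L) hG').subtype.comp
          (MvPolynomial.aeval η : MvPolynomial (Fin m) (ResidueField (O k)) →ₐ[_] _).toRingHom).comp
            (MvPolynomial.map (residue (O k))) := by
      apply MvPolynomial.ringHom_ext
      · intro c
        simp only [RingHom.comp_apply, MvPolynomial.coe_eval₂Hom, MvPolynomial.eval₂_C,
          MvPolynomial.map_C]
        rw [AlgHom.toRingHom_eq_coe, RingHom.coe_coe, MvPolynomial.aeval_C]
        refine Eq.trans ?_ (hfc c).symm
        exact (rs_eq (V1 := V) (hV.const _ (mem_O.1 c.2))).symm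
      · intro j
        simp only [RingHom.comp_apply, MvPolynomial.coe_eval₂Hom, MvPolynomial.eval₂_X,
          MvPolynomial.map_X]
        rw [AlgHom.toRingHom_eq_coe, RingHom.coe_coe, MvPolynomial.aeval_X, ← hy₀]
        exact (rs_eq (V1 := V) (hle (y₀ j).2)).symm.trans (RS_g_coe hV _ hG' (y₀ j)).symm
    exact congrArg (fun φ => φ P) h1
  have hval : ∀ P : MvPolynomial (Fin m) (O k),
      MvPolynomial.aeval (fun j => (y₀ j : L)) (P.map (O k).subtype) =
        ((MvPolynomial.eval₂Hom cV yV P : V) : L) := by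
    intro P
    have h1 : ((MvPolynomial.aeval (fun j => (y₀ j : L)) : MvPolynomial (Fin m) k →ₐ[k] L).toRingHom).comp
        (MvPolynomial.map (O k).subtype) = V.subtype.comp (MvPolynomial.eval₂Hom cV yV) := by
      apply MvPolynomial.ringHom_ext
      · intro c
        simp only [RingHom.comp_apply, MvPolynomial.coe_eval₂Hom, MvPolynomial.eval₂_C,
          MvPolynomial.map_C]
        rw [AlgHom.toRingHom_eq_coe, RingHom.coe_coe, MvPolynomial.aeval_C]
        rfl
      · intro j
        simp only [RingHom.comp_apply, MvPolynomial.coe_eval₂Hom, MvPolynomial.eval₂_X,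
          MvPolynomial.map_X]
        rw [AlgHom.toRingHom_eq_coe, RingHom.coe_coe, MvPolynomial.aeval_X]
        rfl
    exact congrArg (fun φ => φ P) h1
  refine ⟨m, fun j => (y₀ j : L), fun j => (y₀ j).2, ?_, ?_⟩
  · intro P hP1 hP2
    obtain ⟨P₀, rfl⟩ : ∃ P₀ : MvPolynomial (Fin m) (O k), P₀.map (O k).subtype = P := by
      have h : P ∈ Set.range (MvPolynomial.map (O k).subtype :
          MvPolynomial (Fin m) (O k) → _) := by
        rw [MvPolynomial.mem_range_map_iff_coeffs_subset]
        intro c hc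
        obtain ⟨s, -, rfl⟩ := MvPolynomial.mem_coeffs_iff.1 hc
        exact ⟨⟨_, mem_O.2 (hP1 s)⟩, rfl⟩
      exact h
    have h1 : P₀.map (residue (O k)) ≠ 0 := by
      obtain ⟨s, hs⟩ := hP2
      rw [MvPolynomial.coeff_map] at hs
      intro h0
      have h2 : residue (O k) (P₀.coeff s) = 0 := by
        rw [← MvPolynomial.coeff_map, h0, MvPolynomial.coeff_zero]
      have h3 : residue (O k) (P₀.coeff s) ≠ 0 := by
        rw [residue_ne_zero_iff_isUnit, isUnit_O_iff]
        exact hs
      exact h3 h2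
    have h2 : MvPolynomial.aeval η (P₀.map (residue (O k))) ≠ 0 := fun h0 =>
      h1 ((algebraicIndependent_iff.1 hη) _ h0)
    rw [hval]
    refine rs_val_one (Subtype.property _) ?_
    rw [rs_coe, hres]
    exact fun h0 => h2 (Subtype.ext h0)
  · intro b hb
    obtain ⟨h, hh0, hh1⟩ := hsep (RS_g hV (G : Set L) hG' ⟨b, hb⟩)
    obtain ⟨H, hH⟩ := map_surjective (MvPolynomial.map (residue (O k)))
      (MvPolynomial.map_surjective (residue (O k)) residue_surjective) h
    let bV : V := ⟨b, hle hb⟩
    have key : ∀ Q : Polynomial (MvPolynomial (Fin m) (O k)),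
        DA.evH (fun j => (y₀ j : L)) b (Q.map (MvPolynomial.map (O k).subtype)) ∈ V ∧
        rs V (DA.evH (fun j => (y₀ j : L)) b (Q.map (MvPolynomial.map (O k).subtype))) =
          (((Q.map (MvPolynomial.map (residue (O k)))).eval₂
            (MvPolynomial.aeval η : MvPolynomial (Fin m) (ResidueField (O k)) →ₐ[_] _).toRingHom
            (RS_g hV (G : Set L) hG' ⟨b, hb⟩) : RS_F hV (G : Set L) hG') : ResidueField V) := by
      intro Q
      have e1 : DA.evH (fun j => (y₀ j : L)) b (Q.map (MvPolynomial.map (O k).subtype)) =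
          ((Q.eval₂ (MvPolynomial.eval₂Hom cV yV) bV : V) : L) := by
        unfold DA.evH
        rw [Polynomial.map_map, eval_map]
        have h2 := hom_eval₂ Q (MvPolynomial.eval₂Hom cV yV) V.subtype bV
        refine Eq.trans ?_ h2.symm
        congr 1
        exact RingHom.ext fun P => hval P
      rw [e1]
      refine ⟨Subtype.property _, ?_⟩
      rw [rs_coe, hom_eval₂, eval₂_map]
      refine Eq.trans ?_ (hom_eval₂ Q _ (RS_F hV (G : Set L) hG').subtype _).symm
      have e2 : residue V bV = (RS_F hV (G : Set L) hG').subtype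
          (RS_g hV (G : Set L) hG' ⟨b, hb⟩) :=
        (rs_eq (V1 := V) (hle hb)).symm.trans (RS_g_coe hV _ hG' ⟨b, hb⟩).symm
      rw [e2]
      congr 1
      exact RingHom.ext fun P => hres P
    refine ⟨H.map (MvPolynomial.map (O k).subtype), ?_, ?_, ?_⟩
    · intro i s
      rw [coeff_map, MvPolynomial.coeff_map]
      exact mem_O.1 ((H.coeff i).coeff s).2
    · obtain ⟨h1, h2⟩ := key H
      refine (rs_eq_zero h1).1 ?_
      rw [h2, hH, hh0]
      rfl
    · rw [derivative_map]
      obtain ⟨h1, h2⟩ := key (derivative H)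
      refine rs_val_one h1 ?_
      rw [h2, ← derivative_map, hH]
      exact fun h0 => hh1 (Subtype.ext h0)

end

end CS
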