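import Pool.Agent.Lib.CS.SmoothV
import Pool.Agent.Lib.CS.MkCht
import Pool.Agent.Lib.CS.ResSep

/-!
# Module CS.LUV: smooth charts from parameters
-/

open Polynomial MP1a953e IsLocalRing

namespace CS
open Pool.Agent.Lib.MP_3029eb_ag Pool.Agent.Lib.MP_3029eb_ag.Abh

section aux
set_option linter.unusedSectionVars false

variable {k : Type} {L : Type} [NontriviallyNormedField k] [IsUltrametricDist k] [NormedField L]
  [IsUltrametricDist L] [NormedAlgebra k L] {V : ValuationSubring L}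

private theorem luv_algebraMap (c : O k) : algebraMap (O k) L c = algebraMap k L (c : k) := rfl

/-- a nonzero constant of `O k` which makes a given constant integral -/
private theorem luv_const (a : k) : ∃ c : O k, c ≠ 0 ∧ ‖(c : k) * a‖ ≤ 1 := by
  by_cases ha : ‖a‖ ≤ 1
  · exact ⟨1, one_ne_zero, by simpa using ha⟩
  · rw [not_le] at ha
    have ha0 : a ≠ 0 := norm_pos_iff.1 (zero_lt_one.trans ha)
    refine ⟨⟨a⁻¹, mem_O.2 (by rw [norm_inv]; exact inv_le_one_of_one_le₀ ha.le)⟩, ?_, ?_⟩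
    · intro h0
      exact inv_ne_zero ha0 (congrArg Subtype.val h0)
    · change ‖a⁻¹ * a‖ ≤ 1
      rw [inv_mul_cancel₀ ha0, norm_one]

private theorem luv_scale (A : Subalgebra (O k) L) {x : L}
    (hx : x ∈ Algebra.adjoin k (A : Set L)) :
    ∃ c : O k, c ≠ 0 ∧ algebraMap (O k) L c * x ∈ A := by
  induction hx using Algebra.adjoin_induction with
  | mem x hx => exact ⟨1, one_ne_zero, by rw [map_one, one_mul]; exact hx⟩
  | algebraMap a =>
    obtain ⟨c, hc, hca⟩ := luv_const a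
    refine ⟨c, hc, ?_⟩
    have h1 := A.algebraMap_mem ⟨(c : k) * a, mem_O.2 hca⟩
    rw [luv_algebraMap] at h1
    rw [luv_algebraMap, ← map_mul]
    exact h1
  | add x y _ _ hx hy =>
    obtain ⟨c, hc, hcx⟩ := hx
    obtain ⟨d, hd, hdy⟩ := hy
    refine ⟨c * d, mul_ne_zero hc hd, ?_⟩
    have e : algebraMap (O k) L (c * d) * (x + y) =
        algebraMap (O k) L d * (algebraMap (O k) L c * x) +
          algebraMap (O k) L c * (algebraMap (O k) L d * y) := by
      rw [map_mul]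
      ring
    rw [e]
    exact add_mem (mul_mem (A.algebraMap_mem d) hcx) (mul_mem (A.algebraMap_mem c) hdy)
  | mul x y _ _ hx hy =>
    obtain ⟨c, hc, hcx⟩ := hx
    obtain ⟨d, hd, hdy⟩ := hy
    refine ⟨c * d, mul_ne_zero hc hd, ?_⟩
    have e : algebraMap (O k) L (c * d) * (x * y) =
        (algebraMap (O k) L c * x) * (algebraMap (O k) L d * y) := by
      rw [map_mul]
      ring
    rw [e]
    exact mul_mem hcx hdy

private theorem luv_pow {A : Subalgebra (O k) L} {G : Set L} {f₀ : L} (hf₀ : f₀ ∈ A)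
    (hG : ∀ g ∈ G, g * f₀ ∈ A) {x : L} (hx : x ∈ Algebra.adjoin (O k) G) :
    ∃ i : ℕ, x * f₀ ^ i ∈ A := by
  induction hx using Algebra.adjoin_induction with
  | mem x hx => exact ⟨1, by rw [pow_one]; exact hG x hx⟩
  | algebraMap a => exact ⟨0, by rw [pow_zero, mul_one]; exact A.algebraMap_mem a⟩
  | add x y _ _ hx hy =>
    obtain ⟨i, hi⟩ := hx
    obtain ⟨j, hj⟩ := hy
    refine ⟨i + j, ?_⟩
    have e : (x + y) * f₀ ^ (i + j) = (x * f₀ ^ i) * f₀ ^ j + (y * f₀ ^ j) * f₀ ^ i := by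
      rw [pow_add]
      ring
    rw [e]
    exact add_mem (mul_mem hi (pow_mem hf₀ _)) (mul_mem hj (pow_mem hf₀ _))
  | mul x y _ _ hx hy =>
    obtain ⟨i, hi⟩ := hx
    obtain ⟨j, hj⟩ := hy
    refine ⟨i + j, ?_⟩
    have e : (x * y) * f₀ ^ (i + j) = (x * f₀ ^ i) * (y * f₀ ^ j) := by
      rw [pow_add]
      ring
    rw [e]
    exact mul_mem hi hj

/-- the fractions which generate the chart -/
private theorem luv_family {A B : Subalgebra (O k) L} {G : Finset L}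
    (hG : Algebra.adjoin (O k) (G : Set L) = B) {f₀ : L} (hf₀ : f₀ ∈ A) (hf₀0 : f₀ ≠ 0)
    (hGf : ∀ g ∈ G, g * f₀ ∈ A) {w : L} (hw : w ∈ B) (hw0 : w ≠ 0)
    (hAB : A ≤ Algebra.adjoin (O k) ((B : Set L) ∪ {w⁻¹})) {γ : O k} (hγ : γ ≠ 0)
    (hγf : algebraMap (O k) L γ * f₀⁻¹ ∈ Algebra.adjoin (O k) ((B : Set L) ∪ {w⁻¹})) :
    ∃ (n : ℕ) (f : Fin (n + 1) → L), (∀ i, f i ∈ A) ∧ f 0 ≠ 0 ∧
      (∃ i, ∃ c : O k, c ≠ 0 ∧ f i = algebraMap (O k) L c) ∧
      A ⊔ Algebra.adjoin (O k) (Set.range fun i => f i / f 0) =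
        Algebra.adjoin (O k) ((B : Set L) ∪ {w⁻¹}) := by
  classical
  obtain ⟨i, hi⟩ := luv_pow hf₀ (fun g hg => hGf g hg) (by rw [hG]; exact hw)
  have hBB : ∀ x ∈ B, x ∈ Algebra.adjoin (O k) ((B : Set L) ∪ {w⁻¹}) := fun x hx =>
    Algebra.subset_adjoin (Or.inl hx)
  have hwB : w⁻¹ ∈ Algebra.adjoin (O k) ((B : Set L) ∪ {w⁻¹}) :=
    Algebra.subset_adjoin (Or.inr rfl)
  set F₀ : L := w * f₀ ^ (i + 1) with hF₀
  have hF₀0 : F₀ ≠ 0 := mul_ne_zero hw0 (pow_ne_zero _ hf₀0)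
  have hF₀A : F₀ ∈ A := by
    have e : F₀ = (w * f₀ ^ i) * f₀ := by rw [hF₀, pow_succ, mul_assoc]
    rw [e]
    exact mul_mem hi hf₀
  set T : Finset L := G.image (fun g => g * F₀) ∪
    {w⁻¹ * F₀, algebraMap (O k) L (γ ^ (i + 1))} with hT
  set f : Fin (T.card + 1) → L := Fin.cons F₀ fun j => ((T.equivFin.symm j : T) : L) with hf
  have hf0 : f 0 = F₀ := rfl
  have hfT : ∀ j, f j = F₀ ∨ f j ∈ T := by
    intro j
    refine Fin.cases (Or.inl rfl) (fun j => Or.inr ?_) j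
    exact (T.equivFin.symm j).2
  have hTf : ∀ x ∈ T, ∃ j, f j = x := by
    intro x hx
    refine ⟨(T.equivFin ⟨x, hx⟩).succ, ?_⟩
    rw [hf, Fin.cons_succ, Equiv.symm_apply_apply]
  have hTA : ∀ x ∈ T, x ∈ A := by
    intro x hx
    rw [hT, Finset.mem_union, Finset.mem_image, Finset.mem_insert, Finset.mem_singleton] at hx
    rcases hx with ⟨g, hg, rfl⟩ | rfl | rfl
    · have e : g * F₀ = (g * f₀) * (w * f₀ ^ i) := by rw [hF₀, pow_succ]; ring
      rw [e]
      exact mul_mem (hGf g hg) hi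
    · rw [hF₀, inv_mul_cancel_left₀ hw0]
      exact pow_mem hf₀ _
    · exact A.algebraMap_mem _
  have hTB : ∀ x ∈ T, x / F₀ ∈ Algebra.adjoin (O k) ((B : Set L) ∪ {w⁻¹}) := by
    intro x hx
    rw [hT, Finset.mem_union, Finset.mem_image, Finset.mem_insert, Finset.mem_singleton] at hx
    rcases hx with ⟨g, hg, rfl⟩ | rfl | rfl
    · rw [mul_div_cancel_right₀ _ hF₀0]
      refine hBB g ?_
      rw [← hG]
      exact Algebra.subset_adjoin hg
    · rw [mul_div_cancel_right₀ _ hF₀0]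
      exact hwB
    · have e : algebraMap (O k) L (γ ^ (i + 1)) / F₀ =
          w⁻¹ * (algebraMap (O k) L γ * f₀⁻¹) ^ (i + 1) := by
        rw [hF₀, map_pow, mul_pow, inv_pow, div_eq_mul_inv, mul_inv]
        ring
      rw [e]
      exact mul_mem hwB (pow_mem hγf _)
  refine ⟨T.card, f, ?_, ?_, ?_, ?_⟩
  · intro j
    rcases hfT j with h | h
    · rw [h]
      exact hF₀A
    · exact hTA _ h
  · rw [hf0]
    exact hF₀0
  · obtain ⟨j, hj⟩ := hTf (algebraMap (O k) L (γ ^ (i + 1)))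
      (Finset.mem_union_right _ (Finset.mem_insert_of_mem (Finset.mem_singleton_self _)))
    exact ⟨j, γ ^ (i + 1), pow_ne_zero _ hγ, hj⟩
  · refine le_antisymm (sup_le hAB (Algebra.adjoin_le ?_)) (Algebra.adjoin_le ?_)
    · rintro _ ⟨j, rfl⟩
      change f j / f 0 ∈ _
      rw [hf0]
      rcases hfT j with h | h
      · rw [h, div_self hF₀0]
        exact one_mem _
      · exact hTB _ h
    · have hmem : ∀ x ∈ T, x / F₀ ∈
          A ⊔ Algebra.adjoin (O k) (Set.range fun i => f i / f 0) := by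
        intro x hx
        obtain ⟨j, hj⟩ := hTf x hx
        have hle : Algebra.adjoin (O k) (Set.range fun i => f i / f 0) ≤
            A ⊔ Algebra.adjoin (O k) (Set.range fun i => f i / f 0) := le_sup_right
        refine hle (Algebra.subset_adjoin ⟨j, ?_⟩)
        change f j / f 0 = _
        rw [hj, hf0]
      rintro x (hx | hx)
      · have hx' : x ∈ Algebra.adjoin (O k) (G : Set L) := by rw [hG]; exact hx
        refine (Algebra.adjoin_le ?_ : Algebra.adjoin (O k) (G : Set L) ≤ _) hx'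
        intro g hg
        have h1 := hmem (g * F₀) (Finset.mem_union_left _ (Finset.mem_image_of_mem _ hg))
        rwa [mul_div_cancel_right₀ _ hF₀0] at h1
      · rw [Set.mem_singleton_iff] at hx
        rw [hx]
        have h1 := hmem (w⁻¹ * F₀)
          (Finset.mem_union_right _ (Finset.mem_insert_self _ _))
        rwa [mul_div_cancel_right₀ _ hF₀0] at h1

/-- the units of the chart -/
private theorem luv_units {B : Subalgebra (O k) L} {U : Finset L}
    (hU : ∀ s ∈ U, s ∈ B ∧ V.valuation s = 1) {b : L} (hb : b ∈ B) (hb1 : V.valuation b = 1) :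
    ∃ β ∈ B, V.valuation β = 1 ∧
      ∀ s ∈ U, s⁻¹ ∈ Algebra.adjoin (O k) ((B : Set L) ∪ {(b * β)⁻¹}) := by
  classical
  refine ⟨∏ s ∈ U, s, prod_mem fun s hs => (hU s hs).1, ?_, fun s hs => ?_⟩
  · rw [map_prod]
    exact Finset.prod_eq_one fun s hs => (hU s hs).2
  · have hs0 : s ≠ 0 := ne_zero_of_val (hU s hs).2
    have hb0 : b ≠ 0 := ne_zero_of_val hb1
    have hP0 : ∏ t ∈ U.erase s, t ≠ 0 := by
      refine Finset.prod_ne_zero_iff.2 fun t ht => ?_
      exact ne_zero_of_val (hU t (Finset.mem_of_mem_erase ht)).2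
    have hP : ∏ t ∈ U, t = s * ∏ t ∈ U.erase s, t := (Finset.mul_prod_erase U _ hs).symm
    have e : s⁻¹ = (b * ∏ t ∈ U.erase s, t) * (b * ∏ t ∈ U, t)⁻¹ := by
      rw [hP]
      field_simp
    rw [e]
    refine mul_mem (Algebra.subset_adjoin (Or.inl (mul_mem hb (prod_mem fun t ht =>
      (hU t (Finset.mem_of_mem_erase ht)).1)))) (Algebra.subset_adjoin (Or.inr rfl))

/-- units of the local ring as fractions of elements of the chart -/
private theorem luv_mu {B : Subalgebra (O k) L} {R : Subring L} {d : ℕ} {e : Fin d → L}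
    (hRB : ∀ x ∈ R, ∃ a ∈ B, ∃ b ∈ B, V.valuation b = 1 ∧ x = a / b) {x : L}
    (hx : MU k V R e x) : ∃ (z : Fin d → ℤ) (c : k) (a b : L), c ≠ 0 ∧ a ∈ B ∧ b ∈ B ∧
      V.valuation a = 1 ∧ V.valuation b = 1 ∧ x = DA.mon k e z c * (a / b) := by
  obtain ⟨z, c, hc, ε, hε, hε1, rfl⟩ := hx
  obtain ⟨a, ha, b, hb, hb1, rfl⟩ := hRB ε hε
  refine ⟨z, c, a, b, hc, ha, hb, ?_, hb1, rfl⟩
  rw [map_div₀, hb1, div_one] at hε1
  exact hε1

private theorem luv_mon_const {r : ℕ} {e : Fin r → L} (hne : ∀ i, e i ≠ 0) {c : Fin r → k}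
    (hc : ∀ i, c i ≠ 0) {π : k} (hπ : π ≠ 0) (z : Fin r → ℤ) (a : k) :
    ∃ γ : O k, γ ≠ 0 ∧ algebraMap (O k) L γ * DA.mon k e z a ∈ DA.Tt k e c π := by
  obtain ⟨n, hn⟩ := DA.exists_tor_exp (k := k) hne z
  obtain ⟨a'', ha⟩ := hn c π hc hπ a
  obtain ⟨γ, hγ, hγa⟩ := luv_const a''
  refine ⟨γ, hγ, ?_⟩
  have e1 : algebraMap (O k) L γ * DA.mon k e z a =
      algebraMap (O k) L ⟨(γ : k) * a'', mem_O.2 hγa⟩ * ∏ i, DA.tor k e c π i ^ n i := by
    rw [ha, luv_algebraMap, luv_algebraMap, map_mul, mul_assoc]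
  rw [e1]
  have ht : ∀ i, DA.tor k e c π i ∈ DA.Tt k e c π := fun i =>
    Algebra.subset_adjoin (Set.mem_range_self i)
  exact mul_mem ((DA.Tt k e c π).algebraMap_mem _) (prod_mem fun i _ => pow_mem (ht i) _)

private theorem luv_mon_tor {r : ℕ} {e : Fin r → L} {c : Fin r → k}
    (hc : ∀ i, c i ≠ 0) {π : k} (z : Fin r → ℤ) (a : k) :
    DA.mon k e z a = algebraMap k L (a * ∏ i, c i ^ z i) *
      ∏ i, DA.tor k e c π i ^ (Fin.cons 0 z : Fin (r + 1) → ℤ) i := by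
  have hc' : ∀ i, algebraMap k L (c i) ≠ 0 := fun i => (_root_.map_ne_zero _).2 (hc i)
  rw [Fin.prod_univ_succ, Fin.cons_zero, zpow_zero, one_mul, map_mul, map_prod, mul_assoc,
    ← Finset.prod_mul_distrib]
  unfold DA.mon
  congr 1
  refine Finset.prod_congr rfl fun i _ => ?_
  rw [map_zpow₀, Fin.cons_succ, ← mul_zpow]
  congr 1
  simp only [DA.tor, Fin.cons_succ]
  rw [mul_div_cancel₀ _ (hc' i)]

end aux

section
variable {k : Type} {L : Type} [NontriviallyNormedField k] [IsUltrametricDist k] [IsAlgClosed k]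
  [NormedField L] [IsUltrametricDist L] [NormedAlgebra k L] {V : ValuationSubring L}

/-- Proof.  As `DA.lu_of_chts` (Pool/Agent/Lib/DA/M1.lean; copy it, with `V.valuation` instead of the norm).
`ResidueField (O k)` is algebraically closed (`res_closed`), hence perfect. `A_k = Algebra.adjoin k A`, `S₁ = S` and the nonzero elements
of a finite set of generators of `A`. `h` for `A_k` and `S₁` gives `e, c, π, w, G`. `exists_res_sep` gives `m, y`, and
`exists_vcht` gives `B` and `VCht V e c π (Fin.append w y) B`; by the third conjunct of `h` `d + h' + m ≤ n`. Every `x ∈ L` is a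
quotient of elements of `B`: `x` is a quotient of elements of `A`, and these are in `RG k V G` (generated by constants and the
generators of `A`, which are in `S₁` and in `V`, fourth conjunct). All elements of `RG k V G`, so of `B`, are `Dn` (`Dn.of_RG`,
`MU.of_unit` for the units of the closure, fifth conjunct of `h`). `smooth_of_vcht` gives `b`. Generators `g j` of `B`, `g j = n j / d j`,
`d j ∈ A` monomials times units of `RG k V G`, that is `mon k e z a * (a' / b')` with `a', b' ∈ B` of value one. `f₀ = ∏ d j`.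
`β` is the product of all numerators and denominators of units which occur, and of the denominators of the generators
of `A` (as in M1). Then continue as in M1. `‖ϖ‖ < 1`: `π` is the product of the `tor i`, `OvR.const_lt_iff`. -/
theorem lu_of_vunif (hV : OvR k V) {d n : ℕ}
    (htr : Algebra.trdeg k L = ((n : ℕ) : Cardinal)) (h : VUnif k V d n)
    (A : Subalgebra (O k) L) (hA : A.FG) (hle : ∀ a ∈ A, a ∈ V)
    [IsFractionRing A L] (S : Finset L) (hS : ∀ x ∈ S, x ≠ 0) :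
    ∃ (n : ℕ) (f : Fin (n + 1) → L), (∀ i, f i ∈ A) ∧ f 0 ≠ 0 ∧
      (∃ i, ∃ c : O k, c ≠ 0 ∧ f i = algebraMap (O k) L c) ∧
      (∀ b ∈ A ⊔ Algebra.adjoin (O k) (Set.range fun i => f i / f 0), b ∈ V) ∧
      ∃ ϖ : O k, ϖ ≠ 0 ∧ ‖(ϖ : k)‖ < 1 ∧
        ∃ φ : DA.SSr d ϖ →ₐ[O k]
            ↥(A ⊔ Algebra.adjoin (O k) (Set.range fun i => f i / f 0)),
          DA.IsSm _ φ ∧ (∀ i, V.valuation (φ (DA.SSr.x i) : L) < 1) ∧
          ∀ x ∈ S, ∃ (z : Fin (d + 1) → ℤ) (c : k) (v : L), c ≠ 0 ∧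
            v ∈ A ⊔ Algebra.adjoin (O k) (Set.range fun i => f i / f 0) ∧
            v⁻¹ ∈ A ⊔ Algebra.adjoin (O k) (Set.range fun i => f i / f 0) ∧
            x = algebraMap k L c * (∏ i, (φ (DA.SSr.x i) : L) ^ z i) * v := by
  classical
  have hperf : PerfectField (ResidueField (O k)) := by
    have := res_closed k
    infer_instance
  -- the algebra `A_k`
  have hfrac : ∀ x : L, ∃ a ∈ Algebra.adjoin k (A : Set L), ∃ b ∈ Algebra.adjoin k (A : Set L),
      b ≠ 0 ∧ x = a / b := by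
    intro x
    obtain ⟨a, b, hb, hab⟩ := IsFractionRing.div_surjective (A := A) x
    refine ⟨a, Algebra.subset_adjoin a.2, b, Algebra.subset_adjoin b.2, ?_, hab.symm⟩
    have := nonZeroDivisors.ne_zero hb
    intro h0
    exact this (Subtype.ext h0)
  obtain ⟨T, hT⟩ := hA
  have hTA : ∀ x ∈ T, x ∈ A := fun x hx => by
    rw [← hT]
    exact Algebra.subset_adjoin hx
  obtain ⟨h', e, c, π, w, G, hG, hP, hdim, hSB, hden⟩ := h (Algebra.adjoin k (A : Set L)) hfrac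
    (S ∪ T.filter (· ≠ 0)) (by
      intro x hx
      rcases Finset.mem_union.1 hx with hx | hx
      · exact hS x hx
      · exact (Finset.mem_filter.1 hx).2)
  have hne := hP.ne
  obtain ⟨m, y, hy, hRI, hsep⟩ := exists_res_sep hV G hG
  obtain ⟨B, hB, hBR, hRB⟩ := exists_vcht hV G hG hP y hy hsep
  have hdN : d + (h' + m) ≤ n := by
    rw [← add_assoc]
    exact hdim m y hy hRI
  have hTR : ∀ x ∈ T, x ∈ RG k V (G : Set L) := by
    intro x hx
    by_cases hx0 : x = 0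
    · rw [hx0]
      exact zero_mem _
    · exact (hSB x (Finset.mem_union_right _ (Finset.mem_filter.2 ⟨hx, hx0⟩))).2
        (hle x (hTA x hx))
  have hAR : ∀ x ∈ A, x ∈ RG k V (G : Set L) := by
    intro x hx
    rw [← hT] at hx
    induction hx using Algebra.adjoin_induction with
    | mem x hx => exact hTR x hx
    | algebraMap a => exact const_mem_RG _ (mem_O.1 a.2)
    | add x y _ _ hx hy => exact add_mem hx hy
    | mul x y _ _ hx hy => exact mul_mem hx hy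
  have hfracB : ∀ x : L, ∃ a ∈ B, ∃ b ∈ B, b ≠ 0 ∧ x = a / b := by
    intro x
    obtain ⟨a, b, hb, hab⟩ := IsFractionRing.div_surjective (A := A) x
    have hb0 : (b : L) ≠ 0 := fun h0 => nonZeroDivisors.ne_zero hb (Subtype.ext h0)
    obtain ⟨a₁, ha₁, b₁, hb₁, hb₁1, ha⟩ := hRB _ (hAR _ a.2)
    obtain ⟨a₂, ha₂, b₂, hb₂, hb₂1, hb'⟩ := hRB _ (hAR _ b.2)
    have hb₁0 : b₁ ≠ 0 := ne_zero_of_val hb₁1
    have hb₂0 : b₂ ≠ 0 := ne_zero_of_val hb₂1
    have ha₂0 : a₂ ≠ 0 := by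
      rintro rfl
      rw [hb', zero_div] at hb0
      exact hb0 rfl
    refine ⟨a₁ * b₂, mul_mem ha₁ hb₂, b₁ * a₂, mul_mem hb₁ ha₂, mul_ne_zero hb₁0 ha₂0, ?_⟩
    rw [← hab]
    change (a : L) / (b : L) = _
    rw [ha, hb', div_div_div_eq]
  have hDn : ∀ x ∈ RG k V (G : Set L),
      Dn k V (Algebra.adjoin k (A : Set L)) (RG k V (G : Set L)) e x :=
    Dn.of_RG hne hden fun x hx hx1 => MU.of_unit (closure_le_RG _ hx) hx1
  have hTtB : ∀ x ∈ DA.Tt k e c π, x ∈ B := fun x hx =>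
    hB.le ((Algebra.adjoin_mono Set.subset_union_left :
      DA.Tt k e c π ≤ DA.BG k e c π (Set.range (Fin.append w y))) hx)
  have hπ1 : ‖π‖ < 1 := by
    have h1 : V.valuation (∏ i, DA.tor k e c π i) < 1 := by
      rw [map_prod, Fin.prod_univ_succ]
      have h2 : ∏ i : Fin d, V.valuation (DA.tor k e c π i.succ) ≤ 1 :=
        Finset.prod_le_one' fun i _ => (hB.lt _).le
      calc V.valuation (DA.tor k e c π 0) * ∏ i : Fin d, V.valuation (DA.tor k e c π i.succ) ≤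
            V.valuation (DA.tor k e c π 0) * 1 := mul_le_mul_right h2 _
        _ < 1 := by rw [mul_one]; exact hB.lt 0
    rw [DA.prod_tor hne hB.c_ne] at h1
    exact hV.const_lt_iff.1 h1
  obtain ⟨b, hbB, hb1, hbφ⟩ := smooth_of_vcht hV hB hfracB htr hdN (ϖ := ⟨π, mem_O.2 hπ1.le⟩) rfl
  -- generators of `B` and their denominators
  obtain ⟨GB, hGB'⟩ := hB.fg
  have hGB : ∀ g ∈ GB, g ∈ B := fun g hg => by
    rw [← hGB']
    exact Algebra.subset_adjoin hg
  have hGd : ∀ g ∈ GB, ∃ d : L, d ∈ A ∧ g * d ∈ A ∧ MU k V (RG k V (G : Set L)) e d := by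
    intro g hg
    obtain ⟨n, hn, d, hd, hdu, hgd⟩ := hDn g (hBR g (hGB g hg))
    obtain ⟨c₁, hc₁, hn'⟩ := luv_scale A hn
    obtain ⟨c₂, hc₂, hd'⟩ := luv_scale A hd
    have hd0 : d ≠ 0 := hdu.ne hne
    refine ⟨algebraMap (O k) L (c₁ * c₂) * d, ?_, ?_, ?_⟩
    · rw [map_mul, mul_assoc]
      exact mul_mem (A.algebraMap_mem c₁) hd'
    · have e1 : g * (algebraMap (O k) L (c₁ * c₂) * d) =
          algebraMap (O k) L c₂ * (algebraMap (O k) L c₁ * n) := by
        rw [hgd, map_mul]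
        field_simp
      rw [e1]
      exact mul_mem (A.algebraMap_mem c₂) hn'
    · rw [luv_algebraMap]
      exact MU.mul hne (MU.const fun h0 => mul_ne_zero hc₁ hc₂ (Subtype.ext h0)) hdu
  choose! dd hdA hgdA hdu using hGd
  set f₀ : L := ∏ g ∈ GB, dd g with hf₀
  have hf₀A : f₀ ∈ A := prod_mem fun g hg => hdA g hg
  have hGf : ∀ g ∈ GB, g * f₀ ∈ A := by
    intro g hg
    rw [hf₀, ← Finset.mul_prod_erase GB dd hg, ← mul_assoc]
    exact mul_mem (hgdA g hg) (prod_mem fun g' hg' => hdA g' (Finset.mem_of_mem_erase hg'))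
  have hf₀u : MU k V (RG k V (G : Set L)) e f₀ := MU.prod hne GB dd hdu
  obtain ⟨z₀, c₀, a₀, b₀, hc₀, ha₀, hb₀, hna₀, hnb₀, hf₀e⟩ := luv_mu hRB hf₀u
  -- the units
  have hTl : ∀ x ∈ T, ∃ s : L, s ∈ B ∧ V.valuation s = 1 ∧ x * s ∈ B := by
    intro x hx
    obtain ⟨a, ha, s, hs, hs1, hxs⟩ := hRB x (hTR x hx)
    refine ⟨s, hs, hs1, ?_⟩
    rw [hxs, div_mul_cancel₀ _ (ne_zero_of_val hs1)]
    exact ha
  choose! sT hsB hs1 hsT using hTl
  have hSl : ∀ x ∈ S, ∃ (z : Fin d → ℤ) (c'' : k) (a' b' : L), c'' ≠ 0 ∧ a' ∈ B ∧ b' ∈ B ∧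
      V.valuation a' = 1 ∧ V.valuation b' = 1 ∧ x = DA.mon k e z c'' * (a' / b') := fun x hx =>
    luv_mu hRB (hSB x (Finset.mem_union_left _ hx)).1
  choose! zS cS' aS bS hcS haS hbS hnaS hnbS hxS using hSl
  set U : Finset L := {a₀, b₀} ∪ T.image sT ∪ S.image aS ∪ S.image bS with hU
  have hUB : ∀ s ∈ U, s ∈ B ∧ V.valuation s = 1 := by
    intro s hs
    rw [hU, Finset.mem_union, Finset.mem_union, Finset.mem_union, Finset.mem_insert,
      Finset.mem_singleton, Finset.mem_image, Finset.mem_image, Finset.mem_image] at hs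
    rcases hs with (((rfl | rfl) | ⟨x, hx, rfl⟩) | ⟨x, hx, rfl⟩) | ⟨x, hx, rfl⟩
    · exact ⟨ha₀, hna₀⟩
    · exact ⟨hb₀, hnb₀⟩
    · exact ⟨hsB x hx, hs1 x hx⟩
    · exact ⟨haS x hx, hnaS x hx⟩
    · exact ⟨hbS x hx, hnbS x hx⟩
  obtain ⟨β, hβB, hβ1, hβU⟩ := luv_units hUB hbB hb1
  obtain ⟨φ, hφx, hφs⟩ := hbφ β hβB hβ1
  have hUa₀ : a₀ ∈ U := by simp [hU]
  have hUT : ∀ x ∈ T, sT x ∈ U := fun x hx => by
    rw [hU]
    exact Finset.mem_union_left _ (Finset.mem_union_left _ (Finset.mem_union_right _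
      (Finset.mem_image_of_mem _ hx)))
  have hUaS : ∀ x ∈ S, aS x ∈ U := fun x hx => by
    rw [hU]
    exact Finset.mem_union_left _ (Finset.mem_union_right _ (Finset.mem_image_of_mem _ hx))
  have hUbS : ∀ x ∈ S, bS x ∈ U := fun x hx => by
    rw [hU]
    exact Finset.mem_union_right _ (Finset.mem_image_of_mem _ hx)
  have hw1 : V.valuation (b * β) = 1 := by rw [map_mul, hb1, hβ1, one_mul]
  have hw0 : b * β ≠ 0 := ne_zero_of_val hw1
  have hBB : ∀ x ∈ B, x ∈ Algebra.adjoin (O k) ((B : Set L) ∪ {(b * β)⁻¹}) := fun x hx =>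
    Algebra.subset_adjoin (Or.inl hx)
  have hAB : A ≤ Algebra.adjoin (O k) ((B : Set L) ∪ {(b * β)⁻¹}) := by
    rw [← hT]
    refine Algebra.adjoin_le fun x hx => ?_
    have hs0 : sT x ≠ 0 := ne_zero_of_val (hs1 x hx)
    have e1 : x = (x * sT x) * (sT x)⁻¹ := by rw [mul_inv_cancel_right₀ hs0]
    rw [e1]
    exact mul_mem (hBB _ (hsT x hx)) (hβU _ (hUT x hx))
  have hf₀0 : f₀ ≠ 0 := hf₀u.ne hne
  obtain ⟨γ, hγ, hγm⟩ := luv_mon_const (k := k) hne hB.c_ne hB.π_ne (-z₀) c₀⁻¹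
  have hγf : algebraMap (O k) L γ * f₀⁻¹ ∈
      Algebra.adjoin (O k) ((B : Set L) ∪ {(b * β)⁻¹}) := by
    have e1 : (DA.mon k e z₀ c₀)⁻¹ = DA.mon k e (-z₀) c₀⁻¹ := mon_inv z₀ c₀
    have e2 : algebraMap (O k) L γ * f₀⁻¹ =
        (algebraMap (O k) L γ * DA.mon k e (-z₀) c₀⁻¹) * b₀ * a₀⁻¹ := by
      rw [hf₀e, mul_inv, e1, inv_div, div_eq_mul_inv]
      ring
    rw [e2]
    exact mul_mem (mul_mem (hBB _ (hTtB _ hγm)) (hBB _ hb₀)) (hβU _ hUa₀)
  obtain ⟨n, f, hfA, hf0, hfc, hEq⟩ := luv_family hGB' hf₀A hf₀0 hGf (mul_mem hbB hβB) hw0 hAB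
    hγ hγf
  refine ⟨n, f, hfA, hf0, hfc, ?_⟩
  rw [hEq]
  refine ⟨?_, ⟨π, mem_O.2 hπ1.le⟩, ?_, hπ1, φ, hφs, ?_, ?_⟩
  · intro x hx
    induction hx using Algebra.adjoin_induction with
    | mem x hx =>
      rcases hx with hx | hx
      · exact hB.mem x hx
      · rw [Set.mem_singleton_iff] at hx
        rw [hx]
        exact (V.valuation_le_one_iff _).1 (by rw [map_inv₀, hw1, inv_one])
    | algebraMap a => exact hV.const _ (mem_O.1 a.2)
    | add x y _ _ hx hy => exact add_mem hx hy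
    | mul x y _ _ hx hy => exact mul_mem hx hy
  · intro h0
    exact hB.π_ne (congrArg Subtype.val h0)
  · intro i
    rw [hφx i]
    exact hB.lt i
  · intro x hx
    refine ⟨Fin.cons 0 (zS x), cS' x * ∏ i, c i ^ zS x i, aS x / bS x,
      mul_ne_zero (hcS x hx) (Finset.prod_ne_zero_iff.2 fun i _ =>
        zpow_ne_zero _ (hB.c_ne i)), ?_, ?_, ?_⟩
    · rw [div_eq_mul_inv]
      exact mul_mem (hBB _ (haS x hx)) (hβU _ (hUbS x hx))
    · rw [inv_div, div_eq_mul_inv]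
      exact mul_mem (hBB _ (hbS x hx)) (hβU _ (hUaS x hx))
    · have e1 : ∏ i, (φ (DA.SSr.x i) : L) ^ (Fin.cons 0 (zS x) : Fin (d + 1) → ℤ) i =
          ∏ i, DA.tor k e c π i ^ (Fin.cons 0 (zS x) : Fin (d + 1) → ℤ) i := by
        refine Finset.prod_congr rfl fun i _ => ?_
        rw [hφx i]
      rw [e1, ← luv_mon_tor hB.c_ne]
      exact hxS x hx

end

end CS
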