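import Pool.Agent.Lib.CS.WDefs
import Pool.Agent.Lib.CS.Basic
import Pool.Agent.Lib.TC.Tr
import Pool.Agent.Lib.TC.ResIso

/-!
# Module CS.WConv: composite valuations of `L` over the unit ball, and composite valuations of its residue
field
-/

open IsLocalRing MP1a953e

namespace CS
open Pool.Agent.Lib.MP_3029eb_ag Pool.Agent.Lib.MP_3029eb_ag.Abh

section
variable (k : Type) {L : Type} [NormedField k] [IsUltrametricDist k] [NormedField L]
  [IsUltrametricDist L] [NormedAlgebra k L]

/-- the transcendence degree of the residue field of `V` over that of `k` is `s` -/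
def RTV (V : ValuationSubring L) (s : ℕ) : Prop :=
  (∃ y : Fin s → L, (∀ i, y i ∈ V) ∧ RI k V y) ∧
    ∀ y : Fin (s + 1) → L, (∀ i, y i ∈ V) → ¬ RI k V y

/-- `V` is obtained from the unit ball by composition with finitely many valuations of rank one of the
residue fields which are discrete or of transcendence defect at most one over the residue field of
`k`. The integer `r` is the sum of their rational ranks. -/
inductive VComp : ValuationSubring L → ℕ → Prop
  | base : VComp (ball L) 0
  | discrete (V1 V : ValuationSubring L) (r : ℕ) :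
      VComp V1 r → V ≤ V1 → DiscS V1 V → VComp V (r + 1)
  | defect (V1 V : ValuationSubring L) (r1 r s t : ℕ) :
      VComp V1 r1 → V ≤ V1 → RankS V1 V r → RTV k V s → RTV k V1 t → t ≤ r + s + 1 →
      VComp V (r1 + r)

variable {k}

theorem VComp.le {V : ValuationSubring L} {r : ℕ} (h : VComp k V r) : V ≤ ball L := by
  induction h with
  | base => exact le_rfl
  | discrete V1 V r _ hle _ ih => exact hle.trans ih
  | defect V1 V r1 r s t _ hle _ _ _ _ ih => exact hle.trans ih

/-- the homomorphism from `V` onto the residual valuation ring -/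
private noncomputable def toW {K : Type} [Field K] {V V1 : ValuationSubring K} (h : V ≤ V1) :
    V →+* resV V V1 h :=
  RingHom.codRestrict ((residue V1).comp (ValuationSubring.inclusion V V1 h))
    (resV V V1 h).toSubring (fun v => ⟨v, rfl⟩)

private theorem toW_val {K : Type} [Field K] {V V1 : ValuationSubring K} (h : V ≤ V1) (v : V) :
    ((toW h v : resV V V1 h) : ResidueField V1) = rs V1 (v : K) := (rs_eq (h v.2)).symm

private theorem toW_surj {K : Type} [Field K] {V V1 : ValuationSubring K} (h : V ≤ V1) :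
    Function.Surjective (toW h) := by
  intro x
  obtain ⟨v, hv⟩ := x.2
  exact ⟨v, Subtype.ext hv⟩

/-- the homomorphism from `V` onto the residue field of the residual valuation ring -/
private noncomputable def rV {K : Type} [Field K] {V V1 : ValuationSubring K} (h : V ≤ V1) :
    V →+* ResidueField (resV V V1 h) := (residue (resV V V1 h)).comp (toW h)

private theorem rV_surj {K : Type} [Field K] {V V1 : ValuationSubring K} (h : V ≤ V1) :
    Function.Surjective (rV h) := residue_surjective.comp (toW_surj h)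

private theorem rV_eq_zero {K : Type} [Field K] {V V1 : ValuationSubring K} (h : V ≤ V1) (v : V) :
    rV h v = 0 ↔ V.valuation (v : K) < 1 := by
  show residue _ (toW h v) = 0 ↔ _
  rw [residue_eq_zero_iff, ← rs_resV_lt h v.2, ← toW_val h v]
  exact ValuationSubring.valuation_lt_one_iff _ _

/-- the constants of norm `≤ 1` -/
private noncomputable def oV {V : ValuationSubring L} (hV : OvR k V) : O k →+* V :=
  ((algebraMap k L).comp (O k).subtype).codRestrict V.toSubring fun c => hV.const _ (mem_O.1 c.2)

private theorem oV_val {V : ValuationSubring L} (hV : OvR k V) (c : O k) :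
    ((oV hV c : V) : L) = algebraMap k L (c : k) := rfl

private theorem rV_oV {V : ValuationSubring L} (hV : OvR k V)
    (hk : ∀ c : ResidueField (O k), resk k L c ∈ resV V (ball L) hV.le) :
    letI := (resk k L).toAlgebra
    ∀ c : O k, rV hV.le (oV hV c) =
      TA.resMap (k := ResidueField (O k)) (resV V (ball L) hV.le) hk (residue (O k) c) :=
  fun _ => rfl

private theorem coe_eval₂ {V : ValuationSubring L} (hV : OvR k V) {m : ℕ} (y : Fin m → V)
    (P : MvPolynomial (Fin m) (O k)) :
    ((MvPolynomial.eval₂ (oV hV) y P : V) : L) =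
      MvPolynomial.aeval (fun i => (y i : L)) (MvPolynomial.map (O k).subtype P) := by
  rw [MvPolynomial.aeval_def, MvPolynomial.eval₂_map]
  exact MvPolynomial.eval₂_comp_left V.subtype (oV hV) y P

private theorem rV_eval₂ {V : ValuationSubring L} (hV : OvR k V)
    (hk : ∀ c : ResidueField (O k), resk k L c ∈ resV V (ball L) hV.le) {m : ℕ} (y : Fin m → V)
    (P : MvPolynomial (Fin m) (O k)) :
    letI := (resk k L).toAlgebra
    rV hV.le (MvPolynomial.eval₂ (oV hV) y P) =
      MvPolynomial.eval₂ (TA.resMap (k := ResidueField (O k)) (resV V (ball L) hV.le) hk)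
        (fun i => rV hV.le (y i)) (MvPolynomial.map (residue (O k)) P) := by
  rw [MvPolynomial.eval₂_map]
  exact MvPolynomial.eval₂_comp_left (rV hV.le) (oV hV) y P

private theorem residue_ne_zero_iff (c : O k) : residue (O k) c ≠ 0 ↔ ‖(c : k)‖ = 1 := by
  rw [← isUnit_O_iff, Ne, residue_eq_zero_iff, mem_maximalIdeal, mem_nonunits_iff, not_not]

private theorem ri_iff {V : ValuationSubring L} (hV : OvR k V)
    (hk : ∀ c : ResidueField (O k), resk k L c ∈ resV V (ball L) hV.le) {m : ℕ}
    (y : Fin m → V) :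
    RI k V (fun i => (y i : L)) ↔
      ∀ p : MvPolynomial (Fin m) (ResidueField (O k)),
        (letI := (resk k L).toAlgebra
         MvPolynomial.eval₂ (TA.resMap (k := ResidueField (O k)) (resV V (ball L) hV.le) hk)
          (fun i => rV hV.le (y i)) p) = 0 → p = 0 := by
  constructor
  · intro h p hp
    by_contra hne
    obtain ⟨P, rfl⟩ := MvPolynomial.map_surjective (residue (O k)) residue_surjective p
    rw [← rV_eval₂ hV hk y P, rV_eq_zero, coe_eval₂] at hp
    obtain ⟨s, hs⟩ := (MvPolynomial.ne_zero_iff).1 hne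
    rw [MvPolynomial.coeff_map, residue_ne_zero_iff] at hs
    have h1 := h (MvPolynomial.map (O k).subtype P) (fun t => by
      rw [MvPolynomial.coeff_map]
      exact mem_O.1 (P.coeff t).2) ⟨s, by rw [MvPolynomial.coeff_map]; exact hs⟩
    rw [h1] at hp
    exact lt_irrefl _ hp
  · intro h Q hQ hQ1
    obtain ⟨P, rfl⟩ : ∃ P : MvPolynomial (Fin m) (O k), MvPolynomial.map (O k).subtype P = Q := by
      have h2 : Q ∈ Set.range (MvPolynomial.map (σ := Fin m) (O k).subtype) := by
        rw [MvPolynomial.mem_range_map_iff_coeffs_subset]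
        intro c hc
        obtain ⟨t, -, rfl⟩ := MvPolynomial.mem_coeffs_iff.1 hc
        exact ⟨⟨Q.coeff t, mem_O.2 (hQ t)⟩, rfl⟩
      exact h2
    rw [← coe_eval₂ hV y P]
    refine le_antisymm ((V.valuation_le_one_iff _).2 (Subtype.prop _)) (not_lt.1 fun h1 => ?_)
    rw [← rV_eq_zero hV.le, rV_eval₂ hV hk] at h1
    have h2 := h _ h1
    obtain ⟨s, hs⟩ := hQ1
    rw [MvPolynomial.coeff_map] at hs
    have h3 := (residue_ne_zero_iff (P.coeff s)).2 hs
    rw [← MvPolynomial.coeff_map, h2, MvPolynomial.coeff_zero] at h3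
    exact h3 rfl

private theorem trdeg_aux {κ R : Type} [Field κ] [Field R] (i : κ →+* R) (s : ℕ)
    (h1 : ∃ y : Fin s → R, ∀ p : MvPolynomial (Fin s) κ, MvPolynomial.eval₂ i y p = 0 → p = 0)
    (h2 : ∀ y : Fin (s + 1) → R,
      ¬ ∀ p : MvPolynomial (Fin (s + 1)) κ, MvPolynomial.eval₂ i y p = 0 → p = 0) :
    letI := i.toAlgebra
    Algebra.trdeg κ R = ((s : ℕ) : Cardinal) := by
  let _ := i.toAlgebra
  apply le_antisymm
  · by_contra hc
    rw [not_le] at hc
    obtain ⟨t, ht⟩ := exists_isTranscendenceBasis κ R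
    have h3 := ht.cardinalMk_eq_trdeg
    rw [← h3] at hc
    have h4 : ((s + 1 : ℕ) : Cardinal) ≤ Cardinal.mk t := by
      rw [Nat.cast_succ, ← Cardinal.succ_natCast]
      exact Order.succ_le_of_lt hc
    obtain ⟨g, hg⟩ : ∃ g : Fin (s + 1) → t, Function.Injective g := by
      have h5 : Cardinal.mk (ULift (Fin (s + 1))) ≤ Cardinal.mk t := by simpa using h4
      obtain ⟨g⟩ := (Cardinal.le_def _ _).1 h5
      exact ⟨fun i => g ⟨i⟩, fun a b hab => congrArg ULift.down (g.injective hab)⟩
    have h6 : AlgebraicIndependent κ (fun j => ((g j : t) : R)) := ht.1.comp g hg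
    rw [algebraicIndependent_iff] at h6
    exact h2 _ fun p hp => h6 p (by rw [MvPolynomial.aeval_def]; exact hp)
  · obtain ⟨y, hy⟩ := h1
    have h3 : AlgebraicIndependent κ y := by
      rw [algebraicIndependent_iff]
      intro p hp
      exact hy p (by rw [MvPolynomial.aeval_def] at hp; exact hp)
    have h4 := h3.lift_cardinalMk_le_trdeg
    simpa using h4

/-- Proof.  Let `W = resV V (ball L) hV.le`, a valuation ring of `lam = ResidueField (ball L)`; the map `W → residue field`
and `V → residue field` : the residue field of `W` is that of `V` (`TC.ResIso`, or directly: every element of `W` is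
`rs (ball L) x` with `x ∈ V`, and `rs (ball L) x` has `W`-value `< 1` iff `V.valuation x < 1`). If `y i ∈ V` with `RI k V y`, the
residues are algebraically independent over `ResidueField (O k)`: a nonzero polynomial over `ResidueField (O k)` is the
residue of a polynomial `P` with coefficients of norm `≤ 1`, one of norm `1` (`RI`), and `V.valuation (aeval y P) = 1`
means that its residue is not `0`. Conversely lift algebraically independent elements of the residue field of `W` to
elements of `V`. So the transcendence degree is `s` (a family of `s` independent elements exists, and no family of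
`s + 1`). -/
theorem RTV.residual {V : ValuationSubring L} {s : ℕ} (h : RTV k V s) (hV : OvR k V)
    (hk : ∀ c : ResidueField (O k), resk k L c ∈ resV V (ball L) hV.le) :
    letI := (resk k L).toAlgebra
    RTr (κ := ResidueField (O k)) (resV V (ball L) hV.le) hk s := by
  obtain ⟨⟨y, hy, hy1⟩, hn⟩ := h
  let _ := (resk k L).toAlgebra
  refine trdeg_aux (TA.resMap (k := ResidueField (O k)) (resV V (ball L) hV.le) hk) s
    ⟨fun i => rV hV.le ⟨y i, hy i⟩, (ri_iff hV hk fun i => ⟨y i, hy i⟩).1 hy1⟩ fun z hz => ?_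
  choose w hw using fun i => rV_surj hV.le (z i)
  obtain rfl : z = fun i => rV hV.le (w i) := funext fun i => (hw i).symm
  exact hn (fun i => (w i : L)) (fun i => (w i).2) ((ri_iff hV hk w).2 hz)

private theorem one_of_rs_one {K : Type} [Field K] {V1 B : ValuationSubring K} (h : V1 ≤ B)
    {a : K} (ha : B.valuation a = 1) (h1 : (resV V1 B h).valuation (rs B a) = 1) :
    V1.valuation a = 1 := by
  have h2 := (TC.val_eq_iff h ha (map_one B.valuation)).1 (by rw [h1, rs_one, map_one])
  rw [h2, map_one]

private theorem rs_one_of_one {K : Type} [Field K] {V1 B : ValuationSubring K} (h : V1 ≤ B)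
    {a : K} (ha : V1.valuation a = 1) : (resV V1 B h).valuation (rs B a) = 1 :=
  (rs_resV_val h ((V1.valuation_le_one_iff a).1 ha.le)).2 ha

private theorem exists_lift_one {K : Type} [Field K] {V1 B : ValuationSubring K} (h : V1 ≤ B)
    {z : ResidueField B} (hz : (resV V1 B h).valuation z = 1) :
    ∃ w : K, V1.valuation w = 1 ∧ rs B w = z := by
  have hz0 : z ≠ 0 := by
    rintro rfl
    rw [map_zero] at hz
    exact zero_ne_one hz
  obtain ⟨w, hw, rfl⟩ := TC.exists_lift_ne z hz0
  exact ⟨w, one_of_rs_one h hw hz, rfl⟩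

private theorem lt_of_rs_lt {K : Type} [Field K] {V B : ValuationSubring K} (h : V ≤ B)
    {a : K} (ha : B.valuation a = 1) (h1 : (resV V B h).valuation (rs B a) < 1) :
    V.valuation a < 1 := by
  by_contra hc
  rw [not_lt, ← map_one V.valuation, ← TC.val_le_iff h (map_one B.valuation) ha, rs_one,
    map_one] at hc
  exact absurd h1 (not_lt.2 hc)

private theorem resV_mono {K : Type} [Field K] {V V1 B : ValuationSubring K} (h : V ≤ V1)
    (h1 : V1 ≤ B) (h2 : V ≤ B) : resV V B h2 ≤ resV V1 B h1 := by
  intro z hz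
  rw [C1_mem_resV] at hz ⊢
  obtain ⟨u, hu, hr⟩ := hz
  exact ⟨u, h hu, hr⟩

private theorem resV_self {K : Type} [Field K] {B : ValuationSubring K} (h : B ≤ B) :
    resV B B h = ⊤ := by
  refine le_antisymm le_top fun z _ => ?_
  obtain ⟨u, rfl⟩ := residue_surjective z
  rw [← rs_coe]
  exact (rs_mem_resV h u.2).2 u.2

private theorem discS_res {K : Type} [Field K] {V V1 B : ValuationSubring K}
    (h1 : V1 ≤ B) (h2 : V ≤ B) (hd : DiscS V1 V) : DiscS (resV V1 B h1) (resV V B h2) := by
  obtain ⟨π, hπ1, hπ, hg⟩ := hd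
  have hπB := C1_val_one_of_le h1 hπ1
  refine ⟨rs B π, rs_one_of_one h1 hπ1,
    (rs_resV_lt h2 ((V.valuation_le_one_iff π).1 hπ.le)).2 hπ, fun z hz => ?_⟩
  obtain ⟨w, hw, rfl⟩ := exists_lift_one h1 hz
  obtain ⟨n, hn⟩ := hg w hw
  refine ⟨n, ?_⟩
  rw [← rs_zpow hπB, TC.val_eq_iff h2 (C1_val_one_of_le h1 hw)
    (by rw [map_zpow₀, hπB, one_zpow])]
  exact hn

private theorem rankS_res {K : Type} [Field K] {V V1 B : ValuationSubring K}
    (h1 : V1 ≤ B) (h2 : V ≤ B) {r : ℕ} (hd : RankS V1 V r) :
    RankS (resV V1 B h1) (resV V B h2) r := by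
  have hmon : ∀ {m : ℕ} (x : Fin m → K), (∀ i, V1.valuation (x i) = 1) → ∀ δ : Fin m → ℤ,
      (resV V B h2).valuation (∏ i, rs B (x i) ^ δ i) = 1 ↔ V.valuation (∏ i, x i ^ δ i) = 1 := by
    intro m x hx δ
    have hxB : ∀ i, B.valuation (x i) = 1 := fun i => C1_val_one_of_le h1 (hx i)
    have e1 : ∏ i, rs B (x i) ^ δ i = rs B (∏ i, x i ^ δ i) := (rs_mon x hxB δ).symm
    have e2 : B.valuation (∏ i, x i ^ δ i) = 1 := by
      rw [map_prod]
      refine Finset.prod_eq_one fun i _ => ?_
      rw [map_zpow₀, hxB i, one_zpow]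
    have e3 := TC.val_eq_iff h2 e2 (map_one B.valuation)
    rw [rs_one, map_one, map_one] at e3
    rw [e1, e3]
  refine ⟨?_, hd.pos, ?_, ?_⟩
  · intro a b ha hb hb1
    obtain ⟨a', ha', rfl⟩ := exists_lift_one h1 ha
    obtain ⟨b', hb', rfl⟩ := exists_lift_one h1 hb
    have hbB := C1_val_one_of_le h1 hb'
    obtain ⟨n, hn⟩ := hd.arch a' b' ha' hb' (lt_of_rs_lt h2 hbB hb1)
    refine ⟨n, ?_⟩
    rw [← rs_pow ((B.valuation_le_one_iff b').1 hbB.le),
      TC.val_le_iff h2 (by rw [map_pow, hbB, one_pow]) (C1_val_one_of_le h1 ha')]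
    exact hn
  · obtain ⟨x, hx, hi⟩ := hd.ind
    exact ⟨fun i => rs B (x i), fun i => rs_one_of_one h1 (hx i), fun m hm =>
      hi m ((hmon x hx m).1 hm)⟩
  · intro z hz
    choose w hw hwz using fun i => exists_lift_one h1 (hz i)
    obtain rfl : (fun i => rs B (w i)) = z := funext hwz
    obtain ⟨m, hm, hm1⟩ := hd.dep w hw
    exact ⟨m, hm, (hmon w hw m).2 hm1⟩

private theorem resk_mem {V : ValuationSubring L} (hV : OvR k V) (c : ResidueField (O k)) :
    resk k L c ∈ resV V (ball L) hV.le := by
  obtain ⟨c, rfl⟩ := residue_surjective c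
  have h1 : resk k L (residue (O k) c) = rs (ball L) (algebraMap k L (c : k)) :=
    (rs_eq (hV.le (hV.const _ (mem_O.1 c.2)))).symm
  rw [h1]
  exact (rs_mem_resV hV.le (hV.le (hV.const _ (mem_O.1 c.2)))).2 (hV.const _ (mem_O.1 c.2))

private theorem comp_aux {V : ValuationSubring L} {r : ℕ} (h : VComp k V r) :
    ∀ (_ : ∀ c : k, ‖c‖ ≤ 1 → algebraMap k L c ∈ V) (hle : V ≤ ball L),
    letI := (resk k L).toAlgebra
    Comp (ResidueField (O k)) (resV V (ball L) hle) r := by
  let _ := (resk k L).toAlgebra
  induction h with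
  | base =>
    intro _ hle
    show Comp (ResidueField (O k)) (resV (ball L) (ball L) hle) 0
    rw [resV_self]
    exact Comp.trivial
  | discrete V1 V r h1 hle1 hd ih =>
    intro hc hle
    exact Comp.discrete (resV V1 (ball L) h1.le) (resV V (ball L) hle) r
      (ih (fun c hcc => hle1 (hc c hcc)) h1.le) (resV_mono hle1 h1.le hle)
      (discS_res h1.le hle hd)
  | defect V1 V r1 r s t h1 hle1 hd hs ht hrs ih =>
    intro hc hle
    have hV : OvR k V := ⟨hle, hc⟩
    have hV1 : OvR k V1 := ⟨h1.le, fun c hcc => hle1 (hc c hcc)⟩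
    exact Comp.defect (resV V1 (ball L) h1.le) (resV V (ball L) hle) r1 r s t
      (resk_mem hV1) (resk_mem hV) (ih hV1.const h1.le) (resV_mono hle1 h1.le hle)
      (rankS_res h1.le hle hd) (hs.residual hV (resk_mem hV)) (ht.residual hV1 (resk_mem hV1)) hrs

/-- Proof.  Induction over `h` (the hypothesis `hc` holds for all rings `V1 ≥ V`). `resV (ball L) (ball L) _ = ⊤`.
`DiscS` and `RankS` are translated with `TC.val_le_iff`, `TC.val_eq_iff`, `TC.tr_arch`, `TC.tr_ind`, `TC.tr_rank`, `TC.tr_gen1`
of Pool/Agent/Lib/TC/Tr.lean: for `a, b` with `ball`-value one, `(resV V (ball L) _).valuation (rs a) ≤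
(resV V (ball L) _).valuation (rs b)` iff `V.valuation a ≤ V.valuation b`; every nonzero element of `lam` is
`rs (ball L) a` with `a` of `ball`-value one; an element of `V1`-value one has `ball`-value one. For `defect` use
`RTV.residual` for `V` and `V1`. -/
theorem comp_of_vcomp {V : ValuationSubring L} {r : ℕ} (h : VComp k V r)
    (hc : ∀ c : k, ‖c‖ ≤ 1 → algebraMap k L c ∈ V) :
    letI := (resk k L).toAlgebra
    Comp (ResidueField (O k)) (resV V (ball L) h.le) r := by
  exact comp_aux h hc h.le

end

end CS
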