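import Pool.Agent.Lib.CS.WDefs
import Pool.Agent.Lib.TC.StepD
import Pool.Agent.Lib.TC.StepAk
import Pool.Agent.Lib.TC.StepU
import Pool.Agent.Lib.TC.FinF
import Pool.Agent.Lib.TU.MainU

/-!
# Module CS.UnifC: uniformization of the composite valuations of function fields
-/

open IsLocalRing

namespace CS
open Pool.Agent.Lib.MP_3029eb_ag Pool.Agent.Lib.MP_3029eb_ag.Abh

theorem mainU {p : ℕ} [Fact p.Prime] : TC.MainU p := by
  intro k _ _ _ R K _ _ _ _ _ _ _ _ _ V harch hRV r m hr htr x hx0 hx hrank y hyV hy hres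
  exact Pool.Agent.Lib.TU.main_embU p k R K V harch hRV r m hr htr x hx0 hx hrank y hyV hy hres

theorem unif_of_comp {p : ℕ} [Fact p.Prime] {κ : Type} [Field κ] [PerfectField κ] [CharP κ p]
    {K : Type} [Field K] [Algebra κ K] {V : ValuationSubring K} {r : ℕ} (h : Comp κ V r) :
    TC.Unif (algebraMap κ K) V r := by
  induction h with
  | trivial => exact TC.Unif_top _
  | discrete V1 V r _ hle h2 ih =>
    obtain ⟨π, h3, h4, h5⟩ := h2
    exact TC.unif_D (TC.goodBase_of_field κ) _ ⟨hle, h3, h4, h5⟩ ih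
  | defect V1 V r1 r s t hk1 hk _ hle hR hs ht hst ih =>
    obtain ⟨harch, hr, ⟨x, hx1, hx2⟩, hrank⟩ := hR
    rcases Nat.lt_or_ge (r + s) t with h1 | h1
    · have h2 : t = r + s + 1 := by omega
      subst h2
      exact TC.unif_U (p := p) mainU hle hk1 hk harch hr x hx1 hx2 hrank hs ht ih
    · refine TC.unif_Ak hle hk1 hk hx1 hx2 hs ?_ ih
      refine ht.trans_le ?_
      exact_mod_cast h1

end CS
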