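import Pool.Agent.Lib.CS.WRes
import Pool.Agent.Lib.CS.UnifC
import Pool.Agent.Lib.CS.DimW

/-!
# Module CS.WHyp: uniformization of the residual valuation
-/

open IsLocalRing MP1a953e

namespace CS
open Pool.Agent.Lib.MP_3029eb_ag Pool.Agent.Lib.MP_3029eb_ag.Abh

section
variable {k : Type} {L : Type} [NormedField k] [IsUltrametricDist k] [NormedField L]
  [IsUltrametricDist L] [NormedAlgebra k L] {V : ValuationSubring L}

/-- lifts to `V` of the members of a transcendence basis (or of their inverses) -/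
private theorem wh_lifts (hV : OvR k V) {m : ℕ}
    (hm : letI := (resk k L).toAlgebra
      Algebra.trdeg (ResidueField (O k)) (ResidueField (ball L)) = ((m : ℕ) : Cardinal)) :
    ∃ (z : Fin m → ResidueField (ball L)) (w : Fin m → L),
      (letI := (resk k L).toAlgebra; IsTranscendenceBasis (ResidueField (O k)) z) ∧
      (∀ i, w i ∈ V) ∧ ∀ i, rs (ball L) (w i) = z i ∨ rs (ball L) (w i) = (z i)⁻¹ := by
  classical
  letI := (resk k L).toAlgebra
  obtain ⟨s, hs⟩ := exists_isTranscendenceBasis (ResidueField (O k)) (ResidueField (ball L))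
  have hc : Cardinal.mk s = ((m : ℕ) : Cardinal) := by
    rw [← hs.cardinalMk_eq_trdeg] at hm
    exact hm
  have hc' : Cardinal.mk (Fin m) = Cardinal.mk s := by rw [hc, Cardinal.mk_fin]
  obtain ⟨e⟩ := Cardinal.eq.1 hc'
  have hz : IsTranscendenceBasis (ResidueField (O k))
      (fun i : Fin m => ((e i : s) : ResidueField (ball L))) := hs.comp_equiv e
  have hw : ∀ x : ResidueField (ball L), ∃ w : L, w ∈ V ∧
      (rs (ball L) w = x ∨ rs (ball L) w = x⁻¹) := by
    intro x
    rcases (resV V (ball L) hV.le).mem_or_inv_mem x with hx | hx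
    · rw [C1_mem_resV hV.le] at hx
      obtain ⟨u, hu, hux⟩ := hx
      exact ⟨u, hu, Or.inl (by rw [rs_coe, hux])⟩
    · rw [C1_mem_resV hV.le] at hx
      obtain ⟨u, hu, hux⟩ := hx
      exact ⟨u, hu, Or.inr (by rw [rs_coe, hux])⟩
  choose w hw1 hw2 using hw
  exact ⟨fun i => ((e i : s) : ResidueField (ball L)), fun i => w (e i : s), hz,
    fun i => hw1 _, fun i => hw2 _⟩

/-- the statement for a subring of an extension of `κ` -/
private theorem wh_core {p : ℕ} [Fact p.Prime] {κ lam : Type} [Field κ] [PerfectField κ]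
    [CharP κ p] [Field lam] [Algebra κ lam] {W : ValuationSubring lam} {r : ℕ}
    (hW : Comp κ W r) (B : Subring lam) (hBW : B ≤ W.toSubring) (hloc : locV W B = B)
    (f : κ →+* B) (hf : EFT f) (hfc : ∀ c, (f c : lam) = algebraMap κ lam c) {m : ℕ}
    {z : Fin m → lam} (hz : IsTranscendenceBasis κ z) (hzB : ∀ i, z i ∈ B ∨ (z i)⁻¹ ∈ B) :
    TC.EMB3 W B r := by
  have hkB : ∀ c : κ, algebraMap κ lam c ∈ B := fun c => by
    rw [← hfc c]
    exact (f c).2
  let Bs : Subalgebra κ lam := { B with algebraMap_mem' := hkB }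
  let F : IntermediateField κ lam := IntermediateField.adjoin κ (B : Set lam)
  have hBF : ∀ b ∈ B, b ∈ F := fun b hb => IntermediateField.subset_adjoin κ _ hb
  have hle : Algebra.adjoin κ (B : Set lam) ≤ Bs := Algebra.adjoin_le fun x hx => hx
  have hfrac : ∀ x : F, ∃ a ∈ B, ∃ b ∈ B, b ≠ 0 ∧ (x : lam) * b = a := by
    intro x
    obtain ⟨a, ha, b, hb, hab⟩ := (IntermediateField.mem_adjoin_iff_div).1 x.2
    by_cases hb0 : b = 0
    · refine ⟨0, B.zero_mem, 1, B.one_mem, one_ne_zero, ?_⟩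
      rw [hb0, div_zero] at hab
      rw [hab, zero_mul]
    · exact ⟨a, hle ha, b, hle hb, hb0, by rw [hab, div_mul_cancel₀ _ hb0]⟩
  have hzF : IntermediateField.adjoin κ (Set.range z) ≤ F := by
    rw [IntermediateField.adjoin_le_iff]
    rintro _ ⟨i, rfl⟩
    rcases hzB i with h | h
    · exact hBF _ h
    · have h1 := F.inv_mem (hBF _ h)
      rwa [inv_inv] at h1
  have hal0 : Algebra.IsAlgebraic (IntermediateField.adjoin κ (Set.range z)) lam :=
    hz.isAlgebraic_field
  have hal : Algebra.IsAlgebraic F lam := by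
    letI : Algebra (IntermediateField.adjoin κ (Set.range z)) F :=
      (IntermediateField.inclusion hzF).toRingHom.toAlgebra
    haveI : IsScalarTower (IntermediateField.adjoin κ (Set.range z)) F lam :=
      IsScalarTower.of_algebraMap_eq fun _ => rfl
    exact Algebra.IsAlgebraic.tower_top (K := IntermediateField.adjoin κ (Set.range z)) F
  have hWF : Comp κ (W.comap (algebraMap F lam)) r := Comp.comap (F := F) hW
  have hU := unif_of_comp (p := p) hWF
  let B₀ : Subring F := B.comap (algebraMap F lam)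
  have hmap : B₀.map (algebraMap F lam) = B := by
    ext y
    constructor
    · rintro ⟨y, hy, rfl⟩
      exact hy
    · intro hy
      exact ⟨⟨y, hBF y hy⟩, hy, rfl⟩
  let g : B →+* B₀ :=
    { toFun := fun b => ⟨⟨b, hBF _ b.2⟩, b.2⟩
      map_one' := rfl
      map_zero' := rfl
      map_add' := fun _ _ => rfl
      map_mul' := fun _ _ => rfl }
  have hg : Function.Surjective g := by
    rintro ⟨⟨y, hy⟩, hy'⟩
    exact ⟨⟨y, hy'⟩, rfl⟩
  have hfrac0 : ∀ x : F, ∃ a ∈ B₀, ∃ b ∈ B₀, b ≠ 0 ∧ x * b = a := by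
    intro x
    obtain ⟨a, ha, b, hb, hb0, hab⟩ := hfrac x
    exact ⟨⟨a, hBF a ha⟩, ha, ⟨b, hBF b hb⟩, hb, fun h => hb0 (congrArg Subtype.val h),
      Subtype.ext hab⟩
  have hE := hU B₀ (fun x hx => hBW hx) ?_ (g.comp f) (fun c => Subtype.ext (hfc c))
    (EFT_comp_surjective f g hf hg) hfrac0
  · refine TC.EMB3_map (algebraMap F lam) W (W.comap (algebraMap F lam)) (fun _ => Iff.rfl)
      (fun z => C2_comap_val_one W _ z) B B₀ hmap hfrac0 ?_ hE
    rintro x ⟨a, ha, b, hb, hb0, hab⟩
    refine ⟨⟨a, hBF a ha⟩ / ⟨b, hBF b hb⟩, ?_⟩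
    rw [map_div₀]
    exact (eq_div_of_mul_eq hb0 hab).symm
  · refine le_antisymm ?_ (le_locV _ _)
    rintro x ⟨a, ha, b, hb, hb1, hab⟩
    have h1 : algebraMap F lam x ∈ locV W B :=
      ⟨algebraMap F lam a, ha, algebraMap F lam b, hb, (C2_comap_val_one W _ b).1 hb1, by
        rw [← map_mul, hab]⟩
    rw [hloc] at h1
    exact h1

/-- Proof.  Write `κ = ResidueField (O k)`, `lam = ResidueField (ball L)` (a `κ`-algebra by `resk k L`),
`W = resV V (ball L) hV.le`. Choose a transcendence basis `z : Fin m → lam` over `κ`, and `t j ∈ V` whose residue is `z j` or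
`(z j)⁻¹` (one of them is in `W`; compare `TC.exists_tr_lifts`). `G₀` is the set of the `t j`. Let `G₁ ⊇ G₀`,
`B = im (ball L) (RG k V G₁)`. `locV W B = B` (`im_locV`, `locV_RG`), `B ≤ W`, and `exists_EFT_im` gives `f : κ →+* B`, EFT.
Let `F ⊆ lam` be the field of all quotients of elements of `B` (`Subfield` or `IntermediateField κ lam`); it contains
the `z j`, so `lam / F` is algebraic. `W ∩ F = W.comap (algebraMap F lam)` is composite (`Comp.comap`), so
`unif_of_comp` and `TC.Unif` (for the subring `B₀` of `F` of the elements of `B`, with `EFT`, `locV (W ∩ F) B₀ = B₀`) give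
`TC.EMB3 (W ∩ F) B₀ r₂`, and `TC.EMB3_map` (Pool/Agent/Lib/TC/Trans.lean) gives the claim. -/
theorem whyp_of_comp {p : ℕ} [Fact p.Prime] [PerfectField (ResidueField (O k))]
    [CharP (ResidueField (O k)) p] (hV : OvR k V) {r₂ m : ℕ}
    (hm : letI := (resk k L).toAlgebra
      Algebra.trdeg (ResidueField (O k)) (ResidueField (ball L)) = ((m : ℕ) : Cardinal))
    (hW : letI := (resk k L).toAlgebra
      Comp (ResidueField (O k)) (resV V (ball L) hV.le) r₂) :
    WHyp k V hV.le r₂ := by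
  classical
  obtain ⟨z, w, hz, hwV, hwz⟩ := wh_lifts hV hm
  refine ⟨Finset.univ.image w, ?_, fun G₁ hG₁ hsub => ?_⟩
  · intro t ht
    obtain ⟨i, -, rfl⟩ := Finset.mem_image.1 ht
    exact hwV i
  letI := (resk k L).toAlgebra
  obtain ⟨f, hf, hfc⟩ := exists_EFT_im hV G₁ hG₁
  have hAV : RG k V (G₁ : Set L) ≤ V.toSubring := RG_le hV hG₁
  have hAb : RG k V (G₁ : Set L) ≤ (ball L).toSubring := hAV.trans hV.le
  refine wh_core (p := p) hW _ (im_le_resV hV.le _ hAV)
    (locV_im hV.le _ hAV (locV_RG _)) f hf hfc hz fun i => ?_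
  have h1 : w i ∈ RG k V (G₁ : Set L) :=
    mem_RG (Finset.mem_coe.2 (hsub (Finset.mem_image_of_mem _ (Finset.mem_univ _))))
  have h2 : rs (ball L) (w i) ∈ im (ball L) (RG k V (G₁ : Set L)) :=
    (mem_im_iff hAb _).2 ⟨_, h1, rfl⟩
  rcases hwz i with h3 | h3
  · rw [h3] at h2
    exact Or.inl h2
  · rw [h3] at h2
    exact Or.inr h2

end

end CS
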