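import Pool.Agent.Lib.CS.Basic

/-!
# Module CS.WTr: transcendence degree of the residue field
-/

open IsLocalRing MP1a953e

namespace CS
open Pool.Agent.Lib.MP_3029eb_ag Pool.Agent.Lib.MP_3029eb_ag.Abh

section
variable {k : Type} {L : Type} [NormedField k] [IsUltrametricDist k] [NormedField L]
  [IsUltrametricDist L] [NormedAlgebra k L]

/-- The two descriptions of the closed unit ball. -/
private noncomputable def eOB : O L ≃+* ball L where
  toFun x := ⟨(x : L), (mem_ball _).2 (mem_O.1 x.2)⟩
  invFun x := ⟨(x : L), mem_O.2 ((mem_ball _).1 x.2)⟩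
  left_inv x := rfl
  right_inv x := rfl
  map_mul' x y := rfl
  map_add' x y := rfl

/-- The residue fields of the two descriptions of the unit ball have the same transcendence degree. -/
theorem trdeg_ball {m : ℕ}
    (hm : Algebra.trdeg (ResidueField (O k)) (ResidueField (O L)) = ((m : ℕ) : Cardinal)) :
    letI := (resk k L).toAlgebra
    Algebra.trdeg (ResidueField (O k)) (ResidueField (ball L)) = ((m : ℕ) : Cardinal) := by
  letI := (resk k L).toAlgebra
  show Algebra.trdeg (ResidueField (O k)) (ResidueField (ball L)) = ((m : ℕ) : Cardinal)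
  rw [← hm]
  let E : ResidueField (O L) ≃+* ResidueField (ball L) := ResidueField.mapEquiv eOB
  have hE : ∀ x : O L, E (residue (O L) x) = residue (ball L) (eOB x) := fun x => rfl
  let E' : ResidueField (O L) ≃ₐ[ResidueField (O k)] ResidueField (ball L) :=
    { E with
      commutes' := by
        intro c
        obtain ⟨c, rfl⟩ := residue_surjective c
        rfl }
  exact (E'.trdeg_eq).symm

end

end CS
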