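import Pool.Agent.Lib.CS.Z1
import Pool.Agent.Lib.DA.HFd

/-!
# Module CS.Z2: existence of the data
-/

open Polynomial MP1a953e IsLocalRing DA

namespace CS

private theorem z2_small {k : Type*} [NontriviallyNormedField k] (δ : ℝ) (hδ : 0 < δ)
    (Z : Finset k) : ∃ c : k, ‖c‖ < δ ∧ c ∉ Z := by
  have h1 : (Metric.ball (0 : k) δ).Infinite :=
    infinite_of_mem_nhds (0 : k) (Metric.ball_mem_nhds 0 hδ)
  obtain ⟨c, hc, hcZ⟩ := h1.exists_notMem_finset Z
  exact ⟨c, by simpa using hc, hcZ⟩

private theorem z2_range {k L : Type*} [Field k] [Field L] [Algebra k L] {r m : ℕ}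
    (x ζ : Fin (r + m) → L) (c : k) :
    (Set.range fun i => x i + algebraMap k L c * ζ i) =
      Set.range (fun i : Fin r => x (i.castAdd m) + algebraMap k L c * ζ (i.castAdd m)) ∪
      Set.range (fun i : Fin m => x (i.natAdd r) + algebraMap k L c * ζ (i.natAdd r)) := by
  ext y
  constructor
  · rintro ⟨i, rfl⟩
    refine Fin.addCases (fun i => ?_) (fun i => ?_) i
    · exact Or.inl ⟨i, rfl⟩
    · exact Or.inr ⟨i, rfl⟩
  · rintro (⟨i, rfl⟩ | ⟨i, rfl⟩)
    · exact ⟨_, rfl⟩
    · exact ⟨_, rfl⟩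

private theorem z2_append_range {L : Type*} {r m : ℕ} (e : Fin r → L) (u : Fin m → L) :
    Set.range (Fin.append e u) = Set.range e ∪ Set.range u := by
  ext x
  constructor
  · rintro ⟨i, rfl⟩
    refine Fin.addCases (fun i => ?_) (fun i => ?_) i
    · left
      exact ⟨i, (Fin.append_left _ _ _).symm⟩
    · right
      exact ⟨i, (Fin.append_right _ _ _).symm⟩
  · rintro (⟨i, rfl⟩ | ⟨i, rfl⟩)
    · exact ⟨Fin.castAdd m i, Fin.append_left _ _ _⟩
    · exact ⟨Fin.natAdd r i, Fin.append_right _ _ _⟩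

/-- Perturbation of an Abhyankar basis (compare `DA.exists_sep_eu`, Pool/Agent/Lib/DA/K7.lean; copy its proof without the element
`T`): `DA.exists_sep_dir` for `n = r + m`, `𝓡 = Set.univ` and the family `Fin.append e₀ u₀`, and `EU.perturb`. -/
theorem exists_sep_eu0 {k L : Type} [NontriviallyNormedField k] [IsUltrametricDist k]
    [IsAlgClosed k] [NormedField L] [IsUltrametricDist L] [NormedAlgebra k L] {r m : ℕ}
    {e₀ : Fin r → L} {u₀ : Fin m → L} (h₀ : EU k e₀ u₀) (hfg : (⊤ : IntermediateField k L).FG)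
    (htr : Algebra.trdeg k L = ((r + m : ℕ) : Cardinal)) :
    ∃ (e : Fin r → L) (u : Fin m → L), EU k e u ∧ (∀ i, ‖e i - e₀ i‖ < ‖e₀ i‖) ∧
      (∀ i, ‖u i - u₀ i‖ < 1) ∧ Algebra.IsSeparable (keu k e u) L := by
  classical
  obtain ⟨ζ, -, hζ⟩ := exists_sep_dir hfg htr Set.univ
    (fun x => ⟨x, trivial, 1, trivial, one_ne_zero, by simp⟩)
  obtain ⟨Z, hZ⟩ := hζ (Fin.append e₀ u₀)
  -- a small `δ`
  obtain ⟨δ, hδ, hδe, hδu⟩ : ∃ δ : ℝ, 0 < δ ∧
      (∀ i : Fin r, ∀ c : k, ‖c‖ < δ → ‖algebraMap k L c * ζ (i.castAdd m)‖ < ‖e₀ i‖) ∧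
      (∀ i : Fin m, ∀ c : k, ‖c‖ < δ → ‖algebraMap k L c * ζ (i.natAdd r)‖ < 1) := by
    have key : ∀ (ι : Type) [Fintype ι] (a : ι → L) (b : ι → ℝ), (∀ i, 0 < b i) →
        ∃ δ : ℝ, 0 < δ ∧ ∀ i, ∀ c : k, ‖c‖ < δ → ‖algebraMap k L c * a i‖ < b i := by
      intro ι _ a b hb
      have h1 : ∀ i, ∃ δ : ℝ, 0 < δ ∧ ∀ c : k, ‖c‖ < δ → ‖algebraMap k L c * a i‖ < b i := by
        intro i
        refine ⟨b i / (‖a i‖ + 1), by have := norm_nonneg (a i); have := hb i; positivity, ?_⟩
        intro c hc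
        rw [norm_mul, norm_algebraMap']
        have h2 : 0 < ‖a i‖ + 1 := by have := norm_nonneg (a i); linarith
        rw [lt_div_iff₀ h2] at hc
        have h3 := norm_nonneg c
        rcases h3.eq_or_lt with h4 | h4
        · rw [← h4, zero_mul]; exact hb i
        · nlinarith [norm_nonneg (a i)]
      choose d hd0 hd using h1
      by_cases hι : Nonempty ι
      · refine ⟨Finset.univ.inf' Finset.univ_nonempty d, ?_, ?_⟩
        · rw [Finset.lt_inf'_iff]; intro i _; exact hd0 i
        · intro i c hc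
          exact hd i c (lt_of_lt_of_le hc (Finset.inf'_le _ (Finset.mem_univ i)))
      · exact ⟨1, one_pos, fun i => (hι ⟨i⟩).elim⟩
    obtain ⟨δ1, h1, h1'⟩ := key (Fin r) (fun i => ζ (i.castAdd m)) (fun i => ‖e₀ i‖)
      (fun i => norm_pos_iff.2 (h₀.ne i))
    obtain ⟨δ2, h2, h2'⟩ := key (Fin m) (fun i => ζ (i.natAdd r)) (fun i => 1)
      (fun i => one_pos)
    exact ⟨min δ1 δ2, lt_min h1 h2, fun i c hc => h1' i c (lt_of_lt_of_le hc (min_le_left _ _)),
      fun i c hc => h2' i c (lt_of_lt_of_le hc (min_le_right _ _))⟩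
  obtain ⟨c, hc, hcZ⟩ := z2_small δ hδ Z
  have hsep := hZ c hcZ
  have hS : (Set.range fun i => Fin.append e₀ u₀ i + algebraMap k L c * ζ i) =
      Set.range (fun i : Fin r => e₀ i + algebraMap k L c * ζ (i.castAdd m)) ∪
      Set.range (fun i : Fin m => u₀ i + algebraMap k L c * ζ (i.natAdd r)) := by
    rw [z2_range]
    simp only [Fin.append_left, Fin.append_right]
  rw [hS] at hsep
  have he' : ∀ i, ‖(e₀ i + algebraMap k L c * ζ (i.castAdd m)) - e₀ i‖ < ‖e₀ i‖ := by
    intro i
    rw [add_sub_cancel_left]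
    exact hδe i c hc
  have hu' : ∀ i, ‖(u₀ i + algebraMap k L c * ζ (i.natAdd r)) - u₀ i‖ < 1 := by
    intro i
    rw [add_sub_cancel_left]
    exact hδu i c hc
  exact ⟨_, _, h₀.perturb he' hu', he', hu', hsep⟩

private theorem z2_findim {k L : Type} [NontriviallyNormedField k] [IsUltrametricDist k]
    [IsAlgClosed k] [NormedField L] [IsUltrametricDist L] [NormedAlgebra k L] {r m : ℕ}
    {e₀ : Fin r → L} {u₀ : Fin m → L} (h₀ : EU k e₀ u₀) (hfg : (⊤ : IntermediateField k L).FG)
    (htr : Algebra.trdeg k L = ((r + m : ℕ) : Cardinal)) :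
    FiniteDimensional (keu k e₀ u₀) L := by
  have hb : IsTranscendenceBasis k (Fin.append e₀ u₀) :=
    h₀.algebraicIndependent.isTranscendenceBasis_of_lift_trdeg_le_of_finite (by rw [htr]; simp)
  have h1 := hb.isAlgebraic_field
  rw [z2_append_range] at h1
  have h2 : Algebra.IsAlgebraic (keu k e₀ u₀) L := h1
  have hfgN : (⊤ : IntermediateField (keu k e₀ u₀) L).FG := by
    obtain ⟨t, ht⟩ := hfg
    refine ⟨t, ?_⟩
    rw [eq_top_iff]
    intro x _
    have hx : x ∈ IntermediateField.adjoin k (t : Set L) := by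
      rw [ht]
      exact IntermediateField.mem_top
    have hle : IntermediateField.adjoin k (t : Set L) ≤
        (IntermediateField.adjoin (keu k e₀ u₀) (t : Set L)).restrictScalars k := by
      rw [IntermediateField.adjoin_le_iff]
      intro y hy
      exact IntermediateField.subset_adjoin (keu k e₀ u₀) (t : Set L) hy
    exact hle hx
  obtain ⟨t, ht⟩ := hfgN
  have : FiniteDimensional (keu k e₀ u₀) (IntermediateField.adjoin (keu k e₀ u₀) (t : Set L)) :=
    IntermediateField.finiteDimensional_adjoin fun x _ =>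
      (Algebra.IsAlgebraic.isAlgebraic x).isIntegral
  rw [ht] at this
  exact IntermediateField.topEquiv.toLinearEquiv.finiteDimensional

/-- Proof.  `L` is algebraic (the transcendence degree is `r + m` and the elements of `(e₀, u₀)` are algebraically
independent, `EU.algebraicIndependent`) and finitely generated over `keu k e₀ u₀`, so of finite degree `N`; orthogonal
families are linearly independent, so they have at most `N` elements. The other items of `RWd` for `R = ⊤` and
`w = nabs L` are as in the proof of `DA.exists_dense` (Pool/Agent/Lib/DA/M3.lean). -/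
theorem rwd_of_alg {k L : Type} [NontriviallyNormedField k] [IsUltrametricDist k]
    [IsAlgClosed k] [NormedField L] [IsUltrametricDist L] [NormedAlgebra k L] {r m : ℕ}
    {e₀ : Fin r → L} {u₀ : Fin m → L} (h₀ : EU k e₀ u₀) (hfg : (⊤ : IntermediateField k L).FG)
    (htr : Algebra.trdeg k L = ((r + m : ℕ) : Cardinal)) :
    RWd (keu k e₀ u₀) ⊤ (nabs L) := by
  have hfin := z2_findim h₀ hfg htr
  refine ⟨fun x y => IsUltrametricDist.norm_add_le_max x y, fun c _ => Subring.mem_top c,
    fun q _ => le_rfl, fun q _ _ => Subring.mem_top _, Module.finrank (keu k e₀ u₀) L,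
    fun l g _ hg => ?_⟩
  have hli : LinearIndependent (keu k e₀ u₀) g := by
    rw [Fintype.linearIndependent_iff]
    intro a ha i
    have h3 := hg.2 (fun j => (a j : L)) (fun j => (a j).2) i
    have h4 : ∑ j, (a j : L) * g j = 0 := ha
    rw [h4, map_zero] at h3
    have h5 : (a i : L) * g i = 0 := by
      have h6 : nabs L ((a i : L) * g i) = 0 := le_antisymm h3 (AbsoluteValue.nonneg _ _)
      exact (AbsoluteValue.eq_zero _).1 h6
    rcases mul_eq_zero.1 h5 with h6 | h6
    · exact Subtype.ext h6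
    · exact absurd h6 (hg.1 i)
  have h1 := hli.fintype_card_le_finrank
  simpa using h1

private theorem z2_res {L : Type*} [NormedField L] [IsUltrametricDist L] {x y : O L}
    (h : ‖(x : L) - y‖ < 1) : residue (O L) x = residue (O L) y := by
  rw [← sub_eq_zero, ← map_sub, residue_eq_zero_iff, mem_maximalIdeal, mem_nonunits_iff,
    isUnit_O_iff]
  exact ne_of_lt h

/-- Proof.  As the first part of `DA.dense_of_fin` (Pool/Agent/Lib/DA/HFd.lean), with `exists_sep_eu0` instead of
`exists_sep_eu`, `rwd_of_alg`, and `dense_of_sep` (module Z1) instead of `exists_Y`. If the residue of `α₁` is `0` replace `α₁`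
by `1` (the generated residue field does not change, `1` is separable), so that `‖α₁‖ = 1`. -/
theorem exists_zd {p : ℕ} [Fact p.Prime] {k L : Type} [NontriviallyNormedField k]
    [IsUltrametricDist k] [IsAlgClosed k] (hp : ‖(p : k)‖ < 1) [NormedField L]
    [IsUltrametricDist L] [NormedAlgebra k L] {r m : ℕ} {e₀ : Fin r → L} {u₀ : Fin m → L}
    (h₀ : EU k e₀ u₀) (hfg : (⊤ : IntermediateField k L).FG)
    (htr : Algebra.trdeg k L = ((r + m : ℕ) : Cardinal)) :
    ∃ (Ω : Type) (_ : NormedField Ω) (_ : IsUltrametricDist Ω) (_ : IsAlgClosed Ω)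
      (ι : L →+* Ω) (K : Subfield Ω) (e : Fin r → L) (u : Fin m → L) (α : L) (a : Ω)
      (f : Polynomial Ω), ZD k ι K e u α a f := by
  have hfin := rwd_of_alg h₀ hfg htr
  obtain ⟨e₁, hvb⟩ := exists_vb h₀ hfin
  obtain ⟨u₁, α₀, -, -, -, hai, hsep₀, hgen₀⟩ := exists_res_gens h₀ hfin
  -- replace `α₀` by an element of norm one
  obtain ⟨α₁, hα₁, hsep₁, hgen⟩ : ∃ α₁ : O L, ‖(α₁ : L)‖ = 1 ∧
      IsSeparable (IntermediateField.adjoin (ResidueField (O k))
        (Set.range fun i => residue (O L) (u₁ i))) (residue (O L) α₁) ∧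
      ∀ q : O L, residue (O L) q ∈ IntermediateField.adjoin (ResidueField (O k))
          (Set.range (fun i => residue (O L) (u₁ i)) ∪ {residue (O L) α₁}) := by
    by_cases hα : ‖(α₀ : L)‖ = 1
    · exact ⟨α₀, hα, hsep₀, fun q => hgen₀ q trivial (mem_O.1 q.2)⟩
    · have hlt : ‖(α₀ : L)‖ < 1 := lt_of_le_of_ne (mem_O.1 α₀.2) hα
      have h0 : residue (O L) α₀ = 0 := by
        have h1 : residue (O L) α₀ = residue (O L) 0 := z2_res (by
          have h2 : ((0 : O L) : L) = 0 := rfl
          rw [h2, sub_zero]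
          exact hlt)
        rw [h1, map_zero]
      refine ⟨1, by
        have h2 : ((1 : O L) : L) = 1 := rfl
        rw [h2, norm_one], ?_, fun q => ?_⟩
      · rw [map_one]
        have h2 := isSeparable_algebraMap (K := ResidueField (O L)) (1 : IntermediateField.adjoin
          (ResidueField (O k)) (Set.range fun i => residue (O L) (u₁ i)))
        rwa [map_one] at h2
      · have h1 := hgen₀ q trivial (mem_O.1 q.2)
        rw [h0] at h1
        have h2 : IntermediateField.adjoin (ResidueField (O k))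
            (Set.range (fun i => residue (O L) (u₁ i)) ∪ {(0 : ResidueField (O L))}) ≤
            IntermediateField.adjoin (ResidueField (O k))
              (Set.range (fun i => residue (O L) (u₁ i)) ∪ {residue (O L) 1}) := by
          rw [IntermediateField.adjoin_le_iff]
          rintro x (hx | hx)
          · exact IntermediateField.subset_adjoin _ _ (Or.inl hx)
          · rw [Set.mem_singleton_iff] at hx
            rw [hx]
            exact zero_mem _
        exact h2 h1
  have hEU₁ : EU k e₁ (fun i => (u₁ i : L)) :=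
    ⟨hvb.ne, hvb.ind, fun i => mem_O.1 (u₁ i).2, fun P s => gauss_of_residues u₁ hai P s⟩
  obtain ⟨e, u, hEU, he, hu, hsep⟩ := exists_sep_eu0 hEU₁ hfg htr
  have hne : ∀ i, ‖e i‖ = ‖e₁ i‖ := by
    intro i
    have h3 : ‖e i - e₁ i‖ ≠ ‖e₁ i‖ := ne_of_lt (he i)
    have h4 : e i = (e i - e₁ i) + e₁ i := by ring
    rw [h4, IsUltrametricDist.norm_add_eq_max_of_norm_ne_norm h3]
    exact max_eq_right (he i).le
  have hval : ∀ x : L, x ≠ 0 → ∃ (z : Fin r → ℤ) (c : k), c ≠ 0 ∧ ‖x‖ = ‖DA.mon k e z c‖ := by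
    intro x hx
    obtain ⟨z, c, hc, h1⟩ := hvb.val x trivial rfl hx
    refine ⟨z, c, hc, ?_⟩
    rw [h1]
    unfold DA.mon
    rw [norm_mul, norm_mul, norm_prod, norm_prod]
    congr 1
    refine Finset.prod_congr rfl (fun i _ => ?_)
    rw [norm_zpow, norm_zpow, hne]
  obtain ⟨u', hu'⟩ : ∃ u' : Fin m → O L, ∀ i, (u' i : L) = u i :=
    ⟨fun i => ⟨u i, mem_O.2 (hEU.norm_u i)⟩, fun _ => rfl⟩
  have hfun : (fun i => residue (O L) (u' i)) = fun i => residue (O L) (u₁ i) := by
    funext i
    refine z2_res ?_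
    rw [hu']
    exact hu i
  have hnt : ∃ x : L, 1 < ‖x‖ := by
    obtain ⟨c, hc⟩ := NormedField.exists_one_lt_norm k
    exact ⟨algebraMap k L c, by rw [norm_algebraMap']; exact hc⟩
  obtain ⟨Ω, instΩ, hU, hA, ι, K, hE, halgK⟩ := exists_emb2 L hnt
  have hpΩ : ‖(p : Ω)‖ < 1 := by
    have h1 : ‖ι (algebraMap k L (p : k))‖ = ‖(p : k)‖ := by
      rw [hE.norm, norm_algebraMap']
    rw [map_natCast, map_natCast] at h1
    rw [h1]
    exact hp
  obtain ⟨a, d, f, haK, haα, hRD0, hresK⟩ := exists_rd_of_gens hE u' α₁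
    (by rw [hfun]; exact hai) (by rw [hfun]; exact hsep₁) (by rw [hfun]; exact hgen)
  have hu3 : (fun i => ι (u' i : L)) = fun i => ι (u i) := by
    funext i
    rw [hu']
  rw [hu3] at hRD0
  have hRD := rd_lift hE.norm hEU hRD0
  have hresK' : ∀ x ∈ K, ‖x‖ ≤ 1 →
      ∃ c ∈ adj (kU (kO k ι) fun i => ι (u i)) a, ‖x - c‖ < 1 := by
    rw [← hu3]
    exact hresK
  have hdense := dense_of_sep hpΩ hE halgK hEU hval hRD haK hresK' hsep hfg
  exact ⟨Ω, instΩ, hU, hA, ι, K, e, u, (α₁ : L), a, f,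
    { emb := hE
      eu := hEU
      sep := hsep
      val := hval
      norm_α := hα₁
      mem := haK
      near := by rw [norm_sub_rev]; exact haα
      coeffs := hRD.coeffs
      monic := hRD.monic
      norm_f := hRD.norm_f
      root := hRD.root
      deriv := hRD.deriv
      dense := hdense }⟩

end CS
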