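import Pool.Agent.Lib.CS.ZDefs

/-!
# Module CS.Z4: weak approximation
-/

open Polynomial MP1a953e IsLocalRing DA

namespace CS

/-- Proof.  Consider the finite set `T` of the absolute values `x ↦ ‖x‖` and `x ↦ ‖σ x‖` (`σ ∈ Φ`) of `L`. They agree with
the norm on `k`, which is nontrivial; so they are nontrivial, and two equivalent ones are equal (if `v` and `w` are
equivalent, then `w = v ^ t`, and `t = 1` on `k`; see `AbsoluteValue.isEquiv_iff_exists_rpow_eq`). By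
`AbsoluteValue.exists_one_lt_lt_one_pi_of_not_isEquiv` (Mathlib, Analysis/AbsoluteValue/Equivalence), for the family of the
elements of `T`, there is `x ∈ L` with `‖x‖ > 1` and `‖σ x‖ < 1` for all `σ ∈ Φ` which are not isometric. Then
`Y = x ^ M / (1 + x ^ M)` for large `M`: `‖Y - 1‖ = ‖1 + x ^ M‖⁻¹ = ‖x‖ ^ (-M)`, `‖σ Y‖ = ‖σ x‖ ^ M` (ultrametric). (Or see
`AbsoluteValue` lemmas on `tendsto` of `x ^ n / (1 + x ^ n)` in the same file.) -/
theorem exists_wapprox {k L Ω : Type} [NontriviallyNormedField k] [NormedField L]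
    [IsUltrametricDist L] [NormedAlgebra k L] [NormedField Ω] [IsUltrametricDist Ω]
    (Φ : Finset (L →+* Ω)) (hΦ : ∀ σ ∈ Φ, ∀ c : k, ‖σ (algebraMap k L c)‖ = ‖c‖) {δ : ℝ}
    (hδ : 0 < δ) :
    ∃ Y : L, ‖Y - 1‖ < δ ∧ ∀ σ ∈ Φ, ¬ (∀ x, ‖σ x‖ = ‖x‖) → ‖σ Y‖ < δ := by
  classical
  obtain ⟨c₀, hc₀⟩ := NormedField.exists_one_lt_norm k
  let nL : AbsoluteValue L ℝ := NormedField.toAbsoluteValue L
  let nS : (L →+* Ω) → AbsoluteValue L ℝ := fun σ =>
    (NormedField.toAbsoluteValue Ω).comp σ.injective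
  have hnL : ∀ x, nL x = ‖x‖ := fun _ => rfl
  have hnS : ∀ σ x, nS σ x = ‖σ x‖ := fun _ _ => rfl
  let Φ' := Φ.filter fun σ => ¬ ∀ x, ‖σ x‖ = ‖x‖
  let T : Finset (AbsoluteValue L ℝ) := insert nL (Φ'.image nS)
  have hT : ∀ v ∈ T, ∀ c : k, v (algebraMap k L c) = ‖c‖ := by
    intro v hv c
    rcases Finset.mem_insert.1 hv with rfl | hv
    · rw [hnL, norm_algebraMap']
    · obtain ⟨σ, hσ, rfl⟩ := Finset.mem_image.1 hv
      rw [hnS]
      exact hΦ σ (Finset.mem_filter.1 hσ).1 c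
  have hc₀0 : c₀ ≠ 0 := by
    rintro rfl
    rw [norm_zero] at hc₀
    linarith
  have hnt : ∀ i : T, (i : AbsoluteValue L ℝ).IsNontrivial := by
    intro i
    refine ⟨algebraMap k L c₀, ?_, ?_⟩
    · intro h0
      exact hc₀0 ((algebraMap k L).injective (by rw [h0, map_zero]))
    · rw [hT i i.2]
      exact hc₀.ne'
  have hpw : Pairwise fun i j : T =>
      ¬(i : AbsoluteValue L ℝ).IsEquiv (j : AbsoluteValue L ℝ) := by
    intro i j hij heq
    apply hij
    obtain ⟨t, ht, h⟩ := AbsoluteValue.isEquiv_iff_exists_rpow_eq.1 heq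
    have h1 : ‖c₀‖ ^ t = ‖c₀‖ := by
      have := congrFun h (algebraMap k L c₀)
      rw [hT j j.2] at this
      have h7 : ((i : AbsoluteValue L ℝ) (algebraMap k L c₀)) ^ t = ‖c₀‖ := this
      rwa [hT i i.2] at h7
    have h2 : t = 1 := by
      have h3 := congrArg Real.log h1
      rw [Real.log_rpow (by linarith)] at h3
      have h4 : Real.log ‖c₀‖ ≠ 0 := (Real.log_pos hc₀).ne'
      have h5 : (t - 1) * Real.log ‖c₀‖ = 0 := by linarith
      rcases mul_eq_zero.1 h5 with h6 | h6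
      · linarith
      · exact absurd h6 h4
    apply Subtype.ext
    ext x
    have := congrFun h x
    rw [← this, h2]
    exact (Real.rpow_one _).symm
  obtain ⟨x, hx1, hx⟩ := AbsoluteValue.exists_one_lt_lt_one_pi_of_not_isEquiv
    (v := fun i : T => (i : AbsoluteValue L ℝ)) hnt hpw ⟨nL, Finset.mem_insert_self _ _⟩
  have hx1' : 1 < ‖x‖ := hx1
  have hx' : ∀ σ ∈ Φ', ‖σ x‖ < 1 := by
    intro σ hσ
    refine hx ⟨nS σ, Finset.mem_insert_of_mem (Finset.mem_image_of_mem _ hσ)⟩ ?_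
    intro h
    have h1 : nS σ = nL := congrArg Subtype.val h
    apply (Finset.mem_filter.1 hσ).2
    intro y
    rw [← hnS, h1, hnL]
  have hlim1 : ∀ᶠ n : ℕ in Filter.atTop, ‖x‖⁻¹ ^ n < δ :=
    (tendsto_pow_atTop_nhds_zero_of_lt_one (by positivity)
      (inv_lt_one_of_one_lt₀ hx1')).eventually_lt_const hδ
  have hlim2 : ∀ᶠ n : ℕ in Filter.atTop, ∀ σ ∈ Φ', ‖σ x‖ ^ n < δ := by
    rw [Filter.eventually_all_finset]
    intro σ hσ
    exact (tendsto_pow_atTop_nhds_zero_of_lt_one (norm_nonneg _)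
      (hx' σ hσ)).eventually_lt_const hδ
  obtain ⟨n, ⟨hn1, hn2⟩, hn0⟩ := ((hlim1.and hlim2).and (Filter.eventually_ge_atTop 1)).exists
  have hxn : 1 < ‖x ^ n‖ := by
    rw [norm_pow]
    exact one_lt_pow₀ hx1' (by omega)
  have hnorm : ‖1 + x ^ n‖ = ‖x ^ n‖ := by
    rw [IsUltrametricDist.norm_add_eq_max_of_norm_ne_norm (by rw [norm_one]; exact hxn.ne),
      norm_one, max_eq_right hxn.le]
  have hne : (1 : L) + x ^ n ≠ 0 := by
    intro h0
    rw [h0, norm_zero] at hnorm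
    linarith
  refine ⟨x ^ n / (1 + x ^ n), ?_, ?_⟩
  · have e : x ^ n / (1 + x ^ n) - 1 = -(1 / (1 + x ^ n)) := by
      field_simp
      ring
    rw [e, norm_neg, norm_div, norm_one, hnorm, norm_pow, one_div, ← inv_pow]
    exact hn1
  · intro σ hσ hσn
    have hσ' : σ ∈ Φ' := Finset.mem_filter.2 ⟨hσ, hσn⟩
    have h1 : ‖σ x ^ n‖ < 1 := by
      rw [norm_pow]
      exact pow_lt_one₀ (norm_nonneg _) (hx' σ hσ') (by omega)
    have h2 : ‖1 + σ x ^ n‖ = 1 := by
      rw [IsUltrametricDist.norm_add_eq_max_of_norm_ne_norm (by rw [norm_one]; exact h1.ne'),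
        norm_one, max_eq_left h1.le]
    rw [map_div₀, map_add, map_one, map_pow, norm_div, h2, div_one, norm_pow]
    exact hn2 σ hσ'

end CS
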