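import Pool.Agent.Lib.CS.Z3
import Pool.Agent.Lib.CS.Z4

/-!
# Module CS.Z5: a generator with unit derivative
-/

open Polynomial MP1a953e IsLocalRing DA

namespace CS

section
variable {k L Ω : Type} [NontriviallyNormedField k] [IsUltrametricDist k] [NormedField L]
  [IsUltrametricDist L] [NormedAlgebra k L] [NormedField Ω] [IsUltrametricDist Ω]
  [IsAlgClosed Ω] {ι : L →+* Ω} {K : Subfield Ω} {r m : ℕ} {e : Fin r → L} {u : Fin m → L}
  {α : L} {a : Ω} {f : Polynomial Ω}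

omit [NontriviallyNormedField k] [IsUltrametricDist k] [NormedField L] [IsUltrametricDist L]
  [NormedAlgebra k L] [NormedField Ω] [IsUltrametricDist Ω] [IsAlgClosed Ω] in
private theorem z5_sub {E : Type} [NormedField E] [IsUltrametricDist E] (a b : E) :
    ‖a - b‖ ≤ max ‖a‖ ‖b‖ := by
  rw [sub_eq_add_neg, ← norm_neg b]
  exact IsUltrametricDist.norm_add_le_max _ _

omit [NontriviallyNormedField k] [IsUltrametricDist k] [NormedField L] [IsUltrametricDist L]
  [NormedAlgebra k L] [IsAlgClosed Ω] in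
private theorem z5_coeff (s : Multiset Ω) (hs : ∀ x ∈ s, ‖x‖ ≤ 1) (i : ℕ) :
    ‖(s.map fun x => (X - C x : Polynomial Ω)).prod.coeff i‖ ≤ 1 := by
  induction s using Multiset.induction_on generalizing i with
  | empty =>
    rw [Multiset.map_zero, Multiset.prod_zero, Polynomial.coeff_one]
    split_ifs
    · rw [norm_one]
    · rw [norm_zero]; exact zero_le_one
  | cons x s ih =>
    have ih' := ih (fun y hy => hs y (Multiset.mem_cons_of_mem hy))
    rw [Multiset.map_cons, Multiset.prod_cons, sub_mul, Polynomial.coeff_sub,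
      Polynomial.coeff_C_mul]
    refine (z5_sub _ _).trans (max_le ?_ ?_)
    · rcases i with _ | i
      · rw [Polynomial.coeff_X_mul_zero, norm_zero]; exact zero_le_one
      · rw [Polynomial.coeff_X_mul]; exact ih' i
    · rw [norm_mul]
      exact mul_le_one₀ (hs x (Multiset.mem_cons_self _ _)) (norm_nonneg _) (ih' i)

/-- Proof.  Write `M = keu k e u`, and let `Φ` be the set of all homomorphisms `σ : L → Ω` which agree with `ι` on `M` (the
`M`-algebra homomorphisms for the `M`-algebra structure `ι` of `Ω`); it is finite, with `[L : M]` elements (`L / M` finite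
separable). Let `Y` be as in `exists_wapprox` with `δ ≤ 1` so small that `δ * ‖σ α‖ < 1` for all `σ ∈ Φ`, and `α₁ = α * Y`. So
`‖α₁‖ = 1`; for `σ` isometric, `σ ≠ ι`: `‖σ α - ι α‖ = 1` (`rigid`, and both have norm `1`), `‖σ α₁ - σ α‖ < 1`, `‖ι α₁ - ι α‖ < 1`,
so `‖σ α₁ - ι α₁‖ = 1`, `‖σ α₁‖ = 1`; for `σ` not isometric: `‖σ α₁‖ < 1`, so `‖σ α₁ - ι α₁‖ = 1`. Hence `σ α₁ ≠ ι α₁` for `σ ≠ ι`;
so `L = M(α₁)` (otherwise `ι` restricted to `M(α₁)` has another extension to `L`, which is separable over `M(α₁)`). So the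
minimal polynomial `F` of `α₁` over `M` is, mapped by `ι`, the product of the `X - σ α₁`, `σ ∈ Φ`; its coefficients have norm
`≤ 1`, and `ι (F'(α₁)) = ∏ (ι α₁ - σ α₁)` over `σ ≠ ι` has norm `1`. -/
theorem exists_gen (h : ZD k ι K e u α a f) [FiniteDimensional (keu k e u) L] :
    ∃ α₁ : L, ‖α₁‖ = 1 ∧ IntermediateField.adjoin (keu k e u) {α₁} = ⊤ ∧
      (∀ i, ‖(((minpoly (keu k e u) α₁).coeff i : keu k e u) : L)‖ ≤ 1) ∧
      ‖aeval α₁ (derivative (minpoly (keu k e u) α₁))‖ = 1 ∧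
      ∀ σ : L →+* Ω, (∀ x ∈ keu k e u, σ x = ι x) → ‖σ α₁‖ ≤ 1 := by
  classical
  have hsep := h.sep
  have hι := h.emb.norm
  let M := keu k e u
  let aΩ : Algebra M Ω := (ι.comp (algebraMap M L)).toAlgebra
  have hag : ∀ (σ : L →ₐ[M] Ω), ∀ x ∈ keu k e u, (σ : L →+* Ω) x = ι x := fun σ x hx =>
    σ.commutes (⟨x, hx⟩ : M)
  let ι' : L →ₐ[M] Ω := { ι with commutes' := fun _ => rfl }
  have hι' : ∀ x, ι' x = ι x := fun _ => rfl
  let Φ : Finset (L →+* Ω) :=
    Finset.image (fun σ : L →ₐ[M] Ω => (σ : L →+* Ω)) Finset.univ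
  have hΦ : ∀ σ : L →+* Ω, (∀ x ∈ keu k e u, σ x = ι x) → σ ∈ Φ := by
    intro σ hσ
    let τ : L →ₐ[M] Ω := { σ with commutes' := fun x => hσ x x.2 }
    exact Finset.mem_image.2 ⟨τ, Finset.mem_univ _, RingHom.ext fun _ => rfl⟩
  have hΦM : ∀ σ ∈ Φ, ∀ x ∈ keu k e u, σ x = ι x := by
    intro σ hσ x hx
    obtain ⟨τ, -, rfl⟩ := Finset.mem_image.1 hσ
    exact hag τ x hx
  have hsum : 0 ≤ ∑ σ ∈ Φ, ‖σ α‖ := Finset.sum_nonneg fun σ _ => norm_nonneg _
  have hpos : 0 < 1 + ∑ σ ∈ Φ, ‖σ α‖ := by linarith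
  have hone : 1 ≤ 1 + ∑ σ ∈ Φ, ‖σ α‖ := by linarith
  have hle : ∀ σ ∈ Φ, ‖σ α‖ ≤ 1 + ∑ σ ∈ Φ, ‖σ α‖ := fun σ hσ => by
    have := Finset.single_le_sum (f := fun σ : L →+* Ω => ‖σ α‖)
      (fun σ _ => norm_nonneg _) hσ
    linarith
  obtain ⟨Y, hY1, hY⟩ := exists_wapprox (k := k) Φ (fun σ hσ' c => by
    rw [hΦM σ hσ' _ ((keu k e u).algebraMap_mem c), hι, norm_algebraMap'])
    (δ := (1 + ∑ σ ∈ Φ, ‖σ α‖)⁻¹) (inv_pos.2 hpos)
  have hY1' : ‖Y - 1‖ < 1 := lt_of_lt_of_le hY1 (inv_le_one_of_one_le₀ hone)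
  have hYn : ‖Y‖ = 1 := by
    have h1 : Y = 1 + (Y - 1) := by ring
    rw [h1, IsUltrametricDist.norm_add_eq_max_of_norm_ne_norm (by rw [norm_one]; exact hY1'.ne'),
      norm_one, max_eq_left hY1'.le]
  have hα₁ : ‖α * Y‖ = 1 := by rw [norm_mul, h.norm_α, hYn, mul_one]
  -- isometric embeddings
  have hiso : ∀ σ : L →+* Ω, (∀ x ∈ keu k e u, σ x = ι x) → (∀ x, ‖σ x‖ = ‖x‖) → σ ≠ ι →
      ‖σ (α * Y) - ι (α * Y)‖ = 1 := by
    intro σ hσM hσ hne
    have h1 : ¬ ‖σ α - ι α‖ < 1 := fun hlt => hne (rigid h hσ hσM hlt)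
    have h2 : ‖σ α * (σ Y - 1) - ι α * (ι Y - 1)‖ < 1 := by
      refine (z5_sub _ _).trans_lt (max_lt ?_ ?_)
      · have : σ Y - 1 = σ (Y - 1) := by rw [map_sub, map_one]
        rw [norm_mul, this, hσ, hσ, h.norm_α, one_mul]
        exact hY1'
      · have : ι Y - 1 = ι (Y - 1) := by rw [map_sub, map_one]
        rw [norm_mul, this, hι, hι, h.norm_α, one_mul]
        exact hY1'
    have h3 : ‖σ α - ι α‖ = 1 := by
      refine le_antisymm ?_ (not_lt.1 h1)
      refine (z5_sub _ _).trans (max_le ?_ ?_)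
      · rw [hσ, h.norm_α]
      · rw [hι, h.norm_α]
    have h4 : σ (α * Y) - ι (α * Y) =
        (σ α - ι α) + (σ α * (σ Y - 1) - ι α * (ι Y - 1)) := by
      rw [map_mul, map_mul]; ring
    rw [h4, IsUltrametricDist.norm_add_eq_max_of_norm_ne_norm (by rw [h3]; exact h2.ne'), h3,
      max_eq_left h2.le]
  have hnon : ∀ σ : L →+* Ω, (∀ x ∈ keu k e u, σ x = ι x) → ¬(∀ x, ‖σ x‖ = ‖x‖) →
      ‖σ (α * Y)‖ < 1 := by
    intro σ hσM hσ
    have h1 := hY σ (hΦ σ hσM) hσ
    rw [map_mul, norm_mul]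
    have h2 := hle σ (hΦ σ hσM)
    have hσα : 0 < ‖σ α‖ := by
      rw [norm_pos_iff]
      intro h0
      have h5 : α = 0 := (map_eq_zero σ).1 h0
      have h6 := h.norm_α
      rw [h5, norm_zero] at h6
      exact zero_ne_one h6
    calc ‖σ α‖ * ‖σ Y‖ < ‖σ α‖ * (1 + ∑ σ ∈ Φ, ‖σ α‖)⁻¹ := mul_lt_mul_of_pos_left h1 hσα
      _ ≤ (1 + ∑ σ ∈ Φ, ‖σ α‖) * (1 + ∑ σ ∈ Φ, ‖σ α‖)⁻¹ :=
          mul_le_mul_of_nonneg_right h2 (inv_nonneg.2 hpos.le)
      _ = 1 := mul_inv_cancel₀ hpos.ne'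
  have hdiff : ∀ σ : L →+* Ω, (∀ x ∈ keu k e u, σ x = ι x) → σ ≠ ι →
      ‖σ (α * Y) - ι (α * Y)‖ = 1 := by
    intro σ hσM hne
    by_cases hσ : ∀ x, ‖σ x‖ = ‖x‖
    · exact hiso σ hσM hσ hne
    · have h1 := hnon σ hσM hσ
      have h2 : ‖ι (α * Y)‖ = 1 := by rw [hι, hα₁]
      rw [sub_eq_add_neg, IsUltrametricDist.norm_add_eq_max_of_norm_ne_norm
        (by rw [norm_neg, h2]; exact h1.ne), norm_neg, h2, max_eq_right h1.le]
  have hle1 : ∀ σ : L →+* Ω, (∀ x ∈ keu k e u, σ x = ι x) → ‖σ (α * Y)‖ ≤ 1 := by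
    intro σ hσM
    by_cases hσ : ∀ x, ‖σ x‖ = ‖x‖
    · rw [hσ, hα₁]
    · exact (hnon σ hσM hσ).le
  have hgen : IntermediateField.adjoin M {α * Y} = ⊤ := by
    refine (Field.primitive_element_iff_algHom_eq_of_eval M Ω (fun x => IsAlgClosed.splits _)
      (α * Y) ι').2 ?_
    intro ψ hψ
    by_contra hne
    have h1 : (ψ : L →+* Ω) ≠ ι := by
      intro h2
      apply hne
      ext x
      exact (DFunLike.congr_fun h2 x).symm
    have h2 := hdiff (ψ : L →+* Ω) (hag ψ) h1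
    have h3 : (ψ : L →+* Ω) (α * Y) - ι (α * Y) = 0 := sub_eq_zero.2 hψ.symm
    rw [h3, norm_zero] at h2
    exact zero_ne_one h2
  -- the roots of the minimal polynomial
  have hint : IsIntegral M (α * Y) := IsIntegral.of_finite M (α * Y)
  have hroot : ∀ b ∈ (minpoly M (α * Y)).aroots Ω, ∃ σ : L →ₐ[M] Ω, σ (α * Y) = b := by
    intro b hb
    have h1 : b ∈ (minpoly M (α * Y)).rootSet Ω := by
      rw [Polynomial.mem_rootSet']
      rw [Polynomial.mem_aroots'] at hb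
      exact hb
    rw [← (Algebra.IsAlgebraic.of_finite M L).range_eval_eq_rootSet_minpoly_of_splits Ω
      (fun x => IsAlgClosed.splits _) (α * Y)] at h1
    exact h1
  have hrn : ∀ b ∈ (minpoly M (α * Y)).aroots Ω, ‖b‖ ≤ 1 := by
    intro b hb
    obtain ⟨σ, rfl⟩ := hroot b hb
    exact hle1 (σ : L →+* Ω) (hag σ)
  have hmon : (minpoly M (α * Y)).Monic := minpoly.monic hint
  have hprod : (minpoly M (α * Y)).map (algebraMap M Ω) =
      (((minpoly M (α * Y)).aroots Ω).map fun x => (X - C x : Polynomial Ω)).prod :=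
    (IsAlgClosed.splits _).eq_prod_roots_of_monic (hmon.map _)
  refine ⟨α * Y, hα₁, hgen, ?_, ?_, hle1⟩
  · intro i
    have h1 := z5_coeff _ hrn i
    rw [← hprod, Polynomial.coeff_map] at h1
    have h2 : algebraMap M Ω ((minpoly M (α * Y)).coeff i) =
        ι (((minpoly M (α * Y)).coeff i : M) : L) := rfl
    rw [h2, hι] at h1
    exact h1
  · have hmem : ι (α * Y) ∈ (minpoly M (α * Y)).aroots Ω := by
      rw [Polynomial.mem_aroots']
      refine ⟨(hmon.map _).ne_zero, ?_⟩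
      have h1 : aeval (ι' (α * Y)) (minpoly M (α * Y)) =
          ι' (aeval (α * Y) (minpoly M (α * Y))) := Polynomial.aeval_algHom_apply _ _ _
      rw [minpoly.aeval, map_zero] at h1
      exact h1
    have hd : aeval (ι (α * Y)) (derivative (minpoly M (α * Y))) =
        ((((minpoly M (α * Y)).aroots Ω).erase (ι (α * Y))).map
          fun b => ι (α * Y) - b).prod := by
      have h1 := Polynomial.Splits.eval_root_derivative
        (f := (minpoly M (α * Y)).map (algebraMap M Ω)) (IsAlgClosed.splits _) (hmon.map _) hmem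
      rw [Polynomial.derivative_map, Polynomial.eval_map_algebraMap] at h1
      exact h1
    have h1 : ι (aeval (α * Y) (derivative (minpoly M (α * Y)))) =
        aeval (ι (α * Y)) (derivative (minpoly M (α * Y))) :=
      (Polynomial.aeval_algHom_apply ι' (α * Y) _).symm
    have hnd : ((minpoly M (α * Y)).aroots Ω).Nodup :=
      Polynomial.nodup_aroots_iff_of_splits (minpoly.ne_zero hint) (IsAlgClosed.splits _) |>.2
        (Algebra.IsSeparable.isSeparable M (α * Y))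
    have h2 : ‖ι (aeval (α * Y) (derivative (minpoly M (α * Y))))‖ = 1 := by
      rw [h1, hd]
      have h3 : ∀ s : Multiset Ω, (∀ b ∈ s, ‖ι (α * Y) - b‖ = 1) →
          ‖(s.map fun b => ι (α * Y) - b).prod‖ = 1 := by
        intro s
        induction s using Multiset.induction_on with
        | empty => intro _; rw [Multiset.map_zero, Multiset.prod_zero, norm_one]
        | cons x s ih =>
          intro hs
          rw [Multiset.map_cons, Multiset.prod_cons, norm_mul,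
            hs x (Multiset.mem_cons_self _ _), one_mul]
          exact ih fun b hb => hs b (Multiset.mem_cons_of_mem hb)
      apply h3
      intro b hb
      obtain ⟨hb1, hb2⟩ := (Multiset.Nodup.mem_erase_iff hnd).1 hb
      obtain ⟨σ, rfl⟩ := hroot b hb2
      rw [norm_sub_rev]
      refine hdiff (σ : L →+* Ω) (hag σ) ?_
      intro h4
      exact hb1 (DFunLike.congr_fun h4 (α * Y))
    rwa [hι] at h2

end

end CS
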