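import Pool.Agent.Lib.CS.Z4

/-!
# Module CS.Z6: integral elements as fractions
-/

open Polynomial MP1a953e IsLocalRing DA

namespace CS

section
variable {k L Ω : Type} [NontriviallyNormedField k] [IsUltrametricDist k] [NormedField L]
  [IsUltrametricDist L] [NormedAlgebra k L] [NormedField Ω] [IsUltrametricDist Ω]
  [IsAlgClosed Ω] {ι : L →+* Ω} {r m : ℕ} {e : Fin r → L} {u : Fin m → L}

omit [NontriviallyNormedField k] [IsUltrametricDist k] [NormedAlgebra k L] in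
private theorem z6_norm {Y : L} (h : ‖Y - 1‖ < 1) : ‖Y‖ = 1 := by
  have h1 : Y = 1 + (Y - 1) := by ring
  rw [h1, IsUltrametricDist.norm_add_eq_max_of_norm_ne_norm (by rw [norm_one]; exact h.ne'),
    norm_one, max_eq_left h.le]

/-- the finite set of the embeddings which agree with `ι` on `k(e, u)` -/
private theorem z6_fin (ι : L →+* Ω) [FiniteDimensional (keu k e u) L] :
    ∃ Φ : Finset (L →+* Ω), (∀ σ : L →+* Ω, (∀ x ∈ keu k e u, σ x = ι x) → σ ∈ Φ) ∧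
      ∀ σ ∈ Φ, ∀ x ∈ keu k e u, σ x = ι x := by
  classical
  letI aΩ : Algebra (keu k e u) Ω := (ι.comp (algebraMap (keu k e u) L)).toAlgebra
  refine ⟨Finset.image (fun σ : L →ₐ[keu k e u] Ω => (σ : L →+* Ω)) Finset.univ, ?_, ?_⟩
  · intro σ hσ
    let τ : L →ₐ[keu k e u] Ω := { σ with commutes' := fun x => hσ x x.2 }
    exact Finset.mem_image.2 ⟨τ, Finset.mem_univ _, RingHom.ext fun _ => rfl⟩
  · intro σ hσ x hx
    obtain ⟨τ, -, rfl⟩ := Finset.mem_image.1 hσ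
    exact τ.commutes (⟨x, hx⟩ : keu k e u)

/-- Proof.  Write `M = keu k e u`, `F = minpoly M α₁`, `n = [L : M]`. Let `c 0, …, c (n-1)` be the coefficients of
`F(X) / (X - α₁)` (`minpolyDiv M α₁`); they are polynomials in `α₁` whose coefficients are coefficients of `F` (recursion
`c (i-1) = F_i + α₁ c i`), so `‖σ (c i)‖ ≤ 1` for all `σ` as in `hσ`. The dual basis of `α₁ ^ i` with respect to the trace form is
`c i / F'(α₁)` (`traceForm_dualBasis_powerBasis_eq`, Mathlib, FieldTheory/Minpoly/MinpolyDiv), so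
`F'(α₁) * z = ∑ i, Tr (z * c i) * α₁ ^ i`. The trace is the sum of the `σ (z * c i)` over all `σ : L → Ω` extending `ι` on `M`
(`trace_eq_sum_embeddings`, for the `M`-algebra `Ω` by `ι`), so it has norm `≤ 1`. -/
theorem trace_expand (hι : ∀ x, ‖ι x‖ = ‖x‖) [FiniteDimensional (keu k e u) L]
    [Algebra.IsSeparable (keu k e u) L] {α₁ : L}
    (hgen : IntermediateField.adjoin (keu k e u) {α₁} = ⊤)
    (hF : ∀ i, ‖(((minpoly (keu k e u) α₁).coeff i : keu k e u) : L)‖ ≤ 1)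
    (hσ : ∀ σ : L →+* Ω, (∀ x ∈ keu k e u, σ x = ι x) → ‖σ α₁‖ ≤ 1) {z : L}
    (hz : ∀ σ : L →+* Ω, (∀ x ∈ keu k e u, σ x = ι x) → ‖σ z‖ ≤ 1) :
    ∃ P : Polynomial (keu k e u), (∀ i, ‖((P.coeff i : keu k e u) : L)‖ ≤ 1) ∧
      aeval α₁ (derivative (minpoly (keu k e u) α₁)) * z = aeval α₁ P := by
  classical
  let M := keu k e u
  letI aΩ : Algebra M Ω := (ι.comp (algebraMap M L)).toAlgebra
  have hag : ∀ (σ : L →ₐ[M] Ω), ∀ x ∈ keu k e u, (σ : L →+* Ω) x = ι x := fun σ x hx =>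
    σ.commutes (⟨x, hx⟩ : M)
  let ι' : L →ₐ[M] Ω := { ι with commutes' := fun _ => rfl }
  have hι' : ∀ x, ι' x = ι x := fun _ => rfl
  -- the coefficients of `F / (X - α₁)`
  set D := minpolyDiv M α₁ with hD
  have hc : ∀ (σ : L →ₐ[M] Ω) (i : ℕ), ‖σ (D.coeff i)‖ ≤ 1 := by
    intro σ
    have h1 : ∀ j i : ℕ, i + j = D.natDegree + 1 → ‖σ (D.coeff i)‖ ≤ 1 := by
      intro j
      induction j with
      | zero =>
        intro i hi
        rw [Polynomial.coeff_eq_zero_of_natDegree_lt (by omega), map_zero, norm_zero]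
        exact zero_le_one
      | succ j ih =>
        intro i hi
        rw [hD, coeff_minpolyDiv, map_add, map_mul]
        refine (IsUltrametricDist.norm_add_le_max _ _).trans (max_le ?_ ?_)
        · have h2 : σ (algebraMap M L ((minpoly M α₁).coeff (i + 1))) =
              ι (algebraMap M L ((minpoly M α₁).coeff (i + 1))) := σ.commutes _
          rw [h2, hι]
          exact hF (i + 1)
        · rw [norm_mul]
          exact mul_le_one₀ (ih (i + 1) (by omega)) (norm_nonneg _) (hσ σ (hag σ))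
    intro i
    rcases Nat.lt_or_ge D.natDegree i with hi | hi
    · rw [Polynomial.coeff_eq_zero_of_natDegree_lt hi, map_zero, norm_zero]
      exact zero_le_one
    · exact h1 (D.natDegree + 1 - i) i (by omega)
  have htr : ∀ y : L, ι (algebraMap M L (Algebra.trace M L y)) = ∑ σ : L →ₐ[M] Ω, σ y :=
    fun y => trace_eq_sum_embeddings (K := M) (L := L) Ω (x := y)
  refine ⟨∑ i ∈ Finset.range (D.natDegree + 1),
    C (Algebra.trace M L (z * D.coeff i)) * X ^ i, ?_, ?_⟩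
  · intro i
    rw [Polynomial.finsetSum_coeff]
    simp only [Polynomial.coeff_C_mul, Polynomial.coeff_X_pow]
    by_cases hi : i ∈ Finset.range (D.natDegree + 1)
    · rw [Finset.sum_eq_single i (fun j _ hj => by rw [if_neg hj.symm, mul_zero])
        (fun h => absurd hi h), if_pos rfl, mul_one]
      have h1 : ‖ι (algebraMap M L (Algebra.trace M L (z * D.coeff i)))‖ ≤ 1 := by
        rw [htr]
        refine IsUltrametricDist.norm_sum_le_of_forall_le_of_nonneg zero_le_one ?_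
        intro σ _
        rw [map_mul, norm_mul]
        exact mul_le_one₀ (hz σ (hag σ)) (norm_nonneg _) (hc σ i)
      rw [hι] at h1
      exact h1
    · rw [Finset.sum_eq_zero (fun j hj => by
        rw [if_neg (fun h : i = j => hi (by rw [h]; exact hj)), mul_zero])]
      rw [ZeroMemClass.coe_zero, norm_zero]
      exact zero_le_one
  · apply ι.injective
    have h1 : ∀ σ : L →ₐ[M] Ω, eval₂ (σ : L →+* Ω) (ι' α₁) D =
        if σ α₁ = ι' α₁ then σ (aeval α₁ (derivative (minpoly M α₁))) else 0 :=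
      fun σ => eval₂_minpolyDiv_self α₁ σ ι'
    have hinj : ∀ σ : L →ₐ[M] Ω, σ α₁ = ι' α₁ → σ = ι' := fun σ h =>
      ((Field.primitive_element_iff_algHom_eq_of_eval M Ω (fun x => IsAlgClosed.splits _)
        α₁ ι').1 hgen σ h.symm).symm
    have h2 : ι (aeval α₁ (derivative (minpoly M α₁)) * z) =
        ∑ σ : L →ₐ[M] Ω, σ z * eval₂ (σ : L →+* Ω) (ι' α₁) D := by
      rw [Finset.sum_eq_single ι']
      · rw [h1, if_pos rfl, map_mul, mul_comm]
        rfl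
      · intro σ _ hne
        rw [h1, if_neg (fun h => hne (hinj σ h)), mul_zero]
      · exact fun h => absurd (Finset.mem_univ _) h
    rw [h2]
    have h3 : ι (aeval α₁ (∑ i ∈ Finset.range (D.natDegree + 1),
        (C (Algebra.trace M L (z * D.coeff i)) * X ^ i : Polynomial M))) =
        ∑ i ∈ Finset.range (D.natDegree + 1),
          ι (algebraMap M L (Algebra.trace M L (z * D.coeff i))) * ι α₁ ^ i := by
      rw [map_sum, map_sum]
      refine Finset.sum_congr rfl fun i _ => ?_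
      rw [map_mul, aeval_C, map_pow, aeval_X, map_mul, map_pow]
    rw [h3]
    simp_rw [htr, Polynomial.eval₂_eq_sum_range, Finset.mul_sum, Finset.sum_mul]
    rw [Finset.sum_comm]
    refine Finset.sum_congr rfl fun i _ => Finset.sum_congr rfl fun σ _ => ?_
    rw [map_mul]
    change σ z * (σ (D.coeff i) * ι α₁ ^ i) = σ z * σ (D.coeff i) * ι α₁ ^ i
    ring

/-- Proof.  Let `Y` be as in `exists_wapprox` for the finite set of all `σ : L → Ω` which agree with `ι` on `M = keu k e u`,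
with `δ ≤ 1` and `δ * ‖σ x‖ ≤ 1` for all these `σ`. Then `‖Y‖ = 1`, and `‖σ Y‖ ≤ 1`, `‖σ (x * Y)‖ ≤ 1` for all `σ` (for isometric
`σ`: `‖σ (x * Y)‖ = ‖x‖ * ‖Y‖`). By `trace_expand` `F'(α₁) * (x * Y) = aeval α₁ P`, `F'(α₁) * Y = aeval α₁ Q`, and
`x = aeval α₁ P / aeval α₁ Q`, `‖aeval α₁ Q‖ = 1`. -/
theorem frO_of_norm_le (hι : ∀ x, ‖ι x‖ = ‖x‖) [FiniteDimensional (keu k e u) L]
    [Algebra.IsSeparable (keu k e u) L] {α₁ : L}
    (hgen : IntermediateField.adjoin (keu k e u) {α₁} = ⊤)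
    (hF : ∀ i, ‖(((minpoly (keu k e u) α₁).coeff i : keu k e u) : L)‖ ≤ 1)
    (hF' : ‖aeval α₁ (derivative (minpoly (keu k e u) α₁))‖ = 1)
    (hσ : ∀ σ : L →+* Ω, (∀ x ∈ keu k e u, σ x = ι x) → ‖σ α₁‖ ≤ 1) {x : L} (hx : ‖x‖ ≤ 1) :
    FrO k e u α₁ x := by
  classical
  obtain ⟨Φ, hΦ, hΦM⟩ := z6_fin (k := k) (e := e) (u := u) ι
  have hpos : 0 < 1 + ∑ σ ∈ Φ, ‖σ x‖ := by
    have : 0 ≤ ∑ σ ∈ Φ, ‖σ x‖ := Finset.sum_nonneg fun σ _ => norm_nonneg _
    linarith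
  have hone : 1 ≤ 1 + ∑ σ ∈ Φ, ‖σ x‖ := by
    have : 0 ≤ ∑ σ ∈ Φ, ‖σ x‖ := Finset.sum_nonneg fun σ _ => norm_nonneg _
    linarith
  have hle : ∀ σ ∈ Φ, ‖σ x‖ ≤ 1 + ∑ σ ∈ Φ, ‖σ x‖ := fun σ hσ => by
    have := Finset.single_le_sum (f := fun σ : L →+* Ω => ‖σ x‖)
      (fun σ _ => norm_nonneg _) hσ
    linarith
  obtain ⟨Y, hY1, hY⟩ := exists_wapprox (k := k) Φ (fun σ hσ' c => by
    rw [hΦM σ hσ' _ ((keu k e u).algebraMap_mem c), hι, norm_algebraMap'])
    (δ := (1 + ∑ σ ∈ Φ, ‖σ x‖)⁻¹) (inv_pos.2 hpos)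
  have hY1' : ‖Y - 1‖ < 1 := lt_of_lt_of_le hY1 (inv_le_one_of_one_le₀ hone)
  have hYn : ‖Y‖ = 1 := z6_norm hY1'
  have hzY : ∀ σ : L →+* Ω, (∀ x ∈ keu k e u, σ x = ι x) → ‖σ Y‖ ≤ 1 := by
    intro σ hσM
    by_cases hiso : ∀ x, ‖σ x‖ = ‖x‖
    · rw [hiso, hYn]
    · exact (hY σ (hΦ σ hσM) hiso).le.trans (inv_le_one_of_one_le₀ hone)
  have hzxY : ∀ σ : L →+* Ω, (∀ x ∈ keu k e u, σ x = ι x) → ‖σ (x * Y)‖ ≤ 1 := by
    intro σ hσM
    by_cases hiso : ∀ x, ‖σ x‖ = ‖x‖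
    · rw [hiso, norm_mul, hYn, mul_one]
      exact hx
    · rw [map_mul, norm_mul]
      have h1 := (hY σ (hΦ σ hσM) hiso).le
      calc ‖σ x‖ * ‖σ Y‖ ≤ (1 + ∑ σ ∈ Φ, ‖σ x‖) * (1 + ∑ σ ∈ Φ, ‖σ x‖)⁻¹ :=
            mul_le_mul (hle σ (hΦ σ hσM)) h1 (norm_nonneg _) hpos.le
        _ = 1 := mul_inv_cancel₀ hpos.ne'
  obtain ⟨P, hP, hP'⟩ := trace_expand hι hgen hF hσ hzxY
  obtain ⟨Q, hQ, hQ'⟩ := trace_expand hι hgen hF hσ hzY
  have hQn : ‖aeval α₁ Q‖ = 1 := by rw [← hQ', norm_mul, hF', hYn, mul_one]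
  refine ⟨P, Q, hP, hQ, hQn, ?_⟩
  have hQ0 : aeval α₁ Q ≠ 0 := by
    intro h0
    rw [h0, norm_zero] at hQn
    exact zero_ne_one hQn
  rw [eq_div_iff hQ0, ← hP', ← hQ']
  ring

end

end CS
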