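import Pool.Agent.Lib.CS.ZDefs
import Pool.Agent.Lib.CS.BGSP
import Pool.Agent.Lib.DA.EUb
import Pool.Agent.Lib.DA.S1

/-!
# Module CS.Z7: fine coordinates over `k(e, u)`
-/

open Polynomial MP1a953e IsLocalRing DA

namespace CS
set_option linter.unusedSectionVars false

section
variable {k L : Type} [NontriviallyNormedField k] [IsUltrametricDist k] [NormedField L]
  [IsUltrametricDist L] [NormedAlgebra k L] {r m : ℕ} {e : Fin r → L} {u : Fin m → L}

omit [IsUltrametricDist k] [IsUltrametricDist L] in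
private theorem z7_fine {c : Fin r → k} {π : k} {δ δ' : ℝ} (h : Fine k e c π δ) (hδ : δ' ≤ δ) :
    Fine k e c π δ' :=
  ⟨h.c_ne, h.π_ne, fun i => hδ.trans_lt (h.lo i), h.hi⟩

private theorem z7_single (h : EU k e u) {x : L} (hx : x ∈ keu k e u) (hx1 : ‖x‖ ≤ 1) :
    ∃ δ : ℝ, 0 < δ ∧ δ < 1 ∧ ∀ (c : Fin r → k) (π : k), Fine k e c π δ →
      ∃ a ∈ BG k e c π (Set.range u), ∃ b ∈ BG k e c π (Set.range u), ‖b‖ = 1 ∧
        x = a / b := by
  by_cases hx0 : x = 0
  · exact ⟨1 / 2, by norm_num, by norm_num, fun c π _ =>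
      ⟨0, zero_mem _, 1, one_mem _, norm_one, by rw [hx0, zero_div]⟩⟩
  obtain ⟨z, c₀, hc₀, a, ha, b, hb, ha1, hb1, hxe⟩ := h.exists_frac hx hx0
  have hmn : ‖DA.mon k e z c₀‖ = ‖x‖ := by
    rw [hxe, norm_mul, norm_div, ha1, hb1, div_one, mul_one]
  have hm : DA.mon k e z c₀ ∈ MBG k e (Set.range u) :=
    Algebra.subset_adjoin (Or.inl ⟨z, c₀, rfl, by rw [hmn]; exact hx1⟩)
  have ha' : a ∈ MBG k e (Set.range u) := ha
  have hb' : b ∈ MBG k e (Set.range u) := hb
  obtain ⟨δ₁, h1, h1', hδ₁⟩ := mem_BG_of_mem_MBG h.ne h.ind (mul_mem hm ha')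
  obtain ⟨δ₂, h2, h2', hδ₂⟩ := mem_BG_of_mem_MBG h.ne h.ind hb'
  refine ⟨max δ₁ δ₂, lt_max_of_lt_left h1, max_lt h1' h2', fun c π hF => ?_⟩
  exact ⟨_, hδ₁ c π (z7_fine hF (le_max_left _ _)), b, hδ₂ c π (z7_fine hF (le_max_right _ _)),
    hb1, by rw [hxe, mul_div_assoc]⟩

/-- Proof.  For a single `x ≠ 0`: `EU.exists_frac`: `x = mon k e z c * (a / b)`, `a, b ∈ MB k e u = MBG k e (range u)` of norm
one; `‖mon k e z c‖ = ‖x‖ ≤ 1`, so `mon k e z c * a ∈ MBG k e (range u)`; `mem_BG_of_mem_MBG` for `mon k e z c * a` and `b`. Take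
the maximum of the `δ` for the finitely many `x` (`Fine` for a larger `δ` implies `Fine` for a smaller one). -/
theorem exists_fine_keu (h : EU k e u) (T : Finset L) (hT : ∀ x ∈ T, x ∈ keu k e u ∧ ‖x‖ ≤ 1) :
    ∃ δ : ℝ, 0 < δ ∧ δ < 1 ∧ ∀ (c : Fin r → k) (π : k), Fine k e c π δ →
      ∀ x ∈ T, ∃ a ∈ BG k e c π (Set.range u), ∃ b ∈ BG k e c π (Set.range u), ‖b‖ = 1 ∧
        x = a / b := by
  classical
  induction T using Finset.induction_on with
  | empty =>
    exact ⟨1 / 2, by norm_num, by norm_num, fun c π _ x hx => absurd hx (Finset.notMem_empty x)⟩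
  | insert y T hy ih =>
    obtain ⟨δ₁, h1, h1', hδ₁⟩ := ih fun x hx => hT x (Finset.mem_insert_of_mem hx)
    obtain ⟨hy1, hy2⟩ := hT y (Finset.mem_insert_self y T)
    obtain ⟨δ₂, h2, h2', hδ₂⟩ := z7_single h hy1 hy2
    refine ⟨max δ₁ δ₂, lt_max_of_lt_left h1, max_lt h1' h2', fun c π hF x hx => ?_⟩
    rcases Finset.mem_insert.1 hx with rfl | hx
    · exact hδ₂ c π (z7_fine hF (le_max_right _ _))
    · exact hδ₁ c π (z7_fine hF (le_max_left _ _)) x hx

/-- the evaluation as a ring homomorphism -/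
private noncomputable def z7E (u : Fin m → L) (α : L) :
    Polynomial (MvPolynomial (Fin m) k) →+* L :=
  (Polynomial.evalRingHom α).comp (Polynomial.mapRingHom
    (MvPolynomial.aeval u : MvPolynomial (Fin m) k →ₐ[k] L).toRingHom)

private theorem z7E_eq (u : Fin m → L) (α : L) (Q : Polynomial (MvPolynomial (Fin m) k)) :
    evH u α Q = z7E u α Q := rfl

private theorem z7E_C (u : Fin m → L) (α : L) (P : MvPolynomial (Fin m) k) :
    z7E u α (C P) = MvPolynomial.aeval u P := by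
  show ((C P : Polynomial (MvPolynomial (Fin m) k)).map
    (MvPolynomial.aeval u : MvPolynomial (Fin m) k →ₐ[k] L).toRingHom).eval α = _
  rw [Polynomial.map_C, Polynomial.eval_C]
  rfl

private theorem z7_sub {c : Fin r → k} {π : k} {α : L} {x : L}
    (hx : x ∈ Set.range (DA.tor k e c π) ∪ (Set.range u ∪ {α})) :
    x ∈ DA.BG k e c π (Set.range u ∪ {α}) := Algebra.subset_adjoin hx

private theorem z7_aeval_mem {c : Fin r → k} {π : k} {α : L} {P : MvPolynomial (Fin m) k}
    (hP : ∀ s, ‖P.coeff s‖ ≤ 1) :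
    MvPolynomial.aeval u P ∈ DA.BG k e c π (Set.range u ∪ {α}) := by
  rw [MvPolynomial.aeval_def, MvPolynomial.eval₂_eq]
  refine Subalgebra.sum_mem _ fun s _ => Subalgebra.mul_mem _ ?_ ?_
  · exact (DA.BG k e c π (Set.range u ∪ {α})).algebraMap_mem ⟨P.coeff s, mem_O.2 (hP s)⟩
  · exact Subalgebra.prod_mem _ fun i _ => Subalgebra.pow_mem _
      (z7_sub (Or.inr (Or.inl ⟨i, rfl⟩))) _

private theorem z7_evH_mem {c : Fin r → k} {π : k} {α : L}
    {Q : Polynomial (MvPolynomial (Fin m) k)} (hQ : IntH Q) :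
    evH u α Q ∈ DA.BG k e c π (Set.range u ∪ {α}) := by
  unfold DA.evH
  rw [Polynomial.eval_map, Polynomial.eval₂_eq_sum_range]
  refine Subalgebra.sum_mem _ fun i _ => Subalgebra.mul_mem _ ?_ ?_
  · exact z7_aeval_mem (hQ i)
  · exact Subalgebra.pow_mem _ (z7_sub (Or.inr (Or.inr rfl))) _

omit [NormedField L] [IsUltrametricDist L] [NormedAlgebra k L] in
private theorem z7_IntH_deriv {Q : Polynomial (MvPolynomial (Fin m) k)} (hQ : IntH Q) :
    IntH (derivative Q) := by
  intro i s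
  rw [Polynomial.coeff_derivative]
  have h1 : (Q.coeff (i + 1) * ((i : MvPolynomial (Fin m) k) + 1)) =
      ((i + 1 : ℕ) : k) • Q.coeff (i + 1) := by
    rw [MvPolynomial.smul_eq_C_mul, map_natCast]
    push_cast
    ring
  rw [h1, MvPolynomial.coeff_smul, smul_eq_mul, norm_mul]
  exact mul_le_one₀ (IsUltrametricDist.norm_natCast_le_one k _) (norm_nonneg _) (hQ _ _)

private theorem z7_dec {c : Fin r → k} {π : k} {B : Subring L}
    (hB : ∀ x ∈ BG k e c π (Set.range u), x ∈ B) {x : L} (hx : x ∈ BG k e c π (Set.range u)) :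
    ∃ s : MvPolynomial (Fin m) k, (∀ t, ‖s.coeff t‖ ≤ 1) ∧
      ∃ t ∈ SP k B (Set.range (DA.tor k e c π)), x = MvPolynomial.aeval u s + t := by
  have hle : BG k e c π (Set.range u ∪ {0}) ≤ BG k e c π (Set.range u) := by
    refine Algebra.adjoin_le ?_
    rintro y (hy | hy | hy)
    · exact Algebra.subset_adjoin (Or.inl hy)
    · exact Algebra.subset_adjoin (Or.inr hy)
    · rw [Set.mem_singleton_iff] at hy
      rw [hy]
      exact zero_mem _
  have hle' : BG k e c π (Set.range u) ≤ BG k e c π (Set.range u ∪ {0}) :=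
    Algebra.adjoin_mono (Set.union_subset_union_right _ Set.subset_union_left)
  obtain ⟨Q, hQ, t, ht, hxe⟩ := mem_BG_dec (fun y hy => hB y (hle hy)) (hle' hx)
  refine ⟨Q.coeff 0, hQ 0, t, ht, ?_⟩
  rw [hxe]
  congr 1
  unfold DA.evH
  rw [← Polynomial.coeff_zero_eq_eval_zero, Polynomial.coeff_map]
  rfl

private theorem z7_eval_SP {B : Subring L} {S : Set L} {α : L} (hα : α ∈ B) {T : Polynomial L}
    (hT : ∀ i, T.coeff i ∈ SP k B S) : T.eval α ∈ SP k B S := by
  rw [Polynomial.eval_eq_sum_range]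
  exact SP_sum _ _ fun i _ => SP_mul' (pow_mem hα i) (hT i)

private theorem z7_deriv_SP {B : Subring L} {S : Set L} {T : Polynomial L}
    (hT : ∀ i, T.coeff i ∈ SP k B S) (i : ℕ) : (derivative T).coeff i ∈ SP k B S := by
  rw [Polynomial.coeff_derivative]
  refine SP_mul' ?_ (hT _)
  exact add_mem (natCast_mem B i) (one_mem B)

/-- The residual equation of `α` is in the ideal generated by the toric coordinates.  Proof.  Let
`F = ∑ F i * X ^ i`, `F i = a i / b i` as in `hloc`, `b = ∏ b i` (over `i ≤ F.natDegree`), so `b * F i ∈ BG k e c π (range u)` and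
by `mem_BG_dec` (module BGSP, applied to `BG k e c π (range u)`: use its proof or the fact that an element of
`BG k e c π (range u)` is `aeval u s + t` with `s` integral and `t ∈ SP k B (range tor)`) `b * F i = aeval u (s i) + t i`. Let
`G = ∑ C (s i) * X ^ i`: `IntH G`, `evH u α G = b * F(α) - ∑ t i * α ^ i = - ∑ t i * α ^ i ∈ SP k B (range tor)`, in particular
of norm `< 1`, and `evH u α G' = b * F'(α) - ∑ i * t i * α ^ (i - 1)` has norm `1`. `hH` for `Q = G`:
`C s * G = H * Q₁ + C (C κ) * R`. The derivative (`derivative (C s) = 0`):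
`aeval u s * evH G' = evH H' * evH Q₁ + evH H * evH Q₁' + κ * evH R'`; the left side has norm `1`, the last two terms have
norm `< 1` (`evH u α H` of norm `< 1`, the others of norm `≤ 1`), so `‖evH u α Q₁‖ = 1`. It is in `B`, so it is invertible in
`B` (`hinv`), and `evH H = (evH Q₁)⁻¹ * (aeval u s * evH G - κ * evH R) ∈ SP k B (range tor)`. -/
theorem evH_mem_SP (h : EU k e u) {c : Fin r → k} {π : k} {α : L} {B : Subring L}
    (hB : ∀ x ∈ BG k e c π (Set.range u ∪ {α}), x ∈ B) (hB1 : ∀ x ∈ B, ‖x‖ ≤ 1)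
    (hinv : ∀ x ∈ B, ‖x‖ = 1 → x⁻¹ ∈ B) (hlt : ∀ i, ‖tor k e c π i‖ < 1)
    {F : Polynomial (keu k e u)} (hF0 : aeval α F = 0) (hF1 : ‖aeval α (derivative F)‖ = 1)
    (hloc : ∀ i, ∃ a ∈ BG k e c π (Set.range u), ∃ b ∈ BG k e c π (Set.range u), ‖b‖ = 1 ∧
      ((F.coeff i : keu k e u) : L) = a / b)
    {H : Polynomial (MvPolynomial (Fin m) k)} (hH0 : IntH H) (hH1 : ‖evH u α H‖ < 1)
    (hH : ∀ Q : Polynomial (MvPolynomial (Fin m) k), IntH Q → ‖evH u α Q‖ < 1 →
      ∃ (s : MvPolynomial (Fin m) k) (Q₁ R : Polynomial (MvPolynomial (Fin m) k)) (κ : k),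
        (∀ t, ‖s.coeff t‖ ≤ 1) ∧ ‖MvPolynomial.aeval u s‖ = 1 ∧ IntH Q₁ ∧ IntH R ∧ ‖κ‖ < 1 ∧
        C s * Q = H * Q₁ + C (MvPolynomial.C κ) * R) :
    evH u α H ∈ SP k B (Set.range (tor k e c π)) := by
  classical
  have hBu : BG k e c π (Set.range u) ≤ BG k e c π (Set.range u ∪ {α}) :=
    Algebra.adjoin_mono (Set.union_subset_union_right _ Set.subset_union_left)
  have hBu' : ∀ x ∈ BG k e c π (Set.range u), x ∈ B := fun x hx => hB x (hBu hx)
  have hαB : α ∈ B := hB α (z7_sub (Or.inr (Or.inr rfl)))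
  have hSPn : ∀ x ∈ SP k B (Set.range (tor k e c π)), ‖x‖ < 1 := by
    intro x hx
    rw [← Pool.Agent.Lib.MP_3029eb_ag.Abh.ball_val_lt_one]
    refine SP_val (OvR.ball (k := k))
      (fun z hz => (Pool.Agent.Lib.MP_3029eb_ag.Abh.mem_ball z).2 (hB1 z hz)) ?_ hx
    rintro _ ⟨i, rfl⟩
    exact (Pool.Agent.Lib.MP_3029eb_ag.Abh.ball_val_lt_one _).2 (hlt i)
  choose a ha b hb hb1 hab using hloc
  obtain ⟨N, hN⟩ : ∃ N : ℕ, N = F.natDegree + 1 := ⟨_, rfl⟩
  obtain ⟨β, hβ⟩ : ∃ β : L, β = ∏ i ∈ Finset.range N, b i := ⟨_, rfl⟩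
  have hβ1 : ‖β‖ = 1 := by
    rw [hβ, norm_prod]
    exact Finset.prod_eq_one fun i _ => hb1 i
  have hβF : ∀ i, β * ((F.coeff i : keu k e u) : L) ∈ BG k e c π (Set.range u) := by
    intro i
    by_cases hi : i < N
    · have hi' : i ∈ Finset.range N := Finset.mem_range.2 hi
      have hbi : b i ≠ 0 := norm_pos_iff.1 (by rw [hb1]; exact one_pos)
      have h1 : β * ((F.coeff i : keu k e u) : L) = a i * ∏ j ∈ (Finset.range N).erase i, b j := by
        rw [hβ, ← Finset.mul_prod_erase _ _ hi', hab i]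
        field_simp
      rw [h1]
      exact mul_mem (ha i) (prod_mem fun j _ => hb j)
    · have h1 : F.coeff i = 0 := Polynomial.coeff_eq_zero_of_natDegree_lt (by omega)
      rw [h1]
      have h2 : β * ((0 : keu k e u) : L) = 0 := by
        rw [ZeroMemClass.coe_zero, mul_zero]
      rw [h2]
      exact zero_mem _
  choose s hs t ht hst using fun i => z7_dec hBu' (hβF i)
  obtain ⟨G, hG⟩ : ∃ G : Polynomial (MvPolynomial (Fin m) k),
      G = ∑ i ∈ Finset.range N, C (s i) * X ^ i := ⟨_, rfl⟩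
  have hGc : ∀ i, G.coeff i = if i < N then s i else 0 := by
    intro i
    rw [hG, Polynomial.finsetSum_coeff]
    simp only [Polynomial.coeff_C_mul_X_pow]
    rw [Finset.sum_ite_eq]
    simp only [Finset.mem_range]
  have hGint : IntH G := by
    intro i j
    rw [hGc]
    split_ifs
    · exact hs i j
    · rw [MvPolynomial.coeff_zero, norm_zero]
      exact zero_le_one
  obtain ⟨Fp, hFp⟩ : ∃ Fp : Polynomial L, Fp = F.map (algebraMap (keu k e u) L) := ⟨_, rfl⟩
  obtain ⟨Gp, hGp⟩ : ∃ Gp : Polynomial L, Gp = G.map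
    (MvPolynomial.aeval u : MvPolynomial (Fin m) k →ₐ[k] L).toRingHom := ⟨_, rfl⟩
  have hT : ∀ i, (C β * Fp - Gp).coeff i ∈ SP k B (Set.range (tor k e c π)) := by
    intro i
    rw [Polynomial.coeff_sub, Polynomial.coeff_C_mul, hFp, hGp, Polynomial.coeff_map,
      Polynomial.coeff_map, hGc]
    split_ifs with hi
    · have h1 : β * (algebraMap (keu k e u) L) (F.coeff i) -
          (MvPolynomial.aeval u : MvPolynomial (Fin m) k →ₐ[k] L).toRingHom (s i) = t i := by
        have h2 := hst i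
        have h3 : (algebraMap (keu k e u) L) (F.coeff i) = ((F.coeff i : keu k e u) : L) := rfl
        have h4 : (MvPolynomial.aeval u : MvPolynomial (Fin m) k →ₐ[k] L).toRingHom (s i) =
          MvPolynomial.aeval u (s i) := rfl
        rw [h3, h4, h2]
        ring
      rw [h1]
      exact ht i
    · have h1 : F.coeff i = 0 := Polynomial.coeff_eq_zero_of_natDegree_lt (by omega)
      rw [h1, map_zero, map_zero, mul_zero, sub_zero]
      exact zero_mem _
  have hevG : evH u α G = β * Fp.eval α - (C β * Fp - Gp).eval α := by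
    rw [Polynomial.eval_sub, Polynomial.eval_mul, Polynomial.eval_C, sub_sub_cancel, hGp]
    rfl
  have hevG' : evH u α (derivative G) = β * (derivative Fp).eval α -
      (derivative (C β * Fp - Gp)).eval α := by
    rw [Polynomial.derivative_sub, Polynomial.derivative_C_mul, Polynomial.eval_sub,
      Polynomial.eval_mul, Polynomial.eval_C, sub_sub_cancel, hGp, Polynomial.derivative_map]
    rfl
  have hFpα : Fp.eval α = 0 := by
    rw [hFp, Polynomial.eval_map_algebraMap]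
    exact hF0
  have hFpα' : ‖(derivative Fp).eval α‖ = 1 := by
    rw [hFp, Polynomial.derivative_map, Polynomial.eval_map_algebraMap]
    exact hF1
  have hGSP : evH u α G ∈ SP k B (Set.range (tor k e c π)) := by
    rw [hevG, hFpα, mul_zero, zero_sub]
    exact neg_mem (z7_eval_SP hαB hT)
  have hG'n : ‖evH u α (derivative G)‖ = 1 := by
    have h1 : ‖(derivative (C β * Fp - Gp)).eval α‖ < 1 :=
      hSPn _ (z7_eval_SP hαB (z7_deriv_SP hT))
    have h2 : ‖β * (derivative Fp).eval α‖ = 1 := by rw [norm_mul, hβ1, hFpα', mul_one]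
    rw [hevG', sub_eq_add_neg, IsUltrametricDist.norm_add_eq_max_of_norm_ne_norm, norm_neg, h2]
    · exact max_eq_left h1.le
    · rw [norm_neg, h2]
      exact h1.ne'
  obtain ⟨σ, Q₁, R, κ, hσ, hσ1, hQ₁, hR, hκ, heq⟩ := hH G hGint (hSPn _ hGSP)
  have hle1 : ∀ {Q : Polynomial (MvPolynomial (Fin m) k)}, IntH Q → evH u α Q ∈ B :=
    fun hQ => hB _ (z7_evH_mem hQ)
  have hE1 : MvPolynomial.aeval u σ * evH u α G =
      evH u α H * evH u α Q₁ + algebraMap k L κ * evH u α R := by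
    have h3 := congrArg (z7E u α) heq
    rw [map_mul, map_add, map_mul, map_mul, z7E_C, z7E_C, MvPolynomial.aeval_C] at h3
    exact h3
  have hE2 : MvPolynomial.aeval u σ * evH u α (derivative G) =
      (evH u α (derivative H) * evH u α Q₁ + evH u α H * evH u α (derivative Q₁)) +
        algebraMap k L κ * evH u α (derivative R) := by
    have h3 := congrArg (fun P => z7E u α (derivative P)) heq
    simp only [Polynomial.derivative_add, Polynomial.derivative_mul, Polynomial.derivative_C,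
      zero_mul, zero_add, map_add, map_mul, z7E_C, MvPolynomial.aeval_C] at h3
    exact h3
  have hκn : ‖algebraMap k L κ‖ < 1 := by rw [norm_algebraMap']; exact hκ
  have hmul : ∀ x y : L, ‖x‖ < 1 → ‖y‖ ≤ 1 → ‖x * y‖ < 1 := by
    intro x y hx hy
    rw [norm_mul]
    exact (mul_le_of_le_one_right (norm_nonneg _) hy).trans_lt hx
  have hQn : ‖evH u α Q₁‖ = 1 := by
    refine le_antisymm (hB1 _ (hle1 hQ₁)) ?_
    by_contra hlt1
    rw [not_le] at hlt1
    have h1 : ‖evH u α (derivative H) * evH u α Q₁‖ < 1 := by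
      rw [mul_comm]
      exact hmul _ _ hlt1 (hB1 _ (hle1 (z7_IntH_deriv hH0)))
    have h2 := hmul _ _ hH1 (hB1 _ (hle1 (z7_IntH_deriv hQ₁)))
    have h3 := hmul _ _ hκn (hB1 _ (hle1 (z7_IntH_deriv hR)))
    have h4 : ‖MvPolynomial.aeval u σ * evH u α (derivative G)‖ < 1 := by
      rw [hE2]
      refine (IsUltrametricDist.norm_add_le_max _ _).trans_lt (max_lt ?_ h3)
      exact (IsUltrametricDist.norm_add_le_max _ _).trans_lt (max_lt h1 h2)
    rw [norm_mul, hσ1, hG'n, mul_one] at h4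
    exact lt_irrefl _ h4
  have hQ0 : evH u α Q₁ ≠ 0 := norm_pos_iff.1 (by rw [hQn]; exact one_pos)
  have hfin : evH u α H = (evH u α Q₁)⁻¹ * (MvPolynomial.aeval u σ * evH u α G -
      evH u α R * algebraMap k L κ) := by
    rw [hE1]
    field_simp
    ring
  rw [hfin]
  refine SP_mul (hinv _ (hle1 hQ₁) hQn) (sub_mem ?_ ?_)
  · exact SP_mul (hB _ (z7_aeval_mem hσ)) hGSP
  · exact SP_mul (hle1 hR) (SP_const hκ)

end

end CS
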