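import Pool.Agent.Lib.CS.Base1
import Pool.Agent.Lib.CS.Z2
import Pool.Agent.Lib.CS.Z5
import Pool.Agent.Lib.CS.Z6
import Pool.Agent.Lib.CS.Z7

/-!
# Module CS.Z8: parameters at points of transcendence defect zero
-/

open Polynomial MP1a953e IsLocalRing DA

namespace CS
open Pool.Agent.Lib.MP_3029eb_ag Pool.Agent.Lib.MP_3029eb_ag.Abh

private theorem z8_findim {k L : Type} [NormedField k] [NormedField L] [NormedAlgebra k L]
    (hfg : (⊤ : IntermediateField k L).FG) (M : IntermediateField k L)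
    (hsep : Algebra.IsSeparable M L) : FiniteDimensional M L := by
  have hfgN : (⊤ : IntermediateField M L).FG := by
    obtain ⟨t, ht⟩ := hfg
    refine ⟨t, ?_⟩
    rw [eq_top_iff]
    intro x _
    have hx : x ∈ IntermediateField.adjoin k (t : Set L) := by
      rw [ht]
      exact IntermediateField.mem_top
    have hle : IntermediateField.adjoin k (t : Set L) ≤
        (IntermediateField.adjoin M (t : Set L)).restrictScalars k := by
      rw [IntermediateField.adjoin_le_iff]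
      intro y hy
      exact IntermediateField.subset_adjoin M (t : Set L) hy
    exact hle hx
  obtain ⟨t, ht⟩ := hfgN
  have : FiniteDimensional M (IntermediateField.adjoin M (t : Set L)) :=
    IntermediateField.finiteDimensional_adjoin fun x _ => Algebra.IsSeparable.isIntegral M x
  rw [ht] at this
  exact IntermediateField.topEquiv.toLinearEquiv.finiteDimensional

private theorem z8_adjoin_closure {k L : Type} [NontriviallyNormedField k] [IsUltrametricDist k]
    [NormedField L] [IsUltrametricDist L] [NormedAlgebra k L] (G : Set L) {x : L}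
    (hx : x ∈ Algebra.adjoin (O k) G) : x ∈ Subring.closure ((cS k L : Set L) ∪ G) := by
  induction hx using Algebra.adjoin_induction with
  | mem x hx => exact Subring.subset_closure (Or.inr hx)
  | algebraMap c =>
    exact Subring.subset_closure (Or.inl (mem_cS.2 ⟨(c : k), mem_O.1 c.2, rfl⟩))
  | add x y _ _ hx hy => exact add_mem hx hy
  | mul x y _ _ hx hy => exact mul_mem hx hy

private theorem z8_closure_adjoin {k L : Type} [NontriviallyNormedField k]
    [IsUltrametricDist k] [NormedField L] [IsUltrametricDist L] [NormedAlgebra k L] (G : Set L)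
    {x : L} (hx : x ∈ Subring.closure ((cS k L : Set L) ∪ G)) : x ∈ Algebra.adjoin (O k) G := by
  have h1 : Subring.closure ((cS k L : Set L) ∪ G) ≤ (Algebra.adjoin (O k) G).toSubring := by
    rw [Subring.closure_le]
    rintro z (hz | hz)
    · obtain ⟨c, hc, rfl⟩ := mem_cS.1 hz
      exact (Algebra.adjoin (O k) G).algebraMap_mem (⟨c, mem_O.2 hc⟩ : O k)
    · exact Algebra.subset_adjoin hz
  exact h1 hx

/-- representation of the nonzero elements -/
private theorem z8_rep {k L Ω : Type} [NontriviallyNormedField k] [IsUltrametricDist k]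
    [NormedField L] [IsUltrametricDist L] [NormedAlgebra k L] [NormedField Ω] {ι : L →+* Ω}
    {K : Subfield Ω} {r m : ℕ} {e : Fin r → L} {u : Fin m → L} {α : L} {a : Ω}
    {f : Polynomial Ω} (h : ZD k ι K e u α a f) {α₁ : L}
    (hFr : ∀ x : L, ‖x‖ ≤ 1 → FrO k e u α₁ x) (x : L) (hx : x ≠ 0) :
    ∃ (z : Fin r → ℤ) (c : k) (P Q : Polynomial (keu k e u)), c ≠ 0 ∧
      ‖DA.mon k e z c‖ = ‖x‖ ∧
      (∀ i, ‖((P.coeff i : keu k e u) : L)‖ ≤ 1) ∧
      (∀ i, ‖((Q.coeff i : keu k e u) : L)‖ ≤ 1) ∧ ‖aeval α₁ P‖ = 1 ∧ ‖aeval α₁ Q‖ = 1 ∧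
      x = DA.mon k e z c * (aeval α₁ P / aeval α₁ Q) := by
  obtain ⟨z, c, hc, hz⟩ := h.val x hx
  have hxn : 0 < ‖x‖ := norm_pos_iff.2 hx
  have hm0 : DA.mon k e z c ≠ 0 := norm_pos_iff.1 (by rw [← hz]; exact hxn)
  have hy1 : ‖x / DA.mon k e z c‖ = 1 := by rw [norm_div, ← hz, div_self hxn.ne']
  obtain ⟨P, Q, hP, hQ, hQ1, hPQ⟩ := hFr _ hy1.le
  refine ⟨z, c, P, Q, hc, hz.symm, hP, hQ, ?_, hQ1, ?_⟩
  · rw [hPQ, norm_div, hQ1, div_one] at hy1
    exact hy1
  · rw [← hPQ, mul_div_cancel₀ _ hm0]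

/-- Proof.  `exists_zd`: `ZD k ι K e u α a f`; `L` is finite over `M = keu k e u` (separable algebraic and finitely
generated). `exists_gen`: `α₁`; `F = minpoly M α₁`. `frO_of_norm_le`: every `x ∈ L` with `‖x‖ ≤ 1` is a fraction of
elements `aeval α₁ P`, `aeval α₁ Q` with `P, Q` over `O(M)`, the denominator of norm one. `exists_res_div` for `u, α₁` gives
`H`. Note that `e, u, α₁, H` do not depend on `A` and `S`. Let `A, S` be given. Write the `e i`, `u j` and `α₁` as fractions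
`n / d`, `n, d ∈ A`, and let `S₁` be the set of the elements of `S` and the `d`. For `x ∈ S₁` let `‖x‖ = ‖mon k e z c‖` (`ZD.val`),
`x = mon k e z c * y`, `‖y‖ = 1`, and `y = aeval α₁ P / aeval α₁ Q`, where `‖aeval α₁ P‖ = ‖aeval α₁ Q‖ = 1`. Let `T` be the finite set of the
coefficients of all these `P, Q` and of `F`. `exists_fine_keu` gives `δ`; enlarge it so that all monomials
`mon k e z c` of norm `≤ 1` which occurred are in `Tt k e c π` (`mon_mem_tor`, Pool/Agent/Lib/DA/S1.lean); `exists_fine` gives `c, π`.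
Let `G = range (tor k e c π) ∪ range u ∪ {α₁}` (a finite set of elements of norm `≤ 1`), `B = RG k (ball L) G`; it contains
`BG k e c π (range u ∪ {α₁})`, and consists of the fractions of its elements with denominator of norm `1`. `w = Fin.elim0`
(`h = 0`). `BPar`: `gen`: `X` from `exists_tor_mon`; `x = a / b ∈ B` of norm `< 1`: `mul_mem_SP` gives `s`, `‖s‖ = 1`,
`s * a ∈ SP k B (range tor ∪ {evH u α₁ H})`, and `evH u α₁ H ∈ SP k B (range tor)` by `evH_mem_SP`; `s⁻¹, b⁻¹ ∈ B`. `x ∈ S₁`: the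
coefficients of `P, Q` are in `B`, so `y, y⁻¹ ∈ B`: `MU`; if `‖x‖ ≤ 1` then `mon k e z c ∈ Tt k e c π ≤ B`, so `x ∈ B`.
`Dn`: `e i = n / d`, `u j = n / d`, `α₁ = n / d` with `d ∈ S₁`, so `MU ... d`; the `tor i` are products of constants and
`e j` and their inverses (`Dn.inv`, `MU.var`). -/
theorem sbase0 {p : ℕ} [Fact p.Prime] {k L : Type} [NontriviallyNormedField k]
    [IsUltrametricDist k] [IsAlgClosed k] (hp : ‖(p : k)‖ < 1) [NormedField L]
    [IsUltrametricDist L] [NormedAlgebra k L] {r m : ℕ} {e₀ : Fin r → L} {u₀ : Fin m → L}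
    (h₀ : EU k e₀ u₀) (hfg : (⊤ : IntermediateField k L).FG)
    (htr : Algebra.trdeg k L = ((r + m : ℕ) : Cardinal)) (hRD : RDep k L m) :
    SBase k L r 0 := by
  classical
  obtain ⟨Ω, instΩ, hU, hAC, ι, K, e, u, α, a, f, hZ⟩ := exists_zd hp h₀ hfg htr
  have hfin : FiniteDimensional (keu k e u) L := z8_findim hfg _ hZ.sep
  have hsepI : Algebra.IsSeparable (keu k e u) L := hZ.sep
  obtain ⟨α₁, hα₁, hgen, hF1, hF', hσ⟩ := exists_gen hZ
  have hFr : ∀ x : L, ‖x‖ ≤ 1 → FrO k e u α₁ x := fun x hx =>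
    frO_of_norm_le hZ.emb.norm hgen hF1 hF' hσ hx
  obtain ⟨H, hH0, hH1, hH⟩ := exists_res_div hZ.eu hα₁.le hRD
  have hne := hZ.eu.ne
  intro A hA S hS
  choose! zf cf Pf Qf hcf hzf hPf hQf hPf1 hQf1 hxf using z8_rep hZ hFr
  choose ne hneA de hdeA hde0 hne' using fun i => hA (e i)
  choose nu hnuA du hduA hdu0 hnu' using fun i => hA (u i)
  obtain ⟨nα, hnαA, dα, hdαA, hdα0, hnα'⟩ := hA α₁
  obtain ⟨F, hF⟩ : ∃ F : Polynomial (keu k e u), F = minpoly (keu k e u) α₁ := ⟨_, rfl⟩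
  obtain ⟨S₁, hS₁⟩ : ∃ S₁ : Finset L, S₁ = S ∪ (Finset.univ.image de ∪ (Finset.univ.image du ∪
    {dα})) := ⟨_, rfl⟩
  have hS₁0 : ∀ x ∈ S₁, x ≠ 0 := by
    intro x hx
    rw [hS₁] at hx
    simp only [Finset.mem_union, Finset.mem_image, Finset.mem_univ, true_and,
      Finset.mem_singleton] at hx
    rcases hx with hx | ⟨i, rfl⟩ | ⟨i, rfl⟩ | rfl
    · exact hS x hx
    · exact hde0 i
    · exact hdu0 i
    · exact hdα0
  obtain ⟨T, hT⟩ : ∃ T : Finset L, T = F.coeffs.image (algebraMap (keu k e u) L) ∪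
      S₁.biUnion fun x => (Pf x).coeffs.image (algebraMap (keu k e u) L) ∪
        ((Qf x).coeffs.image (algebraMap (keu k e u) L) ∪
          if ‖DA.mon k e (zf x) (cf x)‖ ≤ 1 then {DA.mon k e (zf x) (cf x)} else ∅) := ⟨_, rfl⟩
  have hmonk : ∀ (z : Fin r → ℤ) (c : k), DA.mon k e z c ∈ keu k e u := by
    intro z c
    unfold DA.mon
    refine mul_mem ((keu k e u).algebraMap_mem c) (prod_mem fun i _ => zpow_mem ?_ _)
    exact IntermediateField.subset_adjoin k _ (Or.inl ⟨i, rfl⟩)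
  have himg : ∀ P : Polynomial (keu k e u), (∀ i, ‖((P.coeff i : keu k e u) : L)‖ ≤ 1) →
      ∀ x ∈ P.coeffs.image (algebraMap (keu k e u) L), x ∈ keu k e u ∧ ‖x‖ ≤ 1 := by
    intro P hP x hx
    obtain ⟨y, hy, rfl⟩ := Finset.mem_image.1 hx
    obtain ⟨n, -, rfl⟩ := Polynomial.mem_coeffs_iff.1 hy
    exact ⟨(P.coeff n).2, hP n⟩
  have hT1 : ∀ x ∈ T, x ∈ keu k e u ∧ ‖x‖ ≤ 1 := by
    intro x hx
    rw [hT] at hx
    rcases Finset.mem_union.1 hx with hx | hx
    · exact himg F (by rw [hF]; exact hF1) x hx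
    · obtain ⟨y, hy, hx⟩ := Finset.mem_biUnion.1 hx
      have hy0 := hS₁0 y hy
      rcases Finset.mem_union.1 hx with hx | hx
      · exact himg _ (hPf y hy0) x hx
      · rcases Finset.mem_union.1 hx with hx | hx
        · exact himg _ (hQf y hy0) x hx
        · split_ifs at hx with h1
          · rw [Finset.mem_singleton] at hx
            rw [hx]
            exact ⟨hmonk _ _, h1⟩
          · exact absurd hx (Finset.notMem_empty x)
  obtain ⟨δ, hδ0, hδ1, hδ⟩ := exists_fine_keu hZ.eu T hT1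
  obtain ⟨c, π, hfine⟩ := exists_fine (k := k) hne hδ1
  have hloc := hδ c π hfine
  obtain ⟨G, hG⟩ : ∃ G : Finset L, (G : Set L) = Set.range (tor k e c π) ∪
      (Set.range u ∪ {α₁}) :=
    ⟨Finset.univ.image (tor k e c π) ∪ (Finset.univ.image u ∪ {α₁}), by simp⟩
  have hGn : ∀ t ∈ G, ‖t‖ ≤ 1 := by
    intro t ht
    have ht' : t ∈ (G : Set L) := ht
    rw [hG] at ht'
    rcases ht' with ⟨i, rfl⟩ | ⟨i, rfl⟩ | ht'
    · exact (hfine.hi i).le
    · exact hZ.eu.norm_u i
    · rw [Set.mem_singleton_iff] at ht'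
      rw [ht', hα₁]
  obtain ⟨B, hBdef⟩ : ∃ B : Subring L, B = RG k (ball L) (G : Set L) := ⟨_, rfl⟩
  have hBG : ∀ x ∈ BG k e c π (Set.range u ∪ {α₁}), x ∈ B := by
    intro x hx
    rw [hBdef]
    refine closure_le_RG _ ?_
    rw [hG]
    exact z8_adjoin_closure _ hx
  have hBrep : ∀ x ∈ B, ∃ a ∈ BG k e c π (Set.range u ∪ {α₁}),
      ∃ b ∈ BG k e c π (Set.range u ∪ {α₁}), ‖b‖ = 1 ∧ x = a / b := by
    intro x hx
    rw [hBdef] at hx
    obtain ⟨a, ha, b, hb, hb1, hab⟩ := hx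
    rw [hG] at ha hb
    refine ⟨a, z8_closure_adjoin _ ha, b, z8_closure_adjoin _ hb, (ball_val_eq_one b).1 hb1, ?_⟩
    rw [eq_div_iff (ne_zero_of_val hb1)]
    exact hab
  have hBn : ∀ x ∈ B, ‖x‖ ≤ 1 := by
    intro x hx
    rw [hBdef] at hx
    exact (mem_ball x).1 (RG_le (OvR.ball (k := k)) (fun t ht => (mem_ball t).2 (hGn t ht)) hx)
  have hBinv : ∀ x ∈ B, ‖x‖ = 1 → x⁻¹ ∈ B := by
    intro x hx hx1
    rw [hBdef] at hx ⊢
    exact RG_inv hx ((ball_val_eq_one x).2 hx1)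
  have hBdiv : ∀ x ∈ B, ∀ y ∈ B, ‖y‖ = 1 → x / y ∈ B := by
    intro x hx y hy hy1
    rw [div_eq_mul_inv]
    exact mul_mem hx (hBinv y hy hy1)
  have hBu : BG k e c π (Set.range u) ≤ BG k e c π (Set.range u ∪ {α₁}) :=
    Algebra.adjoin_mono (Set.union_subset_union_right _ Set.subset_union_left)
  have hTB : ∀ x ∈ T, x ∈ B := by
    intro x hx
    obtain ⟨a, ha, b, hb, hb1, rfl⟩ := hloc x hx
    exact hBdiv a (hBG a (hBu ha)) b (hBG b (hBu hb)) hb1
  have hα₁B : α₁ ∈ B := hBG α₁ (Algebra.subset_adjoin (Or.inr (Or.inr rfl)))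
  have haev : ∀ P : Polynomial (keu k e u), (∀ i, ((P.coeff i : keu k e u) : L) ∈ B) →
      aeval α₁ P ∈ B := by
    intro P hP
    rw [aeval_eq_sum_range]
    refine sum_mem fun i _ => ?_
    have h1 : P.coeff i • α₁ ^ i = ((P.coeff i : keu k e u) : L) * α₁ ^ i := rfl
    rw [h1]
    exact mul_mem (hP i) (pow_mem hα₁B i)
  have hcoefT : ∀ (P : Polynomial (keu k e u)),
      P.coeffs.image (algebraMap (keu k e u) L) ⊆ T → ∀ i, ((P.coeff i : keu k e u) : L) = 0 ∨
        ((P.coeff i : keu k e u) : L) ∈ T := by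
    intro P hP i
    by_cases h0 : P.coeff i = 0
    · left
      rw [h0]
      rfl
    · right
      refine hP (Finset.mem_image.2 ⟨P.coeff i, ?_, rfl⟩)
      exact Polynomial.coeff_mem_coeffs h0
  have hcoefB : ∀ (P : Polynomial (keu k e u)),
      P.coeffs.image (algebraMap (keu k e u) L) ⊆ T → aeval α₁ P ∈ B := by
    intro P hP
    refine haev P fun i => ?_
    rcases hcoefT P hP i with h0 | h1
    · rw [h0]
      exact zero_mem B
    · exact hTB _ h1
  have hMUx : ∀ x ∈ S₁, MU k (ball L) B e x ∧ (‖x‖ ≤ 1 → x ∈ B) := by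
    intro x hx
    have hx0 := hS₁0 x hx
    have hsub : (Pf x).coeffs.image (algebraMap (keu k e u) L) ∪
        ((Qf x).coeffs.image (algebraMap (keu k e u) L) ∪
          if ‖DA.mon k e (zf x) (cf x)‖ ≤ 1 then {DA.mon k e (zf x) (cf x)} else ∅) ⊆ T := by
      rw [hT]
      intro y hy
      exact Finset.mem_union_right _ (Finset.mem_biUnion.2 ⟨x, hx, hy⟩)
    have hPB : aeval α₁ (Pf x) ∈ B := hcoefB _ (Finset.subset_union_left.trans hsub)
    have hQB : aeval α₁ (Qf x) ∈ B :=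
      hcoefB _ ((Finset.subset_union_left.trans Finset.subset_union_right).trans hsub)
    have hPQB : aeval α₁ (Pf x) / aeval α₁ (Qf x) ∈ B := hBdiv _ hPB _ hQB (hQf1 x hx0)
    refine ⟨⟨zf x, cf x, hcf x hx0, _, hPQB, (ball_val_eq_one _).2 ?_, hxf x hx0⟩, fun hx1 => ?_⟩
    · rw [norm_div, hPf1 x hx0, hQf1 x hx0, div_one]
    · have hm1 : ‖DA.mon k e (zf x) (cf x)‖ ≤ 1 := by rw [hzf x hx0]; exact hx1
      have hmB : DA.mon k e (zf x) (cf x) ∈ B := by
        refine hTB _ (hsub (Finset.mem_union_right _ (Finset.mem_union_right _ ?_)))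
        rw [if_pos hm1]
        exact Finset.mem_singleton_self _
      rw [hxf x hx0]
      exact mul_mem hmB hPQB
  have hDe : ∀ i, Dn k (ball L) A B e (e i) := fun i =>
    ⟨ne i, hneA i, de i, hdeA i, (hMUx (de i) (by rw [hS₁]; simp)).1, hne' i⟩
  have hDu : ∀ i, Dn k (ball L) A B e (u i) := fun i =>
    ⟨nu i, hnuA i, du i, hduA i, (hMUx (du i) (by rw [hS₁]; simp)).1, hnu' i⟩
  have hDα : Dn k (ball L) A B e α₁ :=
    ⟨nα, hnαA, dα, hdαA, (hMUx dα (by rw [hS₁]; simp)).1, hnα'⟩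
  have hDt : ∀ i, Dn k (ball L) A B e (tor k e c π i) := by
    intro i
    refine Fin.cases ?_ (fun j => ?_) i
    · simp only [tor, Fin.cons_zero]
      refine Dn.mul hne (Dn.of_mem (A.algebraMap_mem π)) ?_
      have h1 : ∏ i, algebraMap k L (c i) / e i ∈ DnR k (ball L) B e A hne := by
        refine prod_mem fun i _ => ?_
        rw [div_eq_mul_inv]
        exact Dn.mul hne (Dn.of_mem (A.algebraMap_mem (c i))) (Dn.inv hne (hDe i) (MU.var i))
      exact h1
    · simp only [tor, Fin.cons_succ]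
      rw [div_eq_mul_inv, ← map_inv₀]
      exact Dn.mul hne (hDe j) (Dn.of_mem (A.algebraMap_mem (c j)⁻¹))
  have hevH : evH u α₁ H ∈ SP k B (Set.range (tor k e c π)) := by
    refine evH_mem_SP hZ.eu hBG hBn hBinv hfine.hi (F := F) ?_ ?_ ?_ hH0 hH1 hH
    · rw [hF]
      exact minpoly.aeval _ _
    · rw [hF]
      exact hF'
    · intro i
      have hsub : F.coeffs.image (algebraMap (keu k e u) L) ⊆ T := by
        rw [hT]
        exact Finset.subset_union_left
      rcases hcoefT F hsub i with h0 | h1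
      · exact ⟨0, zero_mem _, 1, one_mem _, norm_one, by rw [h0, zero_div]⟩
      · exact hloc _ h1
  obtain ⟨X, hX⟩ := exists_tor_mon e c π
  subst hBdef
  refine ⟨e, Fin.elim0, G, hGn, ?_, hDe, ?_, ?_⟩
  · refine ⟨hne, hZ.eu.ind, fun j => j.elim0, fun j => j.elim0, X, ?_, ?_⟩
    · rw [hX]
      rintro x ⟨i, rfl⟩
      exact hfine.hi i
    · intro x hx hx1
      rw [hX]
      obtain ⟨a, ha, b, hb, hb1, rfl⟩ := hBrep x hx
      have ha1 : ‖a‖ < 1 := by rwa [norm_div, hb1, div_one] at hx1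
      obtain ⟨s, hs, hs1, hsa⟩ := mul_mem_SP hBG hBn hfine.hi hH0 hH ha ha1
      have hsa' : s * a ∈ SP k (RG k (ball L) (G : Set L)) (Set.range (tor k e c π)) := by
        refine SP_le le_rfl ?_ hsa
        rintro y (hy | hy)
        · exact SP_of_mem hy
        · rw [Set.mem_singleton_iff] at hy
          rw [hy]
          exact hevH
      have hs0 : s ≠ 0 := ne_zero_of_val ((ball_val_eq_one s).2 hs1)
      have h3 : a / b = (s⁻¹ * b⁻¹) * (s * a) := by
        field_simp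
      rw [h3]
      exact SP_mono le_rfl Set.subset_union_left
        (SP_mul (mul_mem (hBinv s (hBG s hs) hs1) (hBinv b (hBG b hb) hb1)) hsa')
  · intro x hx
    exact hMUx x (by rw [hS₁]; exact Finset.mem_union_left _ hx)
  · intro t ht
    have ht' : t ∈ (G : Set L) := ht
    rw [hG] at ht'
    rcases ht' with ⟨i, rfl⟩ | ⟨i, rfl⟩ | ht'
    · exact hDt i
    · exact hDu i
    · rw [Set.mem_singleton_iff] at ht'
      rw [ht']
      exact hDα

end CS
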