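import Pool.Agent.Lib.CS.LUV
import Pool.Agent.Lib.CS.Z8
import Pool.Agent.Lib.CS.CompS
import Pool.Agent.Lib.CS.WHyp
import Pool.Agent.Lib.CS.WConv
import Pool.Agent.Lib.CS.WTr
import Pool.Agent.Lib.DA.M3

/-!
# The main theorem
-/

open Polynomial MP1a953e IsLocalRing DA

namespace CS
open Pool.Agent.Lib.MP_3029eb_ag Pool.Agent.Lib.MP_3029eb_ag.Abh

theorem vunif_main {p : ℕ} [Fact p.Prime] {k L : Type} [NontriviallyNormedField k]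
    [IsUltrametricDist k] [IsAlgClosed k] (hp : ‖(p : k)‖ < 1) [NormedField L]
    [IsUltrametricDist L] [NormedAlgebra k L] (hfg : (⊤ : IntermediateField k L).FG) {r m : ℕ}
    (e : Fin r → L) (hne : ∀ i, e i ≠ 0)
    (hind : ∀ (z : Fin r → ℤ) (c : k), ‖c‖ = ‖∏ i, e i ^ z i‖ → z = 0)
    (htors : ∀ x : L, x ≠ 0 → ∃ n : ℕ, 0 < n ∧ ∃ (z : Fin r → ℤ) (c : k),
      ‖x‖ ^ n = ‖c‖ * ‖∏ i, e i ^ z i‖)
    (hres : Algebra.trdeg (ResidueField (O k)) (ResidueField (O L)) = ((m : ℕ) : Cardinal))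
    {δ : ℕ} (hδ : δ ≤ 1) (htr : Algebra.trdeg k L = ((r + m + δ : ℕ) : Cardinal))
    {V : ValuationSubring L} {r₂ : ℕ} (hV : VComp k V r₂)
    (hc : ∀ c : k, ‖c‖ ≤ 1 → algebraMap k L c ∈ V) :
    VUnif k V (r + r₂) (r + m + δ) := by
  have hO : OvR k V := ⟨hV.le, hc⟩
  have hd : Df k L r m := df_of_hyp hne htors hres
  obtain ⟨u₀, h₀⟩ := exists_eu hne hind hres
  have hRD : RDep k L m := hd.rs
  have hb : SBase k L r δ := by
    rcases Nat.le_one_iff_eq_zero_or_eq_one.1 hδ with rfl | rfl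
    · exact sbase0 hp h₀ hfg htr hRD
    · refine sbase_of_chts (exists_chts hp h₀ hd hfg ?_) hRD
      rw [htr]
      push_cast
      rfl
  have := res_closed k
  have := res_charP hp
  have hW := whyp_of_comp (p := p) hO (trdeg_ball hres) (comp_of_vcomp hV hc)
  exact vunif_of_base hO hb hRD (by omega) hW

theorem main {p : ℕ} [Fact p.Prime] {k L : Type} [NontriviallyNormedField k]
    [IsUltrametricDist k] [IsAlgClosed k] (hp : ‖(p : k)‖ < 1) [NormedField L]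
    [IsUltrametricDist L] [NormedAlgebra k L] (hfg : (⊤ : IntermediateField k L).FG) {r m : ℕ}
    (e : Fin r → L) (hne : ∀ i, e i ≠ 0)
    (hind : ∀ (z : Fin r → ℤ) (c : k), ‖c‖ = ‖∏ i, e i ^ z i‖ → z = 0)
    (htors : ∀ x : L, x ≠ 0 → ∃ n : ℕ, 0 < n ∧ ∃ (z : Fin r → ℤ) (c : k),
      ‖x‖ ^ n = ‖c‖ * ‖∏ i, e i ^ z i‖)
    (hres : Algebra.trdeg (ResidueField (O k)) (ResidueField (O L)) = ((m : ℕ) : Cardinal))
    {δ : ℕ} (hδ : δ ≤ 1) (htr : Algebra.trdeg k L = ((r + m + δ : ℕ) : Cardinal))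
    {V : ValuationSubring L} {r₂ : ℕ} (hV : VComp k V r₂)
    (hc : ∀ c : k, ‖c‖ ≤ 1 → algebraMap k L c ∈ V)
    (A : Subalgebra (O k) L) (hA : A.FG) (hle : ∀ a ∈ A, a ∈ V)
    [IsFractionRing A L] (S : Finset L) (hS : ∀ x ∈ S, x ≠ 0) :
    ∃ (n : ℕ) (f : Fin (n + 1) → L), (∀ i, f i ∈ A) ∧ f 0 ≠ 0 ∧
      (∃ i, ∃ c : O k, c ≠ 0 ∧ f i = algebraMap (O k) L c) ∧
      (∀ b ∈ A ⊔ Algebra.adjoin (O k) (Set.range fun i => f i / f 0), b ∈ V) ∧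
      ∃ ϖ : O k, ϖ ≠ 0 ∧ ‖(ϖ : k)‖ < 1 ∧
        ∃ φ : DA.SSr (r + r₂) ϖ →ₐ[O k]
            ↥(A ⊔ Algebra.adjoin (O k) (Set.range fun i => f i / f 0)),
          DA.IsSm _ φ ∧ (∀ i, V.valuation (φ (DA.SSr.x i) : L) < 1) ∧
          ∀ x ∈ S, ∃ (z : Fin (r + r₂ + 1) → ℤ) (c : k) (v : L), c ≠ 0 ∧
            v ∈ A ⊔ Algebra.adjoin (O k) (Set.range fun i => f i / f 0) ∧
            v⁻¹ ∈ A ⊔ Algebra.adjoin (O k) (Set.range fun i => f i / f 0) ∧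
            x = algebraMap k L c * (∏ i, (φ (DA.SSr.x i) : L) ^ z i) * v :=
  lu_of_vunif ⟨hV.le, hc⟩ htr (vunif_main hp hfg e hne hind htors hres hδ htr hV hc) A hA hle S hS

end CS
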