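import Pool.Agent.Lib.CS.Basic

/-!
# Module CS.Noeth: finiteness of the local rings modulo the maximal ideal of the ground ring
-/

open Polynomial MP1a953e IsLocalRing

namespace CS
set_option linter.unusedSectionVars false
open Pool.Agent.Lib.MP_3029eb_ag Pool.Agent.Lib.MP_3029eb_ag.Abh

section
variable {k : Type} {L : Type} [NormedField k] [IsUltrametricDist k] [NormedField L]
  [IsUltrametricDist L] [NormedAlgebra k L] {V : ValuationSubring L}

private theorem noeth_norm_add {x y : L} (hx : ‖x‖ < 1) (hy : ‖y‖ < 1) : ‖x + y‖ < 1 :=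
  lt_of_le_of_lt (IsUltrametricDist.norm_add_le_max x y) (max_lt hx hy)

/-- the elements of the submodule generated by the constants, as an ideal -/
private noncomputable def noethI (k : Type) {L : Type} [NormedField k] [IsUltrametricDist k]
    [NormedField L] [IsUltrametricDist L] [NormedAlgebra k L] (A : Subring L) : Ideal A where
  carrier := {x | (x : L) ∈ SP k A ∅}
  add_mem' := fun {x y} hx hy => by
    show ((x + y : A) : L) ∈ SP k A ∅
    rw [Subring.coe_add]
    exact add_mem hx hy
  zero_mem' := by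
    show ((0 : A) : L) ∈ SP k A ∅
    rw [Subring.coe_zero]
    exact zero_mem _
  smul_mem' := fun a x hx => by
    show ((a * x : A) : L) ∈ SP k A ∅
    rw [Subring.coe_mul]
    exact SP_mul a.2 hx

/-- the ideal of the elements of norm `< 1` -/
private def noethP (A : Subring L) (hA : ∀ x ∈ A, ‖x‖ ≤ 1) : Ideal A where
  carrier := {x | ‖(x : L)‖ < 1}
  add_mem' := fun {x y} hx hy => by
    show ‖((x + y : A) : L)‖ < 1
    rw [Subring.coe_add]
    exact noeth_norm_add hx hy
  zero_mem' := by
    show ‖((0 : A) : L)‖ < 1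
    rw [Subring.coe_zero, norm_zero]
    exact zero_lt_one
  smul_mem' := fun a x hx => by
    show ‖((a * x : A) : L)‖ < 1
    rw [Subring.coe_mul, norm_mul]
    have hx' : ‖(x : L)‖ < 1 := hx
    exact lt_of_le_of_lt (mul_le_of_le_one_left (norm_nonneg _) (hA a a.2)) hx'

private theorem noeth_quot (A : Subring L) (f : O k →+* A) (hf : EFT f)
    (hfc : ∀ c, (f c : L) = algebraMap k L c) : IsNoetherianRing (A ⧸ noethI k A) := by
  let q : A →+* A ⧸ noethI k A := Ideal.Quotient.mk (noethI k A)
  have hq : EFT (q.comp f) := EFT_comp_surjective f q hf Ideal.Quotient.mk_surjective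
  have hkill : ∀ c ∈ maximalIdeal (O k), (q.comp f) c = 0 := by
    intro c hc
    show Ideal.Quotient.mk (noethI k A) (f c) = 0
    rw [Ideal.Quotient.eq_zero_iff_mem]
    show ((f c : A) : L) ∈ SP k A ∅
    rw [hfc]
    apply SP_const
    rw [mem_maximalIdeal, mem_nonunits_iff, isUnit_O_iff] at hc
    exact lt_of_le_of_ne (mem_O.1 c.2) hc
  let g : ResidueField (O k) →+* A ⧸ noethI k A :=
    Ideal.Quotient.lift (maximalIdeal (O k)) (q.comp f) hkill
  let _ : Algebra (O k) (A ⧸ noethI k A) := (q.comp f).toAlgebra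
  let _ : Algebra (ResidueField (O k)) (A ⧸ noethI k A) := g.toAlgebra
  have _ : IsScalarTower (O k) (ResidueField (O k)) (A ⧸ noethI k A) :=
    .of_algebraMap_eq fun _ => rfl
  have h1 : Algebra.EssFiniteType (O k) (A ⧸ noethI k A) := hq
  have h2 : Algebra.EssFiniteType (ResidueField (O k)) (A ⧸ noethI k A) :=
    Algebra.EssFiniteType.of_comp (O k) (ResidueField (O k)) (A ⧸ noethI k A)
  exact Algebra.EssFiniteType.isNoetherianRing (ResidueField (O k)) (A ⧸ noethI k A)

/-- The elements of norm `< 1` of `A = RG k V G` are generated, modulo the constants of norm `< 1`, by finitely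
many elements.  Proof.  Let `I` be the ideal of `A` of all `x ∈ SP k A ∅` (`SP k A ∅` is an `A`-submodule of `L`
contained in `A` by `SP_mem`; all its elements have norm `< 1`, `SP_val` for `V = ball L`).
`f : O k →+* A` of `exists_EFT_RG` composed with `A → A ⧸ I` is EFT (`EFT_comp_surjective`, module Comp4 of
MP_3029eb_ag) and kills the maximal ideal of `O k` (elements of norm `< 1`, `isUnit_O_iff`), so it factors through
the field `ResidueField (O k)` (`Ideal.Quotient.lift`); `Algebra.EssFiniteType (ResidueField (O k)) (A ⧸ I)` by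
`Algebra.EssFiniteType.of_comp` (tower `O k → ResidueField (O k) → A ⧸ I`), so `A ⧸ I` is noetherian
(`Algebra.EssFiniteType.isNoetherianRing`, or `EFT.isNoetherianRing`). The ideal `P` of the elements of norm `< 1` of
`A` (`C3.cen (ball L)`, or defined directly) contains `I`, and `P / I` is finitely generated: lift generators to
`zs : Fin N → A`. For `x ∈ P`: `x - ∑ a l * zs l ∈ I`. -/
theorem exists_zs (hV : OvR k V) (G : Finset L) (hG : ∀ t ∈ G, t ∈ V) :
    ∃ (N : ℕ) (zs : Fin N → L), (∀ l, zs l ∈ RG k V (G : Set L) ∧ ‖zs l‖ < 1) ∧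
      ∀ x ∈ RG k V (G : Set L), ‖x‖ < 1 → x ∈ SP k (RG k V (G : Set L)) (Set.range zs) := by
  have hN : IsNoetherianRing (RG k V (G : Set L) ⧸ noethI k (RG k V (G : Set L))) := by
    obtain ⟨f, hf, hfc⟩ := exists_EFT_RG (k := k) V G
    exact noeth_quot _ f hf hfc
  have hA1 : ∀ x ∈ RG k V (G : Set L), ‖x‖ ≤ 1 := fun x hx => hV.norm_le (RG_le hV hG hx)
  set A := RG k V (G : Set L) with hA
  let q : A →+* A ⧸ noethI k A := Ideal.Quotient.mk (noethI k A)
  have hqs : Function.Surjective q := Ideal.Quotient.mk_surjective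
  have hfg : ((noethP A hA1).map q).FG := IsNoetherian.noetherian _
  obtain ⟨N, t, ht⟩ := Submodule.fg_iff_exists_fin_generating_family.1 hfg
  have htl : ∀ l, ∃ z : A, z ∈ noethP A hA1 ∧ q z = t l := by
    intro l
    have h1 : t l ∈ (noethP A hA1).map q := by
      rw [← ht]
      exact Submodule.subset_span ⟨l, rfl⟩
    exact (Ideal.mem_map_iff_of_surjective q hqs).1 h1
  choose z hz hzt using htl
  refine ⟨N, fun l => (z l : L), fun l => ⟨(z l).2, hz l⟩, ?_⟩
  intro x hx hx1
  have h1 : q ⟨x, hx⟩ ∈ (Ideal.span (Set.range z)).map q := by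
    have h2 : q ⟨x, hx⟩ ∈ (noethP A hA1).map q := Ideal.mem_map_of_mem q hx1
    rw [← ht] at h2
    rw [Ideal.map_span, ← Set.range_comp]
    have h3 : (q ∘ z) = t := funext hzt
    rw [h3]
    exact h2
  obtain ⟨y, hy, hyx⟩ := (Ideal.mem_map_iff_of_surjective q hqs).1 h1
  have h2 : (y : L) ∈ SP k A (Set.range fun l => (z l : L)) := by
    clear hyx
    induction hy using Submodule.span_induction with
    | mem u hu =>
      obtain ⟨l, rfl⟩ := hu
      exact SP_of_mem ⟨l, rfl⟩
    | zero =>
      rw [Subring.coe_zero]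
      exact zero_mem _
    | add u v _ _ hu hv =>
      rw [Subring.coe_add]
      exact add_mem hu hv
    | smul a u _ hu =>
      rw [smul_eq_mul, Subring.coe_mul]
      exact SP_mul a.2 hu
  have h3 : (⟨x, hx⟩ : A) - y ∈ noethI k A := Ideal.Quotient.eq.1 hyx.symm
  have h4 : x - (y : L) ∈ SP k A ∅ := h3
  have h5 := add_mem (SP_mono (le_refl A) (Set.empty_subset _) h4) h2
  rwa [sub_add_cancel] at h5

/-- A uniform denominator.  Proof.  Let `zs` be as in `exists_zs`, `b l` with `Good (b l)` and
`b l * zs l ∈ SP k A S`, and `b = ∏ l, b l` (finite product of good elements, induction over `Finset.univ`; `A` is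
`RG k V G`). Then `b * zs l ∈ SP k A S` (`b = b l *` the product of the others, `SP_mul`), and `b * x ∈ SP k A S` for
all `x ∈ SP k A (range zs)` (`SP_mul_le`; for constants `SP_mul` and `SP_const`). -/
theorem exists_bound (hV : OvR k V) (G : Finset L) (hG : ∀ t ∈ G, t ∈ V) (S : Set L)
    (Good : L → Prop) (h1 : Good 1) (hmul : ∀ a b, Good a → Good b → Good (a * b))
    (hmem : ∀ a, Good a → a ∈ RG k V (G : Set L))
    (h : ∀ x ∈ RG k V (G : Set L), ‖x‖ < 1 → ∃ b, Good b ∧ b * x ∈ SP k (RG k V (G : Set L)) S) :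
    ∃ b, Good b ∧ ∀ x ∈ RG k V (G : Set L), ‖x‖ < 1 →
      b * x ∈ SP k (RG k V (G : Set L)) S := by
  classical
  obtain ⟨N, zs, hzs, hgen⟩ := exists_zs hV G hG
  choose b hb hbz using fun l => h (zs l) (hzs l).1 (hzs l).2
  have hprod : ∀ s : Finset (Fin N), Good (∏ l ∈ s, b l) := by
    intro s
    induction s using Finset.induction_on with
    | empty => rw [Finset.prod_empty]; exact h1
    | insert a s ha ih =>
      rw [Finset.prod_insert ha]
      exact hmul _ _ (hb a) ih
  refine ⟨∏ l, b l, hprod _, fun x hx hx1 => ?_⟩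
  refine SP_mul_le (le_refl _) (fun κ hκ => SP_mul (hmem _ (hprod _)) (SP_const hκ)) ?_
    (hgen x hx hx1)
  rintro _ ⟨l, rfl⟩
  rw [← Finset.mul_prod_erase Finset.univ b (Finset.mem_univ l), mul_right_comm]
  exact SP_mul' (hmem _ (hprod _)) (hbz l)

/-- Clearing denominators.  Proof.  `B = locV (ball L) A`: every element of `B` is `a / b`, `a, b ∈ A`, `‖b‖ = 1`.
Induction over the span (`Submodule.span_induction`): generators: `b = 1`; sums: the product of the two
denominators (`SP_mul`); `a • x` with `a = a₁ / b₁`: `b₁ * b`. -/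
theorem SP_denoms {A : Subring L} {S : Set L} {x : L} (hx : x ∈ SP k (locV (ball L) A) S) :
    ∃ b ∈ A, ‖b‖ = 1 ∧ b * x ∈ SP k A S := by
  induction hx using Submodule.span_induction with
  | mem x hx =>
    refine ⟨1, A.one_mem, norm_one, ?_⟩
    rw [one_mul]
    exact Submodule.subset_span hx
  | zero =>
    refine ⟨1, A.one_mem, norm_one, ?_⟩
    rw [mul_zero]
    exact zero_mem _
  | add x y _ _ hx hy =>
    obtain ⟨b, hb, hb1, hbx⟩ := hx
    obtain ⟨c, hc, hc1, hcy⟩ := hy
    refine ⟨b * c, mul_mem hb hc, by rw [norm_mul, hb1, hc1, one_mul], ?_⟩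
    have e : b * c * (x + y) = c * (b * x) + b * (c * y) := by ring
    rw [e]
    exact add_mem (SP_mul hc hbx) (SP_mul hb hcy)
  | smul a x _ hx =>
    obtain ⟨b, hb, hb1, hbx⟩ := hx
    obtain ⟨a1, ha1, b1, hb1', hv, he⟩ := a.2
    refine ⟨b1 * b, mul_mem hb1' hb, by rw [norm_mul, hb1, (ball_val_eq_one b1).1 hv, one_mul], ?_⟩
    have e : b1 * b * (a • x) = a1 * (b * x) := by
      rw [Subring.smul_def, smul_eq_mul, ← he]
      ring
    rw [e]
    exact SP_mul ha1 hbx

end

end CS
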