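import Pool.Agent.Lib.CS.TorE
import Pool.Agent.Lib.DA.S4

/-!
# Module CS.PolyE: polynomial rings over the toric ring
-/

open Polynomial MP1a953e

namespace CS

section
variable {k : Type} {L : Type} [NormedField k] [IsUltrametricDist k] [NormedField L]
  [IsUltrametricDist L] [NormedAlgebra k L]

/-- `v` is algebraically independent over the toric ring -/
private theorem polyE_indep {r N : ℕ} {e : Fin r → L} {v : Fin N → L}
    (he : AlgebraicIndependent k (Fin.append e v)) (c : Fin r → k) (π : k) :
    AlgebraicIndependent ↥(DA.Tt k e c π) v := by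
  classical
  have h1 : AlgebraicIndependent k (Sum.elim v e) := by
    refine (algebraicIndependent_equiv' ((Equiv.sumComm (Fin N) (Fin r)).trans finSumFinEquiv)
      ?_).2 he
    funext x
    rcases x with x | x
    · simp
    · simp
  have h2 := (AlgebraicIndependent.sumElim_iff.1 h1).2
  set K0 : IntermediateField k L := IntermediateField.adjoin k (Set.range e) with hK0
  have h6 : AlgebraicIndependent K0 v := IntermediateField.algebraicIndependent_adjoin_iff.2 h2
  have hT : ∀ x ∈ DA.Tt k e c π, x ∈ K0 := by
    have hle : DA.Tt k e c π ≤ K0.toSubalgebra.restrictScalars (O k) := by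
      refine Algebra.adjoin_le ?_
      have he : ∀ i, e i ∈ K0 := fun i =>
        IntermediateField.subset_adjoin _ _ (Set.mem_range_self i)
      rintro _ ⟨i, rfl⟩
      refine Fin.cases ?_ (fun j => ?_) i
      · simp only [DA.tor, Fin.cons_zero]
        change _ ∈ K0
        exact mul_mem (K0.algebraMap_mem _)
          (prod_mem fun i _ => div_mem (K0.algebraMap_mem _) (he i))
      · simp only [DA.tor, Fin.cons_succ]
        change _ ∈ K0
        exact div_mem (he j) (K0.algebraMap_mem _)
    exact fun x hx => hle hx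
  letI : Algebra ↥(DA.Tt k e c π) K0 :=
    RingHom.toAlgebra
      { toFun := fun x => ⟨x.1, hT x.1 x.2⟩
        map_one' := rfl
        map_mul' := fun _ _ => rfl
        map_zero' := rfl
        map_add' := fun _ _ => rfl }
  haveI : IsScalarTower ↥(DA.Tt k e c π) K0 L := IsScalarTower.of_algebraMap_eq fun _ => rfl
  refine h6.restrictScalars ?_
  intro x y hxy
  exact Subtype.ext (congrArg (fun t : K0 => (t : L)) hxy)

/-- Proof.  As `DA.exists_pt_equiv` (Pool/Agent/Lib/DA/S4.lean): the `v j` are algebraically independent over `k(e)`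
(transitivity of algebraic independence, as in `S4_indep` there), hence over `Tt k e c π ≤ k(e)`, and
`BG k e c π (range v)` is generated by them over `Tt k e c π`. -/
theorem exists_bg_equiv {r N : ℕ} {e : Fin r → L} {v : Fin N → L}
    (he : AlgebraicIndependent k (Fin.append e v)) (c : Fin r → k) (π : k) :
    ∃ θ : MvPolynomial (Fin N) ↥(DA.Tt k e c π) ≃+* ↥(DA.BG k e c π (Set.range v)),
      ∀ x : DA.Tt k e c π,
        ((θ (MvPolynomial.C x) : DA.BG k e c π (Set.range v)) : L) = (x : L) := by
  have hind := polyE_indep he c π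
  have hP : DA.BG k e c π (Set.range v) =
      (Algebra.adjoin ↥(DA.Tt k e c π) (Set.range v)).restrictScalars (O k) :=
    Algebra.adjoin_union_eq_adjoin_adjoin (O k) (Set.range (DA.tor k e c π)) (Set.range v)
  rw [hP]
  refine ⟨hind.aevalEquiv.toRingEquiv, fun x => ?_⟩
  have h1 := hind.algebraMap_aevalEquiv (MvPolynomial.C x)
  rw [MvPolynomial.aeval_C] at h1
  exact h1

/-- Proof.  The first family is a subfamily of `Fin.append e v` (`AlgebraicIndependent.comp` with `Fin.castAdd`);
`isIntegrallyClosed_Tt`, `DA.isIntegrallyClosed_mvPolynomial`, `IsIntegrallyClosed.of_equiv`, `exists_bg_equiv`. -/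
theorem isIntegrallyClosed_BG {k : Type} {L : Type} [NontriviallyNormedField k]
    [IsUltrametricDist k] [NormedField L] [IsUltrametricDist L] [NormedAlgebra k L] {r N : ℕ}
    {e : Fin r → L} {v : Fin N → L} (he : AlgebraicIndependent k (Fin.append e v))
    {c : Fin r → k} {π : k} (hc : ∀ i, c i ≠ 0) (hπ : π ≠ 0) (hπ1 : ‖π‖ < 1) :
    IsIntegrallyClosed ↥(DA.BG k e c π (Set.range v)) := by
  obtain ⟨θ, -⟩ := exists_bg_equiv he c π
  have he' : AlgebraicIndependent k e := by
    have h1 := he.comp (Fin.castAdd N) (Fin.castAdd_injective r N)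
    have h2 : Fin.append e v ∘ Fin.castAdd N = e := by
      funext i
      simp
    rwa [h2] at h1
  haveI := isIntegrallyClosed_Tt he' hc hπ hπ1
  haveI := DA.isIntegrallyClosed_mvPolynomial ↥(DA.Tt k e c π) N
  exact IsIntegrallyClosed.of_equiv (R := MvPolynomial (Fin N) ↥(DA.Tt k e c π)) θ

end

end CS
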