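import Pool.Agent.Lib.CS.Defs
import Pool.Agent.Lib.DA.K2

/-!
# Module CS.ResCl: the residue field of an algebraically closed field
-/

open Polynomial MP1a953e IsLocalRing

namespace CS

/-- the residue field of the valuation ring of an algebraically closed field is algebraically closed -/
theorem res_closed (k : Type*) [NormedField k] [IsUltrametricDist k] [IsAlgClosed k] :
    IsAlgClosed (ResidueField (O k)) := by
  refine IsAlgClosed.of_exists_root _ fun p hp hirr => ?_
  obtain ⟨P, hP, hdeg, hmonic⟩ := lifts_and_natDegree_eq_and_monic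
    ((mem_lifts p).2 (map_surjective _ (residue_surjective (R := O k)) p)) hp
  have hdeg0 : (P.map (O k).subtype).degree ≠ 0 := by
    have h1 : (P.map (O k).subtype).Monic := hmonic.map _
    rw [degree_eq_natDegree h1.ne_zero, hmonic.natDegree_map, hdeg]
    have := hirr.natDegree_pos
    exact_mod_cast this.ne'
  obtain ⟨x, hx⟩ := IsAlgClosed.exists_root (P.map (O k).subtype) hdeg0
  have hx0 : P.eval₂ (O k).subtype x = 0 := by
    rw [← eval_map]
    exact hx
  have hxn : ‖x‖ ≤ 1 := by
    by_contra hlt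
    rw [not_le] at hlt
    have hx1 : (0 : ℝ) < ‖x‖ := lt_trans zero_lt_one hlt
    rw [eval₂_eq_sum_range, Finset.sum_range_succ] at hx0
    have h1 : P.coeff P.natDegree = 1 := hmonic
    rw [h1, map_one, one_mul] at hx0
    have h2 : ‖x ^ P.natDegree‖ = ‖∑ i ∈ Finset.range P.natDegree,
        (O k).subtype (P.coeff i) * x ^ i‖ := by
      rw [eq_neg_of_add_eq_zero_right hx0, norm_neg]
    have h3 : ‖∑ i ∈ Finset.range P.natDegree, (O k).subtype (P.coeff i) * x ^ i‖ <
        ‖x‖ ^ P.natDegree := by
      refine lt_of_le_of_lt (b := ‖x‖ ^ (P.natDegree - 1)) ?_ ?_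
      · refine IsUltrametricDist.norm_sum_le_of_forall_le_of_nonneg (pow_nonneg hx1.le _) ?_
        intro i hi
        rw [norm_mul, norm_pow]
        calc ‖(O k).subtype (P.coeff i)‖ * ‖x‖ ^ i ≤ 1 * ‖x‖ ^ (P.natDegree - 1) := by
              refine mul_le_mul (mem_O.1 (P.coeff i).2) ?_ (pow_nonneg hx1.le _) zero_le_one
              refine pow_le_pow_right₀ hlt.le ?_
              have := Finset.mem_range.1 hi
              omega
          _ = _ := one_mul _
      · refine pow_lt_pow_right₀ hlt ?_
        have : 0 < P.natDegree := by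
          rw [hdeg]
          exact hirr.natDegree_pos
        omega
    rw [← h2, norm_pow] at h3
    exact lt_irrefl _ h3
  refine ⟨residue (O k) ⟨x, mem_O.2 hxn⟩, ?_⟩
  rw [← hP, eval_map, eval₂_hom]
  have h4 : P.eval (⟨x, mem_O.2 hxn⟩ : O k) = 0 := by
    apply Subtype.ext
    have h5 := hom_eval₂ P (RingHom.id (O k)) (O k).subtype (⟨x, mem_O.2 hxn⟩ : O k)
    rw [RingHom.comp_id] at h5
    exact h5.trans hx0
  rw [h4, map_zero]


/-- the characteristic of the residue field -/
theorem res_charP {p : ℕ} [hp : Fact p.Prime] {k : Type*} [NormedField k] [IsUltrametricDist k]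
    (h : ‖(p : k)‖ < 1) : CharP (ResidueField (O k)) p := by
  have h1 : (p : ResidueField (O k)) = 0 := by
    have h2 : (p : ResidueField (O k)) = residue (O k) (p : O k) := (map_natCast _ _).symm
    rw [h2, residue_eq_zero_iff, mem_maximalIdeal, mem_nonunits_iff]
    intro h3
    obtain ⟨y, hy⟩ := h3.exists_right_inv
    have h4 : (p : k) * (y : k) = 1 := by
      have := congrArg Subtype.val hy
      simpa using this
    have h5 : ‖(p : k)‖ * ‖(y : k)‖ = 1 := by rw [← norm_mul, h4, norm_one]
    have h6 : ‖(y : k)‖ ≤ 1 := mem_O.1 y.2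
    have h7 : ‖(p : k)‖ * ‖(y : k)‖ ≤ ‖(p : k)‖ * 1 := mul_le_mul_of_nonneg_left h6 (norm_nonneg _)
    linarith
  exact (CharP.charP_iff_prime_eq_zero hp.out).2 h1

end CS
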