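import Pool.Agent.Lib.CS.Basic
import Pool.Agent.Lib.DA.S1
import Pool.Agent.Lib.DA.EUa

/-!
# Module CS.ResDiv: residual division by the residual equation of `α`
-/

open Polynomial MP1a953e IsLocalRing

namespace CS
open DA (EU evH IntH)
set_option linter.unusedSectionVars false

section
variable {k : Type} {L : Type} [NormedField k] [IsUltrametricDist k] [NormedField L]
  [IsUltrametricDist L] [NormedAlgebra k L]

/-- all coefficients have norm `≤ 1` -/
private def Int0 {m : ℕ} (s : MvPolynomial (Fin m) k) : Prop := ∀ t, ‖s.coeff t‖ ≤ 1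

/-- all coefficients have norm `< 1` -/
private def Sm0 {m : ℕ} (s : MvPolynomial (Fin m) k) : Prop := ∀ t, ‖s.coeff t‖ < 1

private theorem Int0.add {m : ℕ} {s t : MvPolynomial (Fin m) k} (hs : Int0 s) (ht : Int0 t) :
    Int0 (s + t) := fun i => by
  rw [MvPolynomial.coeff_add]
  exact (IsUltrametricDist.norm_add_le_max _ _).trans (max_le (hs i) (ht i))

private theorem Int0.neg {m : ℕ} {s : MvPolynomial (Fin m) k} (hs : Int0 s) : Int0 (-s) :=
  fun i => by rw [MvPolynomial.coeff_neg, norm_neg]; exact hs i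

private theorem Int0.zero {m : ℕ} : Int0 (0 : MvPolynomial (Fin m) k) := fun i => by
  rw [MvPolynomial.coeff_zero, norm_zero]; exact zero_le_one

private theorem Int0.sum {m : ℕ} {ι : Type*} (F : Finset ι) (f : ι → MvPolynomial (Fin m) k)
    (h : ∀ i ∈ F, Int0 (f i)) : Int0 (∑ i ∈ F, f i) := by
  classical
  induction F using Finset.induction_on with
  | empty => rw [Finset.sum_empty]; exact Int0.zero
  | insert a F ha ih =>
    rw [Finset.sum_insert ha]
    exact (h a (Finset.mem_insert_self a F)).add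
      (ih fun i hi => h i (Finset.mem_insert_of_mem hi))

private theorem Int0.mul {m : ℕ} {s t : MvPolynomial (Fin m) k} (hs : Int0 s) (ht : Int0 t) :
    Int0 (s * t) := fun i => by
  classical
  rw [MvPolynomial.coeff_mul]
  refine IsUltrametricDist.norm_sum_le_of_forall_le_of_nonneg zero_le_one fun x _ => ?_
  rw [norm_mul]
  exact mul_le_one₀ (hs _) (norm_nonneg _) (ht _)

private theorem Sm0.int {m : ℕ} {s : MvPolynomial (Fin m) k} (hs : Sm0 s) : Int0 s :=
  fun i => (hs i).le

private theorem Sm0.zero {m : ℕ} : Sm0 (0 : MvPolynomial (Fin m) k) := fun i => by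
  rw [MvPolynomial.coeff_zero, norm_zero]; exact zero_lt_one

private theorem Sm0.add {m : ℕ} {s t : MvPolynomial (Fin m) k} (hs : Sm0 s) (ht : Sm0 t) :
    Sm0 (s + t) := fun i => by
  rw [MvPolynomial.coeff_add]
  exact (IsUltrametricDist.norm_add_le_max _ _).trans_lt (max_lt (hs i) (ht i))

private theorem Sm0.neg {m : ℕ} {s : MvPolynomial (Fin m) k} (hs : Sm0 s) : Sm0 (-s) :=
  fun i => by rw [MvPolynomial.coeff_neg, norm_neg]; exact hs i

private theorem Sm0.mul {m : ℕ} {s t : MvPolynomial (Fin m) k} (hs : Sm0 s) (ht : Int0 t) :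
    Sm0 (s * t) := fun i => by
  classical
  rw [MvPolynomial.coeff_mul]
  have hne : (Finset.HasAntidiagonal.antidiagonal i).Nonempty := ⟨(0, i), by simp⟩
  obtain ⟨x, hx, hx2⟩ := IsUltrametricDist.exists_norm_finsetSum_le_of_nonempty hne
    (fun x : (Fin m →₀ ℕ) × (Fin m →₀ ℕ) => s.coeff x.1 * t.coeff x.2)
  refine hx2.trans_lt ?_
  rw [norm_mul]
  exact mul_lt_one_of_nonneg_of_lt_one_left (norm_nonneg _) (hs _) (ht _)

private theorem Sm0.sum {m : ℕ} {ι : Type*} (F : Finset ι) (f : ι → MvPolynomial (Fin m) k)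
    (h : ∀ i ∈ F, Sm0 (f i)) : Sm0 (∑ i ∈ F, f i) := by
  classical
  induction F using Finset.induction_on with
  | empty => rw [Finset.sum_empty]; exact Sm0.zero
  | insert a F ha ih =>
    rw [Finset.sum_insert ha]
    exact (h a (Finset.mem_insert_self a F)).add
      (ih fun i hi => h i (Finset.mem_insert_of_mem hi))

private theorem IntH.coeff' {m : ℕ} {Q : Polynomial (MvPolynomial (Fin m) k)} (h : IntH Q)
    (i : ℕ) : Int0 (Q.coeff i) := fun s => h i s

private theorem IntH.mul' {m : ℕ} {Q R : Polynomial (MvPolynomial (Fin m) k)} (h : IntH Q)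
    (h' : IntH R) : IntH (Q * R) := by
  intro i
  rw [Polynomial.coeff_mul]
  exact Int0.sum _ _ fun x _ => (IntH.coeff' h _).mul (IntH.coeff' h' _)

private theorem IntH.add' {m : ℕ} {Q R : Polynomial (MvPolynomial (Fin m) k)} (h : IntH Q)
    (h' : IntH R) : IntH (Q + R) := by
  intro i
  rw [Polynomial.coeff_add]
  exact (IntH.coeff' h _).add (IntH.coeff' h' _)

private theorem IntH.neg' {m : ℕ} {Q : Polynomial (MvPolynomial (Fin m) k)} (h : IntH Q) :
    IntH (-Q) := by
  intro i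
  rw [Polynomial.coeff_neg]
  exact (IntH.coeff' h _).neg

private theorem IntH.C' {m : ℕ} {s : MvPolynomial (Fin m) k} (h : Int0 s) :
    IntH (C s : Polynomial (MvPolynomial (Fin m) k)) := by
  intro i
  rw [Polynomial.coeff_C]
  split_ifs
  · exact h
  · exact Int0.zero

private theorem Int0.one {m : ℕ} : Int0 (1 : MvPolynomial (Fin m) k) := by
  classical
  intro t
  rw [MvPolynomial.coeff_one]
  split_ifs
  · rw [norm_one]
  · rw [norm_zero]; exact zero_le_one

private theorem IntH.X' {m : ℕ} (n : ℕ) :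
    IntH ((X : Polynomial (MvPolynomial (Fin m) k)) ^ n) := by
  intro i
  rw [Polynomial.coeff_X_pow]
  split_ifs
  · exact Int0.one
  · exact Int0.zero

/-- `evH` as a ring homomorphism -/
private noncomputable def evR {m : ℕ} (u : Fin m → L) (α : L) :
    Polynomial (MvPolynomial (Fin m) k) →+* L :=
  Polynomial.eval₂RingHom (MvPolynomial.aeval u : MvPolynomial (Fin m) k →ₐ[k] L).toRingHom α

private theorem evR_eq {m : ℕ} (u : Fin m → L) (α : L) (H : Polynomial (MvPolynomial (Fin m) k)) :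
    evH u α H = evR u α H := by
  unfold evH evR
  rw [Polynomial.eval_map]
  rfl

private theorem norm_aeval_le {m : ℕ} {u : Fin m → L} (hu : ∀ i, ‖u i‖ ≤ 1)
    {P : MvPolynomial (Fin m) k} (hP : Int0 P) : ‖MvPolynomial.aeval u P‖ ≤ 1 := by
  rw [MvPolynomial.aeval_def, MvPolynomial.eval₂_eq]
  refine IsUltrametricDist.norm_sum_le_of_forall_le_of_nonneg zero_le_one ?_
  intro t ht
  rw [norm_mul, norm_algebraMap', norm_prod]
  have h1 : ∏ i ∈ t.support, ‖u i ^ t i‖ ≤ 1 := by
    refine Finset.prod_le_one (fun i _ => norm_nonneg _) ?_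
    intro i _
    rw [norm_pow]
    exact pow_le_one₀ (norm_nonneg _) (hu i)
  exact mul_le_one₀ (hP t) (Finset.prod_nonneg fun i _ => norm_nonneg _) h1

private theorem evR_C {m : ℕ} (u : Fin m → L) (α : L) (s : MvPolynomial (Fin m) k) :
    evR u α (C s) = MvPolynomial.aeval u s := by
  unfold evR
  rw [Polynomial.coe_eval₂RingHom, Polynomial.eval₂_C]
  rfl

private theorem evR_X {m : ℕ} (u : Fin m → L) (α : L) :
    evR (k := k) u α X = α := by
  unfold evR
  rw [Polynomial.coe_eval₂RingHom, Polynomial.eval₂_X]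

private theorem aeval_cons {m : ℕ} (u : Fin m → L) (α : L)
    (P : MvPolynomial (Fin (m + 1)) k) :
    MvPolynomial.aeval (Fin.cons α u : Fin (m + 1) → L) P =
      evR u α (MvPolynomial.finSuccEquiv k m P) := by
  induction P using MvPolynomial.induction_on with
  | C a =>
    rw [MvPolynomial.finSuccEquiv_apply, MvPolynomial.aeval_C, MvPolynomial.eval₂Hom_C]
    rw [RingHom.comp_apply, evR_C, MvPolynomial.aeval_C]
  | add p q hp hq => rw [map_add, map_add, map_add, hp, hq]
  | mul_X p i hp =>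
    rw [map_mul, map_mul, map_mul, hp, MvPolynomial.aeval_X]
    congr 1
    refine Fin.cases ?_ (fun j => ?_) i
    · rw [MvPolynomial.finSuccEquiv_X_zero, evR_X, Fin.cons_zero]
    · rw [MvPolynomial.finSuccEquiv_X_succ, evR_C, MvPolynomial.aeval_X, Fin.cons_succ]

/-- A residual equation of `α` over the polynomial ring in `u`, and division by it.  Proof.  Let
`κ = ResidueField (O k)`, `lam = ResidueField (O L)`. Polynomials over `k` with coefficients of norm `≤ 1` are polynomials
over `O k`, they have a reduction over `κ`. The residues of the `u i` are algebraically independent over `κ`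
(`EU.gauss`: the norm of `aeval u P` is the maximum of the norms of the coefficients). `hRD` for `(u, α)`
(`Fin.snoc` or `Fin.cons`; use `MvPolynomial.finSuccEquiv` to pass to polynomials over `MvPolynomial (Fin m) k`) shows that
the residue `a` of `α` is algebraic over `Q = Frac κ[X 0 .. X (m-1)]`. Let `h` be its minimal polynomial over `Q`, multiplied by a common
denominator: `h ∈ κ[X][T]`, `h ≠ 0`, `h(a) = 0`, and every `q ∈ κ[X][T]` with `q(a) = 0` is divisible by `h` over `Q`, so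
`s * q = h * q₁` with `0 ≠ s ∈ κ[X]`, `q₁ ∈ κ[X][T]`. Lift `h` to `H` (`IntH H`), and for a given `Q` (`q` its reduction)
`s, q₁` to polynomials over `O k`; all coefficients of `C s * Q - H * Q₁` have norm `< 1`; let `κ₀` be one of
largest norm (`κ₀ = 0` if all are `0`): it is `C (C κ₀) * R` with `IntH R`. A coefficient of `s` has norm one, so
`‖aeval u s‖ = 1` by `EU.gauss` (and `≤ 1` because `‖u i‖ ≤ 1`). -/
theorem exists_res_div {r m : ℕ} {e : Fin r → L} {u : Fin m → L} (hEU : EU k e u) {α : L}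
    (hα : ‖α‖ ≤ 1) (hRD : RDep k L m) :
    ∃ H : Polynomial (MvPolynomial (Fin m) k), IntH H ∧ ‖evH u α H‖ < 1 ∧
      ∀ Q : Polynomial (MvPolynomial (Fin m) k), IntH Q → ‖evH u α Q‖ < 1 →
        ∃ (s : MvPolynomial (Fin m) k) (Q₁ R : Polynomial (MvPolynomial (Fin m) k)) (κ : k),
          (∀ t, ‖s.coeff t‖ ≤ 1) ∧ ‖MvPolynomial.aeval u s‖ = 1 ∧ IntH Q₁ ∧ IntH R ∧ ‖κ‖ < 1 ∧
          C s * Q = H * Q₁ + C (MvPolynomial.C κ) * R := by
  classical
  -- a residual equation
  have hex : ∃ n : ℕ, ∃ H : Polynomial (MvPolynomial (Fin m) k), IntH H ∧ ‖evH u α H‖ < 1 ∧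
      (¬ ∀ i, Sm0 (H.coeff i)) ∧ ∀ i, n ≤ i → Sm0 (H.coeff i) := by
    obtain ⟨P, hP1, ⟨s, hs⟩, hP3⟩ := hRD (Fin.cons α u) (by
      intro i
      refine Fin.cases ?_ (fun j => ?_) i
      · rw [Fin.cons_zero]; exact hα
      · rw [Fin.cons_succ]; exact hEU.norm_u j)
    refine ⟨(MvPolynomial.finSuccEquiv k m P).natDegree + 1, MvPolynomial.finSuccEquiv k m P,
      ?_, ?_, ?_, ?_⟩
    · intro i t
      rw [MvPolynomial.finSuccEquiv_coeff_coeff]
      exact hP1 _
    · rw [evR_eq, ← aeval_cons]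
      exact hP3
    · intro h
      have h1 := h (s 0) s.tail
      rw [MvPolynomial.finSuccEquiv_coeff_coeff, Finsupp.cons_tail, hs] at h1
      exact lt_irrefl _ h1
    · intro i hi
      rw [Polynomial.coeff_eq_zero_of_natDegree_lt (by omega)]
      exact Sm0.zero
  obtain ⟨H, hH1, hH2, hH3, hH4⟩ := Nat.find_spec hex
  have hmin : ∀ n : ℕ, n < Nat.find hex → ∀ Q : Polynomial (MvPolynomial (Fin m) k), IntH Q →
      ‖evH u α Q‖ < 1 → (∀ i, n ≤ i → Sm0 (Q.coeff i)) → ∀ i, Sm0 (Q.coeff i) := by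
    intro n hn Q hQ1 hQ2 hQ3
    by_contra hcon
    exact Nat.find_min hex hn ⟨Q, hQ1, hQ2, hcon, hQ3⟩
  generalize Nat.find hex = N at hH4 hmin
  have hN : N ≠ 0 := by
    rintro rfl
    exact hH3 fun i => hH4 i (Nat.zero_le i)
  obtain ⟨d, rfl⟩ := Nat.exists_eq_succ_of_ne_zero hN
  have hHd : ¬ Sm0 (H.coeff d) := by
    intro hcon
    refine hH3 (hmin d (Nat.lt_succ_self d) H hH1 hH2 ?_)
    intro i hi
    rcases Nat.eq_or_lt_of_le hi with h | h
    · rw [← h]; exact hcon
    · exact hH4 i h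
  have hone : ∀ {s : MvPolynomial (Fin m) k}, Int0 s → ¬ Sm0 s →
      ‖MvPolynomial.aeval u s‖ = 1 := by
    intro s hs hs2
    refine le_antisymm (norm_aeval_le hEU.norm_u hs) ?_
    unfold Sm0 at hs2
    push Not at hs2
    obtain ⟨t, ht⟩ := hs2
    exact ht.trans (hEU.gauss s t)
  refine ⟨H, hH1, hH2, ?_⟩
  have key : ∀ n : ℕ, ∀ Q : Polynomial (MvPolynomial (Fin m) k), IntH Q → ‖evH u α Q‖ < 1 →
      (∀ i, n ≤ i → Sm0 (Q.coeff i)) →
      ∃ (s : MvPolynomial (Fin m) k) (Q₁ : Polynomial (MvPolynomial (Fin m) k)),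
        Int0 s ∧ ‖MvPolynomial.aeval u s‖ = 1 ∧ IntH Q₁ ∧
        ∀ i, Sm0 ((C s * Q - H * Q₁).coeff i) := by
    intro n
    induction n with
    | zero =>
      intro Q hQ1 hQ2 hQ3
      refine ⟨1, 0, Int0.one, by rw [map_one, norm_one], fun i t => ?_, fun i => ?_⟩
      · rw [Polynomial.coeff_zero, MvPolynomial.coeff_zero, norm_zero]; exact zero_le_one
      · rw [mul_zero, sub_zero, map_one, one_mul]
        exact hQ3 i (Nat.zero_le i)
    | succ n ih =>
      intro Q hQ1 hQ2 hQ3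
      by_cases hn : Sm0 (Q.coeff n)
      · refine ih Q hQ1 hQ2 fun i hi => ?_
        rcases Nat.eq_or_lt_of_le hi with h | h
        · rw [← h]; exact hn
        · exact hQ3 i h
      have hdn : d ≤ n := by
        by_contra hcon
        exact hn (hmin (n + 1) (by omega) Q hQ1 hQ2 hQ3 n)
      have hXn : IntH (C (Q.coeff n) * X ^ (n - d) : Polynomial (MvPolynomial (Fin m) k)) :=
        IntH.mul' (IntH.C' (IntH.coeff' hQ1 n)) (IntH.X' _)
      have hQ' : IntH (C (H.coeff d) * Q - H * (C (Q.coeff n) * X ^ (n - d))) := by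
        rw [sub_eq_add_neg]
        exact IntH.add' (IntH.mul' (IntH.C' (IntH.coeff' hH1 d)) hQ1)
          (IntH.neg' (IntH.mul' hH1 hXn))
      have hQ'2 : ‖evH u α (C (H.coeff d) * Q - H * (C (Q.coeff n) * X ^ (n - d)))‖ < 1 := by
        rw [evR_eq] at hQ2 hH2 ⊢
        rw [map_sub, map_mul, map_mul, evR_C, map_mul, evR_C, map_pow, evR_X]
        rw [sub_eq_add_neg]
        refine (IsUltrametricDist.norm_add_le_max _ _).trans_lt (max_lt ?_ ?_)
        · rw [norm_mul, mul_comm]
          exact mul_lt_one_of_nonneg_of_lt_one_left (norm_nonneg _) hQ2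
            (norm_aeval_le hEU.norm_u (IntH.coeff' hH1 d))
        · rw [norm_neg, norm_mul]
          refine mul_lt_one_of_nonneg_of_lt_one_left (norm_nonneg _) hH2 ?_
          rw [norm_mul, norm_pow]
          exact mul_le_one₀ (norm_aeval_le hEU.norm_u (IntH.coeff' hQ1 n))
            (pow_nonneg (norm_nonneg _) _) (pow_le_one₀ (norm_nonneg _) hα)
      have hcoef : ∀ i, n ≤ i → (C (H.coeff d) * Q - H * (C (Q.coeff n) * X ^ (n - d))).coeff i =
          H.coeff d * Q.coeff i - H.coeff (i - (n - d)) * Q.coeff n := by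
        intro i hi
        rw [Polynomial.coeff_sub, Polynomial.coeff_C_mul, ← mul_assoc, Polynomial.coeff_mul_X_pow',
          if_pos (by omega), Polynomial.coeff_mul_C]
      obtain ⟨s, Q₁, hs1, hs2, hQ₁, hs3⟩ := ih _ hQ' hQ'2 (by
        intro i hi
        rw [hcoef i hi]
        rcases Nat.eq_or_lt_of_le hi with h | h
        · rw [← h]
          have h1 : n - (n - d) = d := by omega
          rw [h1, sub_self]
          exact Sm0.zero
        · rw [sub_eq_add_neg]
          refine Sm0.add ?_ (Sm0.neg ?_)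
          · rw [mul_comm]
            exact (hQ3 i h).mul (IntH.coeff' hH1 d)
          · exact (hH4 _ (by omega)).mul (IntH.coeff' hQ1 n))
      refine ⟨s * H.coeff d, Q₁ + C s * (C (Q.coeff n) * X ^ (n - d)),
        hs1.mul (IntH.coeff' hH1 d), ?_, IntH.add' hQ₁ (IntH.mul' (IntH.C' hs1) hXn), ?_⟩
      · rw [map_mul, norm_mul, hs2, hone (IntH.coeff' hH1 d) hHd, one_mul]
      · intro i
        have h1 : C (s * H.coeff d) * Q - H * (Q₁ + C s * (C (Q.coeff n) * X ^ (n - d))) =
            C s * (C (H.coeff d) * Q - H * (C (Q.coeff n) * X ^ (n - d))) - H * Q₁ := by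
          rw [C_mul]
          ring
        rw [h1]
        exact hs3 i
  intro Q hQ1 hQ2
  obtain ⟨s, Q₁, hs1, hs2, hQ₁, hs3⟩ := key (Q.natDegree + 1) Q hQ1 hQ2 (by
    intro i hi
    rw [Polynomial.coeff_eq_zero_of_natDegree_lt (by omega)]
    exact Sm0.zero)
  obtain ⟨D, hD⟩ : ∃ D, D = C s * Q - H * Q₁ := ⟨_, rfl⟩
  have hDeq : C s * Q = H * Q₁ + D := by rw [hD, add_sub_cancel]
  rw [← hD] at hs3
  rcases eq_or_ne D 0 with hD0 | hD0
  · refine ⟨s, Q₁, 0, 0, hs1, hs2, hQ₁, fun i t => ?_, ?_, ?_⟩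
    · rw [Polynomial.coeff_zero, MvPolynomial.coeff_zero, norm_zero]; exact zero_le_one
    · rw [norm_zero]; exact zero_lt_one
    · rw [hDeq, hD0, mul_zero]
  -- the coefficient of largest norm
  obtain ⟨F, hF⟩ : ∃ F : Finset (ℕ × (Fin m →₀ ℕ)),
    F = D.support.biUnion fun i => (D.coeff i).support.image fun t => (i, t) := ⟨_, rfl⟩
  have hmem : ∀ i t, (D.coeff i).coeff t ≠ 0 → (i, t) ∈ F := by
    intro i t hit
    rw [hF, Finset.mem_biUnion]
    refine ⟨i, ?_, Finset.mem_image.2 ⟨t, MvPolynomial.mem_support_iff.2 hit, rfl⟩⟩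
    rw [Polynomial.mem_support_iff]
    intro h
    rw [h, MvPolynomial.coeff_zero] at hit
    exact hit rfl
  have hFne : F.Nonempty := by
    obtain ⟨i, hi⟩ := Polynomial.support_nonempty.2 hD0
    obtain ⟨t, ht⟩ := MvPolynomial.support_nonempty.2 (Polynomial.mem_support_iff.1 hi)
    exact ⟨(i, t), hmem i t (MvPolynomial.mem_support_iff.1 ht)⟩
  obtain ⟨x, hx, hmax⟩ := Finset.exists_max_image F (fun x => ‖(D.coeff x.1).coeff x.2‖) hFne
  have hsx := hs3 x.1 x.2
  obtain ⟨κ, hκ⟩ : ∃ κ : k, κ = (D.coeff x.1).coeff x.2 := ⟨_, rfl⟩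
  rw [← hκ] at hsx hmax
  have hle : ∀ i t, ‖(D.coeff i).coeff t‖ ≤ ‖κ‖ := by
    intro i t
    rcases eq_or_ne ((D.coeff i).coeff t) 0 with h | h
    · rw [h, norm_zero]; exact norm_nonneg _
    · exact hmax _ (hmem i t h)
  have hκ0 : κ ≠ 0 := by
    intro h
    refine hD0 (Polynomial.ext fun i => MvPolynomial.ext _ _ fun t => ?_)
    rw [Polynomial.coeff_zero, MvPolynomial.coeff_zero]
    have := hle i t
    rw [h, norm_zero] at this
    exact norm_le_zero_iff.1 this
  refine ⟨s, Q₁, C (MvPolynomial.C κ⁻¹) * D, κ, hs1, hs2, hQ₁, fun i t => ?_, hsx, ?_⟩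
  · rw [Polynomial.coeff_C_mul, MvPolynomial.coeff_C_mul, norm_mul, norm_inv]
    rw [inv_mul_le_iff₀ (norm_pos_iff.2 hκ0), mul_one]
    exact hle i t
  · rw [← mul_assoc, ← C_mul, ← MvPolynomial.C_mul, mul_inv_cancel₀ hκ0, map_one, map_one, one_mul]
    exact hDeq

end

end CS
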