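import Pool.Agent.Lib.CS.UnrV
import Pool.Agent.Lib.CS.AlgU
import Pool.Agent.Lib.CS.PolyE
import Pool.Agent.Lib.DA.E3

/-!
# Module CS.SmoothV: charts are smooth over the semistable model
-/

open Polynomial MP1a953e IsLocalRing

namespace CS
open Pool.Agent.Lib.MP_3029eb_ag Pool.Agent.Lib.MP_3029eb_ag.Abh

/-- localization at one more element of an etale algebra -/
private theorem sv_loc {P B B' : Type*} [CommRing P] [CommRing B] [CommRing B'] [Algebra P B]
    [Algebra B B'] [Algebra P B'] [IsScalarTower P B B'] (b β : B)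
    [IsLocalization.Away (b * β) B'] (het : Algebra.Etale P (Localization.Away b)) :
    Algebra.Smooth P B' := by
  let S := Localization.Away b
  let T := Localization.Away (algebraMap B S β)
  have hT : IsLocalization.Away (b * β) T := inferInstance
  have h1 : Algebra.Smooth P S := inferInstance
  have h2 : Algebra.Smooth S T := Algebra.Smooth.of_isLocalization_Away (algebraMap B S β)
  have h3 : Algebra.Smooth P T := Algebra.Smooth.comp P S T
  have e : T ≃ₐ[B] B' := IsLocalization.algEquiv (Submonoid.powers (b * β)) T B'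
  exact Algebra.Smooth.of_equiv (e.restrictScalars P)


section aux

variable {k L : Type*} [NontriviallyNormedField k] [IsUltrametricDist k] [NormedField L]
  [IsUltrametricDist L] [NormedAlgebra k L]

/-- `B[1/w]` inside the field -/
private theorem sv_away {B : Subalgebra (O k) L} {w : L} (hw : w ∈ B) (hw0 : w ≠ 0)
    (hle : B ≤ Algebra.adjoin (O k) ((B : Set L) ∪ {w⁻¹})) :
    letI := (Subalgebra.inclusion hle).toRingHom.toAlgebra
    IsLocalization.Away (⟨w, hw⟩ : B) ↥(Algebra.adjoin (O k) ((B : Set L) ∪ {w⁻¹})) := by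
  letI := (Subalgebra.inclusion hle).toRingHom.toAlgebra
  have hcoe : ∀ x : B, ((algebraMap B ↥(Algebra.adjoin (O k) ((B : Set L) ∪ {w⁻¹})) x :
      ↥(Algebra.adjoin (O k) ((B : Set L) ∪ {w⁻¹}))) : L) = (x : L) := fun _ => rfl
  have hwi : w⁻¹ ∈ Algebra.adjoin (O k) ((B : Set L) ∪ {w⁻¹}) :=
    Algebra.subset_adjoin (Or.inr rfl)
  have hpow : ∀ x ∈ Algebra.adjoin (O k) ((B : Set L) ∪ {w⁻¹}), ∃ n : ℕ, x * w ^ n ∈ B := by
    intro x hx
    induction hx using Algebra.adjoin_induction with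
    | mem x hx =>
      rcases hx with hx | hx
      · exact ⟨0, by rw [pow_zero, mul_one]; exact hx⟩
      · rw [Set.mem_singleton_iff] at hx
        exact ⟨1, by rw [hx, pow_one, inv_mul_cancel₀ hw0]; exact one_mem _⟩
    | algebraMap a => exact ⟨0, by rw [pow_zero, mul_one]; exact B.algebraMap_mem a⟩
    | add x y _ _ hx hy =>
      obtain ⟨i, hi⟩ := hx
      obtain ⟨j, hj⟩ := hy
      refine ⟨i + j, ?_⟩
      have e : (x + y) * w ^ (i + j) = (x * w ^ i) * w ^ j + (y * w ^ j) * w ^ i := by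
        rw [pow_add]
        ring
      rw [e]
      exact add_mem (mul_mem hi (pow_mem hw _)) (mul_mem hj (pow_mem hw _))
    | mul x y _ _ hx hy =>
      obtain ⟨i, hi⟩ := hx
      obtain ⟨j, hj⟩ := hy
      refine ⟨i + j, ?_⟩
      have e : (x * y) * w ^ (i + j) = (x * w ^ i) * (y * w ^ j) := by
        rw [pow_add]
        ring
      rw [e]
      exact mul_mem hi hj
  refine ⟨?_, ?_, ?_⟩
  · rintro ⟨_, n, rfl⟩
    refine IsUnit.of_mul_eq_one (⟨w⁻¹, hwi⟩ ^ n) ?_
    refine Subtype.ext ?_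
    change (w ^ n) * (w⁻¹) ^ n = 1
    rw [← mul_pow, mul_inv_cancel₀ hw0, one_pow]
  · intro z
    obtain ⟨n, hn⟩ := hpow z z.2
    refine ⟨(⟨_, hn⟩, ⟨⟨w, hw⟩ ^ n, n, rfl⟩), ?_⟩
    refine Subtype.ext ?_
    rfl
  · intro x y hxy
    refine ⟨1, ?_⟩
    have h1 : (x : L) = (y : L) := congrArg
      (fun z : ↥(Algebra.adjoin (O k) ((B : Set L) ∪ {w⁻¹})) => (z : L)) hxy
    rw [Subtype.ext h1]

private theorem sv_PB {P B : Subalgebra (O k) L} (h : P ≤ B) (b : B) {β : L} (hβ : β ∈ B)
    (hw0 : (b : L) * β ≠ 0)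
    (hle : B ≤ Algebra.adjoin (O k) ((B : Set L) ∪ {((b : L) * β)⁻¹}))
    (het : letI := (Subalgebra.inclusion h).toRingHom.toAlgebra
      Algebra.Etale ↥P (Localization.Away b)) :
    RingHom.Smooth (R := ↥P) (S := ↥(Algebra.adjoin (O k) ((B : Set L) ∪ {((b : L) * β)⁻¹})))
      (Subalgebra.inclusion (h.trans hle)).toRingHom := by
  letI i0 : Algebra ↥P ↥B := (Subalgebra.inclusion h).toRingHom.toAlgebra
  letI i1 : Algebra ↥B ↥(Algebra.adjoin (O k) ((B : Set L) ∪ {((b : L) * β)⁻¹})) :=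
    (Subalgebra.inclusion hle).toRingHom.toAlgebra
  letI i2 : Algebra ↥P ↥(Algebra.adjoin (O k) ((B : Set L) ∪ {((b : L) * β)⁻¹})) :=
    (Subalgebra.inclusion (h.trans hle)).toRingHom.toAlgebra
  haveI : IsScalarTower ↥P ↥B
      ↥(Algebra.adjoin (O k) ((B : Set L) ∪ {((b : L) * β)⁻¹})) :=
    IsScalarTower.of_algebraMap_eq fun _ => rfl
  haveI : IsLocalization.Away (b * ⟨β, hβ⟩ : ↥B)
      ↥(Algebra.adjoin (O k) ((B : Set L) ∪ {((b : L) * β)⁻¹})) :=
    sv_away (mul_mem b.2 hβ) hw0 hle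
  exact sv_loc b ⟨β, hβ⟩ het

private theorem sv_TP {T P : Subalgebra (O k) L} (h : T ≤ P) {n : ℕ}
    (θ : MvPolynomial (Fin n) ↥T ≃+* ↥P)
    (hθ : ∀ x : T, ((θ (MvPolynomial.C x) : P) : L) = (x : L)) :
    RingHom.Smooth (R := ↥T) (S := ↥P) (Subalgebra.inclusion h).toRingHom := by
  have h1 : RingHom.Smooth (R := ↥T) (S := MvPolynomial (Fin n) ↥T) MvPolynomial.C :=
    RingHom.smooth_algebraMap.2 ⟨inferInstance, inferInstance⟩
  have h2 : RingHom.Smooth (R := MvPolynomial (Fin n) ↥T) (S := ↥P) θ.toRingHom :=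
    RingHom.Smooth.of_bijective (R := MvPolynomial (Fin n) ↥T)
      (S := ↥P) (f := θ.toRingHom) θ.bijective
  have h3 : (Subalgebra.inclusion h).toRingHom = θ.toRingHom.comp
      (MvPolynomial.C : ↥T →+* MvPolynomial (Fin n) ↥T) := by
    ext x
    exact (hθ x).symm
  rw [h3]
  exact h1.comp h2

private theorem sv_comp {T P B' : Subalgebra (O k) L} (h1 : T ≤ P) (h2 : P ≤ B') {r : ℕ}
    {ϖ : O k} (ψ : DA.SSr r ϖ ≃ₐ[O k] ↥T)
    (hPB : RingHom.Smooth (R := ↥P) (S := ↥B') (Subalgebra.inclusion h2).toRingHom)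
    (hTP : RingHom.Smooth (R := ↥T) (S := ↥P) (Subalgebra.inclusion h1).toRingHom) :
    DA.IsSm B' ((Subalgebra.inclusion (h1.trans h2)).comp ψ.toAlgHom) := by
  have hψs : RingHom.Smooth (R := DA.SSr r ϖ) (S := ↥T) ψ.toAlgHom.toRingHom :=
    RingHom.Smooth.of_bijective (R := DA.SSr r ϖ) (S := ↥T)
      (f := ψ.toAlgHom.toRingHom) ψ.bijective
  have hfin := (hψs.comp hTP).comp hPB
  have e : ((Subalgebra.inclusion (h1.trans h2)).comp ψ.toAlgHom).toRingHom =
      ((Subalgebra.inclusion h2).toRingHom.comp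
        ((Subalgebra.inclusion h1).toRingHom.comp ψ.toAlgHom.toRingHom)) := by
    ext x <;> rfl
  unfold DA.IsSm
  rw [e]
  exact hfin


/-- the elements of `L` are algebraic over `P` -/
private theorem sv_algL {P B : Subalgebra (O k) L} (hle : P ≤ B)
    (halg : letI := (Subalgebra.inclusion hle).toRingHom.toAlgebra
      Algebra.IsAlgebraic ↥P ↥B)
    (hfrac : ∀ x : L, ∃ a ∈ B, ∃ b ∈ B, b ≠ 0 ∧ x = a / b) (x : L) :
    IsAlgebraic ↥P x := by
  letI : Algebra ↥P ↥B := (Subalgebra.inclusion hle).toRingHom.toAlgebra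
  haveI : IsScalarTower ↥P ↥B L := IsScalarTower.of_algebraMap_eq fun _ => rfl
  have h1 : ∀ b ∈ B, IsAlgebraic ↥P b := fun b hb =>
    (halg.isAlgebraic (⟨b, hb⟩ : ↥B)).algebraMap (A := L)
  obtain ⟨a, ha, b, hb, -, rfl⟩ := hfrac x
  rw [div_eq_mul_inv]
  exact (h1 a ha).mul (IsAlgebraic.inv_iff.2 (h1 b hb))

/-- the ring generated by the coordinates is contained in the field `k(e, v)` -/
private theorem sv_BG_le {d N : ℕ} (e : Fin d → L) (c : Fin d → k) (π : k) (v : Fin N → L)
    {y : L} (hy : y ∈ DA.BG k e c π (Set.range v)) :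
    y ∈ IntermediateField.adjoin k (Set.range (Fin.append e v)) := by
  set K := IntermediateField.adjoin k (Set.range (Fin.append e v)) with hK
  have hE : ∀ i, e i ∈ K := fun i =>
    IntermediateField.subset_adjoin k _ ⟨Fin.castAdd N i, Fin.append_left _ _ _⟩
  have hV : ∀ j, v j ∈ K := fun j =>
    IntermediateField.subset_adjoin k _ ⟨Fin.natAdd d j, Fin.append_right _ _ _⟩
  unfold DA.BG at hy
  induction hy using Algebra.adjoin_induction with
  | mem y hy =>
    rcases hy with ⟨i, rfl⟩ | ⟨j, rfl⟩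
    · refine Fin.cases ?_ (fun j => ?_) i
      · simp only [DA.tor, Fin.cons_zero]
        exact mul_mem (K.algebraMap_mem _) (prod_mem fun i _ =>
          div_mem (K.algebraMap_mem _) (hE i))
      · simp only [DA.tor, Fin.cons_succ]
        exact div_mem (hE j) (K.algebraMap_mem _)
    · exact hV j
  | algebraMap a => exact K.algebraMap_mem (a : k)
  | add y z _ _ hy hz => exact add_mem hy hz
  | mul y z _ _ hy hz => exact mul_mem hy hz

open scoped IntermediateField.algebraAdjoinAdjoin in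
private theorem sv_alg {d N : ℕ} {e : Fin d → L} {c : Fin d → k} {π : k} {v : Fin N → L}
    (halg : ∀ x : L, IsAlgebraic ↥(DA.BG k e c π (Set.range v)) x) :
    Algebra.IsAlgebraic ↥(Algebra.adjoin k (Set.range (Fin.append e v))) L := by
  letI : Algebra ↥(DA.BG k e c π (Set.range v))
      ↥(IntermediateField.adjoin k (Set.range (Fin.append e v))) :=
    (((DA.BG k e c π (Set.range v)).val.toRingHom).codRestrict
      (IntermediateField.adjoin k (Set.range (Fin.append e v))).toSubalgebra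
      (fun y => sv_BG_le e c π v y.2)).toAlgebra
  haveI : IsScalarTower ↥(DA.BG k e c π (Set.range v))
      ↥(IntermediateField.adjoin k (Set.range (Fin.append e v))) L :=
    IsScalarTower.of_algebraMap_eq fun _ => rfl
  have hinj : Function.Injective (algebraMap ↥(DA.BG k e c π (Set.range v))
      ↥(IntermediateField.adjoin k (Set.range (Fin.append e v)))) := by
    intro a b hab
    have h1 := congrArg (algebraMap ↥(IntermediateField.adjoin k (Set.range (Fin.append e v))) L) hab
    rw [← IsScalarTower.algebraMap_apply, ← IsScalarTower.algebraMap_apply] at h1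
    exact Subtype.ext h1
  haveI : Algebra.IsAlgebraic ↥(Algebra.adjoin k (Set.range (Fin.append e v)))
      ↥(IntermediateField.adjoin k (Set.range (Fin.append e v))) :=
    IsLocalization.isAlgebraic _
      (nonZeroDivisors ↥(Algebra.adjoin k (Set.range (Fin.append e v))))
  refine ⟨fun x => ?_⟩
  have h1 : IsAlgebraic ↥(IntermediateField.adjoin k (Set.range (Fin.append e v))) x :=
    (halg x).extendScalars hinj
  exact h1.restrictScalars _

end aux

private theorem sv_val {k L : Type*} [NontriviallyNormedField k] [IsUltrametricDist k]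
    [NormedField L] [IsUltrametricDist L] [NormedAlgebra k L] {T B' : Subalgebra (O k) L}
    (h : T ≤ B') {r : ℕ} {ϖ : O k} (ψ : DA.SSr r ϖ ≃ₐ[O k] ↥T) (x : DA.SSr r ϖ) :
    ((((Subalgebra.inclusion h).comp ψ.toAlgHom) x : B') : L) = ((ψ x : T) : L) := rfl


private theorem sv_etale {k : Type} {L : Type} [NontriviallyNormedField k]
    [IsUltrametricDist k] [NormedField L] [IsUltrametricDist L] [NormedAlgebra k L]
    {V : ValuationSubring L} {d N : ℕ} {e : Fin d → L} {c : Fin d → k} {π : k}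
    {v : Fin N → L} {B : Subalgebra (O k) L} (h : VCht V e c π v B)
    [IsIntegrallyClosed ↥(DA.BG k e c π (Set.range v))]
    (halg : letI := (Subalgebra.inclusion h.le).toRingHom.toAlgebra
      Algebra.IsAlgebraic ↥(DA.BG k e c π (Set.range v)) ↥B) :
    ∃ b : B, V.valuation (b : L) = 1 ∧
      letI := (Subalgebra.inclusion h.le).toRingHom.toAlgebra
      Algebra.Etale ↥(DA.BG k e c π (Set.range v)) (Localization.Away b) := by
  obtain ⟨q, hq, hqp, hft, hunr⟩ := unramified_of_vcht h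
  letI iPB : Algebra ↥(DA.BG k e c π (Set.range v)) ↥B :=
    (Subalgebra.inclusion h.le).toRingHom.toAlgebra
  haveI : FaithfulSMul ↥(DA.BG k e c π (Set.range v)) ↥B := by
    rw [faithfulSMul_iff_algebraMap_injective]
    exact Subalgebra.inclusion_injective h.le
  haveI := hft
  haveI := hqp
  haveI := halg
  obtain ⟨b, hbq, het⟩ := DA.exists_etale q hunr
  have hb1 : V.valuation (b : L) = 1 := by
    refine le_antisymm ((V.valuation_le_one_iff _).2 (h.mem _ b.2))
      (not_lt.1 fun hlt => hbq ((hq b).2 hlt))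
  exact ⟨b, hb1, het⟩

section
variable {k : Type} {L : Type} [NontriviallyNormedField k] [IsUltrametricDist k] [NormedField L]
  [IsUltrametricDist L] [NormedAlgebra k L] {V : ValuationSubring L}

/-- Proof.  `P = BG k e c π (range v)`. `unramified_of_vcht` and `isAlgebraic_of_unramifiedAt`: `B` is algebraic over `P`, so
`L` is algebraic over the field `k(e, v)` (`hfrac`; `P ≤ k(e, v)`). A transcendence basis of `L / k` can be chosen among the
`d + N` elements `Fin.append e v`; as the transcendence degree is `n ≥ d + N`, they are algebraically independent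
(Mathlib: `exists_isTranscendenceBasis_subset` or similar for a set over which `L` is algebraic; a subset of the range of
cardinality `≥ d + N` is the range, and the family is injective). -/
theorem algInd_of_vcht {d N n : ℕ} {e : Fin d → L} {c : Fin d → k} {π : k} {v : Fin N → L}
    {B : Subalgebra (O k) L} (h : VCht V e c π v B)
    (hfrac : ∀ x : L, ∃ a ∈ B, ∃ b ∈ B, b ≠ 0 ∧ x = a / b)
    (hn : Algebra.trdeg k L = ((n : ℕ) : Cardinal)) (hdN : d + N ≤ n) :
    AlgebraicIndependent k (Fin.append e v) ∧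
      letI := (Subalgebra.inclusion h.le).toRingHom.toAlgebra
      Algebra.IsAlgebraic ↥(DA.BG k e c π (Set.range v)) ↥B := by
  classical
  letI iPB : Algebra ↥(DA.BG k e c π (Set.range v)) ↥B :=
    (Subalgebra.inclusion h.le).toRingHom.toAlgebra
  obtain ⟨q, hq, hqp, hft, hunr⟩ := unramified_of_vcht h
  haveI : FaithfulSMul ↥(DA.BG k e c π (Set.range v)) ↥B := by
    rw [faithfulSMul_iff_algebraMap_injective]
    exact Subalgebra.inclusion_injective h.le
  haveI := hft
  haveI := hqp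
  have halg : Algebra.IsAlgebraic ↥(DA.BG k e c π (Set.range v)) ↥B :=
    isAlgebraic_of_unramifiedAt q hunr
  refine ⟨?_, halg⟩
  haveI := sv_alg (sv_algL h.le halg hfrac)
  refine (Algebra.IsAlgebraic.isTranscendenceBasis_of_le_trdeg_of_finite k
    (Fin.append e v) ?_).1
  rw [hn, Cardinal.mk_fin]
  exact_mod_cast hdN

/-- Proof.  As `DA.smooth_of_cht` (Pool/Agent/Lib/DA/E3.lean), with `V.valuation` instead of the norm. `‖π‖ < 1` because
`π = ∏ tor i` (`DA.prod_tor`) has value `< 1` (`hV.const_lt_iff`; `h.lt`). `P = BG k e c π (range v)` is integrally closed: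
`algInd_of_vcht`, `isIntegrallyClosed_BG`. `unramified_of_vcht`, `algInd_of_vcht` and
`DA.exists_etale` give `b ∈ B` of value one with `B[1/b]` etale over `P`; the rest is as in E3 with `exists_ss_equiv'` and
`exists_bg_equiv`. -/
theorem smooth_of_vcht (hV : OvR k V) {d N n : ℕ} {e : Fin d → L} {c : Fin d → k} {π : k}
    {v : Fin N → L} {B : Subalgebra (O k) L} (h : VCht V e c π v B)
    (hfrac : ∀ x : L, ∃ a ∈ B, ∃ b ∈ B, b ≠ 0 ∧ x = a / b)
    (hn : Algebra.trdeg k L = ((n : ℕ) : Cardinal)) (hdN : d + N ≤ n) {ϖ : O k}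
    (hϖ : (ϖ : k) = π) :
    ∃ b ∈ B, V.valuation b = 1 ∧ ∀ β ∈ B, V.valuation β = 1 →
      ∃ φ : DA.SSr d ϖ →ₐ[O k] ↥(Algebra.adjoin (O k) ((B : Set L) ∪ {(b * β)⁻¹})),
        (∀ i, (φ (DA.SSr.x i) : L) = DA.tor k e c π i) ∧ DA.IsSm _ φ := by
  classical
  obtain ⟨hai, halg⟩ := algInd_of_vcht h hfrac hn hdN
  have hai1 : AlgebraicIndependent k e := by
    have h1 := hai.comp (Fin.castAdd N) (Fin.castAdd_injective d N)
    have h2 : Fin.append e v ∘ Fin.castAdd N = e := by
      funext i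
      exact Fin.append_left _ _ _
    rwa [h2] at h1
  have hπ1 : ‖π‖ < 1 := by
    rw [← hV.const_lt_iff (V := V), ← DA.prod_tor h.ne h.c_ne π, map_prod,
      Fin.prod_univ_succ]
    have h2 : ∏ i : Fin d, V.valuation (DA.tor k e c π i.succ) ≤ 1 :=
      Finset.prod_le_one' fun i _ => (h.lt _).le
    calc V.valuation (DA.tor k e c π 0) * ∏ i : Fin d, V.valuation (DA.tor k e c π i.succ)
        ≤ V.valuation (DA.tor k e c π 0) * 1 := mul_le_mul_right h2 _
      _ < 1 := by rw [mul_one]; exact h.lt 0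
  haveI := isIntegrallyClosed_BG hai h.c_ne h.π_ne hπ1
  obtain ⟨b, hb1, het⟩ := sv_etale h halg
  refine ⟨b, b.2, hb1, fun β hβ hβ1 => ?_⟩
  have hw0 : (b : L) * β ≠ 0 := by
    refine ne_zero_of_val (V := V) ?_
    rw [map_mul, hb1, hβ1, one_mul]
  have hle : B ≤ Algebra.adjoin (O k) ((B : Set L) ∪ {((b : L) * β)⁻¹}) := fun x hx =>
    Algebra.subset_adjoin (Or.inl hx)
  have hTP : DA.Tt k e c π ≤ DA.BG k e c π (Set.range v) :=
    Algebra.adjoin_mono Set.subset_union_left
  obtain ⟨ψ, hψ⟩ := exists_ss_equiv' hai1 h.c_ne h.π_ne hϖ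
  obtain ⟨θ, hθ⟩ := exists_bg_equiv hai c π
  refine ⟨(Subalgebra.inclusion (hTP.trans (h.le.trans hle))).comp ψ.toAlgHom, fun i => ?_, ?_⟩
  · exact (sv_val _ ψ _).trans (hψ i)
  exact sv_comp hTP (h.le.trans hle) ψ (sv_PB h.le b hβ hw0 hle het) (sv_TP hTP θ hθ)

end

end CS
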