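import Pool.Agent.Lib.CS.Fine
import Pool.Agent.Lib.CS.Dec

/-!
# Module CS.Step1: the last step of the composition

NOTATION AND PROOF (compare `TC.E5_final3`, Pool/Agent/Lib/TC/E5.lean).
For `w ∈ W` choose `ε w ∈ A₂`, `β w` with `‖w - ε w * monN u (β w)‖ < 1`; let `M` be larger than all `β w j`,
`Pu = ∏ j, u j`, so `Pu ^ M = monN u γ * monN u (M - γ)` for `γ ≤ M`. `δ w = w - ε w * monN u (β w) ∈ A₂` has norm `< 1`, so
`δ w = κ w * b w + s w`, `‖κ w‖ < 1`, `b w ∈ A₂`, `s w ∈ span A₂ (range zs)` (`hP1`, `mem_SP_iff`). Similarly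
`b₂ * zs l = κ' l * b' l + s' l`, `s' l ∈ span A₂ (monS e X ∪ range p)`.
Let `T` be the finite set of the following exponents and constants for `e' = Fin.append e u` (all monomials have norm
`< 1` because `‖u j‖ = 1`; use `mon_append`):  `κ w / Pu ^ M`;  `κ' l / Pu ^ (2 * M)`;  `mon e t / Pu ^ (2 * M)`, `t ∈ X`;
`mon e z_f c_f / Pu ^ M` for the `f ∈ Ls` whose monomial `mon e z_f c_f` has norm `< 1`.
`exists_fineV` gives `c, π`; `tor = DA.tor k e' c π`, `C = closure (cS ∪ range tor)`.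
`y j = p j / Pu ^ (2 * M)`, `Gz = {zs l / Pu ^ M}`,
`A₃ = locV V (closure (A₂ ∪ (range tor ∪ range y ∪ Gz)))`. Let `Y` be the set of the elements of norm `< 1` of
`range tor ∪ range y ∪ Gz`; the others are some `u j ∈ A₂`, so `closure (A₂ ∪ (range tor ∪ ...)) = closure (A₂ ∪ Y)`.
`I = SP k A₃ (range tor ∪ range y)`; all its elements have `V`-value `< 1` and are in `A₃`; every monomial in `T` is in `I`
(`SP_mono`).
(A) For `w ∈ W`: `w = ε' * monN u (β w)` with `ε' ∈ A₃`, `V.valuation ε' = 1`: `ε' = ε w + δ w / monN u (β w)`, and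
`δ w / monN u (β w) = ((κ w / Pu ^ M) * b w + s w / Pu ^ M) * monN u (M - β w)` is in `A₃` (`s w / Pu ^ M` is in the
`A₃`-span of `Gz`), of norm `< 1`.
(B) `zs l / Pu ^ M ∈ I`: it is `(b₂ * zs l / Pu ^ (2 * M)) * (monN u (M - β b₂) * ε'⁻¹)` with
`b₂ = ε' * monN u (β b₂)`, and `b₂ * zs l / Pu ^ (2 * M) = (κ' l / Pu ^ (2 * M)) * b' l + s' l / Pu ^ (2 * M) ∈ I`
(`p j / Pu ^ (2 * M) = y j`).
(C) `gen`: `z ∈ A₃`, `V.valuation z < 1`. `dec_span`: `z = a + s`, `s ∈ span A₃ Y ⊆ I` (by (B) and `tor`, `y`), `a ∈ A₂`,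
`V.valuation a < 1`; by `hgen` `a = ∑ c j * u j + ∑ d j * q j + a'`, `a' ∈ A₂`, `‖a'‖ < 1`, so
`a' ∈ SP k A₂ (range zs) ⊆ I` (`zs l = Pu ^ M * (zs l / Pu ^ M)`), and `u j ∈ range tor`.
(D) `ind`: if `mon e' z a` has `V`-value one, its norm is one, so by `mon_append'` and `hind` (`mon_ind`) the first
part of `z` is `0` and `‖a‖ = 1`, so `V.valuation (mon u (second part)) = 1` and `hui.indep` applies
(`OvR.const_val_one`).
(E) `f ∈ Ls`: `f * w₂ = w₁ * μ`, `μ = mon e z c`, `w i = ε i * monN u (β i)` by (A). So `f` is a monomial in `e'` times the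
unit `ε 1 / ε 2` (`MU`). If `‖μ‖ < 1`: `f = (ε 1 / ε 2) * monN u (β 1) * (μ / Pu ^ M) * monN u (M - β 2) ∈ A₃`. Otherwise
`‖μ‖ = 1` (`‖f‖ ≤ 1`, `‖w 1‖ = ‖w 2‖ = 1` by (A)), so `z = 0`, `‖c‖ = 1`, and `V.valuation (monN u (γ + β 2)) =
V.valuation (monN u (β 1))`, so `γ + β 2 = β 1` (`E5_monN_inj`), `f = (ε 1 / ε 2) * c * monN u γ ∈ A₃`.
-/

open Polynomial MP1a953e IsLocalRing

namespace CS
set_option linter.unusedSectionVars false
open Pool.Agent.Lib.MP_3029eb_ag Pool.Agent.Lib.MP_3029eb_ag.Abh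

section
variable {k : Type} {L : Type} [NormedField k] [IsUltrametricDist k] [NormedField L]
  [IsUltrametricDist L] [NormedAlgebra k L] {V : ValuationSubring L}

private theorem S1_monN_const {r : ℕ} (u : Fin r → L) (N : ℕ) :
    monN u (fun _ => N) = (∏ j, u j) ^ N := by
  unfold monN
  rw [Finset.prod_pow]

private theorem S1_monN_split {r : ℕ} (u : Fin r → L) (γ : Fin r → ℕ) (N : ℕ)
    (h : ∀ j, γ j ≤ N) : (∏ j, u j) ^ N = monN u γ * monN u (fun j => N - γ j) := by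
  rw [← E0_monN_add, ← Finset.prod_pow]
  unfold monN
  refine Finset.prod_congr rfl fun j _ => ?_
  rw [Pi.add_apply]
  congr 1
  have := h j
  omega

private theorem S1_mon_div {r s : ℕ} (e : Fin r → L) (u : Fin s → L) (z : Fin r → ℤ) (c : k)
    (N : ℕ) : DA.mon k (Fin.append e u) (Fin.append z (fun _ => -(N : ℤ))) c =
      DA.mon k e z c / (∏ j, u j) ^ N := by
  rw [mon_append, div_eq_mul_inv]
  congr 1
  rw [← Finset.prod_pow, ← Finset.prod_inv_distrib]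
  refine Finset.prod_congr rfl fun j _ => ?_
  rw [zpow_neg, zpow_natCast]

private theorem S1_MU_monN {B : Subring L} {r s : ℕ} (e : Fin r → L) (u : Fin s → L)
    (γ : Fin s → ℕ) : MU k V B (Fin.append e u) (monN u γ) := by
  refine ⟨Fin.append 0 (fun j => (γ j : ℤ)), 1, one_ne_zero, 1, B.one_mem, map_one _, ?_⟩
  rw [mon_append, mon_one, one_mul, mul_one]
  unfold monN
  exact Finset.prod_congr rfl fun j _ => (zpow_natCast _ _).symm

private theorem S1_MU_mon {B : Subring L} {r s : ℕ} (e : Fin r → L) (u : Fin s → L)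
    (z : Fin r → ℤ) {c : k} (hc : c ≠ 0) : MU k V B (Fin.append e u) (DA.mon k e z c) := by
  refine ⟨Fin.append z 0, c, hc, 1, B.one_mem, map_one _, ?_⟩
  rw [mon_append, mul_one]
  have h1 : ∏ j, u j ^ ((0 : Fin s → ℤ) j) = 1 := by
    refine Finset.prod_eq_one fun j _ => ?_
    rw [Pi.zero_apply, zpow_zero]
  rw [h1, mul_one]

private theorem S1_norm_monN {s : ℕ} (u : Fin s → L) (hu1 : ∀ j, ‖u j‖ = 1) (γ : Fin s → ℕ) :
    ‖monN u γ‖ = 1 := by
  unfold monN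
  rw [norm_prod]
  refine Finset.prod_eq_one fun j _ => ?_
  rw [norm_pow, hu1, one_pow]

/-- division of a span by a fixed element -/
private theorem S1_span_div {A B : Subring L} (hAB : A ≤ B) {S : Set L} {c : L}
    (I : Submodule B L) (h : ∀ x ∈ S, x / c ∈ I) {s : L} (hs : s ∈ Submodule.span A S) :
    s / c ∈ I := by
  induction hs using Submodule.span_induction with
  | mem x hx => exact h x hx
  | zero => rw [zero_div]; exact zero_mem _
  | add x y _ _ hx hy => rw [add_div]; exact add_mem hx hy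
  | smul a x _ hx =>
    have h1 : (a • x) / c = (⟨a.1, hAB a.2⟩ : B) • (x / c) := by
      rw [Subring.smul_def, Subring.smul_def, smul_eq_mul, smul_eq_mul, mul_div_assoc]
    rw [h1]
    exact I.smul_mem _ hx

end

section
variable {k : Type} {L : Type} [NontriviallyNormedField k] [IsUltrametricDist k] [IsAlgClosed k]
  [NormedField L] [IsUltrametricDist L] [NormedAlgebra k L] {V : ValuationSubring L}

theorem step1 (hV : OvR k V) (A₂ : Subring L) (hA₂ : A₂ ≤ V.toSubring) (hloc : locV V A₂ = A₂)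
    (hc : cS k L ≤ A₂) {r h₁ r₂ h₂ N : ℕ} (e : Fin r → L) (hne : ∀ i, e i ≠ 0)
    (hind : ∀ (z : Fin r → ℤ) (c : k), ‖c‖ = ‖∏ i, e i ^ z i‖ → z = 0)
    (p : Fin h₁ → L) (hp : ∀ j, ‖p j‖ < 1)
    (u : Fin r₂ → L) (hu : ∀ j, u j ∈ A₂) (hu1 : ∀ j, ‖u j‖ = 1) (hui : IndV V u)
    (hult : ∀ j, V.valuation (u j) < 1)
    (q : Fin h₂ → L) (hq : ∀ j, q j ∈ A₂) (hqlt : ∀ j, V.valuation (q j) < 1)
    (hgen : ∀ z ∈ A₂, V.valuation z < 1 → ∃ (c : Fin r₂ → L) (d : Fin h₂ → L),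
      (∀ j, c j ∈ A₂) ∧ (∀ j, d j ∈ A₂) ∧ ‖z - (∑ j, c j * u j + ∑ j, d j * q j)‖ < 1)
    (zs : Fin N → L) (hzs : ∀ l, zs l ∈ A₂ ∧ ‖zs l‖ < 1)
    (hP1 : ∀ z ∈ A₂, ‖z‖ < 1 → z ∈ SP k A₂ (Set.range zs))
    (X : Finset ((Fin r → ℤ) × k)) (hX : ∀ x ∈ monS k e X, ‖x‖ < 1)
    (W : Finset L) (b₂ : L) (hbW : b₂ ∈ W)
    (hP2 : ∀ l, b₂ * zs l ∈ SP k A₂ (monS k e X ∪ Set.range p))
    (hW : ∀ w ∈ W, w ∈ A₂ ∧ ‖w‖ = 1 ∧ ∃ ε ∈ A₂, V.valuation ε = 1 ∧ ∃ β : Fin r₂ → ℕ,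
      ‖w - ε * monN u β‖ < 1)
    (Ls : Finset L)
    (hL : ∀ f ∈ Ls, f ∈ V ∧ ∃ w₁ ∈ W, ∃ w₂ ∈ W, ∃ (z : Fin r → ℤ) (c : k), c ≠ 0 ∧
      f * w₂ = w₁ * DA.mon k e z c ∧
      (‖DA.mon k e z c‖ = 1 → ∃ γ : Fin r₂ → ℕ, V.valuation f = V.valuation (monN u γ))) :
    ∃ (c : Fin (r + r₂) → k) (π : k) (y : Fin h₁ → L) (Gz : Finset L) (A₃ : Subring L),
      A₃ = locV V (Subring.closure ((A₂ : Set L) ∪
        (Set.range (DA.tor k (Fin.append e u) c π) ∪ Set.range y ∪ (Gz : Set L)))) ∧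
      VPar k V (Fin.append e u) c π (Fin.append y q) A₃ ∧
      (∀ x ∈ Set.range (DA.tor k (Fin.append e u) c π) ∪ Set.range y ∪ (Gz : Set L),
        ‖x‖ < 1 ∨ x ∈ A₂) ∧
      (∀ j, ∃ β : Fin r₂ → ℕ, y j * monN u β = p j) ∧
      (∀ t ∈ Gz, t ∈ V ∧ ∃ β : Fin r₂ → ℕ, t * monN u β ∈ A₂) ∧
      (∀ w ∈ W, MU k V A₃ (Fin.append e u) w) ∧
      ∀ f ∈ Ls, MU k V A₃ (Fin.append e u) f ∧ f ∈ A₃ := by
  classical
  -- choices
  have hWe : ∀ w : L, ∃ (ε : L) (β : Fin r₂ → ℕ) (κ : k) (b s : L), w ∈ W → ε ∈ A₂ ∧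
      V.valuation ε = 1 ∧ ‖w - ε * monN u β‖ < 1 ∧ ‖κ‖ < 1 ∧ b ∈ A₂ ∧
      s ∈ Submodule.span A₂ (Set.range zs) ∧ w - ε * monN u β = algebraMap k L κ * b + s := by
    intro w
    by_cases hw : w ∈ W
    · obtain ⟨hwA, -, ε, hε, hε1, β, hβ⟩ := hW w hw
      have h1 := hP1 _ (sub_mem hwA (mul_mem hε (E0_monN_mem _ hu _))) hβ
      obtain ⟨κ, b, s, hκ, hb, hs, h2⟩ := (mem_SP_iff hc).1 h1
      exact ⟨ε, β, κ, b, s, fun _ => ⟨hε, hε1, hβ, hκ, hb, hs, h2⟩⟩
    · exact ⟨0, 0, 0, 0, 0, fun h' => absurd h' hw⟩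
  choose ε β κ b s hεβ using hWe
  have hPe : ∀ l, ∃ (κ' : k) (b' s' : L), ‖κ'‖ < 1 ∧ b' ∈ A₂ ∧
      s' ∈ Submodule.span A₂ (monS k e X ∪ Set.range p) ∧
      b₂ * zs l = algebraMap k L κ' * b' + s' := fun l => (mem_SP_iff hc).1 (hP2 l)
  choose κ' b' s' hκ' hb' hs' hbs' using hPe
  have hLe : ∀ f : L, ∃ (w₁ w₂ : L) (z : Fin r → ℤ) (c : k), f ∈ Ls → f ∈ V ∧ w₁ ∈ W ∧ w₂ ∈ W ∧
      c ≠ 0 ∧ f * w₂ = w₁ * DA.mon k e z c ∧ (‖DA.mon k e z c‖ = 1 →
        ∃ γ : Fin r₂ → ℕ, V.valuation f = V.valuation (monN u γ)) := by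
    intro f
    by_cases hf : f ∈ Ls
    · obtain ⟨hfV, w₁, hw₁, w₂, hw₂, z, c, hc0, hfe, hγ⟩ := hL f hf
      exact ⟨w₁, w₂, z, c, fun _ => ⟨hfV, hw₁, hw₂, hc0, hfe, hγ⟩⟩
    · exact ⟨0, 0, 0, 0, fun h' => absurd h' hf⟩
  choose w₁ w₂ zf cf hLf using hLe
  obtain ⟨M, hM⟩ : ∃ M : ℕ, ∀ w ∈ W, ∀ j, β w j ≤ M := by
    refine ⟨W.sup fun w => Finset.univ.sup fun j => β w j, fun w hw j => ?_⟩
    exact (Finset.le_sup (f := fun j => β w j) (Finset.mem_univ j)).trans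
      (Finset.le_sup (f := fun w => Finset.univ.sup fun j => β w j) hw)
  set Pu := ∏ j, u j with hPu
  have hPuN : ‖Pu‖ = 1 := by
    rw [hPu, norm_prod]
    exact Finset.prod_eq_one fun j _ => hu1 j
  have hPu0 : Pu ≠ 0 := by
    rintro h0
    rw [h0, norm_zero] at hPuN
    exact zero_ne_one hPuN
  have hPuA : Pu ∈ A₂ := Subring.prod_mem _ fun j _ => hu j
  have hnP : ∀ (x : L) (N : ℕ), ‖x / Pu ^ N‖ = ‖x‖ := by
    intro x N
    rw [norm_div, norm_pow, hPuN, one_pow, div_one]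
  -- the finite set of monomials
  let T : Finset ((Fin (r + r₂) → ℤ) × k) :=
    (W.image fun w => ((Fin.append 0 (fun _ => -((M : ℕ) : ℤ)) : Fin (r + r₂) → ℤ), κ w)) ∪
    ((Finset.univ.image fun l => ((Fin.append 0 (fun _ => -((2 * M : ℕ) : ℤ)) :
      Fin (r + r₂) → ℤ), κ' l)) ∪
    ((X.image fun t => ((Fin.append t.1 (fun _ => -((2 * M : ℕ) : ℤ)) : Fin (r + r₂) → ℤ), t.2)) ∪
    ((Ls.filter fun f => ‖DA.mon k e (zf f) (cf f)‖ < 1).image fun f =>
      ((Fin.append (zf f) (fun _ => -((M : ℕ) : ℤ)) : Fin (r + r₂) → ℤ), cf f))))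
  have hT : ∀ t ∈ T, ‖DA.mon k (Fin.append e u) t.1 t.2‖ < 1 := by
    intro t ht
    simp only [T, Finset.mem_union, Finset.mem_image, Finset.mem_filter] at ht
    rcases ht with ⟨w, hw, rfl⟩ | ⟨l, -, rfl⟩ | ⟨t, ht, rfl⟩ | ⟨f, ⟨-, hf⟩, rfl⟩
    · rw [S1_mon_div, hnP, mon_zero_exp, norm_algebraMap']
      exact (hεβ w hw).2.2.2.1
    · rw [S1_mon_div, hnP, mon_zero_exp, norm_algebraMap']
      exact hκ' l
    · rw [S1_mon_div, hnP]
      exact hX _ ⟨t, ht, rfl⟩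
    · rw [S1_mon_div, hnP]
      exact hf
  obtain ⟨c, π, hc0, hπ0, htlt, htn, htu, hTm⟩ := exists_fineV hV hne hu1 hult T hT
  set e' : Fin (r + r₂) → L := Fin.append e u with he'
  set tor := DA.tor k e' c π with htor
  set C := Subring.closure ((cS k L : Set L) ∪ Set.range tor) with hC
  have F1 : ∀ w ∈ W, algebraMap k L (κ w) / Pu ^ M ∈ SP k C (Set.range tor) := by
    intro w hw
    have h1 := hTm (Fin.append 0 (fun _ => -((M : ℕ) : ℤ)), κ w) (by
      simp only [T, Finset.mem_union, Finset.mem_image]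
      exact Or.inl ⟨w, hw, rfl⟩)
    rw [he', S1_mon_div, mon_zero_exp] at h1
    exact h1
  have F2 : ∀ l, algebraMap k L (κ' l) / Pu ^ (2 * M) ∈ SP k C (Set.range tor) := by
    intro l
    have h1 := hTm (Fin.append 0 (fun _ => -((2 * M : ℕ) : ℤ)), κ' l) (by
      simp only [T, Finset.mem_union, Finset.mem_image]
      exact Or.inr (Or.inl ⟨l, Finset.mem_univ _, rfl⟩))
    rw [he', S1_mon_div, mon_zero_exp] at h1
    exact h1
  have F3 : ∀ x ∈ monS k e X, x / Pu ^ (2 * M) ∈ SP k C (Set.range tor) := by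
    rintro x ⟨t, ht, rfl⟩
    have h1 := hTm (Fin.append t.1 (fun _ => -((2 * M : ℕ) : ℤ)), t.2) (by
      simp only [T, Finset.mem_union, Finset.mem_image]
      exact Or.inr (Or.inr (Or.inl ⟨t, ht, rfl⟩)))
    rw [he', S1_mon_div] at h1
    exact h1
  have F4 : ∀ f ∈ Ls, ‖DA.mon k e (zf f) (cf f)‖ < 1 →
      DA.mon k e (zf f) (cf f) / Pu ^ M ∈ SP k C (Set.range tor) := by
    intro f hf hf1
    have h1 := hTm (Fin.append (zf f) (fun _ => -((M : ℕ) : ℤ)), cf f) (by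
      simp only [T, Finset.mem_union, Finset.mem_image, Finset.mem_filter]
      exact Or.inr (Or.inr (Or.inr ⟨f, ⟨hf, hf1⟩, rfl⟩)))
    rw [he', S1_mon_div] at h1
    exact h1
  -- the ring
  let y : Fin h₁ → L := fun j => p j / Pu ^ (2 * M)
  let Gz : Finset L := Finset.univ.image fun l => zs l / Pu ^ M
  have hGz : ∀ l, zs l / Pu ^ M ∈ (Gz : Set L) := fun l =>
    Finset.mem_coe.2 (Finset.mem_image_of_mem _ (Finset.mem_univ l))
  have hGz' : ∀ x ∈ (Gz : Set L), ∃ l, x = zs l / Pu ^ M := by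
    intro x hx
    obtain ⟨l, -, rfl⟩ := Finset.mem_image.1 (Finset.mem_coe.1 hx)
    exact ⟨l, rfl⟩
  set S₀ : Set L := Set.range tor ∪ Set.range y ∪ (Gz : Set L) with hS₀
  have hS₀n : ∀ x ∈ S₀, ‖x‖ < 1 ∨ x ∈ A₂ := by
    rintro x ((⟨i, rfl⟩ | ⟨j, rfl⟩) | hx)
    · rcases htn i with h1 | ⟨j, hj⟩
      · exact Or.inl h1
      · exact Or.inr (by rw [hj]; exact hu j)
    · exact Or.inl (by show ‖p j / Pu ^ (2 * M)‖ < 1; rw [hnP]; exact hp j)
    · obtain ⟨l, rfl⟩ := hGz' x hx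
      exact Or.inl (by rw [hnP]; exact (hzs l).2)
  have hS₀V : ∀ x ∈ S₀, V.valuation x < 1 := by
    rintro x ((⟨i, rfl⟩ | ⟨j, rfl⟩) | hx)
    · exact htlt i
    · exact hV.lt_of_norm (by show ‖p j / Pu ^ (2 * M)‖ < 1; rw [hnP]; exact hp j)
    · obtain ⟨l, rfl⟩ := hGz' x hx
      exact hV.lt_of_norm (by rw [hnP]; exact (hzs l).2)
  set B := Subring.closure ((A₂ : Set L) ∪ S₀) with hB
  set A₃ := locV V B with hA₃
  have hAB : A₂ ≤ B := fun z hz => Subring.subset_closure (Or.inl hz)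
  have hBV : B ≤ V.toSubring := by
    rw [hB, Subring.closure_le]
    rintro z (hz | hz)
    · exact hA₂ hz
    · exact (V.valuation_le_one_iff _).1 (hS₀V z hz).le
  have hBA : B ≤ A₃ := le_locV _ _
  have hA23 : A₂ ≤ A₃ := hAB.trans hBA
  have hA3V : A₃ ≤ V.toSubring := locV_le _ hBV
  have hloc3 : locV V A₃ = A₃ := locV_locV _ _
  have hS₀A : ∀ x ∈ S₀, x ∈ A₃ := fun x hx => hBA (Subring.subset_closure (Or.inr hx))
  have hc3 : cS k L ≤ A₃ := hc.trans hA23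
  have htorS : Set.range tor ⊆ S₀ := fun x hx => Or.inl (Or.inl hx)
  have hyS : Set.range y ⊆ S₀ := fun x hx => Or.inl (Or.inr hx)
  have hGzS : (Gz : Set L) ⊆ S₀ := fun x hx => Or.inr hx
  have hCA : C ≤ A₃ := by
    rw [hC, Subring.closure_le]
    rintro z (hz | hz)
    · exact hc3 hz
    · exact hS₀A z (htorS hz)
  set I := SP k A₃ (Set.range tor ∪ Set.range y) with hI
  have hCI : ∀ {x : L}, x ∈ SP k C (Set.range tor) → x ∈ I := fun hx =>
    SP_mono hCA Set.subset_union_left hx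
  have hIA : ∀ {x : L}, x ∈ I → x ∈ A₃ := fun hx => SP_mem hc3 (by
    rintro z (hz | hz)
    · exact hS₀A z (htorS hz)
    · exact hS₀A z (hyS hz)) hx
  have hIV : ∀ {x : L}, x ∈ I → V.valuation x < 1 := fun hx => SP_val hV hA3V (by
    rintro z (hz | hz)
    · exact hS₀V z (htorS hz)
    · exact hS₀V z (hyS hz)) hx
  have hmonA : ∀ γ : Fin r₂ → ℕ, monN u γ ∈ A₃ := fun γ => E0_monN_mem _ (fun j => hA23 (hu j)) γ
  have hune : ∀ j, u j ≠ 0 := hui.ne
  have hne' : ∀ i, e' i ≠ 0 := by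
    intro i
    rw [he']
    refine Fin.addCases (fun i => ?_) (fun j => ?_) i
    · rw [Fin.append_left]
      exact hne i
    · rw [Fin.append_right]
      exact hune j
  -- (A)
  have hA : ∀ w ∈ W, ∃ ε' ∈ A₃, V.valuation ε' = 1 ∧ w = ε' * monN u (β w) := by
    intro w hw
    obtain ⟨hεA, hε1, hlt, hκ1, hbA, hsS, heq⟩ := hεβ w hw
    have h1 : s w / Pu ^ M ∈ A₃ := by
      have h2 := S1_span_div hA23 (c := Pu ^ M) (Submodule.span A₃ S₀) (by
        rintro x ⟨l, rfl⟩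
        exact Submodule.subset_span (hGzS (hGz l))) hsS
      have h3 : ∀ x ∈ Submodule.span A₃ S₀, x ∈ A₃ := by
        intro x hx
        induction hx using Submodule.span_induction with
        | mem x hx => exact hS₀A x hx
        | zero => exact zero_mem _
        | add x y _ _ hx hy => exact add_mem hx hy
        | smul a x _ hx => exact mul_mem a.2 hx
      exact h3 _ h2
    have h2 : (w - ε w * monN u (β w)) / Pu ^ M ∈ A₃ := by
      rw [heq, add_div, mul_div_right_comm]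
      exact add_mem (mul_mem (hIA (hCI (F1 w hw))) (hA23 hbA)) h1
    refine ⟨ε w + (w - ε w * monN u (β w)) / Pu ^ M * monN u (fun j => M - β w j),
      add_mem (hA23 hεA) (mul_mem h2 (hmonA _)), E5_val_add hε1 (hV.lt_of_norm ?_), ?_⟩
    · rw [norm_mul, hnP, S1_norm_monN u hu1, mul_one]
      exact hlt
    · have h3 := S1_monN_split u (β w) M (hM w hw)
      rw [← hPu] at h3
      have h4 : (w - ε w * monN u (β w)) / Pu ^ M * monN u (fun j => M - β w j) * monN u (β w) =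
          w - ε w * monN u (β w) := by
        rw [mul_assoc, mul_comm (monN u fun j => M - β w j), ← h3,
          div_mul_cancel₀ _ (pow_ne_zero _ hPu0)]
      rw [add_mul, h4]
      ring
  -- (B)
  obtain ⟨εb, hεb, hεb1, hb₂e⟩ := hA b₂ hbW
  have hεb0 : εb ≠ 0 := ne_zero_of_val hεb1
  have hBz : ∀ l, zs l / Pu ^ M ∈ I := by
    intro l
    have h1 : s' l / Pu ^ (2 * M) ∈ I := S1_span_div hA23 I (by
      rintro x (hx | ⟨j, rfl⟩)
      · exact hCI (F3 x hx)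
      · exact SP_of_mem (Or.inr ⟨j, rfl⟩)) (hs' l)
    have h2 : b₂ * zs l / Pu ^ (2 * M) ∈ I := by
      rw [hbs' l, add_div, mul_div_right_comm]
      exact add_mem (SP_mul' (hA23 (hb' l)) (hCI (F2 l))) h1
    have h3 := S1_monN_split u (β b₂) M (hM b₂ hbW)
    rw [← hPu] at h3
    have h4 : zs l / Pu ^ M = (monN u (fun j => M - β b₂ j) * εb⁻¹) *
        (b₂ * zs l / Pu ^ (2 * M)) := by
      have h5 : b₂ * (monN u (fun j => M - β b₂ j) * εb⁻¹) = Pu ^ M := by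
        rw [h3]
        calc b₂ * (monN u (fun j => M - β b₂ j) * εb⁻¹) =
              (εb * monN u (β b₂)) * (monN u (fun j => M - β b₂ j) * εb⁻¹) := by rw [← hb₂e]
          _ = (εb * εb⁻¹) * (monN u (β b₂) * monN u (fun j => M - β b₂ j)) := by ring
          _ = _ := by rw [mul_inv_cancel₀ hεb0, one_mul]
      have h6 : (monN u (fun j => M - β b₂ j) * εb⁻¹) * (b₂ * zs l / Pu ^ (2 * M)) =
          (b₂ * (monN u (fun j => M - β b₂ j) * εb⁻¹)) * zs l / Pu ^ (2 * M) := by ring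
      rw [h6, h5, two_mul, pow_add, mul_div_mul_left _ _ (pow_ne_zero _ hPu0)]
    rw [h4]
    exact SP_mul (mul_mem (hmonA _) (E5_inv hloc3 hεb hεb1)) h2
  have hBz' : ∀ l, zs l ∈ I := by
    intro l
    have h1 : zs l = Pu ^ M * (zs l / Pu ^ M) := by
      rw [mul_div_cancel₀ _ (pow_ne_zero _ hPu0)]
    rw [h1]
    exact SP_mul (pow_mem (hA23 hPuA) _) (hBz l)
  -- the elements of `S₀` of norm `< 1`
  set Y : Set L := {x | x ∈ S₀ ∧ ‖x‖ < 1} with hY
  have hBY : B = Subring.closure ((A₂ : Set L) ∪ Y) := by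
    apply le_antisymm
    · rw [hB, Subring.closure_le]
      rintro z (hz | hz)
      · exact Subring.subset_closure (Or.inl hz)
      · rcases hS₀n z hz with h1 | h1
        · exact Subring.subset_closure (Or.inr ⟨hz, h1⟩)
        · exact Subring.subset_closure (Or.inl h1)
    · exact Subring.closure_mono (Set.union_subset_union_right _ fun x hx => hx.1)
  have hYI : ∀ x ∈ Y, x ∈ I := by
    rintro x ⟨(hx | hx) | hx, -⟩
    · exact SP_of_mem (Or.inl hx)
    · exact SP_of_mem (Or.inr hx)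
    · obtain ⟨l, rfl⟩ := hGz' x hx
      exact hBz l
  have hII : ∀ {x : L}, x ∈ I → x ∈ SP k A₃ (Set.range tor ∪ Set.range (Fin.append y q)) := by
    intro x hx
    refine SP_mono le_rfl (Set.union_subset_union_right _ ?_) hx
    rintro z ⟨j, rfl⟩
    exact ⟨Fin.castAdd h₂ j, Fin.append_left _ _ _⟩
  have hgenA : ∀ x ∈ A₃, V.valuation x < 1 →
      x ∈ SP k A₃ (Set.range tor ∪ Set.range (Fin.append y q)) := by
    intro x hx hx1
    have h0 : A₃ = locV V (Subring.closure ((A₂ : Set L) ∪ Y)) := by rw [hA₃, hBY]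
    have h1 := dec_span hV hA₂ hloc (Y := Y) (fun z hz => hz.2)
    rw [← h0] at h1
    obtain ⟨a, ha, t, ht, hxat⟩ := h1 x hx
    have htI : t ∈ I := (Submodule.span_le.2 hYI) ht
    have ha1 : V.valuation a < 1 := by
      have h2 : a = x + -t := by rw [hxat]; ring
      rw [h2]
      exact V.valuation.map_add_lt hx1 (by rw [Valuation.map_neg]; exact hIV htI)
    obtain ⟨c', d', hc', hd', hlt⟩ := hgen a ha ha1
    have h2 := hP1 _ (sub_mem ha (add_mem (Subring.sum_mem _ fun j _ =>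
      mul_mem (hc' j) (hu j)) (Subring.sum_mem _ fun j _ => mul_mem (hd' j) (hq j)))) hlt
    have h3 : a - (∑ j, c' j * u j + ∑ j, d' j * q j) ∈ I := SP_le hA23 (by
      rintro z ⟨l, rfl⟩
      exact hBz' l) h2
    have h4 : x = ((a - (∑ j, c' j * u j + ∑ j, d' j * q j)) + t) +
        (∑ j, c' j * u j + ∑ j, d' j * q j) := by rw [hxat]; ring
    rw [h4]
    refine add_mem (hII (add_mem h3 htI)) (add_mem (SP_sum _ _ fun j _ => ?_)
      (SP_sum _ _ fun j _ => ?_))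
    · exact SP_mul (hA23 (hc' j)) (SP_of_mem (Or.inl ⟨_, htu j⟩))
    · exact SP_mul (hA23 (hd' j)) (SP_of_mem (Or.inr ⟨Fin.natAdd h₁ j, Fin.append_right _ _ _⟩))
  -- (D)
  have hindV : ∀ (z : Fin (r + r₂) → ℤ) (a : k), V.valuation (DA.mon k e' z a) = 1 → z = 0 := by
    intro z a hz
    have h1 := hV.norm_eq_one hz
    rw [he', mon_append'] at h1 hz
    have h2 : ‖∏ j, u j ^ z (Fin.natAdd r j)‖ = 1 := by
      rw [norm_prod]
      refine Finset.prod_eq_one fun j _ => ?_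
      rw [norm_zpow, hu1, one_zpow]
    rw [norm_mul, h2, mul_one] at h1
    have h3 := mon_ind hind _ _ h1
    rw [h3, mon_zero_exp] at h1 hz
    rw [norm_algebraMap'] at h1
    rw [map_mul, hV.const_val_one h1, one_mul] at hz
    have h4 := hui.indep (fun j => z (Fin.natAdd r j)) hz
    funext i
    refine Fin.addCases (fun i => ?_) (fun j => ?_) i
    · exact congrFun h3 i
    · exact congrFun h4 j
  -- (E)
  have hWm : ∀ w ∈ W, MU k V A₃ e' w := by
    intro w hw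
    obtain ⟨ε', hε', h1, h2⟩ := hA w hw
    rw [h2]
    exact (MU.of_unit hε' h1).mul hne' (S1_MU_monN _ _ _)
  have hLs : ∀ f ∈ Ls, MU k V A₃ e' f ∧ f ∈ A₃ := by
    intro f hf
    obtain ⟨hfV, hw₁, hw₂, hcf, hfe, hγ⟩ := hLf f hf
    obtain ⟨ε1, hε1, hε11, he1⟩ := hA _ hw₁
    obtain ⟨ε2, hε2, hε21, he2⟩ := hA _ hw₂
    have hε20 : ε2 ≠ 0 := ne_zero_of_val hε21
    have hm20 : monN u (β (w₂ f)) ≠ 0 := E0_monN_ne hune _
    have hw20 : w₂ f ≠ 0 := by rw [he2]; exact mul_ne_zero hε20 hm20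
    have hf1 : f = w₁ f * DA.mon k e (zf f) (cf f) * (w₂ f)⁻¹ := by
      rw [← hfe, mul_assoc, mul_inv_cancel₀ hw20, mul_one]
    refine ⟨?_, ?_⟩
    · rw [hf1]
      exact ((hWm _ hw₁).mul hne' (S1_MU_mon _ _ _ hcf)).mul hne' ((hWm _ hw₂).inv hloc3)
    · have hε2i : ε2⁻¹ ∈ A₃ := E5_inv hloc3 hε2 hε21
      have hfe' : f * (ε2 * monN u (β (w₂ f))) =
          (ε1 * monN u (β (w₁ f))) * DA.mon k e (zf f) (cf f) := by
        rw [← he1, ← he2]; exact hfe
      rcases lt_or_ge ‖DA.mon k e (zf f) (cf f)‖ 1 with hlt | hge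
      · have h1 : f = (ε1 * ε2⁻¹) * monN u (β (w₁ f)) *
            (DA.mon k e (zf f) (cf f) / Pu ^ M) * monN u (fun j => M - β (w₂ f) j) := by
          have h3 := S1_monN_split u (β (w₂ f)) M (hM _ hw₂)
          rw [← hPu] at h3
          refine mul_right_cancel₀ (mul_ne_zero hε20 hm20) ?_
          rw [hfe', h3]
          have h5 : monN u (fun j => M - β (w₂ f) j) ≠ 0 := E0_monN_ne hune _
          field_simp
        rw [h1]
        exact mul_mem (mul_mem (mul_mem (mul_mem hε1 hε2i) (hmonA _))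
          (hIA (hCI (F4 f hf hlt)))) (hmonA _)
      · have hn1 : ‖DA.mon k e (zf f) (cf f)‖ = 1 := by
          have h1 := congrArg norm hfe'
          rw [norm_mul, norm_mul, norm_mul, norm_mul, hV.norm_eq_one hε21, hV.norm_eq_one hε11,
            S1_norm_monN u hu1, S1_norm_monN u hu1, one_mul, one_mul, mul_one] at h1
          exact le_antisymm (by rw [← h1]; exact hV.norm_le hfV) hge
        obtain ⟨γ, hγ⟩ := hγ hn1
        have h3 := mon_ind hind _ _ hn1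
        rw [h3, mon_zero_exp] at hn1 hfe'
        rw [norm_algebraMap'] at hn1
        have h4 : V.valuation (monN u (γ + β (w₂ f))) = V.valuation (monN u (β (w₁ f))) := by
          have h2 := congrArg V.valuation hfe'
          rw [map_mul, map_mul, map_mul, map_mul, hε21, hε11, hV.const_val_one hn1, one_mul,
            one_mul, mul_one] at h2
          rw [E0_monN_add, map_mul, ← hγ]
          exact h2
        have h5 := E5_monN_inj hui h4
        have h6 : f = (ε1 * ε2⁻¹) * algebraMap k L (cf f) * monN u γ := by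
          refine mul_right_cancel₀ (mul_ne_zero hε20 hm20) ?_
          rw [hfe', ← h5, E0_monN_add]
          field_simp
        rw [h6]
        exact mul_mem (mul_mem (mul_mem hε1 hε2i) (hc3 (mem_cS.2 ⟨_, hn1.le, rfl⟩))) (hmonA _)
  refine ⟨c, π, y, Gz, A₃, rfl, ?_, hS₀n, ?_, ?_, hWm, hLs⟩
  · refine ⟨hne', hindV, hc0, hπ0, fun i => hS₀A _ (htorS ⟨i, rfl⟩), htlt, ?_, ?_, hgenA⟩
    · intro j
      refine Fin.addCases (fun i => ?_) (fun i => ?_) j
      · rw [Fin.append_left]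
        exact hS₀A _ (hyS ⟨i, rfl⟩)
      · rw [Fin.append_right]
        exact hA23 (hq i)
    · intro j
      refine Fin.addCases (fun i => ?_) (fun i => ?_) j
      · rw [Fin.append_left]
        exact hS₀V _ (hyS ⟨i, rfl⟩)
      · rw [Fin.append_right]
        exact hqlt i
  · intro j
    refine ⟨fun _ => 2 * M, ?_⟩
    rw [S1_monN_const]
    exact div_mul_cancel₀ _ (pow_ne_zero _ hPu0)
  · intro t ht
    obtain ⟨l, rfl⟩ := hGz' t (Finset.mem_coe.2 ht)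
    refine ⟨hV.mem_of_norm (by rw [hnP]; exact (hzs l).2), fun _ => M, ?_⟩
    rw [S1_monN_const, div_mul_cancel₀ _ (pow_ne_zero _ hPu0)]
    exact (hzs l).1

end

end CS
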