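import Pool.Agent.Lib.CS.Noeth
import Pool.Agent.Lib.CS.Step1
import Pool.Agent.Lib.CS.DimW
import Pool.Agent.Lib.TC.E7

/-!
# Module CS.Step2: composition starting from parameters for the unit ball

PROOF (adapt `TC.E7_comp3`, Pool/Agent/Lib/TC/E7.lean, with `V1 = ball L`; `‖x‖ < 1` is `(ball L).valuation x < 1` by
`ball_val_lt_one`, `‖x‖ = 1` by `ball_val_eq_one`). Notation: `A₁ = RG k V G₁`, `B₁ = RG k (ball L) G₁ = locV (ball L) A₁`
(`locV_ball_RG`), `lam = ResidueField (ball L)`, `V' = resV V (ball L) hV.le`.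
(0) WLOG `p j ∈ A₁`: `p j = a j / b j` with `a j, b j ∈ A₁`, `‖b j‖ = 1` (`p j ∈ B₁`); replace `p j` by
`p' j = p j * b j`; `SP k B₁ (monS ∪ range p) = SP k B₁ (monS ∪ range p')` (`SP_le`, `(b j)⁻¹ ∈ B₁`).
(1) For every `f` in `D = Ls ∪ {d t : t ∈ G₁} ∪ {d' i}`, where `t = n t / d t`, `e i = n' i / d' i` as in `Dn` (`hGD`, `heD`),
there are `w₁, w₂ ∈ A₁`, norms `1`, `z`, `c ≠ 0` with `f * w₂ = w₁ * mon e z c` (`MU`: `f = mon * ε`, `ε ∈ B₁` of norm one
is a fraction of elements of norm one of `A₁`).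
(2) `b ∈ A₁`, `‖b‖ = 1`, with `b * z ∈ SP k A₁ (monS e X ∪ range p)` for all `z ∈ A₁`, `‖z‖ < 1`: `exists_bound` for `A₁` and
`Good b = (b ∈ A₁ ∧ ‖b‖ = 1)`; for a single `z`: `hB.gen` and `SP_denoms` (`B₁ = locV (ball L) A₁`).
(3) `W₁` = all `w₁, w₂` of (1) and `b`; `L₀ = {f ∈ Ls : ‖f‖ = 1}` (then in (1) `z = 0` and `‖c‖ = 1`, by `mon_ind`).
`h2` for the residues (`rs (ball L)`) of `W₁ ∪ L₀` gives `g3, hh, ub, wb, hg3V, hG3, hM3`; lift `g3` to
`lt t * ld t = la t` (`E6_lift`); `A₂ = RG k V (G₁ ∪ g3')`, `g3' = image lt g3` (`RG_union`); `im (ball L) A₂ = B3` as in E7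
(`him`); lift `ub, wb` to `u, q`; `hgen`, `hmonres` as in E7.
(4) `Good b = (b ∈ A₂ ∧ ‖b‖ = 1 ∧ MonV V' B3 ub (rs (ball L) b))`. Every `z ∈ A₂` is `a / c` with
`a, c ∈ closure (A₁ ∪ g3')`, `V.valuation c = 1`, and `d * a ∈ A₁` for a good `d` (`hdB2` of E7); if `‖z‖ < 1` then
`b * (d * a) ∈ SP k A₁ (...)`, so `(b * d) * z ∈ SP k A₂ (...)`. `exists_bound` for `A₂`: `b₂` good, with
`b₂ * z ∈ SP k A₂ (monS e X ∪ range p)` for all `z ∈ A₂`, `‖z‖ < 1`. `exists_zs` for `A₂`: `zs`.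
(5) `step1` for `A₂`, `W = insert b₂ (W₁ ∪ image ld g3)`, `Ls`. (For `f ∈ Ls` with `‖mon e z c‖ = 1`: `‖f‖ = 1`, and
`V.valuation f = V.valuation (monN u γ)` as at the end of E7: the residue of `f` is monomial by `hM3`.)
`G = G₁ ∪ g3' ∪ image (tor) univ ∪ image y univ ∪ Gz`, `A₃ = RG k V G` (`RG_union`).
(6) `Dn`. All units of `A₃` are `MU` (`MU.of_unit`), `W ⊆ MU`, `e i` and `u j` are `MU` (`MU.var`). `d t`, `d' i` are `MU` for
`A₃` by (1) (`d * w₂ = w₁ * mon e z c`, and `mon e z c` is a monomial in `Fin.append e u`, `mon_append`), so the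
`t ∈ G₁` and the `e i` are `Dn`; so all elements of `A₁` are `Dn` (`Dn.of_RG`); `lt t = la t / ld t` with `ld t ∈ W`:
`Dn.mul`, `Dn.inv`; so all elements of `A₂` are `Dn`; `tor` is a product of constants, `e i`, `u j` and their inverses
(definition of `tor`, `Dn.inv`, `MU.var`); `y j = p j / monN u β`; `t ∈ Gz`: `t * monN u β ∈ A₂`.
(7) `im (ball L) A₃ = im (ball L) A₂ = B3` (`im_adjoin`: by the third conjunct of `step1` the new elements which are
not in `A₂` have norm `< 1`), of dimension `≥ r₂ + hh` (`hG3.dim`). `dim_res` gives the bound.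
-/

open Polynomial MP1a953e IsLocalRing

namespace CS
set_option linter.unusedSectionVars false
open Pool.Agent.Lib.MP_3029eb_ag Pool.Agent.Lib.MP_3029eb_ag.Abh

section
variable {k : Type} {L : Type} [NontriviallyNormedField k] [IsUltrametricDist k] [IsAlgClosed k]
  [NormedField L] [IsUltrametricDist L] [NormedAlgebra k L] {V : ValuationSubring L}

private theorem MU_frac (hV : OvR k V) {G₁ : Set L} {d : ℕ} {e : Fin d → L} {x : L}
    (hx : MU k (ball L) (RG k (ball L) G₁) e x) :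
    ∃ (w₁ w₂ : L) (z : Fin d → ℤ) (c : k), w₁ ∈ RG k V G₁ ∧ w₂ ∈ RG k V G₁ ∧ ‖w₁‖ = 1 ∧
      ‖w₂‖ = 1 ∧ c ≠ 0 ∧ x * w₂ = w₁ * DA.mon k e z c := by
  obtain ⟨z, c, hc, ε, hε, hε1, rfl⟩ := hx
  rw [← locV_ball_RG hV] at hε
  obtain ⟨a, ha, b, hb, hb1, hab⟩ := hε
  have h1 : ‖ε‖ = 1 := (ball_val_eq_one _).1 hε1
  have h2 : ‖b‖ = 1 := (ball_val_eq_one _).1 hb1
  refine ⟨a, b, z, c, ha, hb, ?_, h2, hc, ?_⟩
  · rw [← hab, norm_mul, h1, h2, one_mul]
  · rw [← hab]
    ring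

private theorem wlog_p (hV : OvR k V) {r h₁ : ℕ} {e : Fin r → L} {p : Fin h₁ → L} (G₁ : Set L)
    (hB : BPar k e p (RG k (ball L) G₁)) :
    ∃ p' : Fin h₁ → L, (∀ j, p' j ∈ RG k V G₁) ∧ BPar k e p' (RG k (ball L) G₁) := by
  have h1 : ∀ j, ∃ a ∈ RG k V G₁, ∃ b ∈ RG k V G₁, ‖b‖ = 1 ∧ p j * b = a := by
    intro j
    have h2 := hB.wmem j
    rw [← locV_ball_RG hV] at h2
    obtain ⟨a, ha, b, hb, hb1, hab⟩ := h2
    exact ⟨a, ha, b, hb, (ball_val_eq_one _).1 hb1, hab⟩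
  choose a ha b hb hb1 hab using h1
  have hA1B1 : RG k V G₁ ≤ RG k (ball L) G₁ := by
    rw [← locV_ball_RG hV]
    exact le_locV _ _
  refine ⟨a, ha, ⟨hB.ne, hB.ind, fun j => hA1B1 (ha j), fun j => ?_, ?_⟩⟩
  · rw [← hab, norm_mul, hb1, mul_one]
    exact hB.wlt j
  · obtain ⟨X, hX, hgen⟩ := hB.gen
    refine ⟨X, hX, fun x hx hx1 => SP_le le_rfl ?_ (hgen x hx hx1)⟩
    rintro y (hy | ⟨j, rfl⟩)
    · exact SP_of_mem (Or.inl hy)
    · have hbi : (b j)⁻¹ ∈ RG k (ball L) G₁ :=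
        RG_inv (hA1B1 (hb j)) ((ball_val_eq_one _).2 (hb1 j))
      have hb0 : b j ≠ 0 := by
        intro h0
        have := hb1 j
        rw [h0, norm_zero] at this
        exact zero_ne_one this
      have h3 : p j = (b j)⁻¹ * a j := by
        rw [← hab]
        field_simp
      rw [h3]
      exact SP_mul hbi (SP_of_mem (Or.inr ⟨j, rfl⟩))

private theorem monN_MU {B : Subring L} {d r₂ : ℕ} {e' : Fin d → L} (hne : ∀ i, e' i ≠ 0)
    (u : Fin r₂ → L) (hu : ∀ j, MU k V B e' (u j)) (β : Fin r₂ → ℕ) :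
    MU k V B e' (monN u β) := by
  unfold monN
  exact MU.prod hne _ _ fun j _ => (hu j).pow hne _

private theorem Dn_pow {A : Subalgebra k L} {B : Subring L} {d : ℕ} {e' : Fin d → L}
    (hne : ∀ i, e' i ≠ 0) {x : L} (hx : Dn k V A B e' x) (n : ℕ) : Dn k V A B e' (x ^ n) := by
  induction n with
  | zero => rw [pow_zero]; exact Dn.of_mem A.one_mem
  | succ n ih => rw [pow_succ]; exact ih.mul hne hx

private theorem Dn_prod {A : Subalgebra k L} {B : Subring L} {d : ℕ} {e' : Fin d → L}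
    (hne : ∀ i, e' i ≠ 0) {ι : Type} (s : Finset ι) (f : ι → L)
    (h : ∀ i ∈ s, Dn k V A B e' (f i)) : Dn k V A B e' (∏ i ∈ s, f i) := by
  classical
  induction s using Finset.induction_on with
  | empty => rw [Finset.prod_empty]; exact Dn.of_mem A.one_mem
  | insert a s ha ih =>
    rw [Finset.prod_insert ha]
    exact (h a (Finset.mem_insert_self _ _)).mul hne
      (ih fun i hi => h i (Finset.mem_insert_of_mem hi))

private theorem Dn_const {A : Subalgebra k L} {B : Subring L} {d : ℕ} {e' : Fin d → L} (c : k) :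
    Dn k V A B e' (algebraMap k L c) := Dn.of_mem (A.algebraMap_mem c)

private theorem Dn_tor {A : Subalgebra k L} {B : Subring L} {d : ℕ} {e' : Fin d → L}
    (hne : ∀ i, e' i ≠ 0) (he : ∀ i, Dn k V A B e' (e' i)) (c : Fin d → k) (hc : ∀ i, c i ≠ 0)
    (π : k) (i : Fin (d + 1)) : Dn k V A B e' (DA.tor k e' c π i) := by
  unfold DA.tor
  refine Fin.cases ?_ (fun j => ?_) i
  · rw [Fin.cons_zero]
    refine (Dn_const π).mul hne (Dn_prod hne _ _ fun j _ => ?_)
    rw [div_eq_mul_inv]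
    exact (Dn_const (c j)).mul hne ((he j).inv hne (MU.var j))
  · rw [Fin.cons_succ, div_eq_mul_inv]
    exact (he j).mul hne ((Dn_const (c j)).inv hne (MU.const (hc j)))

private theorem step2_aux (hV : OvR k V) {r h₁ r₂ m₀ : ℕ} {e : Fin r → L} {p : Fin h₁ → L}
    (G₁ : Finset L)
    (hG₁ : ∀ t ∈ G₁, t ∈ V) (hB : BPar k e p (RG k (ball L) (G₁ : Set L)))
    (hpA : ∀ j, p j ∈ RG k V (G₁ : Set L))
    (A : Subalgebra k L) (heD : ∀ i, Dn k (ball L) A (RG k (ball L) (G₁ : Set L)) e (e i))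
    (hGD : ∀ t ∈ G₁, Dn k (ball L) A (RG k (ball L) (G₁ : Set L)) e t)
    (h2 : TC.EMB3 (resV V (ball L) hV.le) (im (ball L) (RG k V (G₁ : Set L))) r₂)
    (hRD : RDep k L m₀) (Ls : Finset L)
    (hL : ∀ f ∈ Ls, f ∈ V ∧ MU k (ball L) (RG k (ball L) (G₁ : Set L)) e f) :
    ∃ (hh : ℕ) (e' : Fin (r + r₂) → L) (c : Fin (r + r₂) → k) (π : k) (w : Fin (h₁ + hh) → L)
      (G : Finset L), (∀ t ∈ G, t ∈ V) ∧ VPar k V e' c π w (RG k V (G : Set L)) ∧
      (∀ (m : ℕ) (y : Fin m → L), (∀ j, y j ∈ RG k V (G : Set L)) → RI k V y →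
        r₂ + hh + m ≤ m₀) ∧
      (∀ f ∈ Ls, MU k V (RG k V (G : Set L)) e' f ∧ f ∈ RG k V (G : Set L)) ∧
      ∀ t ∈ G, Dn k V A (RG k V (G : Set L)) e' t := by
  classical
  have h := hV.le
  set A1 : Subring L := RG k V (G₁ : Set L) with hA1def
  have hA1V : A1 ≤ V.toSubring := RG_le hV hG₁
  have hA1V1 : A1 ≤ (ball L).toSubring := fun z hz => h (hA1V hz)
  have hn1 : ∀ {w : L}, ‖w‖ = 1 → (ball L).valuation w = 1 := fun hw => (ball_val_eq_one _).2 hw
  have hne1 : ∀ {w : L}, ‖w‖ = 1 → w ≠ 0 := by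
    rintro w hw rfl
    rw [norm_zero] at hw
    exact zero_ne_one hw
  have hne : ∀ {w : L}, (ball L).valuation w = 1 → w ≠ 0 := by
    rintro w hw rfl
    rw [map_zero] at hw
    exact zero_ne_one hw
  -- the denominators
  have hGD' : ∀ t : L, ∃ n d : L, t ∈ G₁ → n ∈ A ∧ d ∈ A ∧
      MU k (ball L) (RG k (ball L) (G₁ : Set L)) e d ∧ t = n / d := by
    intro t
    by_cases ht : t ∈ G₁
    · obtain ⟨n, hn, d, hd, hdm, htd⟩ := hGD t ht
      exact ⟨n, d, fun _ => ⟨hn, hd, hdm, htd⟩⟩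
    · exact ⟨0, 0, fun h' => absurd h' ht⟩
  choose gn gd hgnd using hGD'
  choose en hen ed hed hedm hedq using heD
  let Df : Finset L := Ls ∪ (G₁.image gd ∪ Finset.univ.image ed)
  have hDfMU : ∀ f ∈ Df, MU k (ball L) (RG k (ball L) (G₁ : Set L)) e f := by
    intro f hf
    rcases Finset.mem_union.1 hf with hf | hf
    · exact (hL f hf).2
    rcases Finset.mem_union.1 hf with hf | hf
    · obtain ⟨t, ht, rfl⟩ := Finset.mem_image.1 hf
      exact (hgnd t ht).2.2.1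
    · obtain ⟨i, -, rfl⟩ := Finset.mem_image.1 hf
      exact hedm i
  have hLe : ∀ f : L, ∃ (w1 w2 : L) (z : Fin r → ℤ) (c : k), f ∈ Df → w1 ∈ A1 ∧ w2 ∈ A1 ∧
      ‖w1‖ = 1 ∧ ‖w2‖ = 1 ∧ c ≠ 0 ∧ f * w2 = w1 * DA.mon k e z c := by
    intro f
    by_cases hf : f ∈ Df
    · obtain ⟨w1, w2, z, c, h1⟩ := MU_frac hV (hDfMU f hf)
      exact ⟨w1, w2, z, c, fun _ => h1⟩
    · exact ⟨0, 0, 0, 0, fun h' => absurd h' hf⟩
  choose w1 w2 zf cf hLe using hLe
  obtain ⟨X, hX, hgenB⟩ := hB.gen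
  -- a denominator for the elements of norm less than one
  obtain ⟨b, ⟨hbA, hb1⟩, hbP⟩ := exists_bound hV G₁ hG₁ (monS k e X ∪ Set.range p)
    (fun b => b ∈ A1 ∧ ‖b‖ = 1) ⟨A1.one_mem, norm_one⟩
    (fun a b ha hb => ⟨mul_mem ha.1 hb.1, by rw [norm_mul, ha.2, hb.2, one_mul]⟩)
    (fun a ha => ha.1) (by
      intro x hx hx1
      have h1 : x ∈ RG k (ball L) (G₁ : Set L) := by
        rw [← locV_ball_RG hV]
        exact le_locV _ _ hx
      have h2 := hgenB x h1 hx1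
      rw [← locV_ball_RG hV] at h2
      obtain ⟨b, hb, hb1, hbx⟩ := SP_denoms h2
      exact ⟨b, ⟨hb, hb1⟩, hbx⟩)
  let W1 : Finset L := Df.image w1 ∪ (Df.image w2 ∪ {b})
  have hW1 : ∀ w ∈ W1, w ∈ A1 ∧ ‖w‖ = 1 := by
    intro w hw
    rcases Finset.mem_union.1 hw with hw | hw
    · obtain ⟨f, hf, rfl⟩ := Finset.mem_image.1 hw
      exact ⟨(hLe f hf).1, (hLe f hf).2.2.1⟩
    rcases Finset.mem_union.1 hw with hw | hw
    · obtain ⟨f, hf, rfl⟩ := Finset.mem_image.1 hw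
      exact ⟨(hLe f hf).2.1, (hLe f hf).2.2.2.1⟩
    · rw [Finset.mem_singleton.1 hw]
      exact ⟨hbA, hb1⟩
  let L0 : Finset L := Ls.filter fun f => ‖f‖ = 1
  have hLsDf : ∀ f ∈ Ls, f ∈ Df := fun f hf => Finset.mem_union_left _ hf
  have hz0 : ∀ f ∈ Ls, ‖f‖ = 1 → zf f = 0 ∧ ‖cf f‖ = 1 := by
    intro f hf hf1
    obtain ⟨_, _, h3, h4, _, h5⟩ := hLe f (hLsDf f hf)
    have h6 := congrArg norm h5
    rw [norm_mul, norm_mul, hf1, h3, h4, one_mul, one_mul] at h6
    have h7 := mon_ind hB.ind _ _ h6.symm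
    refine ⟨h7, ?_⟩
    rw [h7, mon_zero_exp, norm_algebraMap'] at h6
    exact h6.symm
  -- apply the hypothesis on the residue field
  obtain ⟨g3, hh, ub, wb, hg3V, hG3, hM3⟩ := h2 ((W1 ∪ L0).image (rs (ball L))) (by
    intro t ht
    obtain ⟨w, hw, rfl⟩ := Finset.mem_image.1 ht
    rcases Finset.mem_union.1 hw with hw | hw
    · obtain ⟨hwA, hw1⟩ := hW1 w hw
      have h1 : rs (ball L) w ∈ im (ball L) A1 := (mem_im_iff hA1V1 _).2 ⟨w, hwA, rfl⟩
      exact ⟨rs_ne_zero (hn1 hw1), (rs_mem_resV h (hA1V1 hwA)).2 (hA1V hwA), _, h1, 1,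
        (im (ball L) A1).one_mem, one_ne_zero, mul_one _⟩
    · obtain ⟨hfL, hf1⟩ := Finset.mem_filter.1 hw
      obtain ⟨h1, h2, h3, h4, _, h5⟩ := hLe w (hLsDf w hfL)
      obtain ⟨h6, h7⟩ := hz0 w hfL hf1
      have hfV := (hL w hfL).1
      have h8 : w1 w * algebraMap k L (cf w) ∈ A1 := mul_mem h1 (const_mem_RG _ h7.le)
      refine ⟨rs_ne_zero (hn1 hf1), (rs_mem_resV h (h hfV)).2 hfV,
        rs (ball L) (w1 w * algebraMap k L (cf w)),
        (mem_im_iff hA1V1 _).2 ⟨_, h8, rfl⟩, rs (ball L) (w2 w),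
        (mem_im_iff hA1V1 _).2 ⟨_, h2, rfl⟩, rs_ne_zero (hn1 h4), ?_⟩
      rw [← rs_mul (h hfV) (hA1V1 h2), h5, h6, mon_zero_exp])
  set B3 := locV (resV V (ball L) h) (Subring.closure ((im (ball L) A1 : Set (ResidueField (ball L))) ∪
    (g3 : Set (ResidueField (ball L))))) with hB3
  -- lifts of the elements of `g3`
  have hlift : ∀ t : ResidueField (ball L), ∃ t' d a : L, t ∈ g3 → d ∈ A1 ∧ a ∈ A1 ∧
      (ball L).valuation d = 1 ∧ MonV (resV V (ball L) h) B3 ub (rs (ball L) d) ∧ t' * d = a ∧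
      t' ∈ V ∧ rs (ball L) t' = t := by
    intro t
    by_cases ht : t ∈ g3
    · have htB : t ∈ B3 := le_locV _ _ (Subring.subset_closure (Or.inr ht))
      obtain ⟨D, hD, hDm, hDt⟩ := hG3.den t htB
      obtain ⟨t', d, a, h1, h2, h3, h4, h5, h6, h7⟩ := E6_lift h A1 hA1V t (hg3V t ht) D hD
        (hDm.ne hG3.ind.ne) hDt
      exact ⟨t', d, a, fun _ => ⟨h1, h2, h3, by rw [h4]; exact hDm, h5, h6, h7⟩⟩
    · exact ⟨0, 0, 0, fun h' => absurd h' ht⟩
  choose lt ld la hlift using hlift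
  let g3' : Finset L := g3.image lt
  have hg3'V : ∀ t ∈ g3', t ∈ V := by
    intro t ht
    obtain ⟨s, hs, rfl⟩ := Finset.mem_image.1 ht
    exact (hlift s hs).2.2.2.2.2.1
  set B2 := Subring.closure ((A1 : Set L) ∪ (g3' : Set L)) with hB2
  set G2 : Finset L := G₁ ∪ g3' with hG2
  have hG2V : ∀ t ∈ G2, t ∈ V := by
    intro t ht
    rcases Finset.mem_union.1 ht with ht | ht
    · exact hG₁ t ht
    · exact hg3'V t ht
  set A2 : Subring L := RG k V (G2 : Set L) with hA2def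
  have hA2 : A2 = locV V B2 := by
    rw [hA2def, hB2, hA1def, RG_union, hG2, Finset.coe_union]
  have hA1B2 : A1 ≤ B2 := fun z hz => Subring.subset_closure (Or.inl hz)
  have hB2V : B2 ≤ V.toSubring := by
    rw [hB2, Subring.closure_le]
    rintro z (hz | hz)
    · exact hA1V hz
    · exact hg3'V z hz
  have hB2A2 : B2 ≤ A2 := by
    rw [hA2]
    exact le_locV _ _
  have hA2V : A2 ≤ V.toSubring := RG_le hV hG2V
  have hA2V1 : A2 ≤ (ball L).toSubring := fun z hz => h (hA2V hz)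
  have hloc2 : locV V A2 = A2 := locV_RG _
  have hA12 : A1 ≤ A2 := hA1B2.trans hB2A2
  have him : im (ball L) A2 = B3 := by
    rw [hA2, im_locV h B2 hB2V, hB2, im_closure (ball L) A1 hA1V1 _ (fun z hz => h (hg3'V z hz)),
      hB3]
    congr 3
    ext w
    constructor
    · rintro ⟨z, hz, rfl⟩
      obtain ⟨s, hs, rfl⟩ := Finset.mem_image.1 hz
      rw [← rs_eq, (hlift s hs).2.2.2.2.2.2]
      exact hs
    · intro hw
      refine ⟨lt w, Finset.mem_image_of_mem _ hw, ?_⟩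
      rw [← rs_eq, (hlift w hw).2.2.2.2.2.2]
  have hlB3 : ∀ t ∈ B3, ∃ z ∈ A2, rs (ball L) z = t := by
    intro t ht
    rw [← him] at ht
    exact (mem_im_iff hA2V1 _).1 ht
  -- lift the parameters
  have hub : ∀ j, ∃ z ∈ A2, rs (ball L) z = ub j := fun j => hlB3 _ (hG3.mem j)
  choose u huA hub using hub
  have hu1 : ∀ j, (ball L).valuation (u j) = 1 := fun j =>
    rs_val_one (hA2V1 (huA j)) (by rw [hub]; exact hG3.ind.ne j)
  have hun1 : ∀ j, ‖u j‖ = 1 := fun j => (ball_val_eq_one _).1 (hu1 j)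
  have hult : ∀ j, V.valuation (u j) < 1 := fun j => by
    rw [← rs_resV_lt h (hA2V (huA j)), hub]
    exact hG3.lt j
  have hubf : (fun j => rs (ball L) (u j)) = ub := funext hub
  have hui : IndV V u := by
    refine ⟨fun j => hne (hu1 j), fun δ hδ => hG3.ind.indep δ ?_⟩
    have h1 : Abh.mon u δ ∈ V := (V.valuation_le_one_iff _).1 hδ.le
    rw [← hubf, ← rs_mon u hu1, rs_resV_val h h1]
    exact hδ
  have hwb : ∀ j, ∃ z ∈ A2, rs (ball L) z = wb j := fun j => hlB3 _ (hG3.wmem j)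
  choose q hqA hwb using hwb
  have hqlt : ∀ j, V.valuation (q j) < 1 := fun j => by
    rw [← rs_resV_lt h (hA2V (hqA j)), hwb]
    exact hG3.wlt j
  have hgen : ∀ z ∈ A2, V.valuation z < 1 → ∃ (c : Fin r₂ → L) (d : Fin hh → L),
      (∀ j, c j ∈ A2) ∧ (∀ j, d j ∈ A2) ∧
      ‖z - (∑ j, c j * u j + ∑ j, d j * q j)‖ < 1 := by
    intro z hz hz1
    have h1 : rs (ball L) z ∈ B3 := by
      rw [← him]; exact (mem_im_iff hA2V1 _).2 ⟨z, hz, rfl⟩
    obtain ⟨cb, db, hcb, hdb, hs⟩ := hG3.gen _ h1 ((rs_resV_lt h (hA2V hz)).2 hz1)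
    have h2 : ∀ j, ∃ z ∈ A2, rs (ball L) z = cb j := fun j => hlB3 _ (hcb j)
    choose c hc hcr using h2
    have h2' : ∀ j, ∃ z ∈ A2, rs (ball L) z = db j := fun j => hlB3 _ (hdb j)
    choose d hd hdr using h2'
    refine ⟨c, d, hc, hd, ?_⟩
    have h3 := rs_sum (V1 := ball L) Finset.univ (fun j => c j * u j) fun j _ =>
      (ball L).mul_mem _ _ (hA2V1 (hc j)) (hA2V1 (huA j))
    have h3' := rs_sum (V1 := ball L) Finset.univ (fun j => d j * q j) fun j _ =>
      (ball L).mul_mem _ _ (hA2V1 (hd j)) (hA2V1 (hqA j))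
    have h4 : ∑ j, rs (ball L) (c j * u j) = ∑ j, cb j * ub j :=
      Finset.sum_congr rfl fun j _ => by
        rw [rs_mul (hA2V1 (hc j)) (hA2V1 (huA j)), hcr, hub]
    have h4' : ∑ j, rs (ball L) (d j * q j) = ∑ j, db j * wb j :=
      Finset.sum_congr rfl fun j _ => by
        rw [rs_mul (hA2V1 (hd j)) (hA2V1 (hqA j)), hdr, hwb]
    have h5 := (ball L).add_mem _ _ h3.2 h3'.2
    rw [← ball_val_lt_one, ← rs_eq_zero ((ball L).sub_mem (hA2V1 hz) h5), rs_sub (hA2V1 hz) h5,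
      rs_add h3.2 h3'.2, h3.1, h3'.1, h4, h4', hs, sub_self]
  -- monomial residues
  have hmonres : ∀ w ∈ A2, MonV (resV V (ball L) h) B3 ub (rs (ball L) w) →
      ∃ ε ∈ A2, V.valuation ε = 1 ∧ ∃ β : Fin r₂ → ℕ, ‖w - ε * monN u β‖ < 1 := by
    intro w hw hm
    obtain ⟨eb, heb, heb1, β, he⟩ := hm
    obtain ⟨ε, hε, hεr⟩ := hlB3 eb heb
    refine ⟨ε, hε, ?_, β, ?_⟩
    · rw [← rs_resV_val h (hA2V hε), hεr]; exact heb1
    · have h1 : monN u β ∈ ball L := hA2V1 (E0_monN_mem _ huA β)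
      have h2 : ε * monN u β ∈ ball L := (ball L).mul_mem _ _ (hA2V1 hε) h1
      rw [← ball_val_lt_one, ← rs_eq_zero ((ball L).sub_mem (hA2V1 hw) h2), rs_sub (hA2V1 hw) h2,
        rs_mul (hA2V1 hε) h1, hεr, rs_monN u (fun j => hA2V1 (huA j)), hubf, ← he, sub_self]
  -- a uniform denominator in `A2`
  let Good : L → Prop := fun b => b ∈ A2 ∧ ‖b‖ = 1 ∧
    MonV (resV V (ball L) h) B3 ub (rs (ball L) b)
  have hGood1 : Good 1 := ⟨A2.one_mem, norm_one, by rw [rs_one]; exact MonV.one⟩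
  have hGoodm : ∀ a b, Good a → Good b → Good (a * b) := by
    rintro a b ⟨ha, ha1, ham⟩ ⟨hb, hb1, hbm⟩
    exact ⟨mul_mem ha hb, by rw [norm_mul, ha1, hb1, one_mul],
      by rw [rs_mul (hA2V1 ha) (hA2V1 hb)]; exact ham.mul hbm⟩
  have hGoodW : ∀ w ∈ W1, Good w := by
    intro w hw
    exact ⟨hA12 (hW1 w hw).1, (hW1 w hw).2,
      hM3 _ (Finset.mem_image_of_mem _ (Finset.mem_union_left _ hw))⟩
  have hbW1 : b ∈ W1 :=
    Finset.mem_union_right _ (Finset.mem_union_right _ (Finset.mem_singleton_self b))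
  have hdB2 : ∀ a ∈ B2, ∃ d, Good d ∧ d ∈ A1 ∧ d * a ∈ A1 := by
    intro a ha
    refine Subring.closure_induction (p := fun a _ => ∃ d, Good d ∧ d ∈ A1 ∧ d * a ∈ A1)
      ?_ ?_ ?_ ?_ ?_ ?_ ha
    · rintro a (ha | ha)
      · exact ⟨1, hGood1, A1.one_mem, by rw [one_mul]; exact ha⟩
      · obtain ⟨s, hs, rfl⟩ := Finset.mem_image.1 ha
        obtain ⟨h1, h2, h3, h4, h5, h6, h7⟩ := hlift s hs
        exact ⟨ld s, ⟨hA12 h1, (ball_val_eq_one _).1 h3, h4⟩, h1,
          by rw [mul_comm, h5]; exact h2⟩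
    · exact ⟨1, hGood1, A1.one_mem, by rw [mul_zero]; exact A1.zero_mem⟩
    · exact ⟨1, hGood1, A1.one_mem, by rw [mul_one]; exact A1.one_mem⟩
    · rintro a c _ _ ⟨d, hd, hdA, hda⟩ ⟨e, he, heA, hec⟩
      refine ⟨d * e, hGoodm _ _ hd he, mul_mem hdA heA, ?_⟩
      have : d * e * (a + c) = e * (d * a) + d * (e * c) := by ring
      rw [this]
      exact add_mem (mul_mem heA hda) (mul_mem hdA hec)
    · rintro a _ ⟨d, hd, hdA, hda⟩
      exact ⟨d, hd, hdA, by rw [mul_neg]; exact neg_mem hda⟩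
    · rintro a c _ _ ⟨d, hd, hdA, hda⟩ ⟨e, he, heA, hec⟩
      refine ⟨d * e, hGoodm _ _ hd he, mul_mem hdA heA, ?_⟩
      have : d * e * (a * c) = (d * a) * (e * c) := by ring
      rw [this]
      exact mul_mem hda hec
  obtain ⟨b2, hb2, hb2P⟩ := exists_bound hV G2 hG2V (monS k e X ∪ Set.range p)
    Good hGood1 hGoodm (fun a ha => ha.1) (by
      intro z hz hz1
      have hz' : z ∈ locV V B2 := by
        rw [← hA2]
        exact hz
      obtain ⟨a, ha, c, hc, hc1, hzc⟩ := hz'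
      obtain ⟨d, hd, hdA, hda⟩ := hdB2 a ha
      have hcn : ‖c‖ = 1 := hV.norm_eq_one hc1
      have hc0 : c ≠ 0 := hne1 hcn
      have hci : c⁻¹ ∈ A2 := E5_inv hloc2 (hB2A2 hc) hc1
      have hda1 : ‖d * a‖ < 1 := by
        rw [norm_mul, hd.2.1, one_mul, ← hzc, norm_mul, hcn, mul_one]
        exact hz1
      have h1 := hbP (d * a) hda hda1
      refine ⟨b * d, hGoodm _ _ (hGoodW b hbW1) hd, ?_⟩
      have h2 : b * d * z = b * (d * a) * c⁻¹ := by
        have h3 : z = a * c⁻¹ := by rw [← hzc, mul_assoc, mul_inv_cancel₀ hc0, mul_one]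
        rw [h3]
        ring
      rw [h2]
      exact SP_mul' hci (SP_mono hA12 subset_rfl h1))
  obtain ⟨N, zs, hzs, hzsP⟩ := exists_zs hV G2 hG2V
  -- apply the last step
  obtain ⟨c, π, y, Gz, A3, hA3, hVP, hnew, hy, hGz, hWm, hLm⟩ :=
    step1 hV A2 hA2V hloc2 (cS_le_RG _) e hB.ne hB.ind p hB.wlt u huA hun1 hui hult q hqA hqlt hgen
    zs hzs hzsP X hX (insert b2 (W1 ∪ g3.image ld)) b2 (Finset.mem_insert_self _ _)
    (fun l => hb2P _ (hzs l).1 (hzs l).2) (by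
      intro w hw
      rcases Finset.mem_insert.1 hw with rfl | hw
      · exact ⟨hb2.1, hb2.2.1, hmonres _ hb2.1 hb2.2.2⟩
      rcases Finset.mem_union.1 hw with hw | hw
      · exact ⟨(hGoodW w hw).1, (hGoodW w hw).2.1, hmonres _ (hGoodW w hw).1 (hGoodW w hw).2.2⟩
      · obtain ⟨s, hs, rfl⟩ := Finset.mem_image.1 hw
        obtain ⟨h1, h2, h3, h4, h5, h6, h7⟩ := hlift s hs
        exact ⟨hA12 h1, (ball_val_eq_one _).1 h3, hmonres _ (hA12 h1) h4⟩)
    Ls (by
      intro f hf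
      obtain ⟨h1, h2, h3, h4, hc0, h5⟩ := hLe f (hLsDf f hf)
      refine ⟨(hL f hf).1, w1 f, ?_, w2 f, ?_, zf f, cf f, hc0, h5, ?_⟩
      · exact Finset.mem_insert_of_mem (Finset.mem_union_left _
          (Finset.mem_union_left _ (Finset.mem_image_of_mem _ (hLsDf f hf))))
      · exact Finset.mem_insert_of_mem (Finset.mem_union_left _
          (Finset.mem_union_right _ (Finset.mem_union_left _
            (Finset.mem_image_of_mem _ (hLsDf f hf)))))
      · intro h0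
        have hf1 : ‖f‖ = 1 := by
          have h6 := congrArg norm h5
          rw [norm_mul, norm_mul, h3, h4, h0, mul_one, mul_one] at h6
          exact h6
        obtain ⟨eb, heb, heb1, γ, he⟩ := hM3 _ (Finset.mem_image_of_mem _
          (Finset.mem_union_right _ (Finset.mem_filter.2 ⟨hf, hf1⟩)))
        obtain ⟨ε, hε, hεr⟩ := hlB3 eb heb
        have hε1 : V.valuation ε = 1 := by
          rw [← rs_resV_val h (hA2V hε), hεr]; exact heb1
        refine ⟨γ, ?_⟩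
        have hfV := (hL f hf).1
        have h7 : monN u γ ∈ ball L := hA2V1 (E0_monN_mem _ huA γ)
        have h8 : ε * monN u γ ∈ ball L := (ball L).mul_mem _ _ (hA2V1 hε) h7
        have h9 : (ball L).valuation (f - ε * monN u γ) < 1 := by
          rw [← rs_eq_zero ((ball L).sub_mem (h hfV) h8), rs_sub (h hfV) h8,
            rs_mul (hA2V1 hε) h7, hεr, rs_monN u (fun j => hA2V1 (huA j)), hubf, ← he, sub_self]
        have h10 : (ball L).valuation (ε * monN u γ) = 1 := by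
          rw [map_mul, C1_val_one_of_le h hε1, one_mul]
          unfold monN
          rw [map_prod]
          exact Finset.prod_eq_one fun j _ => by rw [map_pow, hu1, one_pow]
        have h11 : V.valuation ((f - ε * monN u γ) / (ε * monN u γ)) < 1 := by
          refine C1_lt_of_lt h ?_
          rw [map_div₀, h10, div_one]
          exact h9
        have h12 : f = (1 + (f - ε * monN u γ) / (ε * monN u γ)) * (ε * monN u γ) := by
          rw [add_mul, one_mul, div_mul_cancel₀ _ (hne h10)]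
          ring
        rw [h12, map_mul, E5_val_add (map_one _) h11, one_mul, map_mul, hε1, one_mul])
  let G : Finset L := G2 ∪ (Finset.univ.image (DA.tor k (Fin.append e u) c π) ∪
    Finset.univ.image y ∪ Gz)
  have hA3G : A3 = RG k V (G : Set L) := by
    rw [hA3, hA2def, RG_union]
    congr 1
    simp [G, Set.union_assoc]
  have hA23 : A2 ≤ A3 := by
    rw [hA3]
    exact fun z hz => le_locV _ _ (Subring.subset_closure (Or.inl hz))
  have hloc3 : locV V A3 = A3 := by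
    rw [hA3G]
    exact locV_RG _
  have hyV : ∀ j, y j ∈ V := fun j => by
    have := hVP.wlt (Fin.castAdd hh j)
    rw [Fin.append_left] at this
    exact (V.valuation_le_one_iff _).1 this.le
  have hGV : ∀ t ∈ G, t ∈ V := by
    intro t ht
    rcases Finset.mem_union.1 ht with ht | ht
    · exact hG2V t ht
    rcases Finset.mem_union.1 ht with ht | ht
    · rcases Finset.mem_union.1 ht with ht | ht
      · obtain ⟨i, -, rfl⟩ := Finset.mem_image.1 ht
        exact (V.valuation_le_one_iff _).1 (hVP.lt i).le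
      · obtain ⟨j, -, rfl⟩ := Finset.mem_image.1 ht
        exact hyV j
    · exact (hGz t ht).1
  have himA3 : im (ball L) A3 = B3 := by
    have h1 : A3 = locV V (Subring.closure ((A2 : Set L) ∪
        {x | x ∈ Set.range (DA.tor k (Fin.append e u) c π) ∪ Set.range y ∪ (Gz : Set L) ∧
          ‖x‖ < 1})) := by
      rw [hA3]
      congr 1
      apply le_antisymm
      · rw [Subring.closure_le]
        rintro x (hx | hx)
        · exact Subring.subset_closure (Or.inl hx)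
        · rcases hnew x hx with h1 | h1
          · exact Subring.subset_closure (Or.inr ⟨hx, h1⟩)
          · exact Subring.subset_closure (Or.inl h1)
      · exact Subring.closure_mono (Set.union_subset_union_right _ fun x hx => hx.1)
    rw [h1, im_adjoin hV hA2V hloc2 (fun x hx => hx.2), him]
  -- denominators
  have hne' : ∀ i, (Fin.append e u) i ≠ 0 := hVP.ne
  have huMU : ∀ j, MU k V A3 (Fin.append e u) (u j) := fun j => by
    have := MU.var (k := k) (V := V) (B := A3) (e := Fin.append e u) (Fin.natAdd r j)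
    rwa [Fin.append_right] at this
  have hmonMU : ∀ (z : Fin r → ℤ) (c' : k), c' ≠ 0 →
      MU k V A3 (Fin.append e u) (DA.mon k e z c') := by
    intro z c' hc'
    have h1 := MU.mon (V := V) (B := A3) (e := Fin.append e u) (Fin.append z (0 : Fin r₂ → ℤ)) hc'
    rw [mon_append] at h1
    simpa using h1
  have hDfm : ∀ f ∈ Df, MU k V A3 (Fin.append e u) f := by
    intro f hf
    obtain ⟨h1, h2, h3, h4, hc0, h5⟩ := hLe f hf
    have h6 : MU k V A3 (Fin.append e u) (w1 f) := hWm _ (Finset.mem_insert_of_mem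
      (Finset.mem_union_left _ (Finset.mem_union_left _ (Finset.mem_image_of_mem _ hf))))
    have h7 : MU k V A3 (Fin.append e u) (w2 f) := hWm _ (Finset.mem_insert_of_mem
      (Finset.mem_union_left _ (Finset.mem_union_right _ (Finset.mem_union_left _
        (Finset.mem_image_of_mem _ hf)))))
    have h8 : f = w1 f * DA.mon k e (zf f) (cf f) * (w2 f)⁻¹ := by
      rw [← h5, mul_assoc, mul_inv_cancel₀ (hne1 h4), mul_one]
    rw [h8]
    exact (h6.mul hne' (hmonMU _ _ hc0)).mul hne' (h7.inv hloc3)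
  have hDnG₁ : ∀ t ∈ G₁, Dn k V A A3 (Fin.append e u) t := by
    intro t ht
    obtain ⟨h1, h2, -, h4⟩ := hgnd t ht
    exact ⟨gn t, h1, gd t, h2, hDfm _ (Finset.mem_union_right _ (Finset.mem_union_left _
      (Finset.mem_image_of_mem _ ht))), h4⟩
  have hDne : ∀ i, Dn k V A A3 (Fin.append e u) (e i) := fun i =>
    ⟨en i, hen i, ed i, hed i, hDfm _ (Finset.mem_union_right _ (Finset.mem_union_right _
      (Finset.mem_image_of_mem _ (Finset.mem_univ i)))), hedq i⟩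
  have hDnA1 : ∀ x ∈ A1, Dn k V A A3 (Fin.append e u) x :=
    Dn.of_RG hne' (fun t ht => hDnG₁ t ht) fun x hx hx1 =>
      MU.of_unit (hA23 (hA12 (closure_le_RG _ hx))) hx1
  have hDnG2 : ∀ t ∈ G2, Dn k V A A3 (Fin.append e u) t := by
    intro t ht
    rcases Finset.mem_union.1 ht with ht | ht
    · exact hDnG₁ t ht
    · obtain ⟨s, hs, rfl⟩ := Finset.mem_image.1 ht
      obtain ⟨h1, h2, h3, h4, h5, h6, h7⟩ := hlift s hs
      have h8 : lt s = la s * (ld s)⁻¹ := by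
        rw [← h5, mul_assoc, mul_inv_cancel₀ (hne h3), mul_one]
      rw [h8]
      exact (hDnA1 _ h2).mul hne' ((hDnA1 _ h1).inv hne' (hWm _ (Finset.mem_insert_of_mem
        (Finset.mem_union_right _ (Finset.mem_image_of_mem _ hs)))))
  have hDnA2 : ∀ x ∈ A2, Dn k V A A3 (Fin.append e u) x :=
    Dn.of_RG hne' (fun t ht => hDnG2 t ht) fun x hx hx1 =>
      MU.of_unit (hA23 (closure_le_RG _ hx)) hx1
  have hDne' : ∀ i, Dn k V A A3 (Fin.append e u) (Fin.append e u i) := by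
    intro i
    refine Fin.addCases (fun i => ?_) (fun j => ?_) i
    · rw [Fin.append_left]
      exact hDne i
    · rw [Fin.append_right]
      exact hDnA2 _ (huA j)
  have hmonN0 : ∀ β : Fin r₂ → ℕ, monN u β ≠ 0 := fun β =>
    (monN_MU hne' u huMU β).ne hne'
  have hDnmonN : ∀ β : Fin r₂ → ℕ, Dn k V A A3 (Fin.append e u) (monN u β) := fun β =>
    hDnA2 _ (E0_monN_mem _ huA β)
  have hquot : ∀ (t : L) (β : Fin r₂ → ℕ), Dn k V A A3 (Fin.append e u) (t * monN u β) →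
      Dn k V A A3 (Fin.append e u) t := by
    intro t β ht
    have h1 : t = t * monN u β * (monN u β)⁻¹ := by
      rw [mul_assoc, mul_inv_cancel₀ (hmonN0 β), mul_one]
    rw [h1]
    exact ht.mul hne' ((hDnmonN β).inv hne' (monN_MU hne' u huMU β))
  have hDnG : ∀ t ∈ G, Dn k V A A3 (Fin.append e u) t := by
    intro t ht
    rcases Finset.mem_union.1 ht with ht | ht
    · exact hDnG2 t ht
    rcases Finset.mem_union.1 ht with ht | ht
    · rcases Finset.mem_union.1 ht with ht | ht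
      · obtain ⟨i, -, rfl⟩ := Finset.mem_image.1 ht
        exact Dn_tor hne' hDne' c hVP.c_ne π i
      · obtain ⟨j, -, rfl⟩ := Finset.mem_image.1 ht
        obtain ⟨β, hβ⟩ := hy j
        refine hquot _ β ?_
        rw [hβ]
        exact hDnA1 _ (hpA j)
    · obtain ⟨-, β, hβ⟩ := hGz t ht
      exact hquot _ β (hDnA2 _ hβ)
  rw [hA3G] at hVP hLm hDnG himA3
  refine ⟨hh, Fin.append e u, c, π, Fin.append y q, G, hGV, hVP, ?_, hLm, hDnG⟩
  intro m y' hy' hRI'
  refine dim_res hV G hGV hRD (n' := r₂ + hh) ?_ y' hy' hRI'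
  rw [himA3]
  exact hG3.dim

theorem step2 (hV : OvR k V) {r h₁ r₂ m₀ : ℕ} {e : Fin r → L} {p : Fin h₁ → L} (G₁ : Finset L)
    (hG₁ : ∀ t ∈ G₁, t ∈ V) (hB : BPar k e p (RG k (ball L) (G₁ : Set L)))
    (A : Subalgebra k L) (heD : ∀ i, Dn k (ball L) A (RG k (ball L) (G₁ : Set L)) e (e i))
    (hGD : ∀ t ∈ G₁, Dn k (ball L) A (RG k (ball L) (G₁ : Set L)) e t)
    (h2 : TC.EMB3 (resV V (ball L) hV.le) (im (ball L) (RG k V (G₁ : Set L))) r₂)
    (hRD : RDep k L m₀) (Ls : Finset L)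
    (hL : ∀ f ∈ Ls, f ∈ V ∧ MU k (ball L) (RG k (ball L) (G₁ : Set L)) e f) :
    ∃ (hh : ℕ) (e' : Fin (r + r₂) → L) (c : Fin (r + r₂) → k) (π : k) (w : Fin (h₁ + hh) → L)
      (G : Finset L), (∀ t ∈ G, t ∈ V) ∧ VPar k V e' c π w (RG k V (G : Set L)) ∧
      (∀ (m : ℕ) (y : Fin m → L), (∀ j, y j ∈ RG k V (G : Set L)) → RI k V y →
        r₂ + hh + m ≤ m₀) ∧
      (∀ f ∈ Ls, MU k V (RG k V (G : Set L)) e' f ∧ f ∈ RG k V (G : Set L)) ∧
      ∀ t ∈ G, Dn k V A (RG k V (G : Set L)) e' t := by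
  obtain ⟨p', hp', hB'⟩ := wlog_p hV (G₁ : Set L) hB
  exact step2_aux hV G₁ hG₁ hB' hp' A heD hGD h2 hRD Ls hL

end

end CS
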