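import Pool.Agent.Lib.CS.Main
import Pool.Agent.Lib.DS.Charts

/-!
# Charts in the sense of DS
-/

open Polynomial MP1a953e IsLocalRing DA

namespace CS
open Pool.Agent.Lib.MP_3029eb_ag Pool.Agent.Lib.MP_3029eb_ag.Abh

theorem charts_comp {p : ℕ} [Fact p.Prime] {k L : Type} [NontriviallyNormedField k]
    [IsUltrametricDist k] [IsAlgClosed k] (hp : ‖(p : k)‖ < 1) [NormedField L]
    [IsUltrametricDist L] [NormedAlgebra k L] (hfg : (⊤ : IntermediateField k L).FG) {r m : ℕ}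
    (e : Fin r → L) (hne : ∀ i, e i ≠ 0)
    (hind : ∀ (z : Fin r → ℤ) (c : k), ‖c‖ = ‖∏ i, e i ^ z i‖ → z = 0)
    (htors : ∀ x : L, x ≠ 0 → ∃ n : ℕ, 0 < n ∧ ∃ (z : Fin r → ℤ) (c : k),
      ‖x‖ ^ n = ‖c‖ * ‖∏ i, e i ^ z i‖)
    (hres : Algebra.trdeg (ResidueField (O k)) (ResidueField (O L)) = ((m : ℕ) : Cardinal))
    {δ : ℕ} (hδ : δ ≤ 1) (htr : Algebra.trdeg k L = ((r + m + δ : ℕ) : Cardinal))
    {V : ValuationSubring L} {r₂ : ℕ} (hV : VComp k V r₂)
    (hc : ∀ c : k, ‖c‖ ≤ 1 → algebraMap k L c ∈ V) :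
    DS.Charts k V (r + r₂) := by
  intro A hA hle hfr S hS
  obtain ⟨n, f, h1, h2, h3, h4, ϖ, h5, h6, φ, h7, h8, h9⟩ :=
    main (p := p) hp hfg e hne hind htors hres hδ htr hV hc A hA hle S hS
  refine ⟨_, ?_, DS.adm_of_blowup h1 h2 h3, h4, ϖ, h5, h6,
    φ.comp (DS.SS.equiv (r + r₂) ϖ).symm.toAlgHom, ?_, h8, ?_⟩
  · refine hA.sup ⟨(Set.finite_range fun i => f i / f 0).toFinset, ?_⟩
    rw [Set.Finite.coe_toFinset]
  · exact h7
  · intro x hx
    obtain ⟨z, c, v, hc0, hv, hv', hxe⟩ := h9 x hx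
    have hx0 := hS x hx
    have hv0 : v ≠ 0 := by
      rintro rfl
      rw [mul_zero] at hxe
      exact hx0 hxe
    -- the coordinates are not zero
    have hprod : ∏ i, (φ (SSr.x i) : L) = algebraMap k L (ϖ : k) := by
      have h10 := congrArg (fun t => ((φ ((DS.SS.equiv (r + r₂) ϖ).symm t) :
        ↥(A ⊔ Algebra.adjoin (O k) (Set.range fun i => f i / f 0))) : L))
        (DS.SS.prod_x (r + r₂) ϖ)
      simp only [map_prod, AlgEquiv.commutes, AlgHom.commutes] at h10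
      rw [← Subalgebra.coe_val, map_prod] at h10
      exact h10
    have hne' : ∀ i, (φ (SSr.x i) : L) ≠ 0 := by
      intro i h0
      have h11 : ∏ i, (φ (SSr.x i) : L) = 0 := Finset.prod_eq_zero (Finset.mem_univ i) h0
      rw [hprod] at h11
      exact h5 (Subtype.ext ((map_eq_zero (algebraMap k L)).1 h11))
    refine ⟨fun i => (-z i).toNat, fun i => (z i).toNat, c, v, v⁻¹, hc0, hv, hv',
      mul_inv_cancel₀ hv0, ?_⟩
    have h12 : ∀ i, (φ (SSr.x i) : L) ^ z i * (φ (SSr.x i) : L) ^ (-z i).toNat =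
        (φ (SSr.x i) : L) ^ (z i).toNat := by
      intro i
      rw [← zpow_natCast, ← zpow_natCast, ← zpow_add₀ (hne' i)]
      congr 1
      omega
    show x * ∏ i, (φ (SSr.x i) : L) ^ (-z i).toNat =
      algebraMap k L c * (∏ i, (φ (SSr.x i) : L) ^ (z i).toNat) * v
    rw [hxe, ← Finset.prod_congr rfl fun i _ => h12 i, Finset.prod_mul_distrib]
    ring

end CS
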