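import Pool.Agent.Lib.CS.Basic
import Pool.Agent.Lib.DS.N3
import Pool.Agent.Lib.DA.S2

/-!
# Module CS.TorE: the ring of the toric coordinates of algebraically independent elements
-/

open Polynomial MP1a953e

namespace CS

/-- scaling of algebraically independent elements -/
private theorem algInd_div {k L ι : Type*} [Field k] [Field L] [Algebra k L] {e : ι → L}
    (he : AlgebraicIndependent k e) {c : ι → k} (hc : ∀ i, c i ≠ 0) :
    AlgebraicIndependent k fun i => e i / algebraMap k L (c i) := by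
  let σ : MvPolynomial ι k →ₐ[k] MvPolynomial ι k :=
    MvPolynomial.aeval fun i => MvPolynomial.C (c i)⁻¹ * MvPolynomial.X i
  let τ : MvPolynomial ι k →ₐ[k] MvPolynomial ι k :=
    MvPolynomial.aeval fun i => MvPolynomial.C (c i) * MvPolynomial.X i
  have h1 : τ.comp σ = AlgHom.id k _ := by
    apply MvPolynomial.algHom_ext
    intro i
    simp only [σ, τ, AlgHom.comp_apply, MvPolynomial.aeval_X, map_mul, AlgHom.id_apply]
    rw [MvPolynomial.algHom_C, MvPolynomial.algebraMap_eq, ← mul_assoc, ← MvPolynomial.C_mul,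
      inv_mul_cancel₀ (hc i), MvPolynomial.C_1, one_mul]
  have hσ : Function.Injective σ := fun x y hxy => by
    have h2 := congrArg τ hxy
    rw [← AlgHom.comp_apply, ← AlgHom.comp_apply, h1] at h2
    exact h2
  have h3 : (MvPolynomial.aeval fun i => e i / algebraMap k L (c i) :
      MvPolynomial ι k →ₐ[k] L) = (MvPolynomial.aeval e).comp σ := by
    apply MvPolynomial.algHom_ext
    intro i
    simp only [σ, AlgHom.comp_apply, MvPolynomial.aeval_X, map_mul]
    rw [MvPolynomial.algHom_C, map_inv₀, div_eq_mul_inv, mul_comm]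
  rw [AlgebraicIndependent, h3]
  exact Function.Injective.comp (g := MvPolynomial.aeval e) he hσ

section
variable {k : Type} {L : Type} [NormedField k] [IsUltrametricDist k] [NormedField L]
  [IsUltrametricDist L] [NormedAlgebra k L]

/-- Proof.  The elements `tor k e c π (i + 1) = e i / c i` are algebraically independent over `k` (substitution
`X i ↦ X i / c i`), their product with `tor k e c π 0` is `π` (`DA.prod_tor`), so `DS.SS.lift` gives a homomorphism
`DS.SS r ϖ →ₐ[O k] L` with `x i ↦ tor i`, injective by `DS.injective_ss` (Pool/Agent/Lib/DS/N1.lean), whose range is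
`DA.Tt k e c π` (`DS.SS.mk_surjective`, `Algebra.adjoin_range_eq_range_aeval`). Compose with `DS.SS.equiv`. -/
theorem exists_ss_equiv' {r : ℕ} {e : Fin r → L} (he : AlgebraicIndependent k e)
    {c : Fin r → k} {π : k} (hc : ∀ i, c i ≠ 0) (hπ : π ≠ 0) {ϖ : O k} (hϖ : (ϖ : k) = π) :
    ∃ ψ : DA.SSr r ϖ ≃ₐ[O k] ↥(DA.Tt k e c π),
      ∀ i, ((ψ (DA.SSr.x i) : DA.Tt k e c π) : L) = DA.tor k e c π i := by
  have hne : ∀ i, e i ≠ 0 := fun i => he.ne_zero i
  have hprod := DA.prod_tor (k := k) hne hc π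
  have hϖ0 : ϖ ≠ 0 := by
    rintro rfl
    exact hπ hϖ.symm
  let f : DS.SS r ϖ →ₐ[O k] L := DS.SS.lift (DA.tor k e c π) (by
    rw [hprod, ← hϖ]
    rfl)
  have hfx : ∀ i, f (DS.SS.x i) = DA.tor k e c π i := DS.SS.lift_x _ _
  have hind : AlgebraicIndependent k fun j : Fin r => f (DS.SS.x j.succ) := by
    have h1 : (fun j : Fin r => f (DS.SS.x j.succ)) = fun j => e j / algebraMap k L (c j) := by
      funext j
      rw [hfx]
      simp only [DA.tor, Fin.cons_succ]
    rw [h1]
    exact algInd_div he hc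
  have hinj : Function.Injective f := DS.injective_ss hϖ0 f hind
  have hrange : f.range = DA.Tt k e c π := by
    have h1 : f.range = (f.comp (DS.SS.mk r ϖ)).range := by
      ext x
      constructor
      · rintro ⟨y, rfl⟩
        obtain ⟨z, rfl⟩ := DS.SS.mk_surjective r ϖ y
        exact ⟨z, rfl⟩
      · rintro ⟨z, rfl⟩
        exact ⟨_, rfl⟩
    have h2 : f.comp (DS.SS.mk r ϖ) = MvPolynomial.aeval (DA.tor k e c π) := by
      apply MvPolynomial.algHom_ext
      intro i
      rw [AlgHom.comp_apply, DS.SS.mk_X, hfx, MvPolynomial.aeval_X]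
    rw [h1, h2, DA.Tt, Algebra.adjoin_range_eq_range_aeval]
  refine ⟨((DS.SS.equiv r ϖ).trans (AlgEquiv.ofInjective f hinj)).trans
    (Subalgebra.equivOfEq _ _ hrange), fun i => ?_⟩
  exact hfx i

/-- Proof.  `exists_ss_equiv'`, `DS.SS.equiv` and `DS.isIntegrallyClosed_ss` (Pool/Agent/Lib/DS/N3.lean), with
`IsIntegrallyClosed.of_equiv` (`DS.SS r ϖ` is a domain: `DS.isDomain_ss`). -/
theorem isIntegrallyClosed_Tt {k : Type} {L : Type} [NontriviallyNormedField k]
    [IsUltrametricDist k] [NormedField L] [IsUltrametricDist L] [NormedAlgebra k L] {r : ℕ}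
    {e : Fin r → L} (he : AlgebraicIndependent k e) {c : Fin r → k} {π : k} (hc : ∀ i, c i ≠ 0)
    (hπ : π ≠ 0) (hπ1 : ‖π‖ < 1) : IsIntegrallyClosed ↥(DA.Tt k e c π) := by
  let ϖ : O k := ⟨π, mem_O.2 hπ1.le⟩
  have hϖ : ϖ ≠ 0 := fun h => hπ (congrArg Subtype.val h)
  obtain ⟨ψ, -⟩ := exists_ss_equiv' he hc hπ (ϖ := ϖ) rfl
  have h1 := DS.isDomain_ss (k := k) r hϖ
  have h2 := DS.isIntegrallyClosed_ss (k := k) r hϖ hπ1
  exact IsIntegrallyClosed.of_equiv ((DS.SS.equiv r ϖ).symm.trans ψ).toRingEquiv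

end

end CS
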