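import Pool.Agent.Lib.CS.VDefs
import Pool.Agent.Lib.DA.E2

/-!
# Module CS.UnrV: charts are unramified at the centre
-/

/-!
# Module CS.UnrV: charts are unramified at the centre
-/

open Polynomial MP1a953e IsLocalRing

namespace CS
open Pool.Agent.Lib.MP_3029eb_ag Pool.Agent.Lib.MP_3029eb_ag.Abh

private theorem unrV_sep {F K : Type*} [Field F] [Field K] [Algebra F K] {b : K} {f : F[X]}
    (h0 : aeval b f = 0) (h1 : aeval b (derivative f) ≠ 0) : IsSeparable F b := by
  have hf : f ≠ 0 := by
    rintro rfl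
    simp at h1
  have hint : IsIntegral F b := by
    rw [← isAlgebraic_iff_isIntegral]
    exact ⟨f, hf, h0⟩
  obtain ⟨g, hg⟩ := minpoly.dvd F b h0
  have h2 : aeval b (derivative (minpoly F b)) ≠ 0 := by
    intro h3
    apply h1
    rw [hg, derivative_mul, map_add, map_mul, map_mul, h3, minpoly.aeval]
    simp
  show (minpoly F b).Separable
  rw [separable_iff_derivative_ne_zero (minpoly.irreducible hint)]
  intro h3
  apply h2
  rw [h3, map_zero]

private theorem unrV_gen {P B : Type*} [CommRing P] [CommRing B] [Algebra P B]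
    [Algebra.FiniteType P B] (q : Ideal B) [hq : q.IsPrime]
    (h1 : ∀ b : B, ∃ f : P[X], aeval b f ∈ q ∧ aeval b (derivative f) ∉ q)
    (h2 : ∀ b ∈ q, ∃ s, s ∉ q ∧ s * b ∈ (q.comap (algebraMap P B)).map (algebraMap P B)) :
    Algebra.IsUnramifiedAt P q := by
  set p : Ideal P := q.comap (algebraMap P B) with hp
  have : q.LiesOver p := ⟨rfl⟩
  let _ := Localization.AtPrime.algebraOfLiesOver p q
  refine (Algebra.isUnramifiedAt_iff_map_eq P p q).mpr ⟨?_, ?_⟩
  · have key : ∀ b : B, IsSeparable p.ResidueField (algebraMap B q.ResidueField b) := by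
      intro b
      obtain ⟨f, hf, hf'⟩ := h1 b
      have e1 : ∀ g : P[X], aeval (algebraMap B q.ResidueField b)
          (g.map (algebraMap P p.ResidueField)) = algebraMap B q.ResidueField (aeval b g) := by
        intro g
        rw [aeval_map_algebraMap, aeval_algebraMap_apply]
      refine unrV_sep (f := f.map (algebraMap P p.ResidueField)) ?_ ?_
      · rw [e1, Ideal.algebraMap_residueField_eq_zero]
        exact hf
      · rw [derivative_map, e1, Ne, Ideal.algebraMap_residueField_eq_zero]
        exact hf'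
    constructor
    intro x
    obtain ⟨y, z, hz, rfl⟩ := IsFractionRing.div_surjective (A := B ⧸ q) x
    obtain ⟨b, rfl⟩ := Ideal.Quotient.mk_surjective y
    obtain ⟨d, rfl⟩ := Ideal.Quotient.mk_surjective z
    rw [div_eq_mul_inv]
    exact Field.isSeparable_mul (key b) (Field.isSeparable_inv (key d))
  · rw [← Localization.AtPrime.map_eq_maximalIdeal]
    apply le_antisymm
    · rw [Ideal.map_le_iff_le_comap]
      intro x hx
      rw [Ideal.mem_comap, IsScalarTower.algebraMap_apply P B (Localization.AtPrime q)]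
      exact Ideal.mem_map_of_mem _ hx
    · rw [Ideal.map_le_iff_le_comap]
      intro b hb
      obtain ⟨s, hs, hsb⟩ := h2 b hb
      rw [Ideal.mem_comap]
      have h3 : algebraMap B (Localization.AtPrime q) (s * b) ∈
          p.map (algebraMap P (Localization.AtPrime q)) := by
        rw [IsScalarTower.algebraMap_eq P B (Localization.AtPrime q), ← Ideal.map_map]
        exact Ideal.mem_map_of_mem _ hsb
      rw [map_mul] at h3
      have h4 : IsUnit (algebraMap B (Localization.AtPrime q) s) :=
        IsLocalization.map_units (M := q.primeCompl) _ ⟨s, hs⟩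
      exact (Ideal.unit_mul_mem_iff_mem _ h4).mp h3

section
variable {k : Type} {L : Type} [NormedField k] [IsUltrametricDist k] [NormedField L]
  [IsUltrametricDist L] [NormedAlgebra k L] {V : ValuationSubring L}

theorem unramified_of_vcht {d N : ℕ} {e : Fin d → L} {c : Fin d → k} {π : k} {v : Fin N → L}
    {B : Subalgebra (O k) L} (h : VCht V e c π v B) :
    ∃ q : Ideal ↥B, (∀ b : B, b ∈ q ↔ V.valuation (b : L) < 1) ∧ ∃ hq : q.IsPrime,
      letI := (Subalgebra.inclusion h.le).toRingHom.toAlgebra
      Algebra.FiniteType ↥(DA.BG k e c π (Set.range v)) ↥B ∧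
        @Algebra.IsUnramifiedAt ↥(DA.BG k e c π (Set.range v)) ↥B _ _ _ q hq := by
  have hsep := h.sep
  have hunr := h.unr
  have hle := h.le
  have hval : ∀ b ∈ B, V.valuation b ≤ 1 := fun b hb => (V.valuation_le_one_iff b).2 (h.mem b hb)
  let q : Ideal ↥B :=
    { carrier := {b | V.valuation (b : L) < 1}
      add_mem' := by
        intro a b ha hb
        simp only [Set.mem_ofPred_eq] at ha hb ⊢
        exact V.valuation.map_add_lt ha hb
      zero_mem' := by simp
      smul_mem' := by
        intro c b hb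
        simp only [Set.mem_ofPred_eq] at hb ⊢
        rw [smul_eq_mul, MulMemClass.coe_mul, map_mul]
        exact mul_lt_one_of_nonneg_of_lt_one_right (hval _ c.2) zero_le' hb }
  have hq : ∀ b : B, b ∈ q ↔ V.valuation (b : L) < 1 := fun b => Iff.rfl
  have hone : ∀ b : B, b ∉ q ↔ V.valuation (b : L) = 1 := by
    intro b
    rw [hq, not_lt]
    exact ⟨fun h1 => le_antisymm (hval _ b.2) h1, fun h1 => h1.ge⟩
  have hprime : q.IsPrime := by
    refine ⟨?_, ?_⟩
    · rw [Ideal.ne_top_iff_one, hone]
      simp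
    · intro x y hxy
      by_contra hcon
      push Not at hcon
      have h1 := (hone x).1 hcon.1
      have h2 := (hone y).1 hcon.2
      have h3 : x * y ∉ q := (hone _).2 (by rw [MulMemClass.coe_mul, map_mul, h1, h2, mul_one])
      exact h3 hxy
  refine ⟨q, hq, hprime, ?_⟩
  letI : Algebra ↥(DA.BG k e c π (Set.range v)) ↥B := (Subalgebra.inclusion hle).toRingHom.toAlgebra
  haveI : IsScalarTower (O k) ↥(DA.BG k e c π (Set.range v)) ↥B :=
    IsScalarTower.of_algebraMap_eq fun x => rfl
  haveI : Algebra.FiniteType (O k) ↥B := (Subalgebra.fg_iff_finiteType B).1 h.fg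
  haveI hft : Algebra.FiniteType ↥(DA.BG k e c π (Set.range v)) ↥B :=
    Algebra.FiniteType.of_restrictScalars_finiteType (O k) _ _
  refine ⟨hft, ?_⟩
  have hcoe : ∀ x : ↥(DA.BG k e c π (Set.range v)),
      ((algebraMap ↥(DA.BG k e c π (Set.range v)) ↥B x : ↥B) : L) = x := fun _ => rfl
  refine unrV_gen q ?_ ?_
  · intro b
    obtain ⟨F, hF, hF'⟩ := hsep b b.2
    have e1 : ∀ g : Polynomial ↥(DA.BG k e c π (Set.range v)),
        ((aeval b g : ↥B) : L) = aeval (b : L) g := by
      intro g
      induction g using Polynomial.induction_on' with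
      | add f g hf hg => rw [map_add, map_add, ← hf, ← hg]; rfl
      | monomial n a =>
        rw [aeval_monomial, aeval_monomial, MulMemClass.coe_mul, hcoe]
        rfl
    refine ⟨F, ?_, ?_⟩
    · rw [hq, e1]
      exact hF
    · rw [hone, e1]
      exact hF'
  · intro b hb
    obtain ⟨s, hs, hs1, M, x, y, hxy, hsum⟩ := hunr b b.2 ((hq b).1 hb)
    refine ⟨⟨s, hs⟩, (hone _).2 hs1, ?_⟩
    have e1 : (⟨s, hs⟩ * b : ↥B) = ∑ i, algebraMap ↥(DA.BG k e c π (Set.range v)) ↥B ⟨x i, (hxy i).1⟩ *
        ⟨y i, (hxy i).2.2⟩ := by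
      apply Subtype.ext
      rw [MulMemClass.coe_mul, AddSubmonoidClass.coe_finsetSum]
      exact hsum
    rw [e1]
    refine Ideal.sum_mem _ fun i _ => Ideal.mul_mem_right _ _ (Ideal.mem_map_of_mem _ ?_)
    rw [Ideal.mem_comap, hq, hcoe]
    exact (hxy i).2.1

end

end CS
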