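import Pool.Agent.Lib.CS.WConv

/-!
# Module CS.VA: Abhyankar's inequality
-/

open Polynomial MP1a953e IsLocalRing

namespace CS
open Pool.Agent.Lib.MP_3029eb_ag Pool.Agent.Lib.MP_3029eb_ag.Abh

section
variable {k : Type} {L : Type} [NormedField k] [IsUltrametricDist k] [NormedField L]
  [IsUltrametricDist L] [NormedAlgebra k L] {V V1 : ValuationSubring L}

private theorem va_comp {m n : ℕ} {y : Fin n → L} (hy : RI k V y) (f : Fin m → Fin n)
    (hf : Function.Injective f) : RI k V (y ∘ f) := by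
  intro P hP hP1
  obtain ⟨s, hs⟩ := hP1
  have h1 := hy (MvPolynomial.rename f P) (fun t => ?_) ⟨s.mapDomain f, ?_⟩
  · rwa [MvPolynomial.aeval_rename] at h1
  · by_cases h : ∃ u : Fin m →₀ ℕ, u.mapDomain f = t
    · obtain ⟨u, rfl⟩ := h
      rw [MvPolynomial.coeff_rename_mapDomain f hf]
      exact hP u
    · rw [MvPolynomial.coeff_rename_eq_zero f P t (fun u hu => absurd ⟨u, hu⟩ h), norm_zero]
      exact zero_le_one
  · rw [MvPolynomial.coeff_rename_mapDomain f hf]
    exact hs

private theorem va_zero (hV : OvR k V) (y : Fin 0 → L) : RI k V y := by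
  intro P _ hP1
  obtain ⟨s, hs⟩ := hP1
  have h1 : P = MvPolynomial.C (P.coeff s) := by
    rw [MvPolynomial.eq_C_of_isEmpty P, MvPolynomial.coeff_C, if_pos (Subsingleton.elim 0 s)]
  rw [h1, MvPolynomial.aeval_C]
  exact hV.const_val_one hs

/-- the part of `P` of exponent `b` in the first variables -/
private noncomputable def vaP {r s : ℕ} (P : MvPolynomial (Fin (r + s)) k) (b : Fin r → ℕ) :
    MvPolynomial (Fin s) k :=
  ∑ d ∈ P.support.filter (fun d => (fun i => d (Fin.castAdd s i)) = b),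
    MvPolynomial.monomial (Finsupp.equivFunOnFinite.symm fun j => d (Fin.natAdd r j)) (P.coeff d)

/-- the exponent with parts `b`, `e` -/
private noncomputable def vaE {r s : ℕ} (b : Fin r → ℕ) (e : Fin s →₀ ℕ) : Fin (r + s) →₀ ℕ :=
  Finsupp.equivFunOnFinite.symm (Fin.append b e)

private theorem vaE_left {r s : ℕ} (b : Fin r → ℕ) (e : Fin s →₀ ℕ) (i : Fin r) :
    vaE b e (Fin.castAdd s i) = b i := Fin.append_left _ _ _

private theorem vaE_right {r s : ℕ} (b : Fin r → ℕ) (e : Fin s →₀ ℕ) (j : Fin s) :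
    vaE b e (Fin.natAdd r j) = e j := Fin.append_right _ _ _

private theorem vaE_eq {r s : ℕ} (d : Fin (r + s) →₀ ℕ) :
    vaE (fun i => d (Fin.castAdd s i))
      (Finsupp.equivFunOnFinite.symm fun j => d (Fin.natAdd r j)) = d := by
  ext i
  refine Fin.addCases (fun i => ?_) (fun j => ?_) i
  · exact vaE_left _ _ _
  · exact vaE_right _ _ _

private theorem vaP_coeff {r s : ℕ} (P : MvPolynomial (Fin (r + s)) k) (b : Fin r → ℕ)
    (e : Fin s →₀ ℕ) : (vaP P b).coeff e = P.coeff (vaE b e) := by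
  classical
  unfold vaP
  rw [MvPolynomial.coeff_sum]
  simp only [MvPolynomial.coeff_monomial]
  have key : ∀ d ∈ P.support.filter (fun d => (fun i => d (Fin.castAdd s i)) = b),
      (if (Finsupp.equivFunOnFinite.symm fun j => d (Fin.natAdd r j)) = e then P.coeff d else 0) =
      if d = vaE b e then P.coeff (vaE b e) else 0 := by
    intro d hd
    have hd' := (Finset.mem_filter.1 hd).2
    by_cases h : (Finsupp.equivFunOnFinite.symm fun j => d (Fin.natAdd r j)) = e
    · have h2 : d = vaE b e := by rw [← hd', ← h, vaE_eq]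
      rw [if_pos h, if_pos h2, ← h2]
    · rw [if_neg h, if_neg]
      rintro rfl
      apply h
      ext j
      exact vaE_right b e j
  rw [Finset.sum_congr rfl key, Finset.sum_ite_eq']
  split_ifs with h
  · rfl
  · by_contra h1
    apply h
    rw [Finset.mem_filter]
    refine ⟨MvPolynomial.mem_support_iff.2 (Ne.symm h1), ?_⟩
    funext i
    exact vaE_left b e i

private theorem vaP_sum {r s : ℕ} (P : MvPolynomial (Fin (r + s)) k) (x : Fin r → L)
    (y : Fin s → L) : MvPolynomial.aeval (Fin.append x y) P =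
      ∑ b ∈ P.support.image (fun d (i : Fin r) => d (Fin.castAdd s i)),
        (∏ i, x i ^ b i) * MvPolynomial.aeval y (vaP P b) := by
  classical
  rw [MvPolynomial.aeval_def, MvPolynomial.eval₂_eq']
  rw [← Finset.sum_fiberwise_of_maps_to (g := fun d (i : Fin r) => d (Fin.castAdd s i))
    (fun d hd => Finset.mem_image_of_mem _ hd)]
  refine Finset.sum_congr rfl fun b _ => ?_
  unfold vaP
  rw [map_sum, Finset.mul_sum]
  refine Finset.sum_congr rfl fun d hd => ?_
  have hd' := (Finset.mem_filter.1 hd).2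
  rw [MvPolynomial.aeval_monomial, Finsupp.prod_fintype _ _ (fun i => pow_zero _), Fin.prod_univ_add]
  have e1 : ∏ i : Fin r, Fin.append x y (Fin.castAdd s i) ^ d (Fin.castAdd s i) =
      ∏ i, x i ^ b i := by
    refine Finset.prod_congr rfl fun i _ => ?_
    rw [Fin.append_left, ← congrFun hd' i]
  have e2 : ∏ j : Fin s, Fin.append x y (Fin.natAdd r j) ^ d (Fin.natAdd r j) =
      ∏ j, y j ^ (Finsupp.equivFunOnFinite.symm fun j => d (Fin.natAdd r j)) j := by
    refine Finset.prod_congr rfl fun j _ => ?_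
    rw [Fin.append_right]
    rfl
  rw [e1, e2]
  ring

/-- a polynomial with small coefficients -/
private theorem va_small (hV : OvR k V) {s : ℕ} {y : Fin s → L} (hy : ∀ j, y j ∈ V)
    (P : MvPolynomial (Fin s) k) (hP : ∀ e, ‖P.coeff e‖ < 1) :
    V.valuation (MvPolynomial.aeval y P) < 1 := by
  rw [MvPolynomial.aeval_def, MvPolynomial.eval₂_eq']
  refine Valuation.map_sum_lt _ one_ne_zero fun e _ => ?_
  rw [mul_comm]
  exact E5_val_mul_lt (prod_mem fun j _ => pow_mem (hy j) _) (hV.const_lt_iff.2 (hP e))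

private theorem va_mem (hV : OvR k V) {s : ℕ} {y : Fin s → L} (hy : ∀ j, y j ∈ V)
    (hyR : RI k V y) {m : ℕ} (hRD : RDep k L m) : s ≤ m := by
  by_contra hc
  have hle : m + 1 ≤ s := by omega
  obtain ⟨P, hP, hP1, hlt⟩ := hRD (y ∘ Fin.castLE hle) fun i => hV.norm_le (hy _)
  have h1 := va_comp hyR (Fin.castLE hle) (Fin.castLE_injective hle) P hP hP1
  rw [hV.norm_eq_one h1] at hlt
  exact lt_irrefl _ hlt

/-- Proof.  Let `P` be a polynomial in the variables `X, Y` with coefficients of norm `≤ 1`, one of norm one; sort it by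
the exponents `b` of `X`: `P(x, y) = ∑ b, P b (y) * ∏ x i ^ b i` (`MvPolynomial` in `Fin (r + s)`; sum over the monomials
`Fin.append b c`). For the `b` for which `P b` has a coefficient of norm one `V.valuation (P b (y)) = 1` (`hy`), and the
`V`-values of the corresponding terms are those of `∏ x i ^ b i`, pairwise different (`hx`), so the sum of these terms has
the `V`-value of some `∏ x i ^ b i`, hence `V1`-value one (`V ≤ V1`, `C1_val_one_of_le`: the quotient by `∏ x i ^ b i` is a
unit of `V`; `hx1`). The other `P b` have coefficients of norm `< 1`, the corresponding terms have `V1`-value `< 1`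
(`y j ∈ V ≤ V1`, `OvR.const_lt_iff`). -/
theorem RI.append (hV : OvR k V) (hle : V ≤ V1) (hV1 : OvR k V1) {r s : ℕ} {x : Fin r → L}
    (hx1 : ∀ i, V1.valuation (x i) = 1)
    (hx : ∀ m : Fin r → ℤ, V.valuation (∏ i, x i ^ m i) = 1 → m = 0) {y : Fin s → L}
    (hyV : ∀ j, y j ∈ V) (hy : RI k V y) : RI k V1 (Fin.append x y) := by
  classical
  intro P hP hP1
  obtain ⟨d0, hd0⟩ := hP1
  have hx0 : ∀ i, x i ≠ 0 := fun i => ne_zero_of_val (hx1 i)
  have hm0 : ∀ b : Fin r → ℕ, (∏ i, x i ^ b i) ≠ 0 := fun b =>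
    Finset.prod_ne_zero_iff.2 fun i _ => pow_ne_zero _ (hx0 i)
  have hm1 : ∀ b : Fin r → ℕ, V1.valuation (∏ i, x i ^ b i) = 1 := by
    intro b
    rw [map_prod]
    exact Finset.prod_eq_one fun i _ => by rw [map_pow, hx1, one_pow]
  have hcoef : ∀ b e, ‖(vaP P b).coeff e‖ ≤ 1 := fun b e => by
    rw [vaP_coeff]
    exact hP _
  rw [vaP_sum]
  set I := P.support.image (fun d (i : Fin r) => d (Fin.castAdd s i)) with hI
  let T : (Fin r → ℕ) → L := fun b => (∏ i, x i ^ b i) * MvPolynomial.aeval y (vaP P b)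
  change V1.valuation (∑ b ∈ I, T b) = 1
  let Gd : (Fin r → ℕ) → Prop := fun b => ∃ e, ‖(vaP P b).coeff e‖ = 1
  rw [← Finset.sum_filter_add_sum_filter_not I Gd]
  have hbad : V1.valuation (∑ b ∈ I.filter (fun b => ¬ Gd b), T b) < 1 := by
    refine Valuation.map_sum_lt _ one_ne_zero fun b hb => ?_
    have hb' := (Finset.mem_filter.1 hb).2
    change V1.valuation ((∏ i, x i ^ b i) * MvPolynomial.aeval y (vaP P b)) < 1
    rw [map_mul, hm1, one_mul]
    exact va_small hV1 (fun j => hle (hyV j)) _ fun e =>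
      lt_of_le_of_ne (hcoef b e) fun h => hb' ⟨e, h⟩
  have hgoodV : ∀ b, Gd b → V.valuation (T b) = V.valuation (∏ i, x i ^ b i) := by
    intro b hb
    change V.valuation ((∏ i, x i ^ b i) * MvPolynomial.aeval y (vaP P b)) = _
    rw [map_mul, hy (vaP P b) (hcoef b) hb, mul_one]
  have hne : (I.filter Gd).Nonempty := by
    refine ⟨fun i => d0 (Fin.castAdd s i), Finset.mem_filter.2 ⟨?_, ?_⟩⟩
    · refine Finset.mem_image.2 ⟨d0, MvPolynomial.mem_support_iff.2 ?_, rfl⟩
      intro h
      rw [h, norm_zero] at hd0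
      exact zero_ne_one hd0
    · refine ⟨Finsupp.equivFunOnFinite.symm fun j => d0 (Fin.natAdd r j), ?_⟩
      rw [vaP_coeff, vaE_eq]
      exact hd0
  obtain ⟨b0, hb0, hmax⟩ := Finset.exists_max_image (I.filter Gd) (fun b => V.valuation (T b)) hne
  have hinj : ∀ b b' : Fin r → ℕ, V.valuation (∏ i, x i ^ b i) = V.valuation (∏ i, x i ^ b' i) →
      b = b' := by
    intro b b' hbb
    have h1 : V.valuation (∏ i, x i ^ ((b i : ℤ) - (b' i : ℤ))) = 1 := by
      have e1 : ∏ i, x i ^ ((b i : ℤ) - (b' i : ℤ)) =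
          (∏ i, x i ^ b i) * (∏ i, x i ^ b' i)⁻¹ := by
        rw [← Finset.prod_inv_distrib, ← Finset.prod_mul_distrib]
        refine Finset.prod_congr rfl fun i _ => ?_
        rw [zpow_sub₀ (hx0 i), zpow_natCast, zpow_natCast, div_eq_mul_inv]
      rw [e1, map_mul, map_inv₀, hbb, mul_inv_cancel₀]
      exact (Valuation.ne_zero_iff _).2 (hm0 b')
    have h2 := hx _ h1
    funext i
    have h3 := congrFun h2 i
    simp only [Pi.zero_apply] at h3
    omega
  have hb0' := (Finset.mem_filter.1 hb0).2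
  have hsum : V.valuation (∑ b ∈ I.filter Gd, T b) = V.valuation (T b0) := by
    refine Valuation.map_sum_eq_of_lt _ hb0 fun b hb => ?_
    rw [Finset.mem_sdiff, Finset.mem_singleton] at hb
    refine lt_of_le_of_ne (hmax b hb.1) fun h => hb.2 ?_
    rw [hgoodV b (Finset.mem_filter.1 hb.1).2, hgoodV b0 hb0'] at h
    exact hinj _ _ h
  have hgood : V1.valuation (∑ b ∈ I.filter Gd, T b) = 1 := by
    have h1 : V.valuation ((∑ b ∈ I.filter Gd, T b) * (∏ i, x i ^ b0 i)⁻¹) = 1 := by
      rw [map_mul, map_inv₀, hsum, hgoodV b0 hb0', mul_inv_cancel₀]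
      exact (Valuation.ne_zero_iff _).2 (hm0 b0)
    have h2 := C1_val_one_of_le hle h1
    rwa [map_mul, map_inv₀, hm1, inv_one, mul_one] at h2
  rw [Valuation.map_add_eq_of_lt_left _ (by rw [hgood]; exact hbad), hgood]

/-- Proof.  `V ≤ ball L` (`hV.le`); an element of `V`-value one has norm one, so `RI k V y` implies `RI k (ball L) y`, and
`s ≤ m` by `hRD` (if `m + 1 ≤ s` restrict `y` to the first `m + 1` elements: `MvPolynomial.rename (Fin.castLE _)`). So
there is a largest `s` with a family `y`. -/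
theorem exists_RTV (hV : OvR k V) {m : ℕ} (hRD : RDep k L m) : ∃ s ≤ m, RTV k V s := by
  classical
  by_contra hc
  have hall : ∀ s ≤ m + 1, ∃ y : Fin s → L, (∀ i, y i ∈ V) ∧ RI k V y := by
    intro s
    induction s with
    | zero => exact fun _ => ⟨Fin.elim0, fun i => i.elim0, va_zero hV _⟩
    | succ s ih =>
      intro hs
      by_contra h1
      exact hc ⟨s, by omega, ih (by omega), fun y hy hR => h1 ⟨y, hy, hR⟩⟩
  obtain ⟨y, hy, hR⟩ := hall (m + 1) le_rfl
  have := va_mem hV hy hR hRD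
  omega

/-- Proof.  `RI.append` for maximal families: the number of elements of `Fin.append x y` is at most `t` (if `t + 1 ≤ r + s`
restrict to the first `t + 1` elements). `x i, y j ∈ V1`. -/
theorem RTV.add_le (hV : OvR k V) (hle : V ≤ V1) (hV1 : OvR k V1) {r s t : ℕ} {x : Fin r → L}
    (hx1 : ∀ i, V1.valuation (x i) = 1)
    (hx : ∀ m : Fin r → ℤ, V.valuation (∏ i, x i ^ m i) = 1 → m = 0)
    (hs : RTV k V s) (ht : RTV k V1 t) : r + s ≤ t := by
  obtain ⟨⟨y, hyV, hyR⟩, -⟩ := hs
  have h1 := RI.append hV hle hV1 hx1 hx hyV hyR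
  by_contra hc
  have hlt : t + 1 ≤ r + s := by omega
  refine ht.2 (Fin.append x y ∘ Fin.castLE hlt) (fun i => ?_)
    (va_comp h1 (Fin.castLE hlt) (Fin.castLE_injective hlt))
  change Fin.append x y (Fin.castLE hlt i) ∈ V1
  generalize Fin.castLE hlt i = j
  refine Fin.addCases (fun j => ?_) (fun j => ?_) j
  · rw [Fin.append_left]
    exact (V1.valuation_le_one_iff _).1 (hx1 j).le
  · rw [Fin.append_right]
    exact hle (hyV j)

end

end CS
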