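import Pool.Agent.Lib.CS.WDefs

/-!
# Module CS.VB: existence of steps of rank one
-/

open IsLocalRing

namespace CS
open Pool.Agent.Lib.MP_3029eb_ag Pool.Agent.Lib.MP_3029eb_ag.Abh

/-- The set of the elements all of whose powers stay below `x⁻¹`, as a valuation ring. -/
private def lowVS {K : Type} [Field K] (V : ValuationSubring K) (x : K)
    (hx : V.valuation x < 1) : ValuationSubring K where
  carrier := {z | ∀ n : ℕ, V.valuation (z ^ n * x) ≤ 1}
  mul_mem' := by
    intro a b ha hb n
    rcases le_total (V.valuation a) (V.valuation b) with h | h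
    · have h1 := hb (2 * n)
      refine le_trans ?_ h1
      rw [map_mul, map_mul, map_pow, map_pow, map_mul, mul_pow, pow_mul', sq]
      gcongr
    · have h1 := ha (2 * n)
      refine le_trans ?_ h1
      rw [map_mul, map_mul, map_pow, map_pow, map_mul, mul_pow, pow_mul', sq]
      gcongr
  one_mem' := by
    intro n
    rw [one_pow, one_mul]
    exact hx.le
  add_mem' := by
    intro a b ha hb n
    rcases le_total (V.valuation a) (V.valuation b) with h | h
    · refine le_trans ?_ (hb n)
      rw [map_mul, map_mul, map_pow, map_pow]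
      gcongr
      exact (V.valuation.map_add a b).trans (max_le h le_rfl)
    · refine le_trans ?_ (ha n)
      rw [map_mul, map_mul, map_pow, map_pow]
      gcongr
      exact (V.valuation.map_add a b).trans (max_le le_rfl h)
  zero_mem' := by
    intro n
    rcases Nat.eq_zero_or_pos n with h | h
    · subst h
      rw [pow_zero, one_mul]
      exact hx.le
    · rw [zero_pow h.ne', zero_mul, map_zero]
      exact zero_le
  neg_mem' := by
    intro a ha n
    have h1 := ha n
    rw [map_mul, map_pow] at h1 ⊢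
    rwa [Valuation.map_neg]
  mem_or_inv_mem' := by
    intro z
    by_cases hz : V.valuation z ≤ 1
    · left
      intro n
      rw [map_mul, map_pow]
      exact mul_le_one' (pow_le_one₀ zero_le hz) hx.le
    · right
      intro n
      rw [map_mul, map_pow, map_inv₀]
      refine mul_le_one' (pow_le_one₀ zero_le ?_) hx.le
      rw [not_le] at hz
      exact inv_le_one_of_one_le₀ hz.le

/-- The elements which become integral after multiplication by a power of `x`. -/
private def upVS {K : Type} [Field K] (V : ValuationSubring K) (x : K)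
    (hx : V.valuation x < 1) : ValuationSubring K where
  carrier := {z | ∃ n : ℕ, V.valuation (z * x ^ n) ≤ 1}
  mul_mem' := by
    rintro a b ⟨n, hn⟩ ⟨l, hl⟩
    refine ⟨n + l, ?_⟩
    have h1 : a * b * x ^ (n + l) = (a * x ^ n) * (b * x ^ l) := by rw [pow_add]; ring
    rw [h1, map_mul]
    exact mul_le_one' hn hl
  one_mem' := ⟨0, by rw [pow_zero, one_mul, map_one]⟩
  add_mem' := by
    rintro a b ⟨n, hn⟩ ⟨l, hl⟩
    refine ⟨n + l, ?_⟩
    have h1 : (a + b) * x ^ (n + l) = (a * x ^ n) * x ^ l + (b * x ^ l) * x ^ n := by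
      rw [pow_add]; ring
    rw [h1]
    refine (V.valuation.map_add _ _).trans (max_le ?_ ?_)
    · rw [map_mul]
      refine mul_le_one' hn ?_
      rw [map_pow]
      exact pow_le_one₀ zero_le hx.le
    · rw [map_mul]
      refine mul_le_one' hl ?_
      rw [map_pow]
      exact pow_le_one₀ zero_le hx.le
  zero_mem' := ⟨0, by rw [zero_mul, map_zero]; exact zero_le⟩
  neg_mem' := by
    rintro a ⟨n, hn⟩
    refine ⟨n, ?_⟩
    rwa [neg_mul, Valuation.map_neg]
  mem_or_inv_mem' := by
    intro z
    by_cases hz : V.valuation z ≤ 1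
    · left
      exact ⟨0, by rwa [pow_zero, mul_one]⟩
    · right
      refine ⟨0, ?_⟩
      rw [pow_zero, mul_one, map_inv₀]
      rw [not_le] at hz
      exact inv_le_one_of_one_le₀ hz.le

/-- Proof.  There is `x` with `V1.valuation x = 1`, `V.valuation x < 1` (some `z ∈ V1`, `z ∉ V`; then `z⁻¹` has `V`-value `< 1`, and
if `V1.valuation z⁻¹ < 1` then `z ∉ V1`). Let `V'` be the set of all `z` with `V.valuation (z ^ n * x) ≤ 1` for all `n : ℕ`,
and `V''` the set of all `z` such that `V.valuation (z * x ^ n) ≤ 1` for some `n`. Both are valuation rings containing `V`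
(`V'` is closed under addition: `V.valuation (z + z') ≤ max`, under multiplication: if `V.valuation z ≤ V.valuation z'` then
`(z * z') ^ n * x` has at most the value of `z' ^ (2 * n) * x`). `V' ≤ V''` (`n = 1`), `V'' ≤ V1` (`V1.valuation x = 1`).
`x⁻¹ ∈ V''`, and `x⁻¹ ∉ V'` (`n = 2`). Archimedean: let `a, b` have `V''`-value one and `V'.valuation b < 1`, so `b⁻¹ ∉ V'`: there
is `n` with `V.valuation (b ^ n) < V.valuation x`; `a⁻¹ ∈ V''`: there is `l` with `V.valuation (x ^ l) ≤ V.valuation a`; so
`V.valuation (b ^ (n * l)) ≤ V.valuation a`, and the same for `V'`, which contains `V`. -/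
theorem exists_rank_one {K : Type} [Field K] {V V1 : ValuationSubring K} (hle : V ≤ V1)
    (hne : V ≠ V1) :
    ∃ V' V'' : ValuationSubring K, V ≤ V' ∧ V' ≤ V'' ∧ V'' ≤ V1 ∧
      (∃ x, V''.valuation x = 1 ∧ V'.valuation x < 1) ∧
      ∀ a b : K, V''.valuation a = 1 → V''.valuation b = 1 → V'.valuation b < 1 →
        ∃ n : ℕ, V'.valuation (b ^ n) ≤ V'.valuation a := by
  -- the element x
  obtain ⟨z, hz1, hz⟩ : ∃ z, z ∈ V1 ∧ z ∉ V := by
    by_contra hcon
    push Not at hcon
    exact hne (le_antisymm hle hcon)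
  have hz0 : z ≠ 0 := fun h => hz (h ▸ V.zero_mem)
  have hzV : 1 < V.valuation z := by
    rw [← not_le, ValuationSubring.valuation_le_one_iff]
    exact hz
  set x : K := z⁻¹ with hxdef
  have hx0 : x ≠ 0 := inv_ne_zero hz0
  have hx : V.valuation x < 1 := by
    rw [hxdef, map_inv₀]
    exact inv_lt_one_of_one_lt₀ hzV
  have hxV : x ∈ V := (V.valuation_le_one_iff x).1 hx.le
  have hx1 : V1.valuation x = 1 := by
    refine le_antisymm ((V1.valuation_le_one_iff x).2 (hle hxV)) ?_
    have h1 : V1.valuation z ≤ 1 := (V1.valuation_le_one_iff z).2 hz1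
    have h2 : V1.valuation x * V1.valuation z = 1 := by
      rw [← map_mul, hxdef, inv_mul_cancel₀ hz0, map_one]
    calc (1 : V1.ValueGroup) = V1.valuation x * V1.valuation z := h2.symm
      _ ≤ V1.valuation x * 1 := by gcongr
      _ = V1.valuation x := mul_one _
  set V' := lowVS V x hx with hV'
  set V'' := upVS V x hx with hV''
  have hmem' : ∀ w, w ∈ V' ↔ ∀ n : ℕ, V.valuation (w ^ n * x) ≤ 1 := fun w => Iff.rfl
  have hmem'' : ∀ w, w ∈ V'' ↔ ∃ n : ℕ, V.valuation (w * x ^ n) ≤ 1 := fun w => Iff.rfl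
  have h01 : V ≤ V' := by
    intro w hw n
    have hw1 : V.valuation w ≤ 1 := (V.valuation_le_one_iff w).2 hw
    rw [map_mul, map_pow]
    exact mul_le_one' (pow_le_one₀ zero_le hw1) hx.le
  have h12 : V' ≤ V'' := by
    intro w hw
    exact ⟨1, by simpa using hw 1⟩
  have h23 : V'' ≤ V1 := by
    rintro w ⟨n, hn⟩
    have h1 : w * x ^ n ∈ V1 := hle ((V.valuation_le_one_iff _).1 hn)
    have h2 := (V1.valuation_le_one_iff _).2 h1
    rw [map_mul, map_pow, hx1, one_pow, mul_one] at h2
    exact (V1.valuation_le_one_iff _).1 h2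
  have hxi'' : x⁻¹ ∈ V'' := by
    refine (hmem'' _).2 ⟨1, ?_⟩
    rw [pow_one, inv_mul_cancel₀ hx0, map_one]
  have hxi' : x⁻¹ ∉ V' := by
    intro h
    have h1 := (hmem' _).1 h 2
    have h2 : x⁻¹ ^ 2 * x = z := by rw [hxdef]; field_simp
    rw [h2] at h1
    exact absurd h1 (not_le.2 hzV)
  refine ⟨V', V'', h01, h12, h23, ⟨x, ?_, ?_⟩, ?_⟩
  · refine le_antisymm ((V''.valuation_le_one_iff x).2 (h12 (h01 hxV))) ?_
    have h1 : V''.valuation x⁻¹ ≤ 1 := (V''.valuation_le_one_iff _).2 hxi''
    have h2 : V''.valuation x * V''.valuation x⁻¹ = 1 := by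
      rw [← map_mul, mul_inv_cancel₀ hx0, map_one]
    calc (1 : V''.ValueGroup) = V''.valuation x * V''.valuation x⁻¹ := h2.symm
      _ ≤ V''.valuation x * 1 := by gcongr
      _ = V''.valuation x := mul_one _
  · have h1 : 1 < V'.valuation x⁻¹ := by
      rw [← not_le, ValuationSubring.valuation_le_one_iff]
      exact hxi'
    rw [map_inv₀] at h1
    exact (one_lt_inv₀ (by
      rw [zero_lt_iff]
      exact (map_ne_zero _).2 hx0)).1 h1
  · intro a b ha hb hb'
    have ha0 : a ≠ 0 := by
      intro h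
      rw [h, map_zero] at ha
      exact zero_ne_one ha
    have hb0 : b ≠ 0 := by
      intro h
      rw [h, map_zero] at hb
      exact zero_ne_one hb
    -- b⁻¹ is not in V'
    have h1 : b⁻¹ ∉ V' := by
      rw [← V'.valuation_le_one_iff, map_inv₀, not_le]
      exact (one_lt_inv₀ (by
        rw [zero_lt_iff]
        exact (map_ne_zero _).2 hb0)).2 hb'
    rw [hmem'] at h1
    push Not at h1
    obtain ⟨n, hn⟩ := h1
    have hbn : V.valuation (b ^ n) < V.valuation x := by
      have h2 : V.valuation (b ^ n) * V.valuation (b⁻¹ ^ n * x) = V.valuation x := by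
        rw [← map_mul, ← mul_assoc, ← mul_pow, mul_inv_cancel₀ hb0, one_pow, one_mul]
      rw [← h2]
      have h3 : (0 : V.ValueGroup) < V.valuation (b ^ n) := by
        rw [zero_lt_iff]
        exact (map_ne_zero _).2 (pow_ne_zero _ hb0)
      calc V.valuation (b ^ n) = V.valuation (b ^ n) * 1 := (mul_one _).symm
        _ < V.valuation (b ^ n) * V.valuation (b⁻¹ ^ n * x) := by gcongr
    -- a⁻¹ is in V''
    have h4 : a⁻¹ ∈ V'' := by
      rw [← V''.valuation_le_one_iff, map_inv₀, ha, inv_one]
    obtain ⟨l, hl⟩ := (hmem'' _).1 h4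
    have hal : V.valuation (x ^ l) ≤ V.valuation a := by
      have h5 : V.valuation a * V.valuation (a⁻¹ * x ^ l) = V.valuation (x ^ l) := by
        rw [← map_mul, ← mul_assoc, mul_inv_cancel₀ ha0, one_mul]
      rw [← h5]
      calc V.valuation a * V.valuation (a⁻¹ * x ^ l) ≤ V.valuation a * 1 := by gcongr
        _ = V.valuation a := mul_one _
    refine ⟨n * l, ?_⟩
    have h6 : V.valuation (b ^ (n * l)) ≤ V.valuation a := by
      refine le_trans ?_ hal
      rw [pow_mul, map_pow _ (b ^ n) l, map_pow _ x l]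
      exact pow_le_pow_left₀ zero_le hbn.le l
    have h7 : b ^ (n * l) * a⁻¹ ∈ V := by
      rw [← V.valuation_le_one_iff, map_mul, map_inv₀]
      have ha1 : V.valuation a ≠ 0 := (map_ne_zero _).2 ha0
      calc V.valuation (b ^ (n * l)) * (V.valuation a)⁻¹ ≤ V.valuation a * (V.valuation a)⁻¹ := by
            gcongr
        _ = 1 := mul_inv_cancel₀ ha1
    have h8 := (V'.valuation_le_one_iff _).2 (h01 h7)
    have h9 : V'.valuation (b ^ (n * l)) = V'.valuation (b ^ (n * l) * a⁻¹) * V'.valuation a := by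
      rw [← map_mul, mul_assoc, inv_mul_cancel₀ ha0, mul_one]
    rw [h9]
    calc V'.valuation (b ^ (n * l) * a⁻¹) * V'.valuation a ≤ 1 * V'.valuation a := by gcongr
      _ = V'.valuation a := one_mul _

end CS
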