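import Pool.Agent.Lib.CS.VA
import Pool.Agent.Lib.CS.VB

/-!
# Module CS.VC: valuations over a residue field of transcendence degree at most two are composite
-/

open Polynomial MP1a953e IsLocalRing

namespace CS
open Pool.Agent.Lib.MP_3029eb_ag Pool.Agent.Lib.MP_3029eb_ag.Abh

section
variable {k : Type} {L : Type} [NormedField k] [IsUltrametricDist k] [NormedField L]
  [IsUltrametricDist L] [NormedAlgebra k L] {V V1 : ValuationSubring L}

private theorem vc_zpow {x : L} (hx0 : x ≠ 0) (hx : V.valuation x < 1) {m : ℤ}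
    (hm : V.valuation (x ^ m) = 1) : m = 0 := by
  have hne : V.valuation x ≠ 0 := (Valuation.ne_zero_iff _).2 hx0
  have hpow : ∀ n : ℕ, 0 < n → V.valuation (x ^ n) < 1 := by
    intro n hn
    rw [map_pow]
    exact pow_lt_one₀ zero_le hx hn.ne'
  rcases m with n | n
  · rcases Nat.eq_zero_or_pos n with h | h
    · rw [h]
      rfl
    · exfalso
      have h1 := hpow n h
      rw [Int.ofNat_eq_natCast, zpow_natCast] at hm
      rw [hm] at h1
      exact lt_irrefl _ h1
  · exfalso
    have h1 := hpow (n + 1) (Nat.succ_pos n)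
    rw [zpow_negSucc, map_inv₀, inv_eq_one] at hm
    rw [hm] at h1
    exact lt_irrefl _ h1

/-- Proof.  By `RTV.add_le` the number of elements `x i` of `V1`-value one with independent `V`-values is at most `t`
(`exists_RTV`); take the largest number `r` for which such a family exists; `r ≥ 1` because of `h1` (one element `x` with
`V.valuation x < 1`: the values of `x ^ m` are different). `dep` for `r + 1` elements: otherwise they would be
independent. -/
theorem exists_rankS (hV : OvR k V) (hle : V ≤ V1) (hV1 : OvR k V1) {m : ℕ} (hRD : RDep k L m)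
    (h1 : ∃ x, V1.valuation x = 1 ∧ V.valuation x < 1)
    (harch : ∀ a b : L, V1.valuation a = 1 → V1.valuation b = 1 → V.valuation b < 1 →
      ∃ n : ℕ, V.valuation (b ^ n) ≤ V.valuation a) :
    ∃ r, RankS V1 V r := by
  obtain ⟨s, -, hs⟩ := exists_RTV hV hRD
  obtain ⟨t, -, ht⟩ := exists_RTV hV1 hRD
  by_contra hc
  have hall : ∀ r : ℕ, ∃ x : Fin (r + 1) → L, (∀ i, V1.valuation (x i) = 1) ∧
      ∀ m : Fin (r + 1) → ℤ, V.valuation (∏ i, x i ^ m i) = 1 → m = 0 := by
    intro r
    induction r with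
    | zero =>
      obtain ⟨x, hx1, hx⟩ := h1
      refine ⟨fun _ => x, fun _ => hx1, fun m hm => ?_⟩
      rw [Fin.prod_univ_one] at hm
      have h0 : m 0 = 0 := vc_zpow (ne_zero_of_val hx1) hx hm
      funext i
      rw [Fin.eq_zero i]
      exact h0
    | succ r ih =>
      by_contra h2
      refine hc ⟨r + 1, harch, Nat.succ_pos r, ih, fun z hz => ?_⟩
      by_contra h3
      refine h2 ⟨z, hz, fun m hm => ?_⟩
      by_contra h4
      exact h3 ⟨m, h4, hm⟩
  obtain ⟨x, hx1, hx⟩ := hall t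
  have h5 := RTV.add_le hV hle hV1 hx1 hx hs ht
  omega

private theorem vc_trans {V V1 : ValuationSubring L} (hV : OvR k V) (hle : V ≤ V1)
    (hV1 : OvR k V1) {s t : ℕ} (hs : RTV k V s) (ht : RTV k V1 t) : s ≤ t := by
  have h := RTV.add_le (r := 0) (x := Fin.elim0) hV hle hV1 (fun i => i.elim0)
    (fun m _ => funext fun i => i.elim0) hs ht
  omega

private theorem vc_ind {m : ℕ} (hm : m ≤ 2) (hRD : RDep k L m) : ∀ (n : ℕ)
    (V V1 : ValuationSubring L), OvR k V → V ≤ V1 → OvR k V1 → ∀ {s t : ℕ}, RTV k V s →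
    RTV k V1 t → t ≤ s + n → (∃ r, VComp k V1 r) → ∃ r, VComp k V r := by
  intro n
  induction n using Nat.strong_induction_on with
  | _ n ih =>
  intro V V1 hV hle hV1 s t hs ht hst h
  by_cases hne : V = V1
  · rw [hne]
    exact h
  obtain ⟨V', V'', h01, h12, h23, ⟨x, hx1, hx⟩, harch⟩ := exists_rank_one hle hne
  have hV' : OvR k V' := ⟨(h12.trans h23).trans hV1.le, fun c hc => h01 (hV.const c hc)⟩
  have hV'' : OvR k V'' := ⟨h23.trans hV1.le, fun c hc => h12 (hV'.const c hc)⟩
  obtain ⟨s', -, hs'⟩ := exists_RTV hV' hRD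
  obtain ⟨s'', hm'', hs''⟩ := exists_RTV hV'' hRD
  have e1 : s ≤ s' := vc_trans hV h01 hV' hs hs'
  have e2 : s'' ≤ t := vc_trans hV'' h23 hV1 hs'' ht
  have e3 : 1 + s' ≤ s'' := by
    refine RTV.add_le (x := fun _ : Fin 1 => x) hV' h12 hV'' (fun _ => hx1) (fun m hm => ?_)
      hs' hs''
    rw [Fin.prod_univ_one] at hm
    have h0 : m 0 = 0 := vc_zpow (ne_zero_of_val hx1) hx hm
    funext i
    rw [Fin.eq_zero i]
    exact h0
  have hn : 0 < n := by omega
  have c2 : ∃ r, VComp k V'' r :=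
    ih (n - 1) (by omega) V'' V1 hV'' h23 hV1 hs'' ht (by omega) h
  obtain ⟨r1, hr1⟩ := c2
  obtain ⟨r, hr⟩ := exists_rankS hV' h12 hV'' hRD ⟨x, hx1, hx⟩ harch
  have hrpos := hr.pos
  have c1 : VComp k V' (r1 + r) :=
    VComp.defect V'' V' r1 r s' s'' hr1 h12 hr hs' hs'' (by omega)
  exact ih (n - 1) (by omega) V V' hV h01 hV' hs hs' (by omega) ⟨_, c1⟩

/-- Proof.  Let `RTV k V s`, `RTV k V1 t` (`exists_RTV`); induction on `t - s` for all pairs `V ≤ V1`. If `V = V1` nothing is to
be proved. Otherwise `exists_rank_one` gives `V ≤ V' ≤ V'' ≤ V1` (all contain `V`, so `OvR` holds for them). By `RTV.add_le`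
the transcendence degrees satisfy `s ≤ s' < s'' ≤ t` (for `V' < V''` with the one element `x`; the others with `r = 0`), so the
induction hypothesis applies to `V'' ≤ V1` and to `V ≤ V'`: `V''` is composite, so `V'` is (`VComp.defect` with
`exists_rankS`: `s'' ≤ m ≤ 2 ≤ r + s' + 1` since `r ≥ 1`, `RankS.pos`), so `V` is. -/
theorem vcomp_step (hV : OvR k V) (hle : V ≤ V1) (hV1 : OvR k V1) {m : ℕ} (hm : m ≤ 2)
    (hRD : RDep k L m) (h : ∃ r, VComp k V1 r) : ∃ r, VComp k V r := by
  obtain ⟨s, -, hs⟩ := exists_RTV hV hRD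
  obtain ⟨t, -, ht⟩ := exists_RTV hV1 hRD
  exact vc_ind hm hRD t V V1 hV hle hV1 hs ht (Nat.le_add_left t s) h

/-- Proof.  `vcomp_step` for `V1 = ball L` (`VComp.base`, `OvR.ball`, `hV.le`). -/
theorem vcomp_of_le_two (hV : OvR k V) {m : ℕ} (hm : m ≤ 2) (hRD : RDep k L m) :
    ∃ r, VComp k V r := by
  exact vcomp_step hV hV.le OvR.ball hm hRD ⟨0, VComp.base⟩

end

end CS
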