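import Pool.Agent.Lib.CS.Basic
import Pool.Agent.Lib.CS.ResCl

/-!
# Charts at the centre of `V`
-/

open Polynomial MP1a953e IsLocalRing

namespace CS
open Pool.Agent.Lib.MP_3029eb_ag Pool.Agent.Lib.MP_3029eb_ag.Abh

/-- `B` is a chart at the centre of `V`: finitely generated, contained in `V`, containing the ring
`BG k e c π (range v)` generated by the toric coordinates and the `v j`, and unramified over it at the centre. -/
structure VCht {k : Type} {L : Type} [NormedField k] [IsUltrametricDist k] [NormedField L]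
    [IsUltrametricDist L] [NormedAlgebra k L] (V : ValuationSubring L) {d N : ℕ} (e : Fin d → L)
    (c : Fin d → k) (π : k) (v : Fin N → L) (B : Subalgebra (O k) L) : Prop where
  ne : ∀ i, e i ≠ 0
  c_ne : ∀ i, c i ≠ 0
  π_ne : π ≠ 0
  le : DA.BG k e c π (Set.range v) ≤ B
  fg : B.FG
  mem : ∀ b ∈ B, b ∈ V
  lt : ∀ i, V.valuation (DA.tor k e c π i) < 1
  unr : ∀ b ∈ B, V.valuation b < 1 → ∃ s ∈ B, V.valuation s = 1 ∧ ∃ (M : ℕ) (x y : Fin M → L),
    (∀ i, x i ∈ DA.BG k e c π (Set.range v) ∧ V.valuation (x i) < 1 ∧ y i ∈ B) ∧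
      s * b = ∑ i, x i * y i
  sep : ∀ b ∈ B, ∃ F : Polynomial ↥(DA.BG k e c π (Set.range v)),
    V.valuation (aeval b F) < 1 ∧ V.valuation (aeval b (derivative F)) = 1

end CS
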