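import Pool.Agent.Lib.CS.Defs
import Pool.Agent.Lib.TS.Defs

/-!
# Composite valuations of function fields
-/

open IsLocalRing

namespace CS
open Pool.Agent.Lib.MP_3029eb_ag Pool.Agent.Lib.MP_3029eb_ag.Abh

/-- the transcendence degree over `κ` of the residue field of `V` is `s` -/
def RTr {κ K : Type} [Field κ] [Field K] [Algebra κ K] (V : ValuationSubring K)
    (hk : ∀ c : κ, algebraMap κ K c ∈ V) (s : ℕ) : Prop :=
  letI := (TA.resMap V hk).toAlgebra
  Algebra.trdeg κ (ResidueField V) = ((s : ℕ) : Cardinal)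

/-- The step from `V1` to `V` is discrete of rank one. -/
def DiscS {K : Type} [Field K] (V1 V : ValuationSubring K) : Prop :=
  ∃ π : K, V1.valuation π = 1 ∧ V.valuation π < 1 ∧
    ∀ z : K, V1.valuation z = 1 → ∃ n : ℤ, V.valuation z = V.valuation (π ^ n)

/-- The step from `V1` to `V` has rank one and rational rank `r`. -/
structure RankS {K : Type} [Field K] (V1 V : ValuationSubring K) (r : ℕ) : Prop where
  arch : ∀ a b : K, V1.valuation a = 1 → V1.valuation b = 1 → V.valuation b < 1 →
    ∃ n : ℕ, V.valuation (b ^ n) ≤ V.valuation a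
  pos : 0 < r
  ind : ∃ x : Fin r → K, (∀ i, V1.valuation (x i) = 1) ∧
    ∀ m : Fin r → ℤ, V.valuation (∏ i, x i ^ m i) = 1 → m = 0
  dep : ∀ z : Fin (r + 1) → K, (∀ i, V1.valuation (z i) = 1) →
    ∃ m : Fin (r + 1) → ℤ, m ≠ 0 ∧ V.valuation (∏ i, z i ^ m i) = 1

/-- `V` is composed of finitely many valuations of rank one which are discrete or of transcendence
defect at most one over `κ`. The integer `r` in `Comp κ V r` is the sum of the rational ranks. -/
inductive Comp (κ : Type) {K : Type} [Field κ] [Field K] [Algebra κ K] :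
    ValuationSubring K → ℕ → Prop
  | trivial : Comp κ ⊤ 0
  | discrete (V1 V : ValuationSubring K) (r : ℕ) :
      Comp κ V1 r → V ≤ V1 → DiscS V1 V → Comp κ V (r + 1)
  | defect (V1 V : ValuationSubring K) (r1 r s t : ℕ)
      (hk1 : ∀ c : κ, algebraMap κ K c ∈ V1) (hk : ∀ c : κ, algebraMap κ K c ∈ V) :
      Comp κ V1 r1 → V ≤ V1 → RankS V1 V r → RTr V hk s → RTr V1 hk1 t → t ≤ r + s + 1 →
      Comp κ V (r1 + r)

end CS
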