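import Pool.Agent.Lib.CS.WDefs
import Mathlib.RingTheory.AlgebraicIndependent.TranscendenceBasis

/-!
# Module CS.WRes: restriction of composite valuations to subfields
-/

open IsLocalRing

namespace CS
open Pool.Agent.Lib.MP_3029eb_ag Pool.Agent.Lib.MP_3029eb_ag.Abh

private theorem wr_one_iff {K : Type} [Field K] (V : ValuationSubring K) (z : K) :
    V.valuation z = 1 ↔ z ∈ V ∧ z⁻¹ ∈ V ∧ z ≠ 0 := by
  constructor
  · intro h
    have hz : z ≠ 0 := by rintro rfl; rw [map_zero] at h; exact zero_ne_one h
    refine ⟨(V.valuation_le_one_iff z).1 h.le, (V.valuation_le_one_iff _).1 ?_, hz⟩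
    rw [map_inv₀, h, inv_one]
  · rintro ⟨h1, h2, hz⟩
    have h3 := (V.valuation_le_one_iff z).2 h1
    have h4 := (V.valuation_le_one_iff _).2 h2
    rw [map_inv₀] at h4
    refine le_antisymm h3 ?_
    have h6 : V.valuation z ≠ 0 := by simpa using hz
    calc (1 : _) = V.valuation z * (V.valuation z)⁻¹ := (mul_inv_cancel₀ h6).symm
      _ ≤ V.valuation z * 1 := by gcongr
      _ = _ := mul_one _

private theorem wr_one_of_le {K : Type} [Field K] {V V1 : ValuationSubring K} (h : V ≤ V1) {z : K}
    (hz : V.valuation z = 1) : V1.valuation z = 1 := by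
  rw [wr_one_iff] at hz ⊢
  exact ⟨h hz.1, h hz.2.1, hz.2.2⟩

private theorem wr_eq_of_le {K : Type} [Field K] {V V1 : ValuationSubring K} (h : V ≤ V1) {a b : K}
    (hb : b ≠ 0) (hz : V.valuation a = V.valuation b) : V1.valuation a = V1.valuation b := by
  have hb1 : V.valuation b ≠ 0 := by simpa using hb
  have hb2 : V1.valuation b ≠ 0 := by simpa using hb
  have h1 : V.valuation (a / b) = 1 := by rw [map_div₀, hz, div_self hb1]
  have h2 := wr_one_of_le h h1
  rw [map_div₀, div_eq_one_iff_eq hb2] at h2
  exact h2

private theorem wr_le {F K : Type} [Field F] [Field K] (V : ValuationSubring K) (φ : F →+* K)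
    (a b : F) : (V.comap φ).valuation a ≤ (V.comap φ).valuation b ↔
      V.valuation (φ a) ≤ V.valuation (φ b) := by
  by_cases hb : b = 0
  · subst hb
    simp
  · have hb1 : (V.comap φ).valuation b ≠ 0 := by simpa using hb
    have hb3 : φ b ≠ 0 := by simpa using hb
    have hb2 : V.valuation (φ b) ≠ 0 := by simpa using hb3
    have e1 : (V.comap φ).valuation a ≤ (V.comap φ).valuation b ↔
        (V.comap φ).valuation (a / b) ≤ 1 := by
      rw [map_div₀, div_le_one₀ (zero_lt_iff.2 hb1)]
    have e2 : V.valuation (φ a) ≤ V.valuation (φ b) ↔ V.valuation (φ (a / b)) ≤ 1 := by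
      rw [map_div₀, map_div₀, div_le_one₀ (zero_lt_iff.2 hb2)]
    rw [e1, e2, ValuationSubring.valuation_le_one_iff, ValuationSubring.valuation_le_one_iff]
    exact Iff.rfl

private theorem wr_eq {F K : Type} [Field F] [Field K] (V : ValuationSubring K) (φ : F →+* K)
    (a b : F) : (V.comap φ).valuation a = (V.comap φ).valuation b ↔
      V.valuation (φ a) = V.valuation (φ b) := by
  constructor
  · intro h
    exact le_antisymm ((wr_le V φ a b).1 h.le) ((wr_le V φ b a).1 h.ge)
  · intro h
    exact le_antisymm ((wr_le V φ a b).2 h.le) ((wr_le V φ b a).2 h.ge)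

private theorem wr_lt {F K : Type} [Field F] [Field K] (V : ValuationSubring K) (φ : F →+* K)
    (a b : F) : (V.comap φ).valuation a < (V.comap φ).valuation b ↔
      V.valuation (φ a) < V.valuation (φ b) := by
  rw [← not_le, ← not_le, wr_le]

private theorem wr_eq1 {F K : Type} [Field F] [Field K] (V : ValuationSubring K) (φ : F →+* K)
    (a : F) : (V.comap φ).valuation a = 1 ↔ V.valuation (φ a) = 1 := by
  have := wr_eq V φ a 1
  simpa using this

private theorem wr_lt1 {F K : Type} [Field F] [Field K] (V : ValuationSubring K) (φ : F →+* K)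
    (a : F) : (V.comap φ).valuation a < 1 ↔ V.valuation (φ a) < 1 := by
  have := wr_lt V φ a 1
  simpa using this

section
variable {κ F K : Type} [Field κ] [Field F] [Field K] [Algebra κ F] [Algebra κ K] [Algebra F K]
  [IsScalarTower κ F K] [Algebra.IsAlgebraic F K]

omit [Algebra.IsAlgebraic F K] in
private theorem exists_pow_val_aux (V : ValuationSubring K) {x : K} (hx : x ≠ 0) {a b : F}
    (ha : a ≠ 0) (hb : b ≠ 0) {i j : ℕ} (hij : i < j)
    (h : V.valuation (algebraMap F K a * x ^ i) = V.valuation (algebraMap F K b * x ^ j)) :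
    ∃ n : ℕ, 0 < n ∧ ∃ f : F, f ≠ 0 ∧ V.valuation (x ^ n) = V.valuation (algebraMap F K f) := by
  refine ⟨j - i, by omega, a / b, div_ne_zero ha hb, ?_⟩
  have h1 : x ^ j = x ^ i * x ^ (j - i) := by rw [← pow_add]; congr 1; omega
  rw [h1] at h
  have hb2 : V.valuation (algebraMap F K b) ≠ 0 := by simpa using hb
  have hx2 : V.valuation (x ^ i) ≠ 0 := by
    rw [map_pow]; exact pow_ne_zero _ (by simpa using hx)
  rw [map_div₀, map_div₀, eq_div_iff hb2]
  simp only [map_mul] at h
  have h3 : V.valuation (x ^ i) * V.valuation (algebraMap F K a)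
      = V.valuation (x ^ i) * (V.valuation (x ^ (j - i)) * V.valuation (algebraMap F K b)) := by
    rw [mul_comm, h, mul_left_comm, mul_comm (V.valuation (algebraMap F K b))]
  exact (mul_left_cancel₀ hx2 h3).symm

/-- A multiple of each value is the value of an element of the subfield.  Proof.  Let `∑ a i * x ^ i = 0` with `a i ∈ F`
not all `0`. Among the nonzero terms two, `i < j`, have the same value (otherwise the value of the sum is the largest
of the values, nonzero). Then the value of `x ^ (j - i)` is that of `a i / a j`. -/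
theorem exists_pow_val (V : ValuationSubring K) {x : K} (hx : x ≠ 0) :
    ∃ n : ℕ, 0 < n ∧ ∃ f : F, f ≠ 0 ∧ V.valuation (x ^ n) = V.valuation (algebraMap F K f) := by
  classical
  obtain ⟨p, hp0, hp⟩ := (Algebra.IsAlgebraic.isAlgebraic x : IsAlgebraic F x)
  have hne : p.support.Nonempty := by
    rw [Finset.nonempty_iff_ne_empty]
    intro h
    exact hp0 (Polynomial.support_eq_empty.1 h)
  obtain ⟨j, hj, hmax⟩ := Finset.exists_max_image p.support
    (fun n => V.valuation (algebraMap F K (p.coeff n) * x ^ n)) hne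
  have hsum : ∑ n ∈ p.support, algebraMap F K (p.coeff n) * x ^ n = 0 := by
    rw [Polynomial.aeval_def, Polynomial.eval₂_eq_sum, Polynomial.sum] at hp
    exact hp
  have hjv : V.valuation (algebraMap F K (p.coeff j) * x ^ j) ≠ 0 := by
    have h1 : p.coeff j ≠ 0 := Polynomial.mem_support_iff.1 hj
    have h2 : algebraMap F K (p.coeff j) * x ^ j ≠ 0 :=
      mul_ne_zero (by simpa using h1) (pow_ne_zero _ hx)
    simpa using h2
  obtain ⟨i, hi, hij, hv⟩ : ∃ i ∈ p.support, i ≠ j ∧
      V.valuation (algebraMap F K (p.coeff i) * x ^ i)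
        = V.valuation (algebraMap F K (p.coeff j) * x ^ j) := by
    by_contra hcon
    push Not at hcon
    have h1 : ∀ i ∈ p.support \ {j}, V.valuation (algebraMap F K (p.coeff i) * x ^ i)
        < V.valuation (algebraMap F K (p.coeff j) * x ^ j) := by
      intro i hi
      rw [Finset.mem_sdiff, Finset.mem_singleton] at hi
      exact lt_of_le_of_ne (hmax i hi.1) (hcon i hi.1 hi.2)
    have h2 := Valuation.map_sum_eq_of_lt V.valuation (s := p.support)
      (f := fun n => algebraMap F K (p.coeff n) * x ^ n) (j := j) hj h1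
    rw [hsum, map_zero] at h2
    exact hjv h2.symm
  have hi0 : p.coeff i ≠ 0 := Polynomial.mem_support_iff.1 hi
  have hj0 : p.coeff j ≠ 0 := Polynomial.mem_support_iff.1 hj
  rcases lt_or_gt_of_ne hij with h | h
  · exact exists_pow_val_aux V hx hi0 hj0 h hv
  · exact exists_pow_val_aux V hx hj0 hi0 h hv.symm

omit [Algebra.IsAlgebraic F K] in
private theorem wr_term (V : ValuationSubring K) (p : Polynomial F) {j : ℕ} (hj : j ∈ p.support)
    (hmax : ∀ n ∈ p.support, V.valuation (algebraMap F K (p.coeff n))
      ≤ V.valuation (algebraMap F K (p.coeff j))) (n : ℕ) :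
    p.coeff n / p.coeff j ∈ V.comap (algebraMap F K) := by
  rw [← ValuationSubring.valuation_le_one_iff]
  have hj0 : p.coeff j ≠ 0 := Polynomial.mem_support_iff.1 hj
  have h1 := (wr_le V (algebraMap F K) (p.coeff n / p.coeff j) 1).2
  simp only [map_one] at h1
  refine h1 ?_
  have hj1 : V.valuation (algebraMap F K (p.coeff j)) ≠ 0 := by simpa using hj0
  rw [map_div₀, map_div₀, div_le_one₀ (zero_lt_iff.2 hj1)]
  by_cases hn : n ∈ p.support
  · exact hmax n hn
  · rw [Polynomial.notMem_support_iff.1 hn, map_zero, map_zero]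
    exact zero_le

/-- The residue field of the restriction has the same transcendence degree.  Proof.  The inclusion `V ∩ F ≤ V` is a
local homomorphism, it induces a `κ`-homomorphism of the residue fields, which is algebraic: for `x ∈ V` let
`∑ a i * x ^ i = 0` with `a i ∈ F` not all `0`; divide by a coefficient of largest value: all `a i ∈ V`, one of them is
`1`; so the residue of `x` is a root of a nonzero polynomial. For an algebraic extension the transcendence degrees are
equal (`Algebra.trdeg_add_eq` and `Algebra.trdeg_eq_zero...`, or `IsTranscendenceBasis`; see Mathlib). -/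
theorem RTr.comap {V : ValuationSubring K} {hk : ∀ c : κ, algebraMap κ K c ∈ V} {s : ℕ}
    (h : RTr V hk s) (hk' : ∀ c : κ, algebraMap κ F c ∈ V.comap (algebraMap F K)) :
    RTr (V.comap (algebraMap F K)) hk' s := by
  classical
  unfold RTr at h ⊢
  letI a1 : Algebra κ (ResidueField V) := (TA.resMap V hk).toAlgebra
  letI a2 : Algebra κ (ResidueField (V.comap (algebraMap F K))) := (TA.resMap _ hk').toAlgebra
  let ι : (V.comap (algebraMap F K)) →+* V :=
    ((algebraMap F K).comp (V.comap (algebraMap F K)).subtype).codRestrict V.toSubring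
      (fun x => x.2)
  have hι : ∀ x, ((ι x : V) : K) = algebraMap F K (x : F) := fun x => rfl
  haveI hloc : IsLocalHom ι := by
    constructor
    intro x hx
    rw [ValuationSubring.valuation_eq_one_iff] at hx ⊢
    rw [wr_eq1]
    exact hx
  let ρ : ResidueField (V.comap (algebraMap F K)) →+* ResidueField V := ResidueField.map ι
  have hρ : ∀ x, ρ (residue _ x) = residue V (ι x) := fun x => rfl
  letI a3 : Algebra (ResidueField (V.comap (algebraMap F K))) (ResidueField V) := ρ.toAlgebra
  haveI tw : IsScalarTower κ (ResidueField (V.comap (algebraMap F K))) (ResidueField V) := by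
    refine IsScalarTower.of_algebraMap_eq fun c => ?_
    change residue V _ = ρ (residue _ _)
    rw [hρ]
    congr 1
    apply Subtype.ext
    rw [hι]
    change algebraMap κ K c = algebraMap F K (algebraMap κ F c)
    exact IsScalarTower.algebraMap_apply κ F K c
  haveI alg : Algebra.IsAlgebraic (ResidueField (V.comap (algebraMap F K))) (ResidueField V) := by
    constructor
    intro y
    obtain ⟨x, rfl⟩ := residue_surjective y
    obtain ⟨p, hp0, hp⟩ := (Algebra.IsAlgebraic.isAlgebraic (x : K) : IsAlgebraic F (x : K))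
    have hne : p.support.Nonempty := by
      rw [Finset.nonempty_iff_ne_empty]
      intro h
      exact hp0 (Polynomial.support_eq_empty.1 h)
    obtain ⟨j, hj, hmax⟩ := Finset.exists_max_image p.support
      (fun n => V.valuation (algebraMap F K (p.coeff n))) hne
    have hj0 : p.coeff j ≠ 0 := Polynomial.mem_support_iff.1 hj
    have hsum : ∑ n ∈ p.support, algebraMap F K (p.coeff n) * (x : K) ^ n = 0 := by
      rw [Polynomial.aeval_def, Polynomial.eval₂_eq_sum, Polynomial.sum] at hp
      exact hp
    let w : ℕ → (V.comap (algebraMap F K)) := fun n => ⟨p.coeff n / p.coeff j, wr_term V p hj hmax n⟩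
    refine ⟨∑ n ∈ p.support, Polynomial.monomial n (residue _ (w n)), ?_, ?_⟩
    · intro h0
      have h1 := congrArg (fun q => Polynomial.coeff q j) h0
      simp only [Polynomial.finsetSum_coeff, Polynomial.coeff_monomial, Polynomial.coeff_zero] at h1
      rw [Finset.sum_ite_eq' p.support j, if_pos hj] at h1
      have h2 : w j = 1 := Subtype.ext (div_self hj0)
      rw [h2, map_one] at h1
      exact one_ne_zero h1
    · rw [map_sum]
      simp only [Polynomial.aeval_monomial]
      have h3 : ∀ n, algebraMap (ResidueField (V.comap (algebraMap F K))) (ResidueField V)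
          (residue _ (w n)) * (residue V x) ^ n = residue V (ι (w n) * x ^ n) := by
        intro n
        rw [map_mul, map_pow]
        rfl
      simp only [h3]
      rw [← map_sum]
      have h4 : ∑ n ∈ p.support, ι (w n) * x ^ n = 0 := by
        apply Subtype.ext
        have h5 : ((∑ n ∈ p.support, ι (w n) * x ^ n : V) : K)
            = ∑ n ∈ p.support, algebraMap F K (p.coeff n / p.coeff j) * (x : K) ^ n := by
          rw [← ValuationSubring.subtype_apply, map_sum]
          rfl
        rw [h5]
        have h6 : ∑ n ∈ p.support, algebraMap F K (p.coeff n / p.coeff j) * (x : K) ^ n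
            = (algebraMap F K (p.coeff j))⁻¹ *
              ∑ n ∈ p.support, algebraMap F K (p.coeff n) * (x : K) ^ n := by
          rw [Finset.mul_sum]
          refine Finset.sum_congr rfl fun n _ => ?_
          rw [map_div₀]; ring
        rw [h6, hsum, mul_zero]
        rfl
      rw [h4, map_zero]
  have h7 := _root_.trdeg_add_eq κ (ResidueField (V.comap (algebraMap F K)))
    (A := ResidueField V)
  rw [_root_.trdeg_eq_zero (R := ResidueField (V.comap (algebraMap F K)))
    (A := ResidueField V), add_zero] at h7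
  rw [h7]
  exact h

/-- Proof.  `V1.valuation x = 1` iff `x, x⁻¹ ∈ V1` (`C1_val_one_iff`), so the conditions on values for the restrictions are
the conditions for the images in `K`. Let `H` be the set of the `n : ℤ` such that `V.valuation (π ^ n)` is the value of some
`z ∈ F` with `V1`-value `1`: a subgroup of `ℤ`, not `0` by `exists_pow_val` (if `V.valuation f = V.valuation (π ^ n)` then
`V1.valuation f = V1.valuation (π ^ n) = 1`, because `V ≤ V1`). Let `n₀ > 0` be its generator, and `π₀ ∈ F` with the value of
`π ^ n₀`. -/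
theorem DiscS.comap {V1 V : ValuationSubring K} (hle : V ≤ V1) (h : DiscS V1 V) :
    DiscS (V1.comap (algebraMap F K)) (V.comap (algebraMap F K)) := by
  classical
  obtain ⟨π, h1, h2, h3⟩ := h
  have hπ : π ≠ 0 := by rintro rfl; rw [map_zero] at h1; exact zero_ne_one h1
  have hπv : V.valuation π ≠ 0 := by simpa using hπ
  have hex : ∃ n : ℕ, 0 < n ∧ ∃ f : F, V1.valuation (algebraMap F K f) = 1 ∧
      V.valuation (algebraMap F K f) = V.valuation (π ^ n) := by
    obtain ⟨n, hn, f, hf, hv⟩ := exists_pow_val (F := F) V hπ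
    refine ⟨n, hn, f, ?_, hv.symm⟩
    rw [wr_eq_of_le hle (pow_ne_zero n hπ) hv.symm, map_pow, h1, one_pow]
  obtain ⟨hn0, f, hf1, hf⟩ := Nat.find_spec hex
  have hmin : ∀ m : ℕ, m < Nat.find hex → 0 < m → ∀ g : F, V1.valuation (algebraMap F K g) = 1 →
      V.valuation (algebraMap F K g) ≠ V.valuation (π ^ m) := by
    intro m hm hm0 g hg1 hg
    exact Nat.find_min hex hm ⟨hm0, g, hg1, hg⟩
  set n := Nat.find hex with hn
  refine ⟨f, (wr_eq1 V1 _ f).2 hf1, (wr_lt1 V _ f).2 ?_, ?_⟩
  · rw [hf, map_pow]
    exact pow_lt_one₀ zero_le h2 (by omega)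
  · intro z hz
    rw [wr_eq1] at hz
    obtain ⟨k, hk⟩ := h3 _ hz
    refine ⟨k / (n : ℤ), ?_⟩
    rw [wr_eq]
    have hfv : V.valuation (algebraMap F K f) ≠ 0 := by
      rw [hf, map_pow]; exact pow_ne_zero _ hπv
    have hf0 : algebraMap F K f ≠ 0 := by
      rintro h0
      rw [h0, map_zero] at hfv
      exact hfv rfl
    have hnz : (n : ℤ) ≠ 0 := by exact_mod_cast hn0.ne'
    have hr0 : 0 ≤ k % (n : ℤ) := Int.emod_nonneg k hnz
    have hrn : k % (n : ℤ) < n := Int.emod_lt_of_pos k (by exact_mod_cast hn0)
    obtain ⟨r, hr⟩ := Int.eq_ofNat_of_zero_le hr0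
    have hkr : k = (n : ℤ) * (k / n) + r := by
      rw [← hr]; exact (Int.mul_ediv_add_emod k n).symm
    have key : V.valuation (algebraMap F K (z * (f ^ (k / (n : ℤ)))⁻¹)) = V.valuation (π ^ r) := by
      rw [map_mul, map_inv₀, map_zpow₀, map_mul, map_inv₀, map_zpow₀, hk, hf, map_zpow₀, map_pow,
        map_pow]
      rw [← div_eq_mul_inv, div_eq_iff (zpow_ne_zero _ (pow_ne_zero _ hπv))]
      rw [← zpow_natCast, ← zpow_natCast, ← zpow_mul, ← zpow_add₀ hπv]
      congr 1
      rw [add_comm]; exact hkr
    have hr00 : r = 0 := by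
      by_contra hne
      refine hmin r ?_ (Nat.pos_of_ne_zero hne) (z * (f ^ (k / (n : ℤ)))⁻¹) ?_ key
      · have : (r : ℤ) < n := by rw [← hr]; exact hrn
        exact_mod_cast this
      · rw [map_mul, map_inv₀, map_zpow₀, map_mul, map_inv₀, map_zpow₀, hz, hf1, one_zpow, inv_one,
          mul_one]
    rw [hr00, pow_zero, map_one, map_mul, map_inv₀, map_mul, map_inv₀,
      mul_inv_eq_one₀ (by rw [map_zpow₀, map_zpow₀]; exact zpow_ne_zero _ hfv)] at key
    exact key

/-- Proof.  `arch`, `dep`: these are conditions for all elements of `K`, apply them to the images of elements of `F`.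
`ind`: replace `x i` by an element of `F` whose `V`-value is that of `x i ^ n i`, `n i > 0` (`exists_pow_val`); its `V1`-value
is one because `V ≤ V1`. -/
theorem RankS.comap {V1 V : ValuationSubring K} (hle : V ≤ V1) {r : ℕ} (h : RankS V1 V r) :
    RankS (V1.comap (algebraMap F K)) (V.comap (algebraMap F K)) r := by
  classical
  obtain ⟨arch, pos, ind, dep⟩ := h
  refine ⟨?_, pos, ?_, ?_⟩
  · intro a b ha hb hb1
    rw [wr_eq1] at ha hb
    rw [wr_lt1] at hb1
    obtain ⟨n, hn⟩ := arch _ _ ha hb hb1
    refine ⟨n, ?_⟩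
    rw [wr_le, map_pow]
    exact hn
  · obtain ⟨x, hx, hm⟩ := ind
    have hx0 : ∀ i, x i ≠ 0 := by
      intro i h0
      have := hx i
      rw [h0, map_zero] at this
      exact zero_ne_one this
    choose n hn f hf hv using fun i => exists_pow_val (F := F) V (hx0 i)
    refine ⟨f, ?_, ?_⟩
    · intro i
      rw [wr_eq1, wr_eq_of_le hle (pow_ne_zero _ (hx0 i)) (hv i).symm, map_pow, hx i, one_pow]
    · intro m hm1
      rw [wr_eq1] at hm1
      have h5 : V.valuation (∏ i, x i ^ ((n i : ℤ) * m i)) = 1 := by
        rw [← hm1, map_prod, map_prod, map_prod]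
        refine Finset.prod_congr rfl fun i _ => ?_
        rw [map_zpow₀ (algebraMap F K), map_zpow₀ V.valuation, map_zpow₀ V.valuation, ← hv i,
          map_pow, zpow_mul, zpow_natCast]
      have h6 := hm _ h5
      funext i
      have h7 : (n i : ℤ) * m i = 0 := congrFun h6 i
      rcases mul_eq_zero.1 h7 with h8 | h8
      · exact absurd h8 (by exact_mod_cast (hn i).ne')
      · exact h8
  · intro z hz
    obtain ⟨m, hm0, hm⟩ := dep (fun i => algebraMap F K (z i)) (fun i => (wr_eq1 V1 _ (z i)).1 (hz i))
    refine ⟨m, hm0, ?_⟩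
    rw [wr_eq1, map_prod]
    simp only [map_zpow₀ (algebraMap F K)]
    exact hm

/-- Proof.  Induction over `h`, with the preceding lemmas. (`⊤` restricts to `⊤`.) -/
theorem Comp.comap {V : ValuationSubring K} {r : ℕ} (h : Comp κ V r) :
    Comp κ (V.comap (algebraMap F K)) r := by
  induction h with
  | trivial =>
    have : (⊤ : ValuationSubring K).comap (algebraMap F K) = ⊤ := by
      ext x
      simp [ValuationSubring.mem_comap]
    rw [this]
    exact Comp.trivial
  | discrete V1 V r h1 hle hd ih =>
    exact Comp.discrete _ _ _ ih (fun x hx => hle hx) (DiscS.comap hle hd)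
  | defect V1 V r1 r s t hk1 hk h1 hle hr hs ht hd ih =>
    have hk1' : ∀ c : κ, algebraMap κ F c ∈ V1.comap (algebraMap F K) := by
      intro c
      change algebraMap F K (algebraMap κ F c) ∈ V1
      rw [← IsScalarTower.algebraMap_apply κ F K c]
      exact hk1 c
    have hk' : ∀ c : κ, algebraMap κ F c ∈ V.comap (algebraMap F K) := by
      intro c
      change algebraMap F K (algebraMap κ F c) ∈ V
      rw [← IsScalarTower.algebraMap_apply κ F K c]
      exact hk c
    exact Comp.defect _ _ _ _ s t hk1' hk' ih (fun x hx => hle hx) (RankS.comap hle hr)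
      (hs.comap hk') (ht.comap hk1') hd

end

end CS
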