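import Pool.Agent.Lib.CS.ZDefs
import Pool.Agent.Lib.DA.HFc

/-!
# Module CS.Z1: density in the algebraic case
-/

open Polynomial MP1a953e IsLocalRing DA

namespace CS

private theorem z1_keuT {k L : Type*} [NormedField k] [NormedField L] [NormedAlgebra k L]
    {r m : ℕ} (e : Fin r → L) (u : Fin m → L) : keuT k e u 0 = keu k e u := by
  unfold keuT keu
  apply le_antisymm
  · rw [IntermediateField.adjoin_le_iff]
    rintro x (hx | hx)
    · exact IntermediateField.subset_adjoin k _ hx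
    · rw [Set.mem_singleton_iff] at hx
      rw [hx]
      exact zero_mem _
  · exact IntermediateField.adjoin.mono _ _ _ Set.subset_union_left

private theorem z1_alg {k L Ω : Type*} [NormedField k] [IsUltrametricDist k] [NormedField L]
    [IsUltrametricDist L] [NormedAlgebra k L] [NormedField Ω] [IsUltrametricDist Ω] {ι : L →+* Ω} {r m : ℕ} {e : Fin r → L} {u : Fin m → L}
    {F : Subfield Ω} (hF : kM (k := k) ι e u ≤ F) (x : L) (hx : IsAlgebraic (keu k e u) x) :
    IsAlgebraic F (ι x) := by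
  obtain ⟨P, hP0, hP⟩ := hx
  have hmem : ∀ y : keu k e u, ι (y : L) ∈ F := by
    intro y
    apply hF
    rw [kM_eq]
    exact ⟨(y : L), y.2, rfl⟩
  obtain ⟨φ, hφ⟩ : ∃ φ : keu k e u →+* F, ∀ y, ((φ y : F) : Ω) = ι (y : L) :=
    ⟨(ι.comp (algebraMap (keu k e u) L)).codRestrict F hmem, fun y => rfl⟩
  refine ⟨P.map φ, (Polynomial.map_ne_zero_iff φ.injective).2 hP0, ?_⟩
  rw [aeval_def, eval₂_map]
  have h1 : (algebraMap F Ω).comp φ = ι.comp (algebraMap (keu k e u) L) := by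
    ext y
    exact hφ y
  rw [h1, ← hom_eval₂, ← aeval_def, hP, map_zero]

/-- Proof.  Copy the proof of `DA.exists_Y` (Pool/Agent/Lib/DA/HFc.lean) for `T = 0` (then `ι T = 0 ∈ F`, and `L` is separable over
`keuT k e u 0`, because it is over `keu k e u`): in both characteristics the branch `ι T ∈ F` gives `K ≤ F`, `F ≤ K` and
`DenseIn (adj (kM ι e u) a) F`, so `K = F`. -/
theorem dense_of_sep {p : ℕ} [Fact p.Prime] {k L Ω : Type} [NontriviallyNormedField k]
    [IsUltrametricDist k] [IsAlgClosed k] [NormedField L] [IsUltrametricDist L]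
    [NormedAlgebra k L] [NormedField Ω] [IsUltrametricDist Ω] [IsAlgClosed Ω]
    (hp : ‖(p : Ω)‖ < 1) {ι : L →+* Ω} {K : Subfield Ω} (hE : Emb ι K)
    (halg : ∀ x : Ω, IsAlgebraic K x) {r m : ℕ} {e : Fin r → L} {u : Fin m → L} (h : EU k e u)
    (hval : ∀ x : L, x ≠ 0 → ∃ (z : Fin r → ℤ) (c : k), c ≠ 0 ∧ ‖x‖ = ‖DA.mon k e z c‖)
    {d : ℕ} {a : Ω} {f : Polynomial Ω}
    (hRD : RD (kU (kO k ι) fun i => ι (e i)) (fun i => ι (u i)) d a f) (ha : a ∈ K)
    (hres : ∀ x ∈ K, ‖x‖ ≤ 1 → ∃ c ∈ adj (kU (kO k ι) fun i => ι (u i)) a, ‖x - c‖ < 1)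
    (hsep : Algebra.IsSeparable (keu k e u) L) (hfg : (⊤ : IntermediateField k L).FG) :
    DenseIn (adj (kM (k := k) ι e u) a) K := by
  have hsep0 : Algebra.IsSeparable (keuT k e u 0) L := by
    rw [z1_keuT]
    exact hsep
  obtain ⟨F, hFK, hFd, hF⟩ := exists_Y hp hE halg h hval hRD ha hres hsep0 hfg
  have hMF : kM (k := k) ι e u ≤ F := (le_adj _ _).trans hFd.1
  have hKF : K ≤ F := by
    rcases hF with h1 | ⟨Y, hYK, hTT, -⟩
    · exact h1
    · exfalso
      obtain ⟨x, hx⟩ := hE.dense Y hYK _ hTT.pos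
      have halgx : IsAlgebraic F (ι x) :=
        z1_alg hMF x (Algebra.IsSeparable.isSeparable (keu k e u) x).isIntegral.isAlgebraic
      exact absurd (hTT.nb _ halgx) (not_lt.2 hx.le)
  rw [le_antisymm hKF hFK]
  exact hFd

end CS
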