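import Pool.Agent.Lib.CS.ZDefs
import Pool.Agent.Lib.DA.Xa

/-!
# Module CS.Z3: rigidity
-/

open Polynomial MP1a953e IsLocalRing DA

namespace CS

private theorem z3_sub_le {E : Type*} [NormedField E] [IsUltrametricDist E] (x y : E) :
    ‖x - y‖ ≤ max ‖x‖ ‖y‖ := by
  have h := IsUltrametricDist.norm_add_le_max x (-y)
  rwa [norm_neg, ← sub_eq_add_neg] at h

/-- the unit ball as a subring -/
private def OO (Ω : Type*) [NormedField Ω] [IsUltrametricDist Ω] : Subring Ω where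
  carrier := {z | ‖z‖ ≤ 1}
  mul_mem' := by
    intro a b ha hb
    simp only [Set.mem_ofPred_eq] at *
    rw [norm_mul]
    exact mul_le_one₀ ha (norm_nonneg _) hb
  one_mem' := by simp
  add_mem' := by
    intro a b ha hb
    exact (IsUltrametricDist.norm_add_le_max a b).trans (max_le ha hb)
  zero_mem' := by simp
  neg_mem' := by
    intro a ha
    simpa using ha

private theorem lift_OO {Ω : Type*} [NormedField Ω] [IsUltrametricDist Ω] {f : Polynomial Ω}
    (hf1 : ∀ i, ‖f.coeff i‖ ≤ 1) : ∃ F : Polynomial (OO Ω), F.map (OO Ω).subtype = f := by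
  have h : (↑f.coeffs : Set Ω) ⊆ (OO Ω : Set Ω) := by
    intro z hz
    have hz' : z ∈ f.coeffs := hz
    rw [Polynomial.mem_coeffs_iff] at hz'
    obtain ⟨n, _, rfl⟩ := hz'
    exact hf1 n
  exact ⟨f.toSubring (OO Ω) h, Polynomial.map_toSubring f (OO Ω) h⟩

private theorem eval_OO {Ω : Type*} [NormedField Ω] [IsUltrametricDist Ω]
    (F : Polynomial (OO Ω)) (z : OO Ω) :
    (F.map (OO Ω).subtype).eval (z : Ω) = ((F.eval z : OO Ω) : Ω) := by
  rw [Polynomial.eval_map]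
  exact Polynomial.eval₂_at_apply (OO Ω).subtype z

private theorem taylor2 {Ω : Type*} [NormedField Ω] [IsUltrametricDist Ω] {f : Polynomial Ω}
    (hf1 : ∀ i, ‖f.coeff i‖ ≤ 1) {y h : Ω} (hy : ‖y‖ ≤ 1) (hh : ‖h‖ ≤ 1) :
    ∃ k : Ω, ‖k‖ ≤ 1 ∧ f.eval (y + h) = f.eval y + f.derivative.eval y * h + k * h ^ 2 := by
  obtain ⟨F, hF⟩ := lift_OO hf1
  let y' : OO Ω := ⟨y, hy⟩
  let h' : OO Ω := ⟨h, hh⟩
  obtain ⟨k, hk⟩ := Polynomial.binomExpansion F y' h'
  refine ⟨k, k.2, ?_⟩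
  have h1 := eval_OO F (y' + h')
  have h2 := eval_OO F y'
  have h3 := eval_OO (derivative F) y'
  rw [← Polynomial.derivative_map] at h3
  rw [hF] at h1 h2 h3
  have e1 : ((y' + h' : OO Ω) : Ω) = y + h := rfl
  have e2 : ((y' : OO Ω) : Ω) = y := rfl
  rw [e1] at h1
  rw [e2] at h2 h3
  rw [h1, h2, h3, hk]
  rfl

private theorem norm_eval_eq {Ω : Type*} [NormedField Ω] [IsUltrametricDist Ω]
    {f : Polynomial Ω} (hf1 : ∀ i, ‖f.coeff i‖ ≤ 1) {a : Ω} (ha : ‖a‖ ≤ 1) (hf : f.eval a = 0)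
    (hf' : ‖f.derivative.eval a‖ = 1) {y : Ω} (hy : ‖y - a‖ < 1) :
    ‖f.eval y‖ = ‖y - a‖ := by
  by_cases h0 : y = a
  · rw [h0, hf, sub_self]
  obtain ⟨k, hk, h⟩ := taylor2 hf1 ha hy.le
  have hpos : 0 < ‖y - a‖ := norm_pos_iff.2 (sub_ne_zero.2 h0)
  rw [add_sub_cancel, hf, zero_add] at h
  have h1 : ‖f.derivative.eval a * (y - a)‖ = ‖y - a‖ := by rw [norm_mul, hf', one_mul]
  have h2 : ‖k * (y - a) ^ 2‖ < ‖y - a‖ := by
    rw [norm_mul, norm_pow]
    calc ‖k‖ * ‖y - a‖ ^ 2 ≤ 1 * ‖y - a‖ ^ 2 :=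
          mul_le_mul_of_nonneg_right hk (by positivity)
      _ = ‖y - a‖ * ‖y - a‖ := by ring
      _ < 1 * ‖y - a‖ := mul_lt_mul_of_pos_right hy hpos
      _ = ‖y - a‖ := one_mul _
  rw [h, IsUltrametricDist.norm_add_eq_max_of_norm_ne_norm (by rw [h1]; exact h2.ne'), h1]
  exact max_eq_left h2.le

private theorem z3_adj_poly {Ω : Type*} [NormedField Ω] {F : Subfield Ω} {Y : Ω}
    (hY : IsAlgebraic F Y) {x : Ω} (hx : x ∈ adj F Y) :
    ∃ P : Polynomial Ω, Coeffs F P ∧ x = P.eval Y := by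
  have h1 : adj F Y ≤ (IntermediateField.adjoin F {Y}).toSubfield := by
    refine adj_le (fun e he => ?_) ?_
    · exact (IntermediateField.adjoin F {Y}).algebraMap_mem ⟨e, he⟩
    · exact IntermediateField.mem_adjoin_simple_self F Y
  have h2 : x ∈ IntermediateField.adjoin F {Y} := h1 hx
  have h3 : x ∈ (IntermediateField.adjoin F {Y}).toSubalgebra := h2
  rw [IntermediateField.adjoin_simple_toSubalgebra_of_isAlgebraic hY,
    Algebra.adjoin_singleton_eq_range_aeval] at h3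
  obtain ⟨P, hP⟩ := h3
  refine ⟨P.map (algebraMap F Ω), fun i => ?_, ?_⟩
  · rw [coeff_map]
    exact (P.coeff i).2
  · rw [eval_map_algebraMap]
    exact hP.symm

private theorem z3_isAlgebraic {Ω : Type*} [NormedField Ω] {F : Subfield Ω} {f : Polynomial Ω}
    (hf : Coeffs F f) (hm : f.Monic) {a : Ω} (ha : f.eval a = 0) : IsAlgebraic F a := by
  have h1 : (↑f.coeffs : Set Ω) ⊆ (F.toSubring : Set Ω) := by
    intro z hz
    have hz' : z ∈ f.coeffs := hz
    rw [Polynomial.mem_coeffs_iff] at hz'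
    obtain ⟨n, _, rfl⟩ := hz'
    exact hf n
  have h2 : (f.toSubring F.toSubring h1).map F.toSubring.subtype = f :=
    Polynomial.map_toSubring f F.toSubring h1
  have h3 : (f.toSubring F.toSubring h1).Monic := (Polynomial.monic_toSubring f _ h1).2 hm
  have h4 : IsAlgebraic F.toSubring a := by
    refine ⟨f.toSubring F.toSubring h1, h3.ne_zero, ?_⟩
    rw [aeval_def, ← eval_map]
    have h5 : (f.toSubring F.toSubring h1).map (algebraMap F.toSubring Ω) = f := h2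
    rw [h5]
    exact ha
  exact h4

private theorem z3_lift {k L Ω : Type*} [NormedField k] [IsUltrametricDist k] [NormedField L]
    [IsUltrametricDist L] [NormedAlgebra k L] [NormedField Ω] [IsUltrametricDist Ω]
    {ι : L →+* Ω} {r m : ℕ} {e : Fin r → L} {u : Fin m → L} {P : Polynomial Ω}
    (hP : Coeffs (kM (k := k) ι e u) P) :
    ∃ Q : Polynomial (keu k e u), Q.map (ι.comp (algebraMap (keu k e u) L)) = P := by
  have h1 : P ∈ Polynomial.lifts (ι.comp (algebraMap (keu k e u) L)) := by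
    rw [Polynomial.lifts_iff_coeff_lifts]
    intro i
    have h2 := hP i
    rw [kM_eq] at h2
    obtain ⟨y, hy, h3⟩ := h2
    exact ⟨⟨y, hy⟩, h3⟩
  exact h1

/-- Proof.  (1) For every `ε > 0` there is `α' ∈ L` with `‖ι α' - a‖ < ε` (`emb.dense`). The coefficients of `f` are in
`kM ι e u`, the image of `keu k e u` (`DA.kM_eq`), on which `σ` and `ι` agree; so `f = F.map ι` where `F` has coefficients in
`keu k e u`, `f.eval (ι α') = ι (F.eval α')` and `f.eval (σ α') = σ (F.eval α')`, which have the same norm, small if `ε` is small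
(`f.eval a = 0`, coefficients and arguments of norm `≤ 1`: `‖f.eval x - f.eval y‖ ≤ ‖x - y‖`). (2) If also `ε ≤ 1`, then
`‖σ α' - a‖ < 1`: `‖σ α' - σ α‖ = ‖α' - α‖ < 1`, `‖σ α - ι α‖ < 1`, `‖ι α - a‖ < 1`. For `x` with `‖x - a‖ < 1` one has
`‖f.eval x‖ = ‖x - a‖`, because `f.eval x = (x - a) * (f'(a) + (x - a) * y)` with `‖y‖ ≤ 1` (Taylor expansion), `‖f' a‖ = 1`. So
`‖σ α' - a‖ = ‖f.eval (σ α')‖ = ‖f.eval (ι α')‖ = ‖ι α' - a‖ < ε`. (3) Let `x ∈ L`, `ε > 0`. By `dense` there is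
`g ∈ adj (kM ι e u) a` with `‖ι x - g‖ < ε`; `g = P(a) / Q(a)` with `P, Q` polynomials over `keu k e u` (mapped by `ι`), `Q(a) ≠ 0`
(an element of the field generated by `kM` and `a`). For `α'` near enough to `a`: `‖P(ι α') / Q(ι α') - g‖ < ε` and
`‖P(σ α') / Q(σ α') - g‖ < ε` by (2) and continuity. With `y = P(α') / Q(α') ∈ L`: `‖x - y‖ = ‖ι x - ι y‖ < ε`, so
`‖σ x - σ y‖ < ε`, and `σ y = P(σ α') / Q(σ α')`. So `‖σ x - ι x‖ < ε` for all `ε`. -/
theorem rigid {k L Ω : Type} [NormedField k] [IsUltrametricDist k] [NormedField L]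
    [IsUltrametricDist L] [NormedAlgebra k L] [NormedField Ω] [IsUltrametricDist Ω]
    {ι : L →+* Ω} {K : Subfield Ω} {r m : ℕ} {e : Fin r → L} {u : Fin m → L} {α : L} {a : Ω}
    {f : Polynomial Ω} (h : ZD k ι K e u α a f) {σ : L →+* Ω} (hσ : ∀ x, ‖σ x‖ = ‖x‖)
    (hM : ∀ x ∈ keu k e u, σ x = ι x) (hα : ‖σ α - ι α‖ < 1) : σ = ι := by
  have hι := h.emb.norm
  have hσι : σ.comp (algebraMap (keu k e u) L) = ι.comp (algebraMap (keu k e u) L) := by
    ext x
    exact hM x x.2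
  have key : ∀ (Q : Polynomial (keu k e u)) (y : L),
      (Q.map (ι.comp (algebraMap (keu k e u) L))).eval (ι y) = ι (aeval y Q) := by
    intro Q y
    rw [eval_map, aeval_def, hom_eval₂]
  have keyσ : ∀ (Q : Polynomial (keu k e u)) (y : L),
      (Q.map (ι.comp (algebraMap (keu k e u) L))).eval (σ y) = σ (aeval y Q) := by
    intro Q y
    rw [← hσι, eval_map, aeval_def, hom_eval₂]
  have hnorm : ∀ {P : Polynomial Ω}, Coeffs (kM (k := k) ι e u) P → ∀ y : L,
      ‖P.eval (σ y)‖ = ‖P.eval (ι y)‖ := by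
    intro P hP y
    obtain ⟨Q, rfl⟩ := z3_lift hP
    rw [key, keyσ, hσ, hι]
  have ha1 : ‖a‖ ≤ 1 := by
    have h1 : a = ι α - (ι α - a) := by ring
    rw [h1]
    refine (z3_sub_le _ _).trans (max_le ?_ h.near.le)
    rw [hι, h.norm_α]
  have halg : IsAlgebraic (kM (k := k) ι e u) a := z3_isAlgebraic h.coeffs h.monic h.root
  ext x
  by_contra hne
  have hε : 0 < ‖σ x - ι x‖ := norm_pos_iff.2 (sub_ne_zero.2 hne)
  obtain ⟨g, hg, hgx⟩ := h.dense.2 (ι x) (h.emb.mem x) _ hε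
  obtain ⟨P, hP, hgP⟩ := z3_adj_poly halg hg
  have hcont := Metric.continuousAt_iff.1 (P.continuous.continuousAt (x := a)) _ hε
  obtain ⟨δ, hδ, hcont⟩ := hcont
  obtain ⟨α', hα'⟩ := h.emb.dense a h.mem (min δ 1) (lt_min hδ one_pos)
  rw [norm_sub_rev] at hα'
  have h1 : ‖ι α' - a‖ < 1 := hα'.trans_le (min_le_right _ _)
  have h2 : ‖σ α' - σ α‖ < 1 := by
    rw [← map_sub, hσ, ← hι, map_sub]
    have h3 : ι α' - ι α = (ι α' - a) - (ι α - a) := by ring
    rw [h3]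
    exact (z3_sub_le _ _).trans_lt (max_lt h1 h.near)
  have h4 : ‖σ α' - a‖ < 1 := by
    have h3 : σ α' - a = (σ α' - σ α) + ((σ α - ι α) + (ι α - a)) := by ring
    rw [h3]
    refine (IsUltrametricDist.norm_add_le_max _ _).trans_lt (max_lt h2 ?_)
    exact (IsUltrametricDist.norm_add_le_max _ _).trans_lt (max_lt hα h.near)
  have h5 : ‖σ α' - a‖ < min δ 1 := by
    rw [← norm_eval_eq h.norm_f ha1 h.root h.deriv h4, hnorm h.coeffs,
      norm_eval_eq h.norm_f ha1 h.root h.deriv h1]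
    exact hα'
  have h6 : ‖P.eval (σ α') - P.eval a‖ < ‖σ x - ι x‖ := by
    have h7 := hcont (x := σ α') (by rw [dist_eq_norm]; exact h5.trans_le (min_le_left _ _))
    rwa [dist_eq_norm] at h7
  have h7 : ‖P.eval (ι α') - P.eval a‖ < ‖σ x - ι x‖ := by
    have h7 := hcont (x := ι α') (by rw [dist_eq_norm]; exact hα'.trans_le (min_le_left _ _))
    rwa [dist_eq_norm] at h7
  obtain ⟨Q, hQ⟩ := z3_lift hP
  have h8 : P.eval (ι α') = ι (aeval α' Q) := by rw [← hQ, key]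
  have h9 : P.eval (σ α') = σ (aeval α' Q) := by rw [← hQ, keyσ]
  have h10 : ‖ι x - ι (aeval α' Q)‖ < ‖σ x - ι x‖ := by
    have h3 : ι x - ι (aeval α' Q) = (ι x - g) - (P.eval (ι α') - P.eval a) := by
      rw [← h8, hgP]
      ring
    rw [h3]
    exact (z3_sub_le _ _).trans_lt (max_lt hgx h7)
  have h11 : ‖σ x - σ (aeval α' Q)‖ < ‖σ x - ι x‖ := by
    rw [← map_sub, hσ, ← hι, map_sub]
    exact h10
  have h12 : ‖σ x - ι x‖ < ‖σ x - ι x‖ := by
    have h3 : σ x - ι x = (σ x - σ (aeval α' Q)) + ((P.eval (σ α') - P.eval a) -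
        ((P.eval (ι α') - P.eval a) + (ι x - ι (aeval α' Q)))) := by
      rw [h8, h9]
      ring
    calc ‖σ x - ι x‖ = ‖(σ x - σ (aeval α' Q)) + ((P.eval (σ α') - P.eval a) -
        ((P.eval (ι α') - P.eval a) + (ι x - ι (aeval α' Q))))‖ := by rw [← h3]
      _ < ‖σ x - ι x‖ := by
        refine (IsUltrametricDist.norm_add_le_max _ _).trans_lt (max_lt h11 ?_)
        refine (z3_sub_le _ _).trans_lt (max_lt h6 ?_)
        exact (IsUltrametricDist.norm_add_le_max _ _).trans_lt (max_lt h7 h10)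
  exact lt_irrefl _ h12

end CS
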