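import Pool.Agent.Lib.CS.Defs
import Pool.Agent.Lib.MP_1a953e_ag.EmbDefs

/-!
# Points of transcendence defect zero: data
-/

open Polynomial MP1a953e IsLocalRing DA

namespace CS

/-- Data for a point of transcendence defect zero: `(e, u)` is an Abhyankar basis, `L` is separable over
`M = k(e, u)`, the value group of `L` is generated by those of `k` and the values of the `e i`, and the completion `K` of
`L` (in `Ω`) is the completion of `M(a)`, where `a` is a root of a monic polynomial `f` over `M` with coefficients of norm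
`≤ 1` and `‖f' a‖ = 1`; `α ∈ L` is near `a`. -/
structure ZD (k : Type) {L Ω : Type} [NormedField k] [IsUltrametricDist k] [NormedField L]
    [IsUltrametricDist L] [NormedAlgebra k L] [NormedField Ω] (ι : L →+* Ω) (K : Subfield Ω)
    {r m : ℕ} (e : Fin r → L) (u : Fin m → L) (α : L) (a : Ω) (f : Polynomial Ω) : Prop where
  emb : Emb ι K
  eu : EU k e u
  sep : Algebra.IsSeparable (keu k e u) L
  val : ∀ x : L, x ≠ 0 → ∃ (z : Fin r → ℤ) (c : k), c ≠ 0 ∧ ‖x‖ = ‖DA.mon k e z c‖
  norm_α : ‖α‖ = 1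
  mem : a ∈ K
  near : ‖ι α - a‖ < 1
  coeffs : Coeffs (kM (k := k) ι e u) f
  monic : f.Monic
  norm_f : ∀ i, ‖f.coeff i‖ ≤ 1
  root : f.eval a = 0
  deriv : ‖f.derivative.eval a‖ = 1
  dense : DenseIn (adj (kM (k := k) ι e u) a) K

/-- Fractions of the elements of `O(M)[α]`, `M = k(e, u)` -/
def FrO (k : Type) {L : Type} [NormedField k] [IsUltrametricDist k] [NormedField L]
    [IsUltrametricDist L] [NormedAlgebra k L] {r m : ℕ} (e : Fin r → L) (u : Fin m → L)
    (α : L) (x : L) : Prop :=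
  ∃ P Q : Polynomial (keu k e u), (∀ i, ‖((P.coeff i : keu k e u) : L)‖ ≤ 1) ∧
    (∀ i, ‖((Q.coeff i : keu k e u) : L)‖ ≤ 1) ∧ ‖aeval α Q‖ = 1 ∧ x = aeval α P / aeval α Q

end CS
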